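import Mathlib

/-!
# MP_cd27db_pr: definitions used in the statement

Stationary Markov chains `(ξ n)_{n ∈ ℤ}`, the Markov operator on `L²(π)`, and the operator
`√(I - T) = I - ∑_{n ≥ 1} δ_n T^n`, where `√(1 - x) = 1 - ∑_{n ≥ 1} δ_n x^n`.
-/

open MeasureTheory ProbabilityTheory

namespace Pool.MP_cd27db_pr

/-- The coefficients `δ_n` (`n ≥ 1`) of `√(1 - x) = 1 - ∑_{n ≥ 1} δ_n x^n`:
`δ_n = (2n choose n) / ((2n - 1) 4^n)`. -/
noncomputable def sqrtCoeff (n : ℕ) : ℝ :=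
  (Nat.centralBinom n : ℝ) / ((2 * (n : ℝ) - 1) * 4 ^ n)

/-- `√(I - T) := I - ∑_{n ≥ 1} δ_n T^n` (series in operator norm), for a bounded operator `T`. -/
noncomputable def sqrtOneSub {H : Type*} [NormedAddCommGroup H] [InnerProductSpace ℝ H]
    (T : H →L[ℝ] H) : H →L[ℝ] H :=
  1 - ∑' n : ℕ, sqrtCoeff (n + 1) • T ^ (n + 1)

/-- `(ξ n)_{n ∈ ℤ}` is a stationary Markov chain on `(Ω, P)` with values in `S` and transition
kernel (regular conditional distribution) `κ`: the process is measurable and (strictly)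
stationary, and the conditional probability of `ξ (n+1) ∈ A` given the whole past
`σ(ξ k, k ≤ n)` is `κ (ξ n) A`. -/
structure IsStationaryMarkovChain {Ω S : Type*} [MeasurableSpace Ω] [MeasurableSpace S]
    (P : Measure Ω) (ξ : ℤ → Ω → S) (κ : Kernel S S) : Prop where
  measurable : ∀ n, Measurable (ξ n)
  stationary : P.map (fun ω (n : ℤ) => ξ (n + 1) ω) = P.map (fun ω (n : ℤ) => ξ n ω)
  markov : ∀ (n : ℤ) (A : Set S), MeasurableSet A →
    P[(ξ (n + 1) ⁻¹' A).indicator (fun _ => (1 : ℝ)) |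
        ⨆ (k : ℤ) (_ : k ≤ n), MeasurableSpace.comap (ξ k) inferInstance]
      =ᵐ[P] fun ω => (κ (ξ n ω)).real A

/-- The bounded operator `Q` of `L²(π)` is the Markov operator of the kernel `κ`:
`(Q φ)(x) = ∫ φ(y) κ(x, dy)` for `π`-almost every `x`. -/
def IsMarkovOperator {S : Type*} [MeasurableSpace S] (κ : Kernel S S) (π : Measure S)
    (Q : Lp ℝ 2 π →L[ℝ] Lp ℝ 2 π) : Prop :=
  ∀ φ : Lp ℝ 2 π, (Q φ : S → ℝ) =ᵐ[π] fun x => ∫ y, (φ : S → ℝ) y ∂(κ x)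

/-- The chain is ergodic: the only `φ ∈ L²(π)` with `Q φ = φ` are the constants. -/
def IsErgodicOperator {S : Type*} [MeasurableSpace S] {π : Measure S}
    (Q : Lp ℝ 2 π →L[ℝ] Lp ℝ 2 π) : Prop :=
  ∀ φ : Lp ℝ 2 π, Q φ = φ → ∃ c : ℝ, (φ : S → ℝ) =ᵐ[π] fun _ => c

end Pool.MP_cd27db_pr
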