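import Pool.Agent.W_MP_cd27db_pr.Chain3

/-!
# The central limit theorem under two-sided square root conditions
-/

open MeasureTheory ProbabilityTheory Filter Topology
open scoped ENNReal NNReal

namespace Pool.MP_cd27db_pr

open Operators

theorem main {Ω S : Type*} [MeasurableSpace Ω] [MeasurableSpace S] (P : Measure Ω)
    [IsProbabilityMeasure P] (ξ : ℤ → Ω → S) (κ : Kernel S S) [IsMarkovKernel κ]
    (hξ : IsStationaryMarkovChain P ξ κ)
    (Q : Lp ℝ 2 (P.map (ξ 0)) →L[ℝ] Lp ℝ 2 (P.map (ξ 0)))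
    (hQ : IsMarkovOperator κ (P.map (ξ 0)) Q) (herg : IsErgodicOperator Q)
    (f : S → ℝ) (hf : MemLp f 2 (P.map (ξ 0)))
    (hrange : ∃ g, sqrtOneSub Q g = hf.toLp f)
    (hrange' : ∃ h, sqrtOneSub (ContinuousLinearMap.adjoint Q) h = hf.toLp f) :
    ∃ σ2 : ℝ≥0,
      Tendsto (fun n : ℕ => (∫ ω, (∑ i ∈ Finset.Icc 1 n, f (ξ (i : ℤ) ω)) ^ 2 ∂P) / n) atTop
        (𝓝 (σ2 : ℝ)) ∧
      TendstoInDistribution
        (fun (n : ℕ) ω => (∑ i ∈ Finset.Icc 1 n, f (ξ (i : ℤ) ω)) / √n) atTop (id : ℝ → ℝ)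
        (fun _ => P) (gaussianReal 0 σ2) := by
  set φ : Lp ℝ 2 (P.map (ξ 0)) := hf.toLp f with hφ
  have h := sframe_of_chain hξ hQ herg φ hrange hrange'
  obtain ⟨σ2, hσ⟩ : ∃ σ2 : ℝ≥0, Tendsto (SFrame.vv P (obs ξ φ)) atTop (𝓝 (σ2 : ℝ)) := by
    obtain ⟨σ, hσ0, hσ⟩ := h.exists_sigma
    exact ⟨⟨σ, hσ0⟩, hσ⟩
  have hσ0 : 0 ≤ (σ2 : ℝ) := σ2.2
  -- identification of the partial sums
  have h1 : ∀ᵐ ω ∂P, ∀ i : ℕ, (φ : S → ℝ) (ξ (i : ℤ) ω) = f (ξ (i : ℤ) ω) := by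
    rw [ae_all_iff]
    exact fun i => ae_comp hξ hf.coeFn_toLp (i : ℤ)
  have hsum : ∀ᵐ ω ∂P, ∀ n : ℕ, ∑ i ∈ Finset.Icc 1 n, f (ξ (i : ℤ) ω) = bS (obs ξ φ) 0 n ω := by
    filter_upwards [h1] with ω hω n
    have e1 : ∑ i ∈ Finset.Icc 1 n, f (ξ (i : ℤ) ω) =
        ∑ i ∈ Finset.range n, f (ξ ((i + 1 : ℕ) : ℤ) ω) := by
      rw [Finset.range_eq_Ico, Finset.sum_Ico_add' (fun k : ℕ => f (ξ (k : ℤ) ω)) 0 n 1]
      rfl
    rw [e1]
    unfold bS obs
    apply Finset.sum_congr rfl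
    intro i _
    rw [← hω (i + 1)]
    congr 2
    push_cast; ring
  have hmeas : ∀ n : ℕ, AEMeasurable
      (fun ω => (∑ i ∈ Finset.Icc 1 n, f (ξ (i : ℤ) ω)) / √n) P := by
    intro n
    have h2 : AEMeasurable (fun ω => bS (obs ξ φ) 0 n ω / √n) P :=
      ((measurable_bS hξ φ n 0).div_const _).aemeasurable
    refine h2.congr ?_
    filter_upwards [hsum] with ω hω
    rw [hω n]
  refine ⟨σ2, ?_, { forall_aemeasurable := hmeas,
                          aemeasurable_limit := aemeasurable_id, tendsto := ?_ }⟩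
  · have h2 := tendsto_variance h hσ0 hσ
    refine h2.congr fun n => ?_
    congr 1
    apply integral_congr_ae
    filter_upwards [hsum] with ω hω
    rw [hω n]
  · refine ProbabilityMeasure.tendsto_iff_tendsto_charFun.2 fun t => ?_
    have h3 := tendsto_charFun h hσ0 hσ t
    have e1 : ∀ n : ℕ, charFun (P.map (fun ω => (∑ i ∈ Finset.Icc 1 n, f (ξ (i : ℤ) ω)) / √n)) t =
        ∫ ω, Complex.exp ((t / √n * bS (obs ξ φ) 0 n ω : ℝ) * Complex.I) ∂P := by
      intro n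
      have e2 : P.map (fun ω => (∑ i ∈ Finset.Icc 1 n, f (ξ (i : ℤ) ω)) / √n) =
          P.map (fun ω => bS (obs ξ φ) 0 n ω / √n) := by
        apply Measure.map_congr
        filter_upwards [hsum] with ω hω
        rw [hω n]
      rw [e2, charFun_apply_real, integral_map
        ((measurable_bS hξ φ n 0).div_const _).aemeasurable (by fun_prop)]
      congr 1
      ext ω
      congr 1
      push_cast
      ring
    have e3 : charFun ((gaussianReal 0 σ2).map id) t =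
        Complex.exp ((-(t ^ 2 * (σ2 : ℝ) / 2) : ℝ) : ℂ) := by
      rw [Measure.map_id, charFun_gaussianReal]
      congr 1
      push_cast
      simp
      ring
    show Tendsto (fun n : ℕ => charFun (P.map (fun ω =>
      (∑ i ∈ Finset.Icc 1 n, f (ξ (i : ℤ) ω)) / √n)) t) atTop
      (𝓝 (charFun ((gaussianReal 0 σ2).map id) t))
    rw [e3]
    exact h3.congr fun n => (e1 n).symm

end Pool.MP_cd27db_pr
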