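import Mathlib

/-!
# Bounded measurable functions and conditional expectations: small toolbox
-/

open MeasureTheory ProbabilityTheory Filter Topology
open scoped ENNReal NNReal

namespace Pool.MP_cd27db_pr

variable {Ω : Type*} {m0 : MeasurableSpace Ω} {P : Measure Ω}

/-- `f` is strongly measurable w.r.t. `m` and almost everywhere bounded. -/
structure Bdd (P : Measure Ω) (m : MeasurableSpace Ω) (f : Ω → ℝ) : Prop where
  sm : StronglyMeasurable[m] f
  bound : ∃ C : ℝ, ∀ᵐ ω ∂P, |f ω| ≤ C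

namespace Bdd

variable {m m' : MeasurableSpace Ω} {f g : Ω → ℝ}

lemma bound_nonneg (h : Bdd P m f) : ∃ C : ℝ, 0 ≤ C ∧ ∀ᵐ ω ∂P, |f ω| ≤ C := by
  obtain ⟨C, hC⟩ := h.bound
  refine ⟨max C 0, le_max_right _ _, ?_⟩
  filter_upwards [hC] with ω hω using hω.trans (le_max_left _ _)

lemma up (h : Bdd P m f) (hm : m ≤ m') : Bdd P m' f := ⟨h.sm.mono hm, h.bound⟩

lemma add (hf : Bdd P m f) (hg : Bdd P m g) : Bdd P m (fun ω => f ω + g ω) := by
  obtain ⟨C, hC⟩ := hf.bound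
  obtain ⟨D, hD⟩ := hg.bound
  refine ⟨hf.sm.add hg.sm, C + D, ?_⟩
  filter_upwards [hC, hD] with ω h1 h2 using (abs_add_le _ _).trans (add_le_add h1 h2)

lemma neg (hf : Bdd P m f) : Bdd P m (fun ω => - f ω) := by
  obtain ⟨C, hC⟩ := hf.bound
  refine ⟨hf.sm.neg, C, ?_⟩
  filter_upwards [hC] with ω h1
  rwa [abs_neg]

lemma sub (hf : Bdd P m f) (hg : Bdd P m g) : Bdd P m (fun ω => f ω - g ω) := by
  simpa [sub_eq_add_neg] using hf.add hg.neg

lemma mul (hf : Bdd P m f) (hg : Bdd P m g) : Bdd P m (fun ω => f ω * g ω) := by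
  obtain ⟨C, hC0, hC⟩ := hf.bound_nonneg
  obtain ⟨D, hD⟩ := hg.bound
  refine ⟨hf.sm.mul hg.sm, C * D, ?_⟩
  filter_upwards [hC, hD] with ω h1 h2
  rw [abs_mul]
  exact mul_le_mul h1 h2 (abs_nonneg _) hC0

lemma pow (hf : Bdd P m f) (n : ℕ) : Bdd P m (fun ω => f ω ^ n) := by
  obtain ⟨C, hC⟩ := hf.bound
  refine ⟨hf.sm.pow n, C ^ n, ?_⟩
  filter_upwards [hC] with ω h1
  rw [abs_pow]
  exact pow_le_pow_left₀ (abs_nonneg _) h1 n

lemma const_mul (hf : Bdd P m f) (c : ℝ) : Bdd P m (fun ω => c * f ω) := by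
  obtain ⟨C, hC⟩ := hf.bound
  refine ⟨hf.sm.const_mul c, |c| * C, ?_⟩
  filter_upwards [hC] with ω h1
  rw [abs_mul]
  exact mul_le_mul_of_nonneg_left h1 (abs_nonneg _)

lemma const (c : ℝ) : Bdd P m (fun _ : Ω => c) :=
  ⟨stronglyMeasurable_const, |c|, by simp⟩

lemma integrable [IsFiniteMeasure P] (hf : Bdd P m f) (hm : m ≤ m0) : Integrable f P := by
  obtain ⟨C, hC⟩ := hf.bound
  exact Integrable.of_bound (hf.sm.mono hm).aestronglyMeasurable C hC

lemma memLp [IsFiniteMeasure P] (hf : Bdd P m f) (hm : m ≤ m0) (p : ℝ≥0∞) : MemLp f p P := by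
  obtain ⟨C, hC⟩ := hf.bound
  exact MemLp.of_bound (hf.sm.mono hm).aestronglyMeasurable C hC

lemma condExp (hf : Bdd P m' f) (m : MeasurableSpace Ω) :
    Bdd P m (P[f | m]) := by
  obtain ⟨C, hC0, hC⟩ := hf.bound_nonneg
  refine ⟨stronglyMeasurable_condExp, C, ?_⟩
  exact ae_bdd_abs_condExp_of_ae_bdd_abs hC

lemma indicator (s : Set Ω) (hs : MeasurableSet[m] s) :
    Bdd P m (s.indicator (fun _ => (1 : ℝ))) := by
  refine ⟨stronglyMeasurable_const.indicator hs, 1, ?_⟩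
  filter_upwards with ω
  by_cases h : ω ∈ s <;> simp [h]

end Bdd

section FunForms

variable {f g : Ω → ℝ}

lemma iadd (hf : Integrable f P) (hg : Integrable g P) : Integrable (fun ω => f ω + g ω) P :=
  hf.add hg

lemma isub (hf : Integrable f P) (hg : Integrable g P) : Integrable (fun ω => f ω - g ω) P :=
  hf.sub hg

lemma icm (c : ℝ) (hf : Integrable f P) : Integrable (fun ω => c * f ω) P := hf.const_mul c

lemma E_add (hf : Integrable f P) (hg : Integrable g P) :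
    ∫ ω, f ω + g ω ∂P = ∫ ω, f ω ∂P + ∫ ω, g ω ∂P := integral_add hf hg

lemma E_sub (hf : Integrable f P) (hg : Integrable g P) :
    ∫ ω, f ω - g ω ∂P = ∫ ω, f ω ∂P - ∫ ω, g ω ∂P := integral_sub hf hg

end FunForms

variable [IsProbabilityMeasure P] {m m' : MeasurableSpace Ω}

/-- `E[Z Y] = E[Z E[Y|m]]` for `m`-measurable `Z`. -/
lemma E_mul_condExp (hm : m ≤ m0) {Z Y : Ω → ℝ} (hZ : StronglyMeasurable[m] Z)
    (hY : Integrable Y P) (hZY : Integrable (fun ω => Z ω * Y ω) P) :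
    ∫ ω, Z ω * Y ω ∂P = ∫ ω, Z ω * (P[Y | m]) ω ∂P := by
  rw [← integral_condExp hm (f := fun ω => Z ω * Y ω)]
  exact integral_congr_ae (condExp_mul_of_stronglyMeasurable_left hZ hZY hY)

lemma integral_mul_eq_zero (hm : m ≤ m0) {Z Y : Ω → ℝ} (hZ : StronglyMeasurable[m] Z)
    (hY : Integrable Y P) (hZY : Integrable (fun ω => Z ω * Y ω) P) (h0 : P[Y | m] =ᵐ[P] 0) :
    ∫ ω, Z ω * Y ω ∂P = 0 := by
  rw [E_mul_condExp hm hZ hY hZY]
  have : (fun ω => Z ω * (P[Y | m]) ω) =ᵐ[P] fun _ => 0 := by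
    filter_upwards [h0] with ω hω
    rw [hω]; simp
  rw [integral_congr_ae this]; simp

/-- A criterion for equality of conditional expectation. -/
lemma condExp_eq_of_integral_mul (hm : m ≤ m0) {f g : Ω → ℝ} (hf : Integrable f P)
    (hg : Integrable g P) (hgm : StronglyMeasurable[m] g)
    (h : ∀ s, MeasurableSet[m] s → ∫ ω, s.indicator (fun _ => (1 : ℝ)) ω * f ω ∂P =
      ∫ ω, s.indicator (fun _ => (1 : ℝ)) ω * g ω ∂P) :
    P[f | m] =ᵐ[P] g := by
  symm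
  refine ae_eq_condExp_of_forall_setIntegral_eq hm hf (fun s _ _ => hg.integrableOn) ?_
    hgm.aestronglyMeasurable
  intro s hs _
  have h1 : ∀ u : Ω → ℝ, ∫ ω in s, u ω ∂P = ∫ ω, s.indicator (fun _ => (1 : ℝ)) ω * u ω ∂P := by
    intro u
    rw [← integral_indicator (hm s hs)]
    congr 1
    ext ω
    by_cases hω : ω ∈ s <;> simp [hω]
  rw [h1, h1, h s hs]

/-- conditional Jensen for squares -/
lemma sq_condExp_le (hm : m ≤ m0) {f : Ω → ℝ} (hf : MemLp f 2 P) :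
    ∀ᵐ ω ∂P, (P[f | m]) ω ^ 2 ≤ (P[fun ω => f ω ^ 2 | m]) ω := by
  have h := ConvexOn.map_condExp_le_univ (φ := fun x : ℝ => x ^ 2) (μ := P) (f := f) hm
    (even_two.convexOn_pow) (by fun_prop : Continuous fun x : ℝ => x ^ 2).lowerSemicontinuous
    (hf.integrable one_le_two) hf.integrable_sq
  exact h

lemma integral_sq_condExp_le (hm : m ≤ m0) {f : Ω → ℝ} (hf : MemLp f 2 P) :
    ∫ ω, (P[f | m]) ω ^ 2 ∂P ≤ ∫ ω, f ω ^ 2 ∂P := by
  rw [← integral_condExp hm (f := fun ω => f ω ^ 2)]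
  exact integral_mono_ae (hf.condExp one_le_two).integrable_sq integrable_condExp
    (sq_condExp_le hm hf)

lemma integral_pow4_condExp_le (hm : m ≤ m0) {f : Ω → ℝ} (hf : Bdd P m0 f) :
    ∫ ω, (P[f | m]) ω ^ 4 ∂P ≤ ∫ ω, f ω ^ 4 ∂P := by
  rw [← integral_condExp hm (f := fun ω => f ω ^ 4)]
  have h := ConvexOn.map_condExp_le_univ (φ := fun x : ℝ => x ^ 4) (μ := P) (f := f) hm
    ((by decide : Even 4).convexOn_pow)
    (by fun_prop : Continuous fun x : ℝ => x ^ 4).lowerSemicontinuous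
    (hf.integrable le_rfl) ((hf.pow 4).integrable le_rfl)
  exact integral_mono_ae (((hf.condExp m).pow 4).integrable hm) integrable_condExp h

/-- Cauchy-Schwarz -/
lemma integral_mul_le_sqrt {f g : Ω → ℝ} (hf : MemLp f 2 P) (hg : MemLp g 2 P) :
    |∫ ω, f ω * g ω ∂P| ≤ √(∫ ω, f ω ^ 2 ∂P) * √(∫ ω, g ω ^ 2 ∂P) := by
  rw [← Real.sqrt_mul (integral_nonneg fun ω => sq_nonneg _)]
  apply Real.abs_le_sqrt
  set a := ∫ ω, f ω ^ 2 ∂P with ha
  set b := ∫ ω, g ω ^ 2 ∂P with hb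
  set c := ∫ ω, f ω * g ω ∂P with hc
  have hfi := hf.integrable_sq
  have hgi := hg.integrable_sq
  have hfg : Integrable (fun ω => f ω * g ω) P := hf.integrable_mul hg
  have key : ∀ t : ℝ, 0 ≤ a + 2 * t * c + t ^ 2 * b := by
    intro t
    have h1 : 0 ≤ ∫ ω, (f ω + t * g ω) ^ 2 ∂P := integral_nonneg fun ω => sq_nonneg _
    have h2 : ∫ ω, (f ω + t * g ω) ^ 2 ∂P = a + 2 * t * c + t ^ 2 * b := by
      have : (fun ω => (f ω + t * g ω) ^ 2) =
          fun ω => f ω ^ 2 + 2 * t * (f ω * g ω) + t ^ 2 * (g ω ^ 2) := by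
        ext ω; ring
      rw [this, E_add (iadd hfi (icm _ hfg)) (icm _ hgi), E_add hfi (icm _ hfg),
        integral_const_mul, integral_const_mul]
    linarith
  have ha0 : 0 ≤ a := integral_nonneg fun ω => sq_nonneg _
  have hb0 : 0 ≤ b := integral_nonneg fun ω => sq_nonneg _
  rcases hb0.eq_or_lt with hb' | hb'
  · -- b = 0
    rw [← hb'] at key ⊢
    by_contra hcon
    have hc0 : c ≠ 0 := by
      rintro h; rw [h] at hcon; apply hcon; simp
    have := key (-(a + 1) / (2 * c))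
    have h3 : 2 * (-(a + 1) / (2 * c)) * c = -(a + 1) := by field_simp
    rw [h3] at this
    linarith
  · have := key (-c / b)
    have h3 : a + 2 * (-c / b) * c + (-c / b) ^ 2 * b = a - c ^ 2 / b := by field_simp; ring
    rw [h3] at this
    have h4 : c ^ 2 / b ≤ a := by linarith
    rwa [div_le_iff₀ hb'] at h4

end Pool.MP_cd27db_pr
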