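import Pool.Agent.W_MP_cd27db_pr.Defs

/-!
# Quantitative comparison of the characteristic function of a sum of martingale differences
with a Gaussian characteristic function
-/

open MeasureTheory ProbabilityTheory Filter Topology

namespace Pool.MP_cd27db_pr

theorem norm_exp_taylor_one_nonneg {x : ℝ} (hx : 0 ≤ x) :
    ‖Complex.exp ((x : ℂ) * Complex.I) - 1 - (x : ℂ) * Complex.I‖ ≤ x ^ 2 / 2 := by
  have hd : ∀ y : ℝ, HasDerivAt (fun y : ℝ => Complex.exp ((y : ℂ) * Complex.I) - 1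
      - (y : ℂ) * Complex.I) (Complex.exp ((y : ℂ) * Complex.I) * (1 * Complex.I) - 0
        - 1 * Complex.I) y := by
    intro y
    have h1 : HasDerivAt (fun y : ℝ => (y : ℂ) * Complex.I) (1 * Complex.I) y :=
      (Complex.ofRealCLM.hasDerivAt (x := y)).mul_const Complex.I
    exact (h1.cexp.sub (hasDerivAt_const _ _)).sub h1
  refine image_norm_le_of_norm_deriv_right_le_deriv_boundary (a := 0) (b := x)
    (B := fun y => y ^ 2 / 2) (B' := fun y => y)
    (f := fun y : ℝ => Complex.exp ((y : ℂ) * Complex.I) - 1 - (y : ℂ) * Complex.I)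
    (fun y _ => (hd y).continuousAt.continuousWithinAt)
    (fun y _ => (hd y).hasDerivWithinAt) ?_ ?_ ?_ ⟨hx, le_rfl⟩
  · simp
  · intro y
    have := (hasDerivAt_pow 2 y).div_const 2
    simpa using this
  · intro y hy
    have h2 : Complex.exp ((y : ℂ) * Complex.I) * (1 * Complex.I) - 0 - 1 * Complex.I
        = (Complex.exp (Complex.I * (y : ℂ)) - 1) * Complex.I := by
      rw [mul_comm (Complex.I) (y : ℂ)]; ring
    rw [h2, norm_mul, Complex.norm_I, mul_one]
    refine (Real.norm_exp_I_mul_ofReal_sub_one_le).trans ?_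
    rw [Real.norm_eq_abs, abs_of_nonneg hy.1]

theorem norm_exp_taylor_two_nonneg {x : ℝ} (hx : 0 ≤ x) :
    ‖Complex.exp ((x : ℂ) * Complex.I) - 1 - (x : ℂ) * Complex.I + (x : ℂ) ^ 2 / 2‖
      ≤ x ^ 3 / 6 := by
  have hd : ∀ y : ℝ, HasDerivAt (fun y : ℝ => Complex.exp ((y : ℂ) * Complex.I) - 1
      - (y : ℂ) * Complex.I + (y : ℂ) ^ 2 / 2) (Complex.exp ((y : ℂ) * Complex.I) * (1 * Complex.I)
        - 0 - 1 * Complex.I + ((2 : ℕ) * (y : ℂ) ^ (2 - 1) * 1) / 2) y := by
    intro y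
    have h0 : HasDerivAt (fun y : ℝ => (y : ℂ)) 1 y := Complex.ofRealCLM.hasDerivAt (x := y)
    have h1 : HasDerivAt (fun y : ℝ => (y : ℂ) * Complex.I) (1 * Complex.I) y :=
      h0.mul_const Complex.I
    exact ((h1.cexp.sub (hasDerivAt_const _ _)).sub h1).add ((h0.pow 2).div_const 2)
  refine image_norm_le_of_norm_deriv_right_le_deriv_boundary (a := 0) (b := x)
    (B := fun y => y ^ 3 / 6) (B' := fun y => y ^ 2 / 2)
    (f := fun y : ℝ => Complex.exp ((y : ℂ) * Complex.I) - 1 - (y : ℂ) * Complex.I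
      + (y : ℂ) ^ 2 / 2)
    (fun y _ => (hd y).continuousAt.continuousWithinAt)
    (fun y _ => (hd y).hasDerivWithinAt) ?_ ?_ ?_ ⟨hx, le_rfl⟩
  · simp
  · intro y
    have h := (hasDerivAt_pow 3 y).div_const 6
    have e : ((3 : ℕ) : ℝ) * y ^ (3 - 1) / 6 = y ^ 2 / 2 := by norm_num; ring
    rwa [e] at h
  · intro y hy
    have h2 : Complex.exp ((y : ℂ) * Complex.I) * (1 * Complex.I) - 0 - 1 * Complex.I
        + ((2 : ℕ) * (y : ℂ) ^ (2 - 1) * 1) / 2
        = (Complex.exp ((y : ℂ) * Complex.I) - 1 - (y : ℂ) * Complex.I) * Complex.I := by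
      have : (Complex.I) * Complex.I = -1 := Complex.I_mul_I
      push_cast
      linear_combination (y : ℂ) * this
    rw [h2, norm_mul, Complex.norm_I, mul_one]
    exact norm_exp_taylor_one_nonneg hy.1

theorem exp_taylor_conj (x : ℝ) :
    (starRingEnd ℂ) (Complex.exp ((x : ℂ) * Complex.I)) =
      Complex.exp (((-x : ℝ) : ℂ) * Complex.I) := by
  rw [← Complex.exp_conj]; simp

theorem norm_exp_taylor_one (x : ℝ) :
    ‖Complex.exp ((x : ℂ) * Complex.I) - 1 - (x : ℂ) * Complex.I‖ ≤ x ^ 2 / 2 := by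
  rcases le_total 0 x with hx | hx
  · exact norm_exp_taylor_one_nonneg hx
  · have h := norm_exp_taylor_one_nonneg (x := -x) (by linarith)
    rw [← exp_taylor_conj, ← Complex.norm_conj] at h
    simp only [map_sub, map_mul, Complex.conj_conj, map_one, Complex.conj_ofReal,
      Complex.conj_I] at h
    have e : Complex.exp (↑x * Complex.I) - 1 - ((-x : ℝ) : ℂ) * -Complex.I
        = Complex.exp (↑x * Complex.I) - 1 - (x : ℂ) * Complex.I := by push_cast; ring
    rw [e] at h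
    linarith [h, neg_sq x]

theorem norm_exp_taylor_two (x : ℝ) :
    ‖Complex.exp ((x : ℂ) * Complex.I) - 1 - (x : ℂ) * Complex.I + (x : ℂ) ^ 2 / 2‖
      ≤ min (|x| ^ 3) (x ^ 2) := by
  refine le_min ?_ ?_
  · have key : ‖Complex.exp ((x : ℂ) * Complex.I) - 1 - (x : ℂ) * Complex.I + (x : ℂ) ^ 2 / 2‖
        ≤ |x| ^ 3 / 6 := by
      rcases le_total 0 x with hx | hx
      · rw [abs_of_nonneg hx]; exact norm_exp_taylor_two_nonneg hx
      · have h := norm_exp_taylor_two_nonneg (x := -x) (by linarith)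
        rw [← exp_taylor_conj, ← Complex.norm_conj] at h
        simp only [map_sub, map_add, map_mul, map_div₀, map_pow, Complex.conj_conj, map_one,
          Complex.conj_ofReal, Complex.conj_I] at h
        have e : Complex.exp (↑x * Complex.I) - 1 - ((-x : ℝ) : ℂ) * -Complex.I
            + ((-x : ℝ) : ℂ) ^ 2 / (starRingEnd ℂ) 2
            = Complex.exp (↑x * Complex.I) - 1 - (x : ℂ) * Complex.I + (x : ℂ) ^ 2 / 2 := by
          have : (starRingEnd ℂ) 2 = 2 := Complex.conj_ofNat 2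
          rw [this]; push_cast; ring
        rw [e] at h
        rwa [abs_of_nonpos hx]
    have h0 : 0 ≤ |x| ^ 3 := by positivity
    linarith
  · calc ‖Complex.exp ((x : ℂ) * Complex.I) - 1 - (x : ℂ) * Complex.I + (x : ℂ) ^ 2 / 2‖
        ≤ ‖Complex.exp ((x : ℂ) * Complex.I) - 1 - (x : ℂ) * Complex.I‖ + ‖(x : ℂ) ^ 2 / 2‖ :=
          norm_add_le _ _
      _ ≤ x ^ 2 / 2 + x ^ 2 / 2 := by
          refine add_le_add (norm_exp_taylor_one x) (le_of_eq ?_)
          rw [norm_div, norm_pow, Complex.norm_real, Real.norm_eq_abs, sq_abs]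
          simp
      _ = x ^ 2 := by ring

theorem abs_exp_neg_sub_le {u : ℝ} (hu : 0 ≤ u) : |Real.exp (-u) - (1 - u)| ≤ u ^ 2 / 2 := by
  have h1 : 1 - u ≤ Real.exp (-u) := Real.one_sub_le_exp_neg u
  rw [abs_of_nonneg (by linarith)]
  have h2 : Real.exp (-u) ≤ 1 - u + u ^ 2 / 2 := by
    have key : AntitoneOn (fun y : ℝ => Real.exp (-y) - (1 - y + y ^ 2 / 2)) (Set.Ici 0) := by
      apply antitoneOn_of_deriv_nonpos (convex_Ici 0)
      · fun_prop
      · fun_prop
      · intro y hy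
        have hd : HasDerivAt (fun y : ℝ => Real.exp (-y) - (1 - y + y ^ 2 / 2))
            (Real.exp (-y) * (-1) - ((0 - 1) + (2 : ℕ) * y ^ (2 - 1) / 2)) y :=
          ((hasDerivAt_neg y).exp).sub (((hasDerivAt_const y (1 : ℝ)).sub (hasDerivAt_id y)).add
            ((hasDerivAt_pow 2 y).div_const 2))
        rw [hd.deriv]
        have := Real.one_sub_le_exp_neg y
        push_cast
        simp only [pow_one]
        linarith
    have := key (Set.mem_Ici.2 le_rfl) (Set.mem_Ici.2 hu) hu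
    simp only [neg_zero, Real.exp_zero] at this
    linarith
  linarith

/-- Pull-out: `∫ g • f = ∫ E[g|m] • f` for a bounded `m`-measurable complex function `f`. -/
theorem integral_mul_condExp {Ω : Type*} {m m0 : MeasurableSpace Ω} (P : Measure Ω)
    [IsProbabilityMeasure P] (hm : m ≤ m0) {f : Ω → ℂ} {g : Ω → ℝ}
    (hf : StronglyMeasurable[m] f) (hb : ∀ ω, ‖f ω‖ ≤ 1) (hg : Integrable g P) :
    ∫ ω, (g ω : ℂ) * f ω ∂P = ∫ ω, ((P[g | m]) ω : ℂ) * f ω ∂P := by
  have hint : Integrable (fun ω => (g ω) • f ω) P := by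
    refine Integrable.mono' hg.norm
      (hg.aestronglyMeasurable.smul (hf.mono hm).aestronglyMeasurable) ?_
    refine ae_of_all _ fun ω => ?_
    rw [norm_smul]
    calc ‖g ω‖ * ‖f ω‖ ≤ ‖g ω‖ * 1 := by gcongr; exact hb ω
      _ = ‖g ω‖ := mul_one _
  have h := condExp_bilin_of_stronglyMeasurable_left (μ := P) (m := m)
    (ContinuousLinearMap.lsmul ℝ ℝ : ℝ →L[ℝ] ℂ →L[ℝ] ℂ).flip (f := f) (g := g) hf hint hg
  have h2 : ∫ ω, (g ω) • f ω ∂P = ∫ ω, ((P[g | m]) ω) • f ω ∂P := by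
    rw [← integral_condExp hm (f := fun ω => (g ω) • f ω)]
    exact integral_congr_ae h
  simpa only [Complex.real_smul] using h2

theorem norm_charFun_sub_le {Ω : Type*} {m0 : MeasurableSpace Ω} (P : Measure Ω)
    [IsProbabilityMeasure P] (K : ℕ) (G : ℕ → MeasurableSpace Ω) (hG : ∀ i, G i ≤ m0)
    (hmono : Monotone G) (d : ℕ → Ω → ℝ) (hd : ∀ i, MemLp (d i) 2 P)
    (hadapt : ∀ i, StronglyMeasurable[G (i + 1)] (d i)) (hmart : ∀ i, P[d i | G i] =ᵐ[P] 0)
    (θ v : ℝ) (hv : 0 ≤ v) :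
    ‖∫ ω, Complex.exp ((θ * ∑ i ∈ Finset.range K, d i ω : ℝ) * Complex.I) ∂P
        - Complex.exp ((-(K * (θ ^ 2 * v / 2)) : ℝ) : ℂ)‖
      ≤ ∑ i ∈ Finset.range K, ((θ ^ 2 / 2) * ∫ ω, |(P[fun ω => (d i ω) ^ 2 | G i]) ω - v| ∂P
          + ∫ ω, min (|θ * d i ω| ^ 3) ((θ * d i ω) ^ 2) ∂P + (θ ^ 2 * v) ^ 2 / 8) := by
  induction K with
  | zero => simp
  | succ K ih =>
    set u : ℝ := θ ^ 2 * v / 2 with hu
    have hu0 : 0 ≤ u := by positivity
    set f : Ω → ℂ := fun ω =>
      Complex.exp ((θ * ∑ i ∈ Finset.range K, d i ω : ℝ) * Complex.I) with hf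
    have hSm : ∀ k, StronglyMeasurable[G k] (fun ω => ∑ i ∈ Finset.range k, d i ω) := by
      intro k
      refine Finset.stronglyMeasurable_fun_sum _ fun i hi => ?_
      exact (hadapt i).mono (hmono (Finset.mem_range.1 hi))
    have hfm : StronglyMeasurable[G K] f := by
      have hc : Continuous fun s : ℝ => Complex.exp ((θ * s : ℝ) * Complex.I) := by fun_prop
      exact hc.comp_stronglyMeasurable (hSm K)
    have hfb : ∀ ω, ‖f ω‖ ≤ 1 := by
      intro ω
      rw [hf]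
      exact (Complex.norm_exp_ofReal_mul_I _).le
    have hfi : Integrable f P := by
      refine Integrable.mono' (integrable_const (1 : ℝ))
        (hfm.mono (hG K)).aestronglyMeasurable (ae_of_all _ hfb)
    -- the remainder
    set R : Ω → ℂ := fun ω => Complex.exp ((θ * d K ω : ℝ) * Complex.I) - 1
      - ((θ * d K ω : ℝ) : ℂ) * Complex.I + ((θ * d K ω : ℝ) : ℂ) ^ 2 / 2 with hR
    have hRb : ∀ ω, ‖R ω‖ ≤ min (|θ * d K ω| ^ 3) ((θ * d K ω) ^ 2) := fun ω =>
      norm_exp_taylor_two _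
    have hdm : AEStronglyMeasurable (d K) P := (hd K).1
    have hd1 : Integrable (d K) P := (hd K).integrable (by norm_num)
    have hd2 : Integrable (fun ω => (d K ω) ^ 2) P := (hd K).integrable_sq
    have hmin : Integrable (fun ω => min (|θ * d K ω| ^ 3) ((θ * d K ω) ^ 2)) P := by
      have h2 : Integrable (fun ω => (θ * d K ω) ^ 2) P := by
        have := hd2.const_mul (θ ^ 2)
        refine this.congr (ae_of_all _ fun ω => ?_)
        simp only; ring
      refine Integrable.mono' h2 ?_ ?_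
      · have hc : Continuous fun s : ℝ => min (|θ * s| ^ 3) ((θ * s) ^ 2) := by fun_prop
        exact hc.comp_aestronglyMeasurable hdm
      · refine ae_of_all _ fun ω => ?_
        rw [Real.norm_eq_abs, abs_of_nonneg (le_min (by positivity) (by positivity))]
        exact min_le_right _ _
    have hRm : AEStronglyMeasurable R P := by
      have hc : Continuous fun s : ℝ => Complex.exp ((θ * s : ℝ) * Complex.I) - 1
        - ((θ * s : ℝ) : ℂ) * Complex.I + ((θ * s : ℝ) : ℂ) ^ 2 / 2 := by fun_prop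
      exact hc.comp_aestronglyMeasurable hdm
    have hRi : Integrable R P := Integrable.mono' hmin hRm (ae_of_all _ hRb)
    have hRfi : Integrable (fun ω => R ω * f ω) P := by
      refine Integrable.mono' hmin (hRm.mul hfi.1) (ae_of_all _ fun ω => ?_)
      rw [norm_mul]
      calc ‖R ω‖ * ‖f ω‖ ≤ ‖R ω‖ * 1 := by gcongr; exact hfb ω
        _ ≤ _ := by rw [mul_one]; exact hRb ω
    have hdfi : Integrable (fun ω => ((d K ω : ℝ) : ℂ) * f ω) P := by
      refine Integrable.mono' hd1.norm ((Complex.continuous_ofReal.comp_aestronglyMeasurable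
        hdm).mul hfi.1) (ae_of_all _ fun ω => ?_)
      rw [norm_mul, Complex.norm_real]
      calc ‖d K ω‖ * ‖f ω‖ ≤ ‖d K ω‖ * 1 := by gcongr; exact hfb ω
        _ = _ := mul_one _
    have hgi : Integrable (fun ω => (d K ω) ^ 2 - v) P := hd2.sub (integrable_const v)
    have hgfi : Integrable (fun ω => (((d K ω) ^ 2 - v : ℝ) : ℂ) * f ω) P := by
      refine Integrable.mono' hgi.norm ((Complex.continuous_ofReal.comp_aestronglyMeasurable
        hgi.1).mul hfi.1) (ae_of_all _ fun ω => ?_)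
      rw [norm_mul, Complex.norm_real]
      calc ‖(d K ω) ^ 2 - v‖ * ‖f ω‖ ≤ ‖(d K ω) ^ 2 - v‖ * 1 := by gcongr; exact hfb ω
        _ = _ := mul_one _
    have hsplit : ∀ ω, Complex.exp ((θ * ∑ i ∈ Finset.range (K + 1), d i ω : ℝ) * Complex.I)
        = (Real.exp (-u) : ℂ) * f ω + (((1 - u - Real.exp (-u) : ℝ) : ℂ) * f ω
          + (((θ : ℂ) * Complex.I) * (((d K ω : ℝ) : ℂ) * f ω)
          + ((-(θ : ℂ) ^ 2 / 2) * ((((d K ω) ^ 2 - v : ℝ) : ℂ) * f ω) + R ω * f ω))) := by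
      intro ω
      have e1 : Complex.exp ((θ * ∑ i ∈ Finset.range (K + 1), d i ω : ℝ) * Complex.I)
          = Complex.exp ((θ * d K ω : ℝ) * Complex.I) * f ω := by
        rw [hf, Finset.sum_range_succ]
        simp only
        rw [← Complex.exp_add]
        congr 1
        push_cast; ring
      rw [e1, hR, hu]
      simp only
      push_cast
      ring
    have hI1 : ∫ ω, ((d K ω : ℝ) : ℂ) * f ω ∂P = 0 := by
      rw [integral_mul_condExp P (hG K) hfm hfb hd1]
      have : ∫ ω, ((P[d K | G K]) ω : ℂ) * f ω ∂P = ∫ ω, (0 : ℂ) ∂P := by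
        refine integral_congr_ae ?_
        filter_upwards [hmart K] with ω hω
        rw [hω]; simp
      rw [this, integral_zero]
    have hI2 : ‖∫ ω, (((d K ω) ^ 2 - v : ℝ) : ℂ) * f ω ∂P‖
        ≤ ∫ ω, |(P[fun ω => (d K ω) ^ 2 | G K]) ω - v| ∂P := by
      rw [integral_mul_condExp P (hG K) hfm hfb hgi]
      refine (norm_integral_le_integral_norm _).trans ?_
      refine integral_mono_ae ?_ ?_ ?_
      · refine (Integrable.mono' (integrable_condExp (m := G K)
          (f := fun ω => (d K ω) ^ 2 - v) (μ := P)).norm ?_ (ae_of_all _ fun ω => ?_)).norm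
        · exact (Complex.continuous_ofReal.comp_aestronglyMeasurable
            integrable_condExp.1).mul hfi.1
        · rw [norm_mul, Complex.norm_real]
          calc _ ≤ ‖(P[fun ω => (d K ω) ^ 2 - v | G K]) ω‖ * 1 := by gcongr; exact hfb ω
            _ = _ := mul_one _
      · exact ((integrable_condExp).sub (integrable_const v)).abs
      · have hc : P[fun ω => (d K ω) ^ 2 - v | G K] =ᵐ[P]
            fun ω => (P[fun ω => (d K ω) ^ 2 | G K]) ω - v := by
          have h1 := condExp_sub hd2 (integrable_const (μ := P) v) (G K)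
          have h2 : P[fun _ : Ω => v | G K] = fun _ => v := condExp_const (hG K) v
          filter_upwards [h1] with ω hω
          have : (P[fun ω => (d K ω) ^ 2 - v | G K]) ω
            = (P[(fun ω => (d K ω) ^ 2) - (fun _ : Ω => v) | G K]) ω := rfl
          rw [this, hω, Pi.sub_apply, h2]
        filter_upwards [hc] with ω hω
        rw [norm_mul, Complex.norm_real, hω, Real.norm_eq_abs]
        calc _ ≤ |(P[fun ω => (d K ω) ^ 2 | G K]) ω - v| * 1 := by gcongr; exact hfb ω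
          _ = _ := mul_one _
    have hI3 : ‖∫ ω, R ω * f ω ∂P‖ ≤ ∫ ω, min (|θ * d K ω| ^ 3) ((θ * d K ω) ^ 2) ∂P := by
      refine (norm_integral_le_integral_norm _).trans ?_
      refine integral_mono_ae hRfi.norm hmin (ae_of_all _ fun ω => ?_)
      simp only
      rw [norm_mul]
      calc ‖R ω‖ * ‖f ω‖ ≤ ‖R ω‖ * 1 := by gcongr; exact hfb ω
        _ ≤ _ := by rw [mul_one]; exact hRb ω
    have hIf : ‖∫ ω, f ω ∂P‖ ≤ 1 := by
      refine (norm_integral_le_integral_norm _).trans ?_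
      calc ∫ ω, ‖f ω‖ ∂P ≤ ∫ _, (1 : ℝ) ∂P :=
            integral_mono_ae hfi.norm (integrable_const _) (ae_of_all _ hfb)
        _ = 1 := by simp
    have htot : ∫ ω, Complex.exp ((θ * ∑ i ∈ Finset.range (K + 1), d i ω : ℝ) * Complex.I) ∂P
        = (Real.exp (-u) : ℂ) * ∫ ω, f ω ∂P + (((1 - u - Real.exp (-u) : ℝ) : ℂ) * ∫ ω, f ω ∂P
          + ((-(θ : ℂ) ^ 2 / 2) * (∫ ω, (((d K ω) ^ 2 - v : ℝ) : ℂ) * f ω ∂P)
            + ∫ ω, R ω * f ω ∂P)) := by
      rw [integral_congr_ae (ae_of_all _ hsplit)]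
      have i1 : Integrable (fun ω => (-(θ : ℂ) ^ 2 / 2) * ((((d K ω) ^ 2 - v : ℝ) : ℂ) * f ω)
          + R ω * f ω) P := (hgfi.const_mul _).add hRfi
      have i2 : Integrable (fun ω => ((θ : ℂ) * Complex.I) * (((d K ω : ℝ) : ℂ) * f ω)
          + ((-(θ : ℂ) ^ 2 / 2) * ((((d K ω) ^ 2 - v : ℝ) : ℂ) * f ω) + R ω * f ω)) P :=
        (hdfi.const_mul _).add i1
      have i3 : Integrable (fun ω => ((1 - u - Real.exp (-u) : ℝ) : ℂ) * f ω
          + (((θ : ℂ) * Complex.I) * (((d K ω : ℝ) : ℂ) * f ω)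
          + ((-(θ : ℂ) ^ 2 / 2) * ((((d K ω) ^ 2 - v : ℝ) : ℂ) * f ω) + R ω * f ω))) P :=
        (hfi.const_mul _).add i2
      rw [integral_add (hfi.const_mul _) i3, integral_add (hfi.const_mul _) i2,
        integral_add (hdfi.const_mul _) i1, integral_add (hgfi.const_mul _) hRfi]
      simp only [integral_const_mul]
      rw [hI1]
      ring
    have hexp : Complex.exp ((-(((K + 1 : ℕ) : ℝ) * u) : ℝ) : ℂ)
        = (Real.exp (-u) : ℂ) * Complex.exp ((-((K : ℝ) * u) : ℝ) : ℂ) := by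
      rw [Complex.ofReal_exp, ← Complex.exp_add]
      congr 1
      push_cast; ring
    rw [htot, hexp, Finset.sum_range_succ]
    set A : ℂ := ∫ ω, f ω ∂P with hA
    set E : ℂ := Complex.exp ((-((K : ℝ) * u) : ℝ) : ℂ) with hE
    set X : ℂ := ∫ ω, (((d K ω) ^ 2 - v : ℝ) : ℂ) * f ω ∂P with hX
    set Y : ℂ := ∫ ω, R ω * f ω ∂P with hY
    have e2 : (Real.exp (-u) : ℂ) * A + (((1 - u - Real.exp (-u) : ℝ) : ℂ) * A
          + ((-(θ : ℂ) ^ 2 / 2) * X + Y)) - (Real.exp (-u) : ℂ) * E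
        = (Real.exp (-u) : ℂ) * (A - E) + ((1 - u - Real.exp (-u) : ℝ) : ℂ) * A
          + (-(θ : ℂ) ^ 2 / 2) * X + Y := by ring
    rw [e2]
    have n1 : ‖(Real.exp (-u) : ℂ) * (A - E)‖ ≤ ‖A - E‖ := by
      rw [norm_mul, Complex.norm_real, Real.norm_eq_abs, abs_of_nonneg (Real.exp_pos _).le]
      calc Real.exp (-u) * ‖A - E‖ ≤ 1 * ‖A - E‖ := by
            gcongr
            exact Real.exp_le_one_iff.2 (by linarith)
        _ = _ := one_mul _
    have n2 : ‖((1 - u - Real.exp (-u) : ℝ) : ℂ) * A‖ ≤ (θ ^ 2 * v) ^ 2 / 8 := by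
      rw [norm_mul, Complex.norm_real, Real.norm_eq_abs]
      have h1 : |1 - u - Real.exp (-u)| ≤ u ^ 2 / 2 := by
        rw [abs_sub_comm]
        exact abs_exp_neg_sub_le hu0
      calc |1 - u - Real.exp (-u)| * ‖A‖ ≤ (u ^ 2 / 2) * 1 := by gcongr
        _ = _ := by rw [hu]; ring
    have n3 : ‖(-(θ : ℂ) ^ 2 / 2) * X‖
        ≤ (θ ^ 2 / 2) * ∫ ω, |(P[fun ω => (d K ω) ^ 2 | G K]) ω - v| ∂P := by
      rw [norm_mul]
      have h1 : ‖(-(θ : ℂ) ^ 2 / 2)‖ = θ ^ 2 / 2 := by
        rw [norm_div, norm_neg, norm_pow, Complex.norm_real, Real.norm_eq_abs, sq_abs]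
        simp
      rw [h1]
      gcongr
    calc _ ≤ ‖(Real.exp (-u) : ℂ) * (A - E)‖ + ‖((1 - u - Real.exp (-u) : ℝ) : ℂ) * A‖
          + ‖(-(θ : ℂ) ^ 2 / 2) * X‖ + ‖Y‖ :=
            (norm_add_le _ _).trans (add_le_add ((norm_add_le _ _).trans
              (add_le_add (norm_add_le _ _) le_rfl)) le_rfl)
      _ ≤ _ := by linarith

end Pool.MP_cd27db_pr
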