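import Pool.Agent.W_MP_cd27db_pr.CondVar2
import Pool.Agent.W_MP_cd27db_pr.CharBound

/-!
# The characteristic function of a sum of blocks
-/

open MeasureTheory ProbabilityTheory Filter Topology
open scoped ENNReal NNReal

namespace Pool.MP_cd27db_pr

variable {Ω : Type*} {m0 : MeasurableSpace Ω} {P : Measure Ω} [IsProbabilityMeasure P]
  {F A : ℤ → MeasurableSpace Ω} {X : ℤ → Ω → ℝ} {e e' : ℕ → ℝ}

/-- block sum minus its projection on the starting state -/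
noncomputable def mdiff (P : Measure Ω) (A : ℤ → MeasurableSpace Ω) (X : ℤ → Ω → ℝ) (m : ℕ)
    (s : ℤ) : Ω → ℝ := fun ω => bS X s m ω - (P[bS X s m | A s]) ω

lemma memLp_mdiff (h : Frame P F A X) (m : ℕ) (s : ℤ) : MemLp (mdiff P A X m s) 2 P :=
  lsub (h.memLp_bS _ _) (memLp_condExp (h.memLp_bS _ _))

omit [IsProbabilityMeasure P] in
lemma sm_mdiff (h : Frame P F A X) (m : ℕ) (s : ℤ) :
    StronglyMeasurable[Gs A s m] (mdiff P A X m s) :=
  (h.sm_bS _ _).sub ((stronglyMeasurable_condExp).mono (A_left_le_Gs s _))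

lemma condExp_mdiff (h : Frame P F A X) (m : ℕ) (s : ℤ) : P[mdiff P A X m s | A s] =ᵐ[P] 0 := by
  have e2 : P[P[bS X s m | A s] | A s] = P[bS X s m | A s] :=
    condExp_of_stronglyMeasurable (h.A_le_m0 s) stronglyMeasurable_condExp integrable_condExp
  have i1 := lint (h.memLp_bS s m)
  have i2 := integrable_condExp (f := bS X s m) (m := A s) (μ := P)
  have e3 := condExp_sub (μ := P) i1 i2 (A s)
  refine e3.trans ?_
  rw [e2, sub_self]

lemma condExp_mdiff_past (h : Frame P F A X) (m : ℕ) (s : ℤ) :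
    P[mdiff P A X m s | F s] =ᵐ[P] 0 :=
  centered_past h (lint (memLp_mdiff h m s)) (sm_mdiff h m s) (condExp_mdiff h m s)

lemma integral_abs_condVar_le (h : Frame P F A X) (m : ℕ) (s : ℤ) (v : ℝ) :
    ∫ ω, |(P[fun ω => mdiff P A X m s ω ^ 2 | F s]) ω - v| ∂P ≤
      ∫ ω, |(P[fun ω => bS X s m ω ^ 2 | A s]) ω - v| ∂P +
      ∫ ω, (P[bS X s m | A s]) ω ^ 2 ∂P := by
  have lS := h.memLp_bS s m
  have lg : MemLp (P[bS X s m | A s]) 2 P := memLp_condExp lS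
  have h1 := h.markov s m (fun ω => mdiff P A X m s ω ^ 2) (memLp_mdiff h m s).integrable_sq
    ((sm_mdiff h m s).pow 2)
  have h2 := condVar_ae_eq_condExp_sq_sub_sq_condExp (h.A_le_m0 s) lS
  have i1 : Integrable (fun ω => |(P[fun ω => mdiff P A X m s ω ^ 2 | F s]) ω - v|) P :=
    (integrable_condExp.sub (integrable_const v)).abs
  have i2 : Integrable (fun ω => |(P[fun ω => bS X s m ω ^ 2 | A s]) ω - v|) P :=
    (integrable_condExp.sub (integrable_const v)).abs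
  rw [← E_add i2 lg.integrable_sq]
  apply integral_mono_ae i1 (iadd i2 lg.integrable_sq)
  filter_upwards [h1, h2] with ω h3 h4
  have e1 : (P[fun ω => mdiff P A X m s ω ^ 2 | A s]) ω =
      (Var[bS X s m; P | A s]) ω := rfl
  have e2 : ((P[(bS X s m) ^ 2 | A s] - P[bS X s m | A s] ^ 2 : Ω → ℝ)) ω =
      (P[fun ω => bS X s m ω ^ 2 | A s]) ω - (P[bS X s m | A s]) ω ^ 2 := rfl
  rw [h3, e1, h4, e2]
  have e3 : (P[fun ω => bS X s m ω ^ 2 | A s]) ω - (P[bS X s m | A s]) ω ^ 2 - v =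
    ((P[fun ω => bS X s m ω ^ 2 | A s]) ω - v) - (P[bS X s m | A s]) ω ^ 2 := by ring
  rw [e3]
  refine (abs_sub _ _).trans ?_
  rw [abs_of_nonneg (sq_nonneg ((P[bS X s m | A s]) ω))]

lemma min_cube_sq_le (x y : ℝ) : min (|x + y| ^ 3) ((x + y) ^ 2) ≤ 8 * |x| ^ 3 + 4 * y ^ 2 := by
  rcases le_total |y| |x| with h | h
  · refine (min_le_left _ _).trans ?_
    have h1 : |x + y| ≤ 2 * |x| := (abs_add_le _ _).trans (by linarith)
    have h2 := pow_le_pow_left₀ (abs_nonneg _) h1 3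
    have h3 : 0 ≤ y ^ 2 := sq_nonneg _
    calc |x + y| ^ 3 ≤ (2 * |x|) ^ 3 := h2
      _ = 8 * |x| ^ 3 := by ring
      _ ≤ _ := by linarith
  · refine (min_le_right _ _).trans ?_
    have h1 : |x + y| ≤ 2 * |y| := (abs_add_le _ _).trans (by linarith)
    have h2 := pow_le_pow_left₀ (abs_nonneg _) h1 2
    have h3 : 0 ≤ |x| ^ 3 := by positivity
    calc (x + y) ^ 2 = |x + y| ^ 2 := (sq_abs _).symm
      _ ≤ (2 * |y|) ^ 2 := h2
      _ = 4 * y ^ 2 := by rw [mul_pow, sq_abs]; ring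
      _ ≤ _ := by linarith

/-- the truncated third moment of a block -/
lemma lindeberg_le (h : Frame P F A X) {Λ K δ : ℝ} {J0 : ℕ} (hΛ : 0 ≤ Λ) (hK : 0 ≤ K)
    (hH : ∀ r s, ∫ ω, heavy P A X (1 / 200) Λ J0 r s ω ^ 2 ∂P ≤ δ * len J0 r)
    (hL : ∀ r s, ∫ ω, light P A X (1 / 200) Λ J0 r s ω ^ 4 ∂P ≤ (K * len J0 r) ^ 2)
    (θ : ℝ) (r : ℕ) (s : ℤ) :
    ∫ ω, min (|θ * mdiff P A X (len J0 r) s ω| ^ 3) ((θ * mdiff P A X (len J0 r) s ω) ^ 2) ∂P ≤
      8 * |θ| ^ 3 * ((K * len J0 r) * √(K * len J0 r)) + 4 * θ ^ 2 * (δ * len J0 r) := by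
  set L := light P A X (1 / 200) Λ J0 r s with hLdef
  set H := heavy P A X (1 / 200) Λ J0 r s with hHdef
  have bL : Bdd P m0 L := (bdd_light h hΛ r s).up (h.Gs_le_m0 _ _)
  have lH : MemLp H 2 P := memLp_heavy h hΛ r s
  have lL : MemLp L 2 P := bL.memLp le_rfl 2
  have lL2 : MemLp (fun ω => L ω ^ 2) 2 P := (bL.pow 2).memLp le_rfl 2
  have ld := memLp_mdiff h (len J0 r) s
  have e1 : ∀ ω, mdiff P A X (len J0 r) s ω = L ω + H ω := by
    intro ω
    simp only [hLdef, hHdef, heavy, mdiff]; ring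
  have hn0 : (0 : ℝ) ≤ len J0 r := by positivity
  have hL4 : nrm P (fun ω => L ω ^ 2) ≤ K * len J0 r := by
    rw [nrm_le_iff (by positivity)]
    refine le_trans (le_of_eq ?_) (hL r s)
    congr 1; ext ω; ring
  have hL2 : nrm P L ≤ √(K * len J0 r) := by
    rw [nrm_le_iff (Real.sqrt_nonneg _), Real.sq_sqrt (by positivity)]
    refine le_trans ?_ hL4
    have := abs_integral_le_nrm (P := P) lL2
    exact (le_abs_self _).trans this
  have hL3 : ∫ ω, |L ω| ^ 3 ∂P ≤ (K * len J0 r) * √(K * len J0 r) := by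
    have e2 : ∀ ω, |L ω| ^ 3 = |L ω| * L ω ^ 2 := by
      intro ω
      rw [← sq_abs (L ω)]; ring
    simp_rw [e2]
    refine (int_mul_le lL.abs lL2).trans ?_
    have e3 : nrm P (fun ω => |L ω|) = nrm P L := by unfold nrm; simp
    rw [mul_comm]
    apply mul_le_mul hL4 _ (nrm_nonneg _) (by positivity)
    exact e3.trans_le hL2
  have i3 : Integrable (fun ω => |L ω| ^ 3) P := by
    have := ((bL.pow 3).integrable (P := P) le_rfl).abs
    simpa [abs_pow] using this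
  have h1 : ∫ ω, min (|θ * mdiff P A X (len J0 r) s ω| ^ 3)
      ((θ * mdiff P A X (len J0 r) s ω) ^ 2) ∂P ≤
      ∫ ω, (8 * |θ| ^ 3) * |L ω| ^ 3 + (4 * θ ^ 2) * H ω ^ 2 ∂P := by
    apply integral_mono_of_nonneg
    · filter_upwards with ω
      exact le_min (by positivity) (sq_nonneg _)
    · exact iadd (icm _ i3) (icm _ lH.integrable_sq)
    · filter_upwards with ω
      rw [e1, mul_add]
      refine (min_cube_sq_le _ _).trans (le_of_eq ?_)
      rw [abs_mul]; ring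
  refine h1.trans ?_
  rw [E_add (icm _ i3) (icm _ lH.integrable_sq), integral_const_mul, integral_const_mul]
  apply add_le_add
  · exact mul_le_mul_of_nonneg_left hL3 (by positivity)
  · exact mul_le_mul_of_nonneg_left (hH r s) (by positivity)

/-- normalized deviation of the conditional variance -/
noncomputable def cdev (P : Measure Ω) (A : ℤ → MeasurableSpace Ω) (X : ℤ → Ω → ℝ) (σ : ℝ)
    (e : ℕ → ℝ) (j : ℕ) : ℝ :=
  (∫ ω, |(P[fun ω => bS X 0 (2 ^ j) ω ^ 2 | A 0]) ω - σ * 2 ^ j| ∂P) / 2 ^ j + e j ^ 2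

/-- characteristic function of `N` centered blocks -/
theorem block_clt (h : SFrame P F A X e e') {σ δ Λ K : ℝ} {J0 : ℕ} (hσ : 0 ≤ σ) (hΛ : 0 ≤ Λ)
    (hK : 0 ≤ K)
    (hH : ∀ r s, ∫ ω, heavy P A X (1 / 200) Λ J0 r s ω ^ 2 ∂P ≤ δ * len J0 r)
    (hL : ∀ r s, ∫ ω, light P A X (1 / 200) Λ J0 r s ω ^ 4 ∂P ≤ (K * len J0 r) ^ 2)
    (θ : ℝ) (r N : ℕ) :
    ‖∫ ω, Complex.exp ((θ * ∑ i ∈ Finset.range N,
        mdiff P A X (len J0 r) ((i * len J0 r : ℕ) : ℤ) ω : ℝ) * Complex.I) ∂P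
        - Complex.exp ((-(N * (θ ^ 2 * (σ * len J0 r) / 2)) : ℝ) : ℂ)‖
      ≤ N * ((θ ^ 2 / 2) * (cdev P A X σ e (J0 + r) * len J0 r) +
        (8 * |θ| ^ 3 * ((K * len J0 r) * √(K * len J0 r)) + 4 * θ ^ 2 * (δ * len J0 r)) +
        (θ ^ 2 * (σ * len J0 r)) ^ 2 / 8) := by
  have hF := h.toFrame
  set n := len J0 r with hn
  have hn0 : (0 : ℝ) < n := by exact_mod_cast len_pos J0 r
  have key := norm_charFun_sub_le P N (fun i => F ((i * n : ℕ) : ℤ)) (fun i => hF.F_le _)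
    (fun i j hij => hF.F_mono (by exact_mod_cast Nat.mul_le_mul_right n hij))
    (fun i => mdiff P A X n ((i * n : ℕ) : ℤ)) (fun i => memLp_mdiff hF n _)
    (fun i => by
      have h1 := (sm_mdiff hF n ((i * n : ℕ) : ℤ)).mono (hF.Gs_le_F _ _)
      have e1 : (((i * n : ℕ) : ℤ) + (n : ℤ)) = (((i + 1) * n : ℕ) : ℤ) := by push_cast; ring
      rw [e1] at h1
      exact h1)
    (fun i => condExp_mdiff_past hF n _) θ (σ * n) (by positivity)
  refine key.trans ?_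
  have h2 : ∀ i ∈ Finset.range N,
      ((θ ^ 2 / 2) * ∫ ω, |(P[fun ω => (mdiff P A X n ((i * n : ℕ) : ℤ) ω) ^ 2 |
          F ((i * n : ℕ) : ℤ)]) ω - σ * n| ∂P
        + ∫ ω, min (|θ * mdiff P A X n ((i * n : ℕ) : ℤ) ω| ^ 3)
            ((θ * mdiff P A X n ((i * n : ℕ) : ℤ) ω) ^ 2) ∂P + (θ ^ 2 * (σ * n)) ^ 2 / 8) ≤
      ((θ ^ 2 / 2) * (cdev P A X σ e (J0 + r) * n) +
        (8 * |θ| ^ 3 * ((K * n) * √(K * n)) + 4 * θ ^ 2 * (δ * n)) +
        (θ ^ 2 * (σ * n)) ^ 2 / 8) := by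
    intro i _
    have h3 := integral_abs_condVar_le hF n ((i * n : ℕ) : ℤ) (σ * n)
    rw [h.cond2] at h3
    have h4 := h.hg (J0 + r) ((i * n : ℕ) : ℤ)
    have h5 := lindeberg_le hF hΛ hK hH hL θ r ((i * n : ℕ) : ℤ)
    have hnc : (n : ℝ) = 2 ^ (J0 + r) := by rw [hn]; unfold len; push_cast; ring
    have h6 : ∫ ω, |(P[fun ω => bS X 0 n ω ^ 2 | A 0]) ω - σ * n| ∂P +
        ∫ ω, (P[bS X ((i * n : ℕ) : ℤ) n | A ((i * n : ℕ) : ℤ)]) ω ^ 2 ∂P ≤
        cdev P A X σ e (J0 + r) * n := by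
      unfold cdev
      rw [add_mul, ← hnc, div_mul_cancel₀ _ hn0.ne']
      have e7 : (n : ℕ) = 2 ^ (J0 + r) := rfl
      rw [← e7] at h4 ⊢
      linarith
    have h7 := h3.trans h6
    have h8 : (θ ^ 2 / 2) * ∫ ω, |(P[fun ω => (mdiff P A X n ((i * n : ℕ) : ℤ) ω) ^ 2 |
          F ((i * n : ℕ) : ℤ)]) ω - σ * n| ∂P ≤ (θ ^ 2 / 2) * (cdev P A X σ e (J0 + r) * n) :=
      mul_le_mul_of_nonneg_left h7 (by positivity)
    linarith
  refine (Finset.sum_le_sum h2).trans ?_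
  rw [Finset.sum_const, Finset.card_range, nsmul_eq_mul]

end Pool.MP_cd27db_pr
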