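import Pool.Agent.W_MP_cd27db_pr.Defs

/-!
# MP_cd27db_pr, task T2: the Markov property for random variables measurable with respect to
`σ(ξ k, n ≤ k ≤ N)`.
-/

open MeasureTheory ProbabilityTheory Filter Topology

namespace Pool.MP_cd27db_pr

namespace MarkovProp

variable {Ω : Type*}

/-- The real indicator function of a set. -/
noncomputable abbrev ind (E : Set Ω) : Ω → ℝ := E.indicator (fun _ => (1 : ℝ))

lemma integrable_ind {m0 : MeasurableSpace Ω} (P : Measure Ω) [IsFiniteMeasure P] {E : Set Ω} (hE : MeasurableSet E) :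
    Integrable (ind E) P := (integrable_const (1 : ℝ)).indicator hE

lemma abs_ind_le (E : Set Ω) (ω : Ω) : |ind E ω| ≤ 1 := by
  by_cases h : ω ∈ E <;> simp [h]

lemma bdd_condExp_ind {m0 : MeasurableSpace Ω} (P : Measure Ω) (A : MeasurableSpace Ω) (E : Set Ω) :
    ∀ᵐ ω ∂P, |(P[ind E | A]) ω| ≤ 1 :=
  ae_bdd_abs_condExp_of_ae_bdd_abs (R := (1 : ℝ)) (Eventually.of_forall fun ω => abs_ind_le E ω)

/-- Conditional expectation is self-adjoint. -/
lemma selfadj {A m0 : MeasurableSpace Ω} (P : Measure Ω) [IsFiniteMeasure P] (hA : A ≤ m0)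
    {f g : Ω → ℝ} (hf : Integrable f P) (hg : Integrable g P) (hg1 : ∀ᵐ ω ∂P, |g ω| ≤ 1) :
    ∫ ω, (P[f | A]) ω * g ω ∂P = ∫ ω, f ω * (P[g | A]) ω ∂P := by
  have hg1' : ∀ᵐ ω ∂P, |(P[g | A]) ω| ≤ 1 := ae_bdd_abs_condExp_of_ae_bdd_abs (R := (1 : ℝ)) hg1
  have h1 : Integrable (P[f | A] * g) P :=
    integrable_condExp.mul_bdd hg.aestronglyMeasurable hg1
  have h2 : Integrable (f * P[g | A]) P :=
    hf.mul_bdd integrable_condExp.aestronglyMeasurable hg1'
  have e1 : ∫ ω, (P[f | A]) ω * g ω ∂P = ∫ ω, (P[f | A]) ω * (P[g | A]) ω ∂P := by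
    have e : ∫ ω, (P[f | A] * g) ω ∂P = ∫ ω, (P[f | A]) ω * (P[g | A]) ω ∂P := by
      rw [← integral_condExp hA (f := P[f | A] * g)]
      refine integral_congr_ae ?_
      filter_upwards [condExp_mul_of_stronglyMeasurable_left stronglyMeasurable_condExp h1 hg]
        with ω hω
      rw [hω]; rfl
    exact e
  have e2 : ∫ ω, f ω * (P[g | A]) ω ∂P = ∫ ω, (P[f | A]) ω * (P[g | A]) ω ∂P := by
    have e : ∫ ω, (f * P[g | A]) ω ∂P = ∫ ω, (P[f | A]) ω * (P[g | A]) ω ∂P := by
      rw [← integral_condExp hA (f := f * P[g | A])]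
      refine integral_congr_ae ?_
      filter_upwards [condExp_mul_of_stronglyMeasurable_right stronglyMeasurable_condExp h2 hf]
        with ω hω
      rw [hω]; rfl
    exact e
  rw [e1, e2]

lemma setIntegral_eq_ind_mul {m0 : MeasurableSpace Ω} (P : Measure Ω) {E : Set Ω} (hE : MeasurableSet E) (f : Ω → ℝ) :
    ∫ ω in E, f ω ∂P = ∫ ω, ind E ω * f ω ∂P := by
  rw [← integral_indicator hE]
  refine integral_congr_ae (Eventually.of_forall fun ω => ?_)
  by_cases h : ω ∈ E <;> simp [h]

lemma setIntegral_eq_mul_ind {m0 : MeasurableSpace Ω} (P : Measure Ω) {E : Set Ω} (hE : MeasurableSet E) (f : Ω → ℝ) :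
    ∫ ω in E, f ω ∂P = ∫ ω, f ω * ind E ω ∂P := by
  rw [setIntegral_eq_ind_mul P hE]
  refine integral_congr_ae (Eventually.of_forall fun ω => ?_)
  simp only [mul_comm]

lemma setIntegral_ind {m0 : MeasurableSpace Ω} (P : Measure Ω) [IsFiniteMeasure P] {D E : Set Ω} (hE : MeasurableSet E) :
    ∫ ω in D, ind E ω ∂P = P.real (D ∩ E) := by
  rw [setIntegral_indicator hE]
  simp

/-- The conditional independence relation, in integral form. -/
def CI {m0 : MeasurableSpace Ω} (P : Measure Ω) (F A G : MeasurableSpace Ω) : Prop :=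
  ∀ D, MeasurableSet[F] D → ∀ E, MeasurableSet[G] E → ∫ ω in E, (P[ind D | A]) ω ∂P = P.real (D ∩ E)

lemma ci_of_condExp_eq {F A m0 : MeasurableSpace Ω} (P : Measure Ω) [IsFiniteMeasure P]
    (hA : A ≤ m0) (hF : F ≤ m0) {D E : Set Ω} (hD : MeasurableSet[F] D) (hE : MeasurableSet E)
    (h : P[ind E | F] =ᵐ[P] P[ind E | A]) :
    ∫ ω in E, (P[ind D | A]) ω ∂P = P.real (D ∩ E) := by
  have hD' : MeasurableSet D := hF _ hD
  rw [setIntegral_eq_ind_mul P hE,
    ← selfadj P hA (integrable_ind P hE) (integrable_ind P hD')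
      (Eventually.of_forall (abs_ind_le D)), ← setIntegral_eq_mul_ind P hD',
    ← setIntegral_ind P hE, ← setIntegral_condExp hF (integrable_ind P hE) hD]
  refine setIntegral_congr_ae hD' ?_
  filter_upwards [h] with ω hω _
  exact hω.symm

/-- From sets to integrable functions. -/
lemma CI.condExp_eq {F A G m0 : MeasurableSpace Ω} {P : Measure Ω} [IsFiniteMeasure P]
    (hAF : A ≤ F) (hF : F ≤ m0) (hG : G ≤ m0) (h : CI P F A G) {Y : Ω → ℝ} (hY : Integrable Y P)
    (hYm : StronglyMeasurable[G] Y) : P[Y | F] =ᵐ[P] P[Y | A] := by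
  have hA : A ≤ m0 := hAF.trans hF
  refine (ae_eq_condExp_of_forall_setIntegral_eq hF hY
    (fun s _ _ => integrable_condExp.integrableOn) ?_
    (stronglyMeasurable_condExp.mono hAF).aestronglyMeasurable).symm
  intro D hD _
  have hD' : MeasurableSet D := hF _ hD
  have hb : ∀ᵐ ω ∂P, |(P[ind D | A]) ω| ≤ 1 := bdd_condExp_ind P A D
  -- the function `φ = 1_D - P[1_D | A]` is orthogonal to `G`-measurable functions
  have hφi : Integrable (ind D - P[ind D | A]) P :=
    (integrable_ind P hD').sub integrable_condExp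
  have hφ0 : P[ind D - P[ind D | A] | G] =ᵐ[P] 0 := by
    refine (ae_eq_condExp_of_forall_setIntegral_eq hG hφi
      (fun s _ _ => (integrable_zero _ _ _).integrableOn) ?_
      (stronglyMeasurable_zero).aestronglyMeasurable).symm
    intro E hE _
    have hE' : MeasurableSet E := hG _ hE
    have h1 := h D hD E hE
    have h2 : ∫ ω in E, (ind D - P[ind D | A]) ω ∂P
        = ∫ ω in E, ind D ω ∂P - ∫ ω in E, (P[ind D | A]) ω ∂P :=
      integral_sub (integrable_ind P hD').integrableOn integrable_condExp.integrableOn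
    rw [h2, h1, setIntegral_ind P hD', Set.inter_comm]
    simp
  have hφ1 : ∀ᵐ ω ∂P, ‖(ind D - P[ind D | A]) ω‖ ≤ 2 := by
    filter_upwards [hb] with ω hω
    rw [Pi.sub_apply, Real.norm_eq_abs]
    have := abs_ind_le D ω
    calc |ind D ω - (P[ind D | A]) ω| ≤ |ind D ω| + |(P[ind D | A]) ω| := abs_sub _ _
      _ ≤ 1 + 1 := add_le_add this hω
      _ = 2 := by norm_num
  have hφY : Integrable ((ind D - P[ind D | A]) * Y) P :=
    hY.bdd_mul hφi.aestronglyMeasurable hφ1
  have h0 : ∫ ω, (ind D ω - (P[ind D | A]) ω) * Y ω ∂P = 0 := by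
    have e := integral_condExp hG (f := (ind D - P[ind D | A]) * Y) (μ := P)
    have e' : ∫ ω, (P[(ind D - P[ind D | A]) * Y | G]) ω ∂P = 0 := by
      have : P[(ind D - P[ind D | A]) * Y | G] =ᵐ[P] 0 := by
        filter_upwards [condExp_mul_of_stronglyMeasurable_right hYm hφY hφi, hφ0] with ω h1 h2
        rw [h1, Pi.mul_apply, h2]; simp
      rw [integral_congr_ae this]; simp
    rw [e'] at e
    exact e.symm
  have hi1 : Integrable (fun ω => ind D ω * Y ω) P :=
    hY.bdd_mul (c := 1) (integrable_ind P hD').aestronglyMeasurable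
      (Eventually.of_forall (abs_ind_le D))
  have hi2 : Integrable (fun ω => (P[ind D | A]) ω * Y ω) P :=
    hY.bdd_mul (c := 1) integrable_condExp.aestronglyMeasurable hb
  have h1 : ∫ ω, ind D ω * Y ω ∂P = ∫ ω, (P[ind D | A]) ω * Y ω ∂P := by
    have : ∫ ω, (ind D ω - (P[ind D | A]) ω) * Y ω ∂P
        = ∫ ω, ind D ω * Y ω ∂P - ∫ ω, (P[ind D | A]) ω * Y ω ∂P := by
      rw [← integral_sub hi1 hi2]
      refine integral_congr_ae (Eventually.of_forall fun ω => ?_)
      simp only [sub_mul]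
    rw [this] at h0
    linarith
  have h2 := selfadj P hA hY (integrable_ind P hD') (Eventually.of_forall (abs_ind_le D))
  rw [setIntegral_eq_mul_ind P hD', h2, setIntegral_eq_ind_mul P hD', h1]
  refine integral_congr_ae (Eventually.of_forall fun ω => ?_)
  simp only [mul_comm]

lemma sup_eq_generateFrom (A G : MeasurableSpace Ω) :
    A ⊔ G = MeasurableSpace.generateFrom
      {s | ∃ E1 E2, MeasurableSet[A] E1 ∧ MeasurableSet[G] E2 ∧ s = E1 ∩ E2} := by
  apply le_antisymm
  · refine sup_le ?_ ?_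
    · intro s hs
      exact MeasurableSpace.measurableSet_generateFrom
        ⟨s, Set.univ, hs, @MeasurableSet.univ _ G, by simp⟩
    · intro s hs
      exact MeasurableSpace.measurableSet_generateFrom
        ⟨Set.univ, s, @MeasurableSet.univ _ A, hs, by simp⟩
  · refine MeasurableSpace.generateFrom_le ?_
    rintro s ⟨E1, E2, h1, h2, rfl⟩
    exact @MeasurableSet.inter _ (A ⊔ G) _ _ ((le_sup_left : A ≤ A ⊔ G) _ h1)
      ((le_sup_right : G ≤ A ⊔ G) _ h2)

lemma isPiSystem_inter (A G : MeasurableSpace Ω) :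
    IsPiSystem {s : Set Ω | ∃ E1 E2, MeasurableSet[A] E1 ∧ MeasurableSet[G] E2 ∧ s = E1 ∩ E2} := by
  rintro s ⟨E1, E2, h1, h2, rfl⟩ t ⟨E3, E4, h3, h4, rfl⟩ _
  refine ⟨E1 ∩ E3, E2 ∩ E4, @MeasurableSet.inter _ A _ _ h1 h3,
    @MeasurableSet.inter _ G _ _ h2 h4, ?_⟩
  ext ω; simp only [Set.mem_inter_iff]; tauto

/-- The induction step: the Markov property propagates. -/
lemma CI.step {F F' A A' G m0 : MeasurableSpace Ω} {P : Measure Ω} [IsFiniteMeasure P]
    (hAF : A ≤ F) (hFF' : F ≤ F') (hA'F' : A' ≤ F') (hF' : F' ≤ m0) (hG : G ≤ m0)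
    (h1 : CI P F A A') (h2 : CI P F' A' G) : CI P F A (A ⊔ G) := by
  have hF : F ≤ m0 := hFF'.trans hF'
  have hA : A ≤ m0 := hAF.trans hF
  have hA' : A' ≤ m0 := hA'F'.trans hF'
  intro D hD
  have hD' : MeasurableSet D := hF _ hD
  have hint : ∀ E : Set Ω, IntegrableOn (P[ind D | A]) E P := fun E =>
    integrable_condExp.integrableOn
  have hle : A ⊔ G ≤ m0 := sup_le hA hG
  refine @MeasurableSpace.induction_on_inter Ω (A ⊔ G) (fun E _ =>
    ∫ ω in E, (P[ind D | A]) ω ∂P = P.real (D ∩ E)) _ (sup_eq_generateFrom A G)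
    (isPiSystem_inter A G) ?_ ?_ ?_ ?_
  · simp
  · rintro _ ⟨E1, E2, hE1, hE2, rfl⟩
    have hE1' : MeasurableSet E1 := hA _ hE1
    have hE2' : MeasurableSet E2 := hG _ hE2
    refine ci_of_condExp_eq P hA hF hD (hE1'.inter hE2') ?_
    have hmul : ind (E1 ∩ E2) = ind E1 * ind E2 := by
      funext ω
      simp only [ind, Pi.mul_apply]
      by_cases ha : ω ∈ E1 <;> by_cases hb : ω ∈ E2 <;> simp [ha, hb]
    have hi : Integrable (ind E1 * ind E2) P := by
      rw [← hmul]; exact integrable_ind P (hE1'.inter hE2')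
    have hE2i := integrable_ind P hE2'
    -- the inner conditional expectation
    have e0 : P[ind E2 | F'] =ᵐ[P] P[ind E2 | A'] :=
      h2.condExp_eq hA'F' hF' hG hE2i
        ((stronglyMeasurable_const).indicator hE2)
    have e1 : P[P[ind E2 | A'] | F] =ᵐ[P] P[P[ind E2 | A'] | A] :=
      h1.condExp_eq hAF hF hA' integrable_condExp stronglyMeasurable_condExp
    have e2 : P[ind E2 | F] =ᵐ[P] P[P[ind E2 | A'] | F] :=
      (condExp_condExp_of_le hFF' hF').symm.trans (condExp_congr_ae e0)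
    have e3 : P[ind E2 | A] =ᵐ[P] P[P[ind E2 | A'] | A] :=
      (condExp_condExp_of_le (hAF.trans hFF') hF').symm.trans (condExp_congr_ae e0)
    rw [hmul]
    have hsm : StronglyMeasurable[A] (ind E1) := (stronglyMeasurable_const).indicator hE1
    filter_upwards [condExp_mul_of_stronglyMeasurable_left (hsm.mono hAF) hi hE2i,
      condExp_mul_of_stronglyMeasurable_left hsm hi hE2i, e1, e2, e3] with ω a1 a2 a3 a4 a5
    rw [a1, a2, Pi.mul_apply, Pi.mul_apply, a4, a5, a3]
  · intro E hE ih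
    have hE' : MeasurableSet E := hle _ hE
    have t1 : ∫ ω, (P[ind D | A]) ω ∂P = P.real D := by
      rw [integral_condExp hA]
      simp [integral_indicator hD']
    have t2 := integral_add_compl hE' (integrable_condExp (f := ind D) (m := A) (μ := P))
    have t3 : P.real (D ∩ E) + P.real (D ∩ Eᶜ) = P.real D := by
      have := measureReal_inter_add_sdiff (μ := P) (s := D) (t := E) hE'
      rwa [Set.sdiff_eq] at this
    rw [ih, t1] at t2
    linarith
  · intro f hdisj hfm ih
    have hfm' : ∀ i, MeasurableSet (f i) := fun i => hle _ (hfm i)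
    have s1 := hasSum_integral_iUnion hfm' hdisj (hint (⋃ i, f i))
    simp only [ih] at s1
    have s2 : HasSum (fun i => P.real (D ∩ f i)) (P.real (D ∩ ⋃ i, f i)) := by
      have hs := hasSum_integral_iUnion (μ := P) hfm' hdisj
        ((integrable_ind P hD').integrableOn (s := ⋃ i, f i))
      simp only [setIntegral_ind P hD'] at hs
      simpa only [Set.inter_comm D] using hs
    exact s1.unique s2

end MarkovProp

open MarkovProp in
theorem condExp_past_eq_condExp_present {Ω S : Type*} {m0 : MeasurableSpace Ω} [MeasurableSpace S]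
    (P : Measure Ω) [IsProbabilityMeasure P] (ξ : ℤ → Ω → S) (κ : Kernel S S) [IsMarkovKernel κ]
    (hmeas : ∀ n, Measurable (ξ n))
    (hmarkov : ∀ (n : ℤ) (A : Set S), MeasurableSet A →
      P[(ξ (n + 1) ⁻¹' A).indicator (fun _ => (1 : ℝ)) |
        ⨆ (k : ℤ) (_ : k ≤ n), MeasurableSpace.comap (ξ k) inferInstance]
      =ᵐ[P] fun ω => (κ (ξ n ω)).real A)
    (n N : ℤ) (Y : Ω → ℝ) (hY : Integrable Y P)
    (hYm : StronglyMeasurable[⨆ (k : ℤ) (_ : n ≤ k ∧ k ≤ N),
      MeasurableSpace.comap (ξ k) inferInstance] Y) :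
    P[Y | ⨆ (k : ℤ) (_ : k ≤ n), MeasurableSpace.comap (ξ k) inferInstance]
      =ᵐ[P] P[Y | MeasurableSpace.comap (ξ n) inferInstance] := by
  let F : ℤ → MeasurableSpace Ω := fun n =>
    ⨆ (k : ℤ) (_ : k ≤ n), MeasurableSpace.comap (ξ k) inferInstance
  let A : ℤ → MeasurableSpace Ω := fun n => MeasurableSpace.comap (ξ n) inferInstance
  let G : ℤ → ℤ → MeasurableSpace Ω := fun n N =>
    ⨆ (k : ℤ) (_ : n ≤ k ∧ k ≤ N), MeasurableSpace.comap (ξ k) inferInstance
  have hA : ∀ k, A k ≤ m0 := fun k => (hmeas k).comap_le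
  have hF : ∀ k, F k ≤ m0 := fun k => iSup₂_le fun j _ => hA j
  have hG : ∀ a b, G a b ≤ m0 := fun a b => iSup₂_le fun j _ => hA j
  have hAF : ∀ k, A k ≤ F k := fun k =>
    le_iSup₂ (f := fun (j : ℤ) (_ : j ≤ k) => A j) k le_rfl
  have hFF : ∀ k, F k ≤ F (k + 1) := fun k => iSup₂_le fun j hj =>
    le_iSup₂ (f := fun (i : ℤ) (_ : i ≤ k + 1) => A i) j (by omega)
  -- the one step property
  have hone : ∀ k, CI P (F k) (A k) (A (k + 1)) := by
    intro k D hD E hE
    obtain ⟨B, hB, rfl⟩ := hE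
    have hE' : MeasurableSet (ξ (k + 1) ⁻¹' B) := hmeas _ hB
    refine ci_of_condExp_eq P (hA k) (hF k) hD hE' ?_
    have h1 := hmarkov k B hB
    have hmκ : StronglyMeasurable[A k] (fun ω => (κ (ξ k ω)).real B) := by
      have h2 : Measurable fun s => (κ s).real B := (κ.measurable_coe hB).ennreal_toReal
      exact (h2.comp (comap_measurable (ξ k))).stronglyMeasurable
    have h3 : P[ind (ξ (k + 1) ⁻¹' B) | A k] =ᵐ[P] fun ω => (κ (ξ k ω)).real B := by
      refine (condExp_condExp_of_le (hAF k) (hF k)).symm.trans ((condExp_congr_ae h1).trans ?_)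
      rw [condExp_of_stronglyMeasurable (hA k) hmκ]
      exact integrable_condExp.congr h1
    exact h1.trans h3.symm
  -- induction
  have hind : ∀ (m : ℕ) (k : ℤ), CI P (F k) (A k) (G k (k + m)) := by
    intro m
    induction m with
    | zero =>
      intro k D hD E hE
      have hGA : G k (k + (0 : ℕ)) ≤ A k := iSup₂_le fun j hj => by
        have : j = k := by have := hj.1; have := hj.2; push_cast at *; omega
        subst this; exact le_rfl
      have hE1 : MeasurableSet[A k] E := hGA _ hE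
      have hE' : MeasurableSet E := hA k _ hE1
      refine ci_of_condExp_eq P (hA k) (hF k) hD hE' ?_
      rw [condExp_of_stronglyMeasurable (hA k) (stronglyMeasurable_const.indicator hE1)
          (integrable_ind P hE'),
        condExp_of_stronglyMeasurable (hF k) (stronglyMeasurable_const.indicator (hAF k _ hE1))
          (integrable_ind P hE')]
    | succ m ih =>
      intro k
      have hstep := CI.step (hAF k) (hFF k) (hAF (k + 1)) (hF (k + 1)) (hG (k + 1) (k + 1 + m))
        (hone k) (ih (k + 1))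
      have hle : G k (k + ((m + 1 : ℕ) : ℤ)) ≤ A k ⊔ G (k + 1) (k + 1 + m) := by
        refine iSup₂_le fun j hj => ?_
        by_cases hjk : j = k
        · subst hjk; exact le_sup_left
        · refine le_trans ?_ le_sup_right
          exact le_iSup₂ (f := fun (i : ℤ) (_ : k + 1 ≤ i ∧ i ≤ k + 1 + m) => A i) j
            ⟨by have := hj.1; omega, by have := hj.2; push_cast at this; omega⟩
      intro D hD E hE
      exact hstep D hD E (hle _ hE)
  have hfin : CI P (F n) (A n) (G n N) := by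
    have hle : G n N ≤ G n (n + (N - n).toNat) := by
      refine iSup₂_le fun j hj => ?_
      exact le_iSup₂ (f := fun (i : ℤ) (_ : n ≤ i ∧ i ≤ n + (N - n).toNat) => A i) j
        ⟨hj.1, by have := hj.1; have := hj.2; omega⟩
    intro D hD E hE
    exact hind _ n D hD E (hle _ hE)
  exact hfin.condExp_eq (hAF n) (hF n) (hG n N) hY hYm

end Pool.MP_cd27db_pr
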