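import Pool.Agent.W_MP_cd27db_pr.Defs

/-!
# Conditional expectations along a stationary Markov chain and the powers of the Markov operator
-/

open MeasureTheory ProbabilityTheory Filter Topology

namespace Pool.MP_cd27db_pr

namespace Operators

set_option linter.unusedSectionVars false

variable {Ω S : Type*} [mΩ : MeasurableSpace Ω] [mS : MeasurableSpace S] {P : Measure Ω}
    [IsProbabilityMeasure P] {ξ : ℤ → Ω → S} {κ : Kernel S S} [IsMarkovKernel κ]

/-- The past up to time `n`. -/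
abbrev past (ξ : ℤ → Ω → S) (n : ℤ) : MeasurableSpace Ω :=
  ⨆ (k : ℤ) (_ : k ≤ n), MeasurableSpace.comap (ξ k) inferInstance

omit [IsProbabilityMeasure P] [IsMarkovKernel κ] in
theorem comap_le (hξ : IsStationaryMarkovChain P ξ κ) (n : ℤ) :
    MeasurableSpace.comap (ξ n) inferInstance ≤ mΩ := (hξ.measurable n).comap_le

omit [IsProbabilityMeasure P] [IsMarkovKernel κ] in
theorem past_le (hξ : IsStationaryMarkovChain P ξ κ) (n : ℤ) : past ξ n ≤ mΩ :=
  iSup₂_le fun k _ => comap_le hξ k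

theorem comap_le_past {k n : ℤ} (h : k ≤ n) :
    MeasurableSpace.comap (ξ k) inferInstance ≤ past ξ n :=
  le_iSup₂_of_le k h le_rfl

theorem past_mono {m n : ℤ} (h : m ≤ n) : past ξ m ≤ past ξ n :=
  iSup₂_le fun _ hk => comap_le_past (hk.trans h)

omit [IsProbabilityMeasure P] [IsMarkovKernel κ] in
theorem map_succ (hξ : IsStationaryMarkovChain P ξ κ) (n : ℤ) :
    P.map (ξ (n + 1)) = P.map (ξ n) := by
  have h := congrArg (fun μ => μ.map (fun f : ℤ → S => f n)) hξ.stationary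
  have m1 : Measurable fun ω (n : ℤ) => ξ (n + 1) ω :=
    measurable_pi_lambda _ fun n => hξ.measurable (n + 1)
  have m2 : Measurable fun ω (n : ℤ) => ξ n ω := measurable_pi_lambda _ fun n => hξ.measurable n
  rw [Measure.map_map (measurable_pi_apply n) m1, Measure.map_map (measurable_pi_apply n) m2] at h
  exact h

omit [IsProbabilityMeasure P] [IsMarkovKernel κ] in
theorem map_eq (hξ : IsStationaryMarkovChain P ξ κ) (n : ℤ) : P.map (ξ n) = P.map (ξ 0) := by
  induction n with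
  | zero => rfl
  | succ n ih => rw [map_succ hξ, ih]
  | pred n ih =>
    rw [← ih, ← map_succ hξ (-(n : ℤ) - 1)]
    congr 2
    ring

theorem restrict_map (hξ : IsStationaryMarkovChain P ξ κ) (n : ℤ) {D : Set Ω}
    (hD : MeasurableSet[past ξ n] D) :
    (P.restrict D).map (ξ (n + 1)) = ((P.restrict D).map (ξ n)).bind κ := by
  have hD' : MeasurableSet D := past_le hξ n D hD
  ext A hA
  rw [Measure.map_apply (hξ.measurable _) hA, Measure.bind_apply hA κ.measurable.aemeasurable,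
    lintegral_map (κ.measurable_coe hA) (hξ.measurable n)]
  have hmA : MeasurableSet (ξ (n + 1) ⁻¹' A) := hξ.measurable (n + 1) hA
  have hint : Integrable ((ξ (n + 1) ⁻¹' A).indicator fun _ => (1 : ℝ)) P :=
    (integrable_const 1).indicator hmA
  have h1 : ∫ ω in D, ((ξ (n + 1) ⁻¹' A).indicator fun _ => (1 : ℝ)) ω ∂P
      = ∫ ω in D, (κ (ξ n ω)).real A ∂P := by
    rw [← setIntegral_condExp (past_le hξ n) hint hD]
    exact integral_congr_ae (ae_restrict_of_ae (hξ.markov n A hA))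
  have h2 : ∫ ω in D, ((ξ (n + 1) ⁻¹' A).indicator fun _ => (1 : ℝ)) ω ∂P
      = (P.restrict D).real (ξ (n + 1) ⁻¹' A) := by
    rw [integral_indicator_const _ hmA]
    simp
  have hmeas : Measurable fun ω => (κ (ξ n ω)).real A :=
    ((κ.measurable_coe hA).comp (hξ.measurable n)).ennreal_toReal
  have h3 : ENNReal.ofReal (∫ ω in D, (κ (ξ n ω)).real A ∂P)
      = ∫⁻ ω in D, κ (ξ n ω) A ∂P := by
    rw [ofReal_integral_eq_lintegral_ofReal]
    · refine lintegral_congr fun ω => ?_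
      rw [Measure.real, ENNReal.ofReal_toReal (measure_ne_top _ _)]
    · refine Integrable.of_bound hmeas.aestronglyMeasurable 1 (ae_of_all _ fun ω => ?_)
      rw [Real.norm_of_nonneg measureReal_nonneg]
      exact measureReal_le_one
    · exact ae_of_all _ fun ω => measureReal_nonneg
  rw [← h3, ← h1, h2, Measure.real, ENNReal.ofReal_toReal (measure_ne_top _ _)]

variable {Q : Lp ℝ 2 (P.map (ξ 0)) →L[ℝ] Lp ℝ 2 (P.map (ξ 0))}

omit [IsProbabilityMeasure P] [IsMarkovKernel κ] in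
theorem integral_comp_eq (hξ : IsStationaryMarkovChain P ξ κ) {F : S → ℝ}
    (hF : StronglyMeasurable F) (m : ℤ) :
    ∫ ω, F (ξ m ω) ∂P = ∫ x, F x ∂(P.map (ξ 0)) := by
  rw [← map_eq hξ m, integral_map (hξ.measurable m).aemeasurable hF.aestronglyMeasurable]

omit [IsProbabilityMeasure P] [IsMarkovKernel κ] in
theorem eLpNorm_comp_eq (hξ : IsStationaryMarkovChain P ξ κ) {F : S → ℝ}
    (hF : StronglyMeasurable F) (m : ℤ) :
    eLpNorm (fun ω => F (ξ m ω)) 2 P = eLpNorm F 2 (P.map (ξ 0)) := by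
  rw [← map_eq hξ m, eLpNorm_map_measure hF.aestronglyMeasurable (hξ.measurable m).aemeasurable]
  rfl

theorem memLp_comp (hξ : IsStationaryMarkovChain P ξ κ) (φ : Lp ℝ 2 (P.map (ξ 0))) (n : ℤ) :
    MemLp (fun ω => (φ : S → ℝ) (ξ n ω)) 2 P := by
  have h : MemLp (φ : S → ℝ) 2 (P.map (ξ n)) := by
    rw [map_eq hξ n]
    exact Lp.memLp φ
  exact h.comp_of_map (hξ.measurable n).aemeasurable

theorem integrable_comp (hξ : IsStationaryMarkovChain P ξ κ) (φ : Lp ℝ 2 (P.map (ξ 0)))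
    (n : ℤ) : Integrable (fun ω => (φ : S → ℝ) (ξ n ω)) P :=
  (memLp_comp hξ φ n).integrable (by norm_num)

theorem sm_comp (φ : Lp ℝ 2 (P.map (ξ 0))) (n : ℤ) :
    StronglyMeasurable[MeasurableSpace.comap (ξ n) inferInstance]
      (fun ω => (φ : S → ℝ) (ξ n ω)) :=
  (Lp.stronglyMeasurable φ).comp_measurable (comap_measurable (ξ n))

theorem step (hξ : IsStationaryMarkovChain P ξ κ) (hQ : IsMarkovOperator κ (P.map (ξ 0)) Q)
    (φ : Lp ℝ 2 (P.map (ξ 0))) (n : ℤ) :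
    P[fun ω => (φ : S → ℝ) (ξ (n + 1) ω) | past ξ n] =ᵐ[P] fun ω => (Q φ : S → ℝ) (ξ n ω) := by
  symm
  refine ae_eq_condExp_of_forall_setIntegral_eq (past_le hξ n) (integrable_comp hξ φ _)
    (fun D _ _ => (integrable_comp hξ (Q φ) n).integrableOn) (fun D hD _ => ?_)
    (((sm_comp (Q φ) n).mono (comap_le_past le_rfl)).aestronglyMeasurable)
  have hac : (P.restrict D).map (ξ n) ≪ P.map (ξ 0) := by
    rw [← map_eq hξ n]
    exact Measure.AbsolutelyContinuous.map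
      (Measure.absolutelyContinuous_of_le Measure.restrict_le_self) (hξ.measurable n)
  have hac1 : (P.restrict D).map (ξ (n + 1)) ≪ P.map (ξ 0) := by
    rw [← map_eq hξ (n + 1)]
    exact Measure.AbsolutelyContinuous.map
      (Measure.absolutelyContinuous_of_le Measure.restrict_le_self) (hξ.measurable (n + 1))
  have e1 : ∫ ω in D, (Q φ : S → ℝ) (ξ n ω) ∂P
      = ∫ x, (Q φ : S → ℝ) x ∂((P.restrict D).map (ξ n)) := by
    rw [integral_map (hξ.measurable n).aemeasurable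
      (Lp.stronglyMeasurable (Q φ)).aestronglyMeasurable]
  have e2 : ∫ ω in D, (φ : S → ℝ) (ξ (n + 1) ω) ∂P
      = ∫ x, (φ : S → ℝ) x ∂((P.restrict D).map (ξ (n + 1))) := by
    rw [integral_map (hξ.measurable (n + 1)).aemeasurable
      (Lp.stronglyMeasurable φ).aestronglyMeasurable]
  have e3 : ∫ x, (Q φ : S → ℝ) x ∂((P.restrict D).map (ξ n))
      = ∫ x, (∫ y, (φ : S → ℝ) y ∂(κ x)) ∂((P.restrict D).map (ξ n)) :=
    integral_congr_ae (hac.ae_le (hQ φ))
  have hint : Integrable (φ : S → ℝ) ((P.restrict D).map (ξ (n + 1))) := by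
    rw [integrable_map_measure (Lp.stronglyMeasurable φ).aestronglyMeasurable
      (hξ.measurable (n + 1)).aemeasurable]
    exact (integrable_comp hξ φ (n + 1)).integrableOn
  rw [e1, e3, e2]
  rw [restrict_map hξ n hD] at hint ⊢
  rw [Measure.comp_eq_comp_const_apply] at hint ⊢
  rw [Kernel.integral_comp hint]
  simp

theorem steps (hξ : IsStationaryMarkovChain P ξ κ) (hQ : IsMarkovOperator κ (P.map (ξ 0)) Q)
    (φ : Lp ℝ 2 (P.map (ξ 0))) (n : ℤ) (k : ℕ) :
    P[fun ω => (φ : S → ℝ) (ξ (n + k) ω) | past ξ n] =ᵐ[P]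
      fun ω => ((Q ^ k) φ : S → ℝ) (ξ n ω) := by
  induction k generalizing φ with
  | zero =>
    simp only [Nat.cast_zero, add_zero, pow_zero, one_apply_eq_self]
    rw [condExp_of_stronglyMeasurable (past_le hξ n)
      ((sm_comp φ n).mono (comap_le_past le_rfl)) (integrable_comp hξ φ n)]
  | succ k ih =>
    have hn : n + ((k + 1 : ℕ) : ℤ) = (n + k) + 1 := by push_cast; ring
    have h1 : P[P[fun ω => (φ : S → ℝ) (ξ (n + ((k + 1 : ℕ) : ℤ)) ω) | past ξ (n + k)] | past ξ n]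
        =ᵐ[P] P[fun ω => (φ : S → ℝ) (ξ (n + ((k + 1 : ℕ) : ℤ)) ω) | past ξ n] :=
      condExp_condExp_of_le (past_mono (by omega)) (past_le hξ _)
    have h2 : P[P[fun ω => (φ : S → ℝ) (ξ (n + ((k + 1 : ℕ) : ℤ)) ω) | past ξ (n + k)] | past ξ n]
        =ᵐ[P] P[fun ω => (Q φ : S → ℝ) (ξ (n + k) ω) | past ξ n] := by
      refine condExp_congr_ae ?_
      rw [hn]
      exact step hξ hQ φ (n + k)
    refine h1.symm.trans (h2.trans ((ih (Q φ)).trans ?_))
    rw [pow_succ, mul_apply_eq_comp]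

end Operators

open Operators

theorem condExp_forward {Ω S : Type*} [MeasurableSpace Ω] [MeasurableSpace S] (P : Measure Ω)
    [IsProbabilityMeasure P] (ξ : ℤ → Ω → S) (κ : Kernel S S) [IsMarkovKernel κ]
    (hξ : IsStationaryMarkovChain P ξ κ)
    (Q : Lp ℝ 2 (P.map (ξ 0)) →L[ℝ] Lp ℝ 2 (P.map (ξ 0)))
    (hQ : IsMarkovOperator κ (P.map (ξ 0)) Q) (φ : Lp ℝ 2 (P.map (ξ 0))) (n : ℤ) (k : ℕ) :
    P[fun ω => (φ : S → ℝ) (ξ (n + k) ω) | MeasurableSpace.comap (ξ n) inferInstance]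
      =ᵐ[P] fun ω => ((Q ^ k) φ : S → ℝ) (ξ n ω) := by
  have h1 : P[P[fun ω => (φ : S → ℝ) (ξ (n + k) ω) | past ξ n] |
      MeasurableSpace.comap (ξ n) inferInstance] =ᵐ[P]
      P[fun ω => (φ : S → ℝ) (ξ (n + k) ω) | MeasurableSpace.comap (ξ n) inferInstance] :=
    condExp_condExp_of_le (comap_le_past le_rfl) (past_le hξ n)
  refine h1.symm.trans ((condExp_congr_ae (steps hξ hQ φ n k)).trans ?_)
  rw [condExp_of_stronglyMeasurable (comap_le hξ n) (sm_comp _ n) (integrable_comp hξ _ n)]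

theorem condExp_backward {Ω S : Type*} [MeasurableSpace Ω] [MeasurableSpace S] (P : Measure Ω)
    [IsProbabilityMeasure P] (ξ : ℤ → Ω → S) (κ : Kernel S S) [IsMarkovKernel κ]
    (hξ : IsStationaryMarkovChain P ξ κ)
    (Q : Lp ℝ 2 (P.map (ξ 0)) →L[ℝ] Lp ℝ 2 (P.map (ξ 0)))
    (hQ : IsMarkovOperator κ (P.map (ξ 0)) Q) (φ : Lp ℝ 2 (P.map (ξ 0))) (n : ℤ) (k : ℕ) :
    P[fun ω => (φ : S → ℝ) (ξ n ω) | MeasurableSpace.comap (ξ (n + k)) inferInstance]
      =ᵐ[P] fun ω => ((ContinuousLinearMap.adjoint Q ^ k) φ : S → ℝ) (ξ (n + k) ω) := by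
  symm
  refine ae_eq_condExp_of_forall_setIntegral_eq (comap_le hξ _) (integrable_comp hξ φ _)
    (fun D _ _ => (integrable_comp hξ _ _).integrableOn) (fun D hD _ => ?_)
    ((sm_comp _ _).aestronglyMeasurable)
  obtain ⟨C, hC, rfl⟩ := hD
  have hCm : MeasurableSet (ξ (n + k) ⁻¹' C) := hξ.measurable _ hC
  have hprob : IsProbabilityMeasure (P.map (ξ 0)) :=
    Measure.isProbabilityMeasure_map (hξ.measurable 0).aemeasurable
  let ψ : Lp ℝ 2 (P.map (ξ 0)) := indicatorConstLp 2 hC (measure_ne_top _ _) (1 : ℝ)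
  have hψ : (ψ : S → ℝ) =ᵐ[P.map (ξ 0)] C.indicator fun _ => (1 : ℝ) := indicatorConstLp_coeFn
  have hψ' : (fun ω => (ψ : S → ℝ) (ξ (n + k) ω)) =ᵐ[P]
      fun ω => (C.indicator fun _ => (1 : ℝ)) (ξ (n + k) ω) := by
    have : (ψ : S → ℝ) =ᵐ[P.map (ξ (n + k))] C.indicator fun _ => (1 : ℝ) := by
      rw [map_eq hξ (n + k)]
      exact hψ
    exact ae_of_ae_map (hξ.measurable _).aemeasurable this
  -- general facts
  have hset : ∀ f : Ω → ℝ, ∫ ω in ξ (n + k) ⁻¹' C, f ω ∂P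
      = ∫ ω, (ψ : S → ℝ) (ξ (n + k) ω) * f ω ∂P := by
    intro f
    rw [← integral_indicator hCm]
    refine integral_congr_ae ?_
    filter_upwards [hψ'] with ω hω
    rw [hω]
    by_cases h : ξ (n + k) ω ∈ C
    · rw [Set.indicator_of_mem (show ω ∈ ξ (n + k) ⁻¹' C from h), Set.indicator_of_mem h, one_mul]
    · rw [Set.indicator_of_notMem (show ω ∉ ξ (n + k) ⁻¹' C from h), Set.indicator_of_notMem h,
        zero_mul]
  have hinner : ∀ (m : ℤ) (f g : Lp ℝ 2 (P.map (ξ 0))),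
      ∫ ω, (f : S → ℝ) (ξ m ω) * (g : S → ℝ) (ξ m ω) ∂P = inner ℝ g f := by
    intro m f g
    rw [L2.inner_def]
    refine (integral_comp_eq hξ (F := fun x => (f : S → ℝ) x * (g : S → ℝ) x)
      ((Lp.stronglyMeasurable f).mul (Lp.stronglyMeasurable g)) m).trans ?_
    refine integral_congr_ae (ae_of_all _ fun ω => ?_)
    simp
  rw [hset, hset]
  -- left side
  have hL : ∫ ω, (ψ : S → ℝ) (ξ (n + k) ω) *
      ((ContinuousLinearMap.adjoint Q ^ k) φ : S → ℝ) (ξ (n + k) ω) ∂P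
      = inner ℝ ((ContinuousLinearMap.adjoint Q ^ k) φ) ψ := hinner (n + k) ψ _
  have hR : ∫ ω, (ψ : S → ℝ) (ξ (n + k) ω) * (φ : S → ℝ) (ξ n ω) ∂P
      = inner ℝ φ ((Q ^ k) ψ) := by
    rw [← hinner n ((Q ^ k) ψ) φ]
    have hmul : Integrable ((fun ω => (ψ : S → ℝ) (ξ (n + k) ω)) *
        fun ω => (φ : S → ℝ) (ξ n ω)) P :=
      (memLp_comp hξ ψ (n + k)).integrable_mul (memLp_comp hξ φ n)
    have h1 := condExp_mul_of_stronglyMeasurable_right (m := MeasurableSpace.comap (ξ n) inferInstance)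
      (sm_comp φ n) hmul (integrable_comp hξ ψ (n + k))
    have h2 : ∫ ω, ((fun ω => (ψ : S → ℝ) (ξ (n + k) ω)) * fun ω => (φ : S → ℝ) (ξ n ω)) ω ∂P
        = ∫ ω, (P[(fun ω => (ψ : S → ℝ) (ξ (n + k) ω)) * fun ω => (φ : S → ℝ) (ξ n ω) |
            MeasurableSpace.comap (ξ n) inferInstance]) ω ∂P :=
      (integral_condExp (comap_le hξ n)).symm
    refine h2.trans (integral_congr_ae ?_)
    filter_upwards [h1, condExp_forward P ξ κ hξ Q hQ ψ n k] with ω hω1 hω2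
    rw [hω1, Pi.mul_apply, hω2]
  rw [hL, hR]
  have hadj : ContinuousLinearMap.adjoint Q ^ k = ContinuousLinearMap.adjoint (Q ^ k) := by
    rw [← ContinuousLinearMap.star_eq_adjoint, ← ContinuousLinearMap.star_eq_adjoint, star_pow]
  rw [hadj, ContinuousLinearMap.adjoint_inner_left]

theorem opNorm_le_one {Ω S : Type*} [MeasurableSpace Ω] [MeasurableSpace S] (P : Measure Ω)
    [IsProbabilityMeasure P] (ξ : ℤ → Ω → S) (κ : Kernel S S) [IsMarkovKernel κ]
    (hξ : IsStationaryMarkovChain P ξ κ)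
    (Q : Lp ℝ 2 (P.map (ξ 0)) →L[ℝ] Lp ℝ 2 (P.map (ξ 0)))
    (hQ : IsMarkovOperator κ (P.map (ξ 0)) Q) : ‖Q‖ ≤ 1 := by
  refine ContinuousLinearMap.opNorm_le_bound _ zero_le_one fun φ => ?_
  rw [one_mul, Lp.norm_def, Lp.norm_def]
  refine ENNReal.toReal_mono (Lp.eLpNorm_ne_top φ) ?_
  have e : ∀ (f : Lp ℝ 2 (P.map (ξ 0))) (m : ℤ),
      eLpNorm (f : S → ℝ) 2 (P.map (ξ 0)) = eLpNorm (fun ω => (f : S → ℝ) (ξ m ω)) 2 P := by
    intro f m
    exact (eLpNorm_comp_eq hξ (Lp.stronglyMeasurable f) m).symm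
  rw [e (Q φ) 0, e φ 1, ← eLpNorm_congr_ae (step hξ hQ φ 0)]
  refine (eLpNorm_condExp_le_eLpNorm _ (by norm_num)).trans (le_of_eq ?_)
  norm_num

end Pool.MP_cd27db_pr
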