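import Mathlib
import Pool.Agent.W_MP_cd27db_pr.Defs

/-!
# A square function estimate for contractions of a Hilbert space

For a contraction `T` of a real Hilbert space and `x = √(I - T) g` we show
`∑_j ‖∑_{k=1}^{2^j} T^k x‖² / 2^j < ∞`. The proof: a von Neumann type inequality for finite
columns of real polynomials (`sum_sq_aeval_le`), obtained from the positivity of the Toeplitz
form `∑ p_m p_n ⟨T^|m-n| g, g⟩ ≥ ‖∑ p_m T^m g‖²` and integration against Fejér sums.
-/

open Filter Topology Polynomial Finset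

namespace Pool.MP_cd27db_pr

section Toeplitz

variable {H : Type*} [NormedAddCommGroup H] [InnerProductSpace ℝ H]

/-- The correlation sequence `⟨T^|k| g, g⟩`. -/
noncomputable def corr (T : H →L[ℝ] H) (g : H) (k : ℤ) : ℝ := inner ℝ ((T ^ k.natAbs) g) g

theorem corr_neg (T : H →L[ℝ] H) (g : H) (k : ℤ) : corr T g (-k) = corr T g k := by
  simp [corr]

theorem corr_zero (T : H →L[ℝ] H) (g : H) : corr T g 0 = ‖g‖ ^ 2 := by
  simp [corr]

/-- The Toeplitz form dominates `‖p(T) g‖²`. -/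
theorem norm_sq_le_toeplitz (T : H →L[ℝ] H) (hT : ‖T‖ ≤ 1) (g : H) (N : ℕ) :
    ∀ p : ℕ → ℝ, ‖∑ m ∈ range N, p m • (T ^ m) g‖ ^ 2
      ≤ ∑ m ∈ range N, ∑ n ∈ range N, p m * p n * corr T g ((m : ℤ) - n) := by
  induction N with
  | zero => intro p; simp
  | succ N ih =>
    intro p
    have h1 : ∑ m ∈ range (N + 1), p m • (T ^ m) g
        = p 0 • g + T (∑ m ∈ range N, p (m + 1) • (T ^ m) g) := by
      rw [Finset.sum_range_succ', map_sum, add_comm]
      congr 1
      refine Finset.sum_congr rfl fun m _ => ?_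
      rw [map_smul, pow_succ']
      rfl
    set y := ∑ m ∈ range N, p (m + 1) • (T ^ m) g with hy
    have h2 : ‖p 0 • g + T y‖ ^ 2 = p 0 ^ 2 * ‖g‖ ^ 2 + 2 * (p 0 * inner ℝ g (T y)) + ‖T y‖ ^ 2 := by
      rw [norm_add_sq_real, norm_smul, mul_pow, Real.norm_eq_abs, sq_abs, real_inner_smul_left]
    have h3 : ‖T y‖ ^ 2 ≤ ‖y‖ ^ 2 := by
      have : ‖T y‖ ≤ ‖y‖ := by
        calc ‖T y‖ ≤ ‖T‖ * ‖y‖ := T.le_opNorm y
          _ ≤ 1 * ‖y‖ := by gcongr
          _ = ‖y‖ := one_mul _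
      gcongr
    have h4 : inner ℝ g (T y) = ∑ m ∈ range N, p (m + 1) * corr T g ((m : ℤ) + 1) := by
      rw [hy, map_sum, inner_sum]
      refine Finset.sum_congr rfl fun m _ => ?_
      rw [map_smul, real_inner_smul_right, corr, real_inner_comm]
      congr 2
      have : ((m : ℤ) + 1).natAbs = m + 1 := by omega
      rw [this, pow_succ']
      rfl
    have h5 := ih (fun m => p (m + 1))
    rw [h1, h2, Finset.sum_range_succ']
    simp only [Finset.sum_range_succ' _ N]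
    have e1 : ∀ m n : ℕ, ((m + 1 : ℕ) : ℤ) - ((n + 1 : ℕ) : ℤ) = (m : ℤ) - n := by
      intro m n; push_cast; ring
    have e2 : ∀ m : ℕ, ((m + 1 : ℕ) : ℤ) - ((0 : ℕ) : ℤ) = (m : ℤ) + 1 := by
      intro m; push_cast; ring
    have e3 : ∀ n : ℕ, ((0 : ℕ) : ℤ) - ((n + 1 : ℕ) : ℤ) = -((n : ℤ) + 1) := by
      intro m; push_cast; ring
    simp only [e1, e2, e3, corr_neg]
    rw [Finset.sum_add_distrib]
    have e4 : ∑ m ∈ range N, p (m + 1) * p 0 * corr T g ((m : ℤ) + 1)
        = p 0 * ∑ m ∈ range N, p (m + 1) * corr T g ((m : ℤ) + 1) := by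
      rw [Finset.mul_sum]
      exact Finset.sum_congr rfl fun m _ => by ring
    have e5 : ∑ m ∈ range N, p 0 * p (m + 1) * corr T g ((m : ℤ) + 1)
        = p 0 * ∑ m ∈ range N, p (m + 1) * corr T g ((m : ℤ) + 1) := by
      rw [Finset.mul_sum]
      exact Finset.sum_congr rfl fun m _ => by ring
    rw [e4, e5, h4]
    have e6 : corr T g (((0 : ℕ) : ℤ) - ((0 : ℕ) : ℤ)) = ‖g‖ ^ 2 := by
      rw [sub_self, corr_zero]
    rw [e6]
    have h5' : ‖y‖ ^ 2 ≤ ∑ m ∈ range N, ∑ n ∈ range N,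
        p (m + 1) * p (n + 1) * corr T g ((m : ℤ) - n) := h5
    nlinarith [h3, h5']

/-- Fejér sums of the correlation sequence are nonnegative. -/
theorem fejer_nonneg (T : H →L[ℝ] H) (hT : ‖T‖ ≤ 1) (g : H) (L : ℕ) (θ : ℝ) :
    0 ≤ ∑ m ∈ range L, ∑ n ∈ range L,
      corr T g ((m : ℤ) - n) * Real.cos ((((m : ℤ) - n : ℤ) : ℝ) * θ) := by
  have h1 := norm_sq_le_toeplitz T hT g L (fun m => Real.cos (m * θ))
  have h2 := norm_sq_le_toeplitz T hT g L (fun m => Real.sin (m * θ))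
  have h3 : ∑ m ∈ range L, ∑ n ∈ range L,
      corr T g ((m : ℤ) - n) * Real.cos ((((m : ℤ) - n : ℤ) : ℝ) * θ)
      = ∑ m ∈ range L, ∑ n ∈ range L,
          Real.cos (m * θ) * Real.cos (n * θ) * corr T g ((m : ℤ) - n)
        + ∑ m ∈ range L, ∑ n ∈ range L,
          Real.sin (m * θ) * Real.sin (n * θ) * corr T g ((m : ℤ) - n) := by
    rw [← Finset.sum_add_distrib]
    refine Finset.sum_congr rfl fun m _ => ?_
    rw [← Finset.sum_add_distrib]
    refine Finset.sum_congr rfl fun n _ => ?_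
    have : (((m : ℤ) - n : ℤ) : ℝ) * θ = m * θ - n * θ := by push_cast; ring
    rw [this, Real.cos_sub]
    ring
  rw [h3]
  have := sq_nonneg ‖∑ m ∈ range L, Real.cos (m * θ) • (T ^ m) g‖
  have := sq_nonneg ‖∑ m ∈ range L, Real.sin (m * θ) • (T ^ m) g‖
  linarith

end Toeplitz

section Trig

theorem integral_cos_int (k : ℤ) :
    ∫ θ in (0 : ℝ)..(2 * Real.pi), Real.cos (k * θ) = if k = 0 then 2 * Real.pi else 0 := by
  split_ifs with h
  · subst h; simp
  · have hk : (k : ℝ) ≠ 0 := by exact_mod_cast h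
    rw [intervalIntegral.integral_comp_mul_left (fun x => Real.cos x) hk, integral_cos]
    have : (k : ℝ) * (2 * Real.pi) = k * (2 * Real.pi) := rfl
    have h2 : Real.sin ((k : ℝ) * (2 * Real.pi)) = 0 := by
      have := Real.sin_int_mul_pi (2 * k)
      rw [← this]; congr 1; push_cast; ring
    rw [h2]; simp

theorem integral_cos_mul_cos (a b : ℤ) :
    ∫ θ in (0 : ℝ)..(2 * Real.pi), Real.cos (a * θ) * Real.cos (b * θ)
      = Real.pi * ((if a = b then 1 else 0) + (if a = -b then 1 else 0)) := by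
  have h : ∀ θ : ℝ, Real.cos (a * θ) * Real.cos (b * θ)
      = (1 / 2) * (Real.cos (((a - b : ℤ) : ℝ) * θ) + Real.cos (((a + b : ℤ) : ℝ) * θ)) := by
    intro θ
    have e1 : ((a - b : ℤ) : ℝ) * θ = a * θ - b * θ := by push_cast; ring
    have e2 : ((a + b : ℤ) : ℝ) * θ = a * θ + b * θ := by push_cast; ring
    rw [e1, e2, Real.cos_sub, Real.cos_add]; ring
  simp_rw [h]
  rw [intervalIntegral.integral_const_mul, intervalIntegral.integral_add, integral_cos_int,
    integral_cos_int]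
  · have h1 : (a - b = 0) ↔ (a = b) := sub_eq_zero
    have h2 : (a + b = 0) ↔ (a = -b) := eq_neg_iff_add_eq_zero.symm
    simp only [h1, h2]
    split_ifs <;> ring
  · exact (by fun_prop : Continuous fun θ : ℝ => Real.cos (((a - b : ℤ) : ℝ) * θ)).intervalIntegrable _ _
  · exact (by fun_prop : Continuous fun θ : ℝ => Real.cos (((a + b : ℤ) : ℝ) * θ)).intervalIntegrable _ _

/-- The number of pairs with a given difference. -/
def cnt (L : ℕ) (a : ℤ) : ℝ :=
  ∑ m ∈ range L, ∑ n ∈ range L, if (m : ℤ) - n = a then 1 else 0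

theorem cnt_le (L : ℕ) (a : ℤ) : cnt L a ≤ L := by
  unfold cnt
  calc ∑ m ∈ range L, ∑ n ∈ range L, (if (m : ℤ) - n = a then (1 : ℝ) else 0)
      ≤ ∑ m ∈ range L, (1 : ℝ) := by
        refine Finset.sum_le_sum fun m _ => ?_
        rw [Finset.sum_ite, Finset.sum_const_zero, add_zero, Finset.sum_const, nsmul_eq_mul, mul_one]
        have : #{n ∈ range L | (m : ℤ) - (n : ℕ) = a} ≤ 1 := by
          rw [Finset.card_le_one]
          intro x hx y hy
          simp only [Finset.mem_filter] at hx hy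
          omega
        exact_mod_cast this
    _ = L := by simp

theorem le_cnt (L : ℕ) (a : ℤ) : (L : ℝ) - a.natAbs ≤ cnt L a := by
  unfold cnt
  have key : ∀ m ∈ range L, (if a ≤ m ∧ (m : ℤ) < a + L then (1 : ℝ) else 0)
      ≤ ∑ n ∈ range L, (if (m : ℤ) - n = a then (1 : ℝ) else 0) := by
    intro m hm
    split_ifs with h
    · have hn : ((m : ℤ) - a).toNat ∈ range L := by
        rw [Finset.mem_range]; omega
      refine le_trans ?_ (Finset.single_le_sum (f := fun n : ℕ => if (m : ℤ) - n = a then (1 : ℝ) else 0)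
        (fun i _ => by positivity) hn)
      have : (m : ℤ) - (((m : ℤ) - a).toNat : ℕ) = a := by omega
      simp only [this, if_true, le_refl]
    · exact Finset.sum_nonneg fun i _ => by positivity
  refine le_trans ?_ (Finset.sum_le_sum key)
  rw [Finset.sum_ite, Finset.sum_const_zero, add_zero, Finset.sum_const, nsmul_eq_mul, mul_one]
  have hcard : L ≤ #{m ∈ range L | a ≤ (m : ℕ) ∧ ((m : ℕ) : ℤ) < a + L} + a.natAbs := by
    have hsub : range L ⊆ {m ∈ range L | a ≤ (m : ℕ) ∧ ((m : ℕ) : ℤ) < a + L} ∪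
        (if 0 ≤ a then range a.natAbs else (Finset.Ico (L - a.natAbs) L)) := by
      intro m hm
      rw [Finset.mem_range] at hm
      rw [Finset.mem_union, Finset.mem_filter, Finset.mem_range]
      split_ifs with ha
      · rw [Finset.mem_range]; omega
      · rw [Finset.mem_Ico]; omega
    have h1 := Finset.card_le_card hsub
    rw [Finset.card_range] at h1
    refine h1.trans ((Finset.card_union_le _ _).trans ?_)
    gcongr
    split_ifs
    · rw [Finset.card_range]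
    · rw [Nat.card_Ico]; omega
  have : (L : ℝ) ≤ (#{m ∈ range L | a ≤ (m : ℕ) ∧ ((m : ℕ) : ℤ) < a + L} : ℝ) + a.natAbs := by
    exact_mod_cast hcard
  linarith

theorem tendsto_cnt (a : ℤ) : Tendsto (fun L : ℕ => cnt L a / L) atTop (𝓝 1) := by
  have h1 : Tendsto (fun L : ℕ => 1 - (a.natAbs : ℝ) / L) atTop (𝓝 1) := by
    have := (tendsto_const_div_atTop_nhds_zero_nat (a.natAbs : ℝ))
    simpa using this.const_sub 1
  refine tendsto_of_tendsto_of_tendsto_of_le_of_le' h1 tendsto_const_nhds ?_ ?_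
  · filter_upwards [eventually_gt_atTop 0] with L hL
    have hL' : (0 : ℝ) < L := by exact_mod_cast hL
    rw [le_div_iff₀ hL', sub_mul, one_mul, div_mul_cancel₀ _ hL'.ne']
    exact le_cnt L a
  · filter_upwards [eventually_gt_atTop 0] with L hL
    have hL' : (0 : ℝ) < L := by exact_mod_cast hL
    rw [div_le_one hL']
    exact cnt_le L a

end Trig

section Main

variable {H : Type*} [NormedAddCommGroup H] [InnerProductSpace ℝ H]

/-- Integrated form: the trigonometric bound transfers to the Fejér weighted form. -/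
theorem fejer_transfer (T : H →L[ℝ] H) (hT : ‖T‖ ≤ 1) (g : H) {ι : Type*} (s : Finset ι)
    (α : ι → ℝ) (a : ι → ℤ) (K : ℝ)
    (hK : ∀ θ : ℝ, ∑ i ∈ s, α i * Real.cos (a i * θ) ≤ K) (L : ℕ) :
    ∑ i ∈ s, α i * ((cnt L (a i) + cnt L (-(a i))) / 2 * corr T g (a i))
      ≤ K * (L * ‖g‖ ^ 2) := by
  classical
  set Φ : ℝ → ℝ := fun θ => ∑ m ∈ range L, ∑ n ∈ range L,
      corr T g ((m : ℤ) - n) * Real.cos ((((m : ℤ) - n : ℤ) : ℝ) * θ) with hΦ
  set q : ℝ → ℝ := fun θ => ∑ i ∈ s, α i * Real.cos (a i * θ) with hq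
  have hΦc : Continuous Φ := by fun_prop
  have hqc : Continuous q := by fun_prop
  have hle : ∫ θ in (0 : ℝ)..(2 * Real.pi), q θ * Φ θ
      ≤ ∫ θ in (0 : ℝ)..(2 * Real.pi), K * Φ θ := by
    refine intervalIntegral.integral_mono_on (by positivity)
      ((hqc.mul hΦc).intervalIntegrable _ _) ((continuous_const.mul hΦc).intervalIntegrable _ _) ?_
    intro θ _
    exact mul_le_mul_of_nonneg_right (hK θ) (fejer_nonneg T hT g L θ)
  have h1 : ∫ θ in (0 : ℝ)..(2 * Real.pi), K * Φ θ = 2 * Real.pi * (K * (L * ‖g‖ ^ 2)) := by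
    rw [intervalIntegral.integral_const_mul]
    have : ∫ θ in (0 : ℝ)..(2 * Real.pi), Φ θ = ∑ m ∈ range L, ∑ n ∈ range L,
        corr T g ((m : ℤ) - n) * (if (m : ℤ) - n = 0 then 2 * Real.pi else 0) := by
      simp only [hΦ]
      rw [intervalIntegral.integral_finsetSum
        (fun (m : ℕ) _ => (by fun_prop : Continuous fun θ : ℝ => ∑ n ∈ range L,
          corr T g ((m : ℤ) - n) * Real.cos ((((m : ℤ) - n : ℤ) : ℝ) * θ)).intervalIntegrable _ _)]
      refine Finset.sum_congr rfl fun m _ => ?_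
      rw [intervalIntegral.integral_finsetSum
        (fun (n : ℕ) _ => (by fun_prop : Continuous fun θ : ℝ =>
          corr T g ((m : ℤ) - n) * Real.cos ((((m : ℤ) - n : ℤ) : ℝ) * θ)).intervalIntegrable _ _)]
      refine Finset.sum_congr rfl fun n _ => ?_
      rw [intervalIntegral.integral_const_mul, integral_cos_int]
    rw [this]
    have h2 : ∀ m ∈ range L, ∑ n ∈ range L,
        corr T g ((m : ℤ) - n) * (if (m : ℤ) - n = 0 then 2 * Real.pi else 0)
        = ‖g‖ ^ 2 * (2 * Real.pi) := by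
      intro m hm
      rw [Finset.sum_eq_single_of_mem m hm]
      · simp [corr_zero]
      · intro n _ hn
        have : ¬ ((m : ℤ) - n = 0) := by omega
        simp [this]
    rw [Finset.sum_congr rfl h2, Finset.sum_const, Finset.card_range, nsmul_eq_mul]
    ring
  have h2 : ∫ θ in (0 : ℝ)..(2 * Real.pi), q θ * Φ θ
      = 2 * Real.pi * ∑ i ∈ s, α i * ((cnt L (a i) + cnt L (-(a i))) / 2 * corr T g (a i)) := by
    have e1 : ∀ θ, q θ * Φ θ = ∑ i ∈ s, ∑ m ∈ range L, ∑ n ∈ range L,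
        (α i * corr T g ((m : ℤ) - n)) *
          (Real.cos (a i * θ) * Real.cos ((((m : ℤ) - n : ℤ) : ℝ) * θ)) := by
      intro θ
      simp only [hq, hΦ]
      rw [Finset.sum_mul]
      refine Finset.sum_congr rfl fun i _ => ?_
      rw [Finset.mul_sum]
      refine Finset.sum_congr rfl fun m _ => ?_
      rw [Finset.mul_sum]
      refine Finset.sum_congr rfl fun n _ => ?_
      ring
    simp_rw [e1]
    rw [intervalIntegral.integral_finsetSum
      (fun i _ => (by fun_prop : Continuous fun θ : ℝ => ∑ m ∈ range L, ∑ n ∈ range L,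
        (α i * corr T g ((m : ℤ) - n)) *
          (Real.cos (a i * θ) * Real.cos ((((m : ℤ) - n : ℤ) : ℝ) * θ))).intervalIntegrable _ _),
      Finset.mul_sum]
    refine Finset.sum_congr rfl fun i _ => ?_
    rw [intervalIntegral.integral_finsetSum
      (fun (m : ℕ) _ => (by fun_prop : Continuous fun θ : ℝ => ∑ n ∈ range L,
        (α i * corr T g ((m : ℤ) - n)) *
          (Real.cos (a i * θ) * Real.cos ((((m : ℤ) - n : ℤ) : ℝ) * θ))).intervalIntegrable _ _)]
    have e2 : ∀ m ∈ range L, ∫ θ in (0 : ℝ)..(2 * Real.pi), ∑ n ∈ range L,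
        (α i * corr T g ((m : ℤ) - n)) *
          (Real.cos (a i * θ) * Real.cos ((((m : ℤ) - n : ℤ) : ℝ) * θ))
        = ∑ n ∈ range L, (α i * corr T g (a i)) * (Real.pi *
          ((if (m : ℤ) - n = a i then 1 else 0) + (if (m : ℤ) - n = -(a i) then 1 else 0))) := by
      intro m _
      rw [intervalIntegral.integral_finsetSum
        (fun (n : ℕ) _ => (by fun_prop : Continuous fun θ : ℝ =>
          (α i * corr T g ((m : ℤ) - n)) *
            (Real.cos (a i * θ) * Real.cos ((((m : ℤ) - n : ℤ) : ℝ) * θ))).intervalIntegrable _ _)]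
      refine Finset.sum_congr rfl fun n _ => ?_
      rw [intervalIntegral.integral_const_mul, integral_cos_mul_cos]
      by_cases h1 : a i = (m : ℤ) - n
      · by_cases h2 : a i = -((m : ℤ) - n)
        · have h1' : (m : ℤ) - n = a i := h1.symm
          have h2' : (m : ℤ) - n = -(a i) := by omega
          rw [if_pos h1, if_pos h2, if_pos h1', if_pos h2', ← h1]
        · have h1' : (m : ℤ) - n = a i := h1.symm
          have h2' : ¬ ((m : ℤ) - n = -(a i)) := by omega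
          rw [if_pos h1, if_neg h2, if_pos h1', if_neg h2', ← h1]
      · by_cases h2 : a i = -((m : ℤ) - n)
        · have h1' : ¬ ((m : ℤ) - n = a i) := fun h => h1 h.symm
          have h2' : (m : ℤ) - n = -(a i) := by omega
          rw [if_neg h1, if_pos h2, if_neg h1', if_pos h2', h2', corr_neg]
        · have h1' : ¬ ((m : ℤ) - n = a i) := fun h => h1 h.symm
          have h2' : ¬ ((m : ℤ) - n = -(a i)) := by omega
          rw [if_neg h1, if_neg h2, if_neg h1', if_neg h2']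
          simp
    rw [Finset.sum_congr rfl e2]
    simp only [cnt]
    simp only [← Finset.mul_sum, Finset.sum_add_distrib]
    ring
  have hpi : 0 < 2 * Real.pi := by positivity
  rw [h1, h2] at hle
  exact le_of_mul_le_mul_left hle hpi

/-- The trigonometric bound transfers to the Toeplitz form. -/
theorem toeplitz_transfer (T : H →L[ℝ] H) (hT : ‖T‖ ≤ 1) (g : H) {ι : Type*} (s : Finset ι)
    (α : ι → ℝ) (a : ι → ℤ) (K : ℝ)
    (hK : ∀ θ : ℝ, ∑ i ∈ s, α i * Real.cos (a i * θ) ≤ K) :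
    ∑ i ∈ s, α i * corr T g (a i) ≤ K * ‖g‖ ^ 2 := by
  have hlim : Tendsto (fun L : ℕ =>
      ∑ i ∈ s, α i * ((cnt L (a i) / L + cnt L (-(a i)) / L) / 2 * corr T g (a i))) atTop
      (𝓝 (∑ i ∈ s, α i * (((1 : ℝ) + 1) / 2 * corr T g (a i)))) := by
    refine tendsto_finsetSum _ fun i _ => ?_
    exact (((((tendsto_cnt (a i)).add (tendsto_cnt (-(a i)))).div_const 2).mul_const _).const_mul _)
  have hval : ∑ i ∈ s, α i * (((1 : ℝ) + 1) / 2 * corr T g (a i)) = ∑ i ∈ s, α i * corr T g (a i) := by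
    refine Finset.sum_congr rfl fun i _ => ?_
    ring
  rw [hval] at hlim
  refine le_of_tendsto hlim ?_
  filter_upwards [eventually_gt_atTop 0] with L hL
  have hL' : (0 : ℝ) < L := by exact_mod_cast hL
  have h := fejer_transfer T hT g s α a K hK L
  have e : ∑ i ∈ s, α i * ((cnt L (a i) / L + cnt L (-(a i)) / L) / 2 * corr T g (a i))
      = (∑ i ∈ s, α i * ((cnt L (a i) + cnt L (-(a i))) / 2 * corr T g (a i))) / L := by
    rw [Finset.sum_div]
    refine Finset.sum_congr rfl fun i _ => ?_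
    ring
  rw [e, div_le_iff₀ hL']
  calc _ ≤ K * (L * ‖g‖ ^ 2) := h
    _ = K * ‖g‖ ^ 2 * L := by ring

theorem norm_sq_aeval_exp (P : ℝ[X]) (N : ℕ) (hN : P.natDegree < N) (θ : ℝ) :
    ‖aeval (Complex.exp (θ * Complex.I)) P‖ ^ 2
      = ∑ m ∈ range N, ∑ n ∈ range N, P.coeff m * P.coeff n *
          Real.cos ((((m : ℤ) - n : ℤ) : ℝ) * θ) := by
  rw [Polynomial.aeval_eq_sum_range' hN]
  have hz : ∀ m : ℕ, P.coeff m • Complex.exp (θ * Complex.I) ^ m
      = ((P.coeff m * Real.cos (m * θ) : ℝ) : ℂ) + ((P.coeff m * Real.sin (m * θ) : ℝ) : ℂ) * Complex.I := by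
    intro m
    rw [← Complex.exp_nat_mul, Complex.real_smul]
    have : (m : ℂ) * (θ * Complex.I) = ((m * θ : ℝ) : ℂ) * Complex.I := by push_cast; ring
    rw [this, Complex.exp_mul_I, ← Complex.ofReal_cos, ← Complex.ofReal_sin]
    push_cast
    ring
  simp_rw [hz]
  rw [Finset.sum_add_distrib, ← Finset.sum_mul, ← Complex.ofReal_sum, ← Complex.ofReal_sum]
  rw [← Complex.normSq_eq_norm_sq, Complex.normSq_add_mul_I]
  rw [sq, sq, Finset.sum_mul_sum, Finset.sum_mul_sum, ← Finset.sum_add_distrib]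
  refine Finset.sum_congr rfl fun m _ => ?_
  rw [← Finset.sum_add_distrib]
  refine Finset.sum_congr rfl fun n _ => ?_
  have : (((m : ℤ) - n : ℤ) : ℝ) * θ = m * θ - n * θ := by push_cast; ring
  rw [this, Real.cos_sub]
  ring

/-- Von Neumann inequality for a column of real polynomials. -/
theorem sum_sq_aeval_le (T : H →L[ℝ] H) (hT : ‖T‖ ≤ 1) (g : H) {ι : Type*} (s : Finset ι)
    (P : ι → ℝ[X]) (K : ℝ)
    (hK : ∀ θ : ℝ, ∑ i ∈ s, ‖aeval (Complex.exp (θ * Complex.I)) (P i)‖ ^ 2 ≤ K) :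
    ∑ i ∈ s, ‖aeval T (P i) g‖ ^ 2 ≤ K * ‖g‖ ^ 2 := by
  classical
  obtain ⟨N, hN⟩ : ∃ N, ∀ i ∈ s, (P i).natDegree < N := by
    refine ⟨(s.sup fun i => (P i).natDegree) + 1, fun i hi => ?_⟩
    exact Nat.lt_succ_of_le (Finset.le_sup (f := fun i => (P i).natDegree) hi)
  have h1 : ∀ i ∈ s, ‖aeval T (P i) g‖ ^ 2 ≤ ∑ m ∈ range N, ∑ n ∈ range N,
      (P i).coeff m * (P i).coeff n * corr T g ((m : ℤ) - n) := by
    intro i hi
    have := norm_sq_le_toeplitz T hT g N (fun m => (P i).coeff m)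
    rw [Polynomial.aeval_eq_sum_range' (hN i hi)]
    simpa [_root_.sum_apply] using this
  refine (Finset.sum_le_sum h1).trans ?_
  have h2 := toeplitz_transfer T hT g (s ×ˢ (range N ×ˢ range N))
    (fun x => (P x.1).coeff x.2.1 * (P x.1).coeff x.2.2) (fun x => (x.2.1 : ℤ) - x.2.2) K ?_
  · rw [Finset.sum_product] at h2
    refine le_trans (le_of_eq ?_) h2
    refine Finset.sum_congr rfl fun i _ => ?_
    rw [Finset.sum_product]
  · intro θ
    rw [Finset.sum_product]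
    refine le_trans (le_of_eq ?_) (hK θ)
    refine Finset.sum_congr rfl fun i hi => ?_
    rw [Finset.sum_product, norm_sq_aeval_exp (P i) N (hN i hi)]

end Main

section Coeff

/-- `c_n = (2n choose n) / 4^n`, the tail of the coefficients `δ_n`. -/
noncomputable def cB (n : ℕ) : ℝ := (Nat.centralBinom n : ℝ) / 4 ^ n

theorem cB_zero : cB 0 = 1 := by simp [cB]

theorem cB_nonneg (n : ℕ) : 0 ≤ cB n := by unfold cB; positivity

theorem cB_succ (n : ℕ) : cB (n + 1) * (2 * (n + 1)) = cB n * (2 * n + 1) := by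
  have h : ((n : ℝ) + 1) * (Nat.centralBinom (n + 1) : ℝ) = 2 * (2 * n + 1) * Nat.centralBinom n := by
    exact_mod_cast Nat.succ_mul_centralBinom_succ n
  unfold cB
  rw [pow_succ]
  field_simp
  linarith

theorem sqrtCoeff_succ_mul (n : ℕ) : sqrtCoeff (n + 1) * (2 * (n : ℝ) + 1) = cB (n + 1) := by
  unfold sqrtCoeff cB
  have h1 : (2 * (((n + 1 : ℕ)) : ℝ) - 1) = 2 * n + 1 := by push_cast; ring
  rw [h1]
  have h2 : (2 * (n : ℝ) + 1) ≠ 0 := by positivity
  field_simp

theorem sqrtCoeff_succ (n : ℕ) : sqrtCoeff (n + 1) = cB n - cB (n + 1) := by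
  have h2 : (2 * (n : ℝ) + 1) ≠ 0 := by positivity
  have h3 := sqrtCoeff_succ_mul n
  have h4 := cB_succ n
  have : sqrtCoeff (n + 1) * (2 * (n : ℝ) + 1) = (cB n - cB (n + 1)) * (2 * (n : ℝ) + 1) := by
    rw [h3]; linarith
  exact mul_right_cancel₀ h2 this

theorem succ_mul_sqrtCoeff (n : ℕ) : ((n : ℝ) + 1) * sqrtCoeff (n + 1) = cB n / 2 := by
  have h2 : (2 * (n : ℝ) + 1) ≠ 0 := by positivity
  have h3 := sqrtCoeff_succ_mul n
  have h4 := cB_succ n
  have : ((n : ℝ) + 1) * sqrtCoeff (n + 1) * (2 * (n : ℝ) + 1) = (cB n / 2) * (2 * (n : ℝ) + 1) := by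
    rw [mul_assoc, h3]; linarith
  exact mul_right_cancel₀ h2 this

theorem sqrtCoeff_nonneg (n : ℕ) : 0 ≤ sqrtCoeff (n + 1) := by
  have h2 : 0 < (2 * (n : ℝ) + 1) := by positivity
  have h3 := sqrtCoeff_succ_mul n
  have := cB_nonneg (n + 1)
  rw [← h3] at this
  exact nonneg_of_mul_nonneg_left this h2

theorem sum_cB (n : ℕ) : ∑ k ∈ range n, cB k = 2 * n * cB n := by
  induction n with
  | zero => simp
  | succ n ih =>
    rw [Finset.sum_range_succ, ih]
    have := cB_succ n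
    push_cast
    linarith

theorem sum_sqrtCoeff (n : ℕ) : ∑ k ∈ range n, sqrtCoeff (k + 1) = 1 - cB n := by
  induction n with
  | zero => simp [cB_zero]
  | succ n ih => rw [Finset.sum_range_succ, ih, sqrtCoeff_succ]; ring

theorem cB_sq_le (n : ℕ) : cB n ^ 2 * (2 * n + 1) ≤ 1 := by
  induction n with
  | zero => simp [cB_zero]
  | succ n ih =>
    have h := cB_succ n
    have hn : (0 : ℝ) < 2 * (n + 1) := by positivity
    have h1 : cB (n + 1) = cB n * (2 * n + 1) / (2 * (n + 1)) := by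
      rw [eq_div_iff hn.ne']; exact h
    rw [h1]
    push_cast
    have h2 : (cB n * (2 * n + 1) / (2 * (n + 1))) ^ 2 * (2 * ((n : ℝ) + 1) + 1)
        = (cB n ^ 2 * (2 * n + 1)) * ((2 * n + 1) * (2 * ((n : ℝ) + 1) + 1) / (2 * (n + 1)) ^ 2) := by
      field_simp
    rw [h2]
    have h3 : (2 * (n : ℝ) + 1) * (2 * ((n : ℝ) + 1) + 1) / (2 * (n + 1)) ^ 2 ≤ 1 := by
      rw [div_le_one (by positivity)]
      nlinarith
    have h4 : 0 ≤ (2 * (n : ℝ) + 1) * (2 * ((n : ℝ) + 1) + 1) / (2 * (n + 1)) ^ 2 := by positivity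
    have h5 : 0 ≤ cB n ^ 2 * (2 * n + 1) := by positivity
    nlinarith

theorem tendsto_cB : Tendsto cB atTop (𝓝 0) := by
  have h1 : Tendsto (fun n => cB n ^ 2) atTop (𝓝 0) := by
    have h2 : Tendsto (fun n : ℕ => 1 / ((n : ℝ) + 1)) atTop (𝓝 0) :=
      tendsto_one_div_add_atTop_nhds_zero_nat
    refine squeeze_zero (fun n => sq_nonneg _) (fun n => ?_) h2
    rw [le_div_iff₀ (by positivity)]
    have := cB_sq_le n
    nlinarith [sq_nonneg (cB n), mul_nonneg (sq_nonneg (cB n)) (Nat.cast_nonneg (α := ℝ) n)]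
  have h3 := h1.sqrt
  simpa [Real.sqrt_sq (cB_nonneg _)] using h3

theorem summable_sqrtCoeff : Summable fun n : ℕ => sqrtCoeff (n + 1) := by
  refine summable_of_sum_range_le (c := 1) sqrtCoeff_nonneg fun n => ?_
  rw [sum_sqrtCoeff]
  have := cB_nonneg n
  linarith

theorem hasSum_sqrtCoeff : HasSum (fun n : ℕ => sqrtCoeff (n + 1)) 1 := by
  rw [summable_sqrtCoeff.hasSum_iff_tendsto_nat]
  simp_rw [sum_sqrtCoeff]
  simpa using tendsto_cB.const_sub 1

end Coeff

section Pointwise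

theorem norm_one_sub_pow_le (z : ℂ) (hz : ‖z‖ = 1) (n : ℕ) : ‖1 - z ^ n‖ ≤ n * ‖1 - z‖ := by
  have h : 1 - z ^ n = (1 - z) * ∑ i ∈ range n, z ^ i := by
    rw [mul_comm]; exact (geom_sum_mul_neg z n).symm
  rw [h, norm_mul, mul_comm]
  gcongr
  calc ‖∑ i ∈ range n, z ^ i‖ ≤ ∑ i ∈ range n, ‖z ^ i‖ := norm_sum_le _ _
    _ = n := by simp [hz]

theorem norm_one_sub_pow_le_two (z : ℂ) (hz : ‖z‖ = 1) (n : ℕ) : ‖1 - z ^ n‖ ≤ 2 := by
  calc ‖1 - z ^ n‖ ≤ ‖(1 : ℂ)‖ + ‖z ^ n‖ := norm_sub_le _ _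
    _ = 2 := by rw [norm_pow, hz]; norm_num

/-- Partial sums of `√(1 - z) = ∑ δ_n (1 - z^n)`. -/
theorem norm_sq_partial_le (z : ℂ) (hz : ‖z‖ = 1) (M : ℕ) :
    ‖∑ n ∈ range M, (sqrtCoeff (n + 1) : ℂ) * (1 - z ^ (n + 1))‖ ^ 2 ≤ 8 * ‖1 - z‖ := by
  rcases (norm_nonneg (1 - z)).eq_or_lt with h0 | h0
  · have : z = 1 := by
      have : 1 - z = 0 := norm_eq_zero.mp h0.symm
      exact (sub_eq_zero.mp this).symm
    subst this
    simp
  · set t := ‖1 - z‖ with ht
    set K := ⌊2 / t⌋₊ with hK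
    have hK1 : (K : ℝ) * t ≤ 2 := by
      have : (K : ℝ) ≤ 2 / t := Nat.floor_le (by positivity)
      rwa [le_div_iff₀ h0] at this
    have hK2 : 2 < ((K : ℝ) + 1) * t := by
      have : 2 / t < (K : ℝ) + 1 := Nat.lt_floor_add_one _
      rwa [div_lt_iff₀ h0] at this
    have h1 : ‖∑ n ∈ range M, (sqrtCoeff (n + 1) : ℂ) * (1 - z ^ (n + 1))‖ ≤ 4 * cB K := by
      calc ‖∑ n ∈ range M, (sqrtCoeff (n + 1) : ℂ) * (1 - z ^ (n + 1))‖
          ≤ ∑ n ∈ range M, ‖(sqrtCoeff (n + 1) : ℂ) * (1 - z ^ (n + 1))‖ := norm_sum_le _ _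
        _ = ∑ n ∈ range M, sqrtCoeff (n + 1) * ‖1 - z ^ (n + 1)‖ := by
            refine Finset.sum_congr rfl fun n _ => ?_
            rw [norm_mul, Complex.norm_real, Real.norm_of_nonneg (sqrtCoeff_nonneg n)]
        _ ≤ ∑ n ∈ range (K + M), sqrtCoeff (n + 1) * ‖1 - z ^ (n + 1)‖ := by
            refine Finset.sum_le_sum_of_subset_of_nonneg ?_ fun n _ _ => ?_
            · intro n hn
              rw [Finset.mem_range] at hn ⊢
              omega
            · exact mul_nonneg (sqrtCoeff_nonneg n) (norm_nonneg _)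
        _ = ∑ n ∈ range K, sqrtCoeff (n + 1) * ‖1 - z ^ (n + 1)‖
            + ∑ n ∈ range M, sqrtCoeff (K + n + 1) * ‖1 - z ^ (K + n + 1)‖ :=
            Finset.sum_range_add _ _ _
        _ ≤ ∑ n ∈ range K, (cB n / 2) * t + ∑ n ∈ range M, sqrtCoeff (K + n + 1) * 2 := by
            refine add_le_add (Finset.sum_le_sum fun n _ => ?_) (Finset.sum_le_sum fun n _ => ?_)
            · rw [← succ_mul_sqrtCoeff]
              have := norm_one_sub_pow_le z hz (n + 1)
              rw [← ht] at this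
              push_cast at this
              nlinarith [sqrtCoeff_nonneg n]
            · exact mul_le_mul_of_nonneg_left (norm_one_sub_pow_le_two z hz _) (sqrtCoeff_nonneg _)
        _ = K * t * cB K + 2 * ∑ n ∈ range M, sqrtCoeff (K + n + 1) := by
            rw [← Finset.sum_mul, ← Finset.sum_div, sum_cB, ← Finset.sum_mul]; ring
        _ ≤ 2 * cB K + 2 * cB K := by
            have e : ∑ n ∈ range M, sqrtCoeff (K + n + 1) = cB K - cB (K + M) := by
              have := Finset.sum_range_add (fun k => sqrtCoeff (k + 1)) K M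
              rw [sum_sqrtCoeff, sum_sqrtCoeff] at this
              linarith
            rw [e]
            have := cB_nonneg (K + M)
            have := cB_nonneg K
            nlinarith
        _ = 4 * cB K := by ring
    have h2 : ‖∑ n ∈ range M, (sqrtCoeff (n + 1) : ℂ) * (1 - z ^ (n + 1))‖ ^ 2 ≤ (4 * cB K) ^ 2 := by
      gcongr
    refine h2.trans ?_
    have h3 := cB_sq_le K
    have h4 : 0 ≤ cB K ^ 2 := sq_nonneg _
    have hKn : (0 : ℝ) ≤ K := Nat.cast_nonneg K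
    have h5 : cB K ^ 2 * 2 ≤ t := by
      have a1 : cB K ^ 2 * 2 ≤ cB K ^ 2 * (((K : ℝ) + 1) * t) := by gcongr
      have a2 : cB K ^ 2 * (((K : ℝ) + 1) * t) ≤ cB K ^ 2 * ((2 * (K : ℝ) + 1) * t) := by
        gcongr; linarith
      have a3 : cB K ^ 2 * ((2 * (K : ℝ) + 1) * t) ≤ 1 * t := by
        rw [← mul_assoc]; gcongr
      linarith
    nlinarith

theorem min_le_telescope (s : ℝ) (hs : 0 < s) :
    min s (4 / s) ≤ 24 * (2 * s / (2 * s + 2)) - 24 * (s / (s + 2)) := by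
  have e : 24 * (2 * s / (2 * s + 2)) - 24 * (s / (s + 2)) = 24 * (s / ((s + 1) * (s + 2))) := by
    field_simp
    ring
  rw [e]
  rcases le_total s 1 with h | h
  · refine (min_le_left _ _).trans ?_
    rw [mul_div_assoc', le_div_iff₀ (by positivity)]
    nlinarith [mul_nonneg hs.le (sub_nonneg.mpr h), mul_pos hs hs]
  · refine (min_le_right _ _).trans ?_
    rw [mul_div_assoc', div_le_div_iff₀ hs (by positivity)]
    nlinarith

theorem sum_min_le (t : ℝ) (ht : 0 < t) (J : ℕ) :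
    ∑ j ∈ range J, min ((2 : ℝ) ^ j * t) (4 / (2 ^ j * t)) ≤ 24 := by
  have h : ∀ J : ℕ, ∑ j ∈ range J, min ((2 : ℝ) ^ j * t) (4 / (2 ^ j * t))
      ≤ 24 * (2 ^ J * t / (2 ^ J * t + 2)) - 24 * (t / (t + 2)) := by
    intro J
    induction J with
    | zero => simp
    | succ J ih =>
      rw [Finset.sum_range_succ]
      have := min_le_telescope (2 ^ J * t) (by positivity)
      have e : (2 : ℝ) ^ (J + 1) * t = 2 * (2 ^ J * t) := by ring
      rw [e]
      linarith
  have h1 := h J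
  have h2 : (2 : ℝ) ^ J * t / (2 ^ J * t + 2) ≤ 1 := by
    rw [div_le_one (by positivity)]; linarith
  have h3 : 0 ≤ t / (t + 2) := by positivity
  linarith

/-- The pointwise square function bound. -/
theorem sum_pointwise_le (z : ℂ) (hz : ‖z‖ = 1) (M J : ℕ) :
    ∑ j ∈ range J, ‖(∑ k ∈ Finset.Icc 1 (2 ^ j), z ^ k) *
      ∑ n ∈ range M, (sqrtCoeff (n + 1) : ℂ) * (1 - z ^ (n + 1))‖ ^ 2 / 2 ^ j ≤ 192 := by
  rcases (norm_nonneg (1 - z)).eq_or_lt with h0 | h0
  · have : z = 1 := by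
      have : 1 - z = 0 := norm_eq_zero.mp h0.symm
      exact (sub_eq_zero.mp this).symm
    subst this
    simp
  · set t := ‖1 - z‖ with ht
    have hterm : ∀ j ∈ range J, ‖(∑ k ∈ Finset.Icc 1 (2 ^ j), z ^ k) *
        ∑ n ∈ range M, (sqrtCoeff (n + 1) : ℂ) * (1 - z ^ (n + 1))‖ ^ 2 / 2 ^ j
        ≤ 8 * min ((2 : ℝ) ^ j * t) (4 / (2 ^ j * t)) := by
      intro j _
      have hA := norm_sq_partial_le z hz M
      rw [← ht] at hA
      set A := ‖∑ n ∈ range M, (sqrtCoeff (n + 1) : ℂ) * (1 - z ^ (n + 1))‖ with hAdef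
      set V := ‖∑ k ∈ Finset.Icc 1 (2 ^ j), z ^ k‖ with hV
      have hV1 : V ≤ 2 ^ j := by
        calc V ≤ ∑ k ∈ Finset.Icc 1 (2 ^ j), ‖z ^ k‖ := norm_sum_le _ _
          _ = 2 ^ j := by simp [hz]
      have hV2 : V * t ≤ 2 := by
        rw [hV, ht, ← norm_mul]
        have e : (∑ k ∈ Finset.Icc 1 (2 ^ j), z ^ k) * (1 - z) = z * (1 - z ^ (2 ^ j)) := by
          have e1 : ∑ k ∈ Finset.Icc 1 (2 ^ j), z ^ k = z * ∑ k ∈ range (2 ^ j), z ^ k := by
            rw [Finset.mul_sum, Finset.range_eq_Ico,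
              ← Finset.Ico_succ_right_eq_Icc]
            rw [Finset.sum_Ico_eq_sum_range]
            simp only [Nat.succ_eq_succ, Nat.succ_sub_one, Nat.Ico_zero_eq_range]
            refine Finset.sum_congr (by simp) fun k _ => ?_
            rw [pow_add, pow_one]
          rw [e1, mul_assoc, geom_sum_mul_neg]
        rw [e, norm_mul, hz, one_mul]
        exact norm_one_sub_pow_le_two z hz _
      have hVn : 0 ≤ V := norm_nonneg _
      rw [norm_mul, mul_pow, ← hAdef, ← hV]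
      have h2j : (0 : ℝ) < 2 ^ j := by positivity
      rw [mul_min_of_nonneg _ _ (by norm_num : (0 : ℝ) ≤ 8)]
      refine le_min ?_ ?_
      · rw [div_le_iff₀ h2j]
        calc V ^ 2 * A ^ 2 ≤ (2 ^ j) ^ 2 * (8 * t) := by gcongr
          _ = 8 * (2 ^ j * t) * 2 ^ j := by ring
      · rw [div_le_iff₀ h2j]
        have e : 8 * (4 / (2 ^ j * t)) * 2 ^ j = 32 / t := by
          field_simp
          ring
        rw [e, le_div_iff₀ h0]
        calc V ^ 2 * A ^ 2 * t ≤ V ^ 2 * (8 * t) * t := by gcongr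
          _ = 8 * (V * t) ^ 2 := by ring
          _ ≤ 8 * 2 ^ 2 := by gcongr
          _ = 32 := by norm_num
    refine (Finset.sum_le_sum hterm).trans ?_
    rw [← Finset.mul_sum]
    have := sum_min_le t h0 J
    linarith

end Pointwise

section Final

variable {H : Type*} [NormedAddCommGroup H] [InnerProductSpace ℝ H]

theorem finite_square_function (T : H →L[ℝ] H) (hT : ‖T‖ ≤ 1) (g : H) (M J : ℕ) :
    ∑ j ∈ range J, ‖(∑ k ∈ Finset.Icc 1 (2 ^ j), T ^ k)
      ((∑ n ∈ range M, sqrtCoeff (n + 1) • (1 - T ^ (n + 1))) g)‖ ^ 2 / 2 ^ j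
      ≤ 192 * ‖g‖ ^ 2 := by
  set P : ℕ → ℝ[X] := fun j => C (Real.sqrt (1 / 2 ^ j)) *
    ((∑ k ∈ Finset.Icc 1 (2 ^ j), X ^ k) *
      ∑ n ∈ range M, C (sqrtCoeff (n + 1)) * (1 - X ^ (n + 1))) with hP
  have hs : ∀ j : ℕ, Real.sqrt (1 / 2 ^ j) ^ 2 = 1 / 2 ^ j := fun j => Real.sq_sqrt (by positivity)
  have h := sum_sq_aeval_le T hT g (range J) P 192 ?_
  · refine le_trans (le_of_eq ?_) h
    refine Finset.sum_congr rfl fun j _ => ?_
    have e : aeval T (P j) = Real.sqrt (1 / 2 ^ j) • ((∑ k ∈ Finset.Icc 1 (2 ^ j), T ^ k) *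
        (∑ n ∈ range M, sqrtCoeff (n + 1) • (1 - T ^ (n + 1)))) := by
      simp only [hP, map_mul, map_sum, map_sub, map_one, map_pow, aeval_X, aeval_C,
        Algebra.algebraMap_eq_smul_one, smul_mul_assoc, one_mul]
    rw [e]
    change _ = ‖Real.sqrt (1 / 2 ^ j) • ((∑ k ∈ Finset.Icc 1 (2 ^ j), T ^ k)
      ((∑ n ∈ range M, sqrtCoeff (n + 1) • (1 - T ^ (n + 1))) g))‖ ^ 2
    rw [norm_smul, mul_pow, Real.norm_eq_abs, sq_abs, hs]
    ring
  · intro θ
    have hz : ‖Complex.exp (θ * Complex.I)‖ = 1 := Complex.norm_exp_ofReal_mul_I θ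
    refine le_trans (le_of_eq ?_) (sum_pointwise_le _ hz M J)
    refine Finset.sum_congr rfl fun j _ => ?_
    simp only [hP, map_mul, map_sum, map_sub, map_one, map_pow, aeval_X, aeval_C]
    rw [norm_mul, mul_pow]
    have : ‖(algebraMap ℝ ℂ) (Real.sqrt (1 / 2 ^ j))‖ ^ 2 = 1 / 2 ^ j := by
      rw [Complex.coe_algebraMap, Complex.norm_real, Real.norm_eq_abs, sq_abs, hs]
    rw [this]
    simp only [Complex.coe_algebraMap]
    ring

theorem tendsto_partial [CompleteSpace H] (T : H →L[ℝ] H) (hT : ‖T‖ ≤ 1) :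
    Tendsto (fun M : ℕ => ∑ n ∈ range M, sqrtCoeff (n + 1) • (1 - T ^ (n + 1))) atTop
      (𝓝 (sqrtOneSub T)) := by
  have hpow : ∀ n : ℕ, ‖T ^ n‖ ≤ 1 := by
    intro n
    rcases Nat.eq_zero_or_pos n with h | h
    · subst h
      rw [pow_zero]
      exact ContinuousLinearMap.norm_id_le
    · exact (norm_pow_le' T h).trans (pow_le_one₀ (norm_nonneg _) hT)
  have hsum : Summable fun n : ℕ => sqrtCoeff (n + 1) • T ^ (n + 1) := by
    refine Summable.of_norm_bounded summable_sqrtCoeff fun n => ?_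
    rw [norm_smul, Real.norm_of_nonneg (sqrtCoeff_nonneg n)]
    exact mul_le_of_le_one_right (sqrtCoeff_nonneg n) (hpow _)
  have h1 := hsum.hasSum.tendsto_sum_nat
  have h2 := hasSum_sqrtCoeff.tendsto_sum_nat
  have h3 : Tendsto (fun M : ℕ => (∑ n ∈ range M, sqrtCoeff (n + 1)) • (1 : H →L[ℝ] H)
      - ∑ n ∈ range M, sqrtCoeff (n + 1) • T ^ (n + 1)) atTop (𝓝 ((1 : ℝ) • (1 : H →L[ℝ] H)
        - ∑' n : ℕ, sqrtCoeff (n + 1) • T ^ (n + 1))) := (h2.smul_const _).sub h1
  rw [one_smul] at h3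
  refine h3.congr fun M => ?_
  rw [Finset.sum_smul, ← Finset.sum_sub_distrib]
  refine Finset.sum_congr rfl fun n _ => ?_
  rw [smul_sub]

/-- The square function estimate. -/
theorem summable_sq_norm_sum_pow {H : Type*} [NormedAddCommGroup H] [InnerProductSpace ℝ H]
    [CompleteSpace H] (T : H →L[ℝ] H) (hT : ‖T‖ ≤ 1) (g : H) :
    Summable fun j : ℕ =>
      ‖∑ k ∈ Finset.Icc 1 (2 ^ j), (T ^ k) (sqrtOneSub T g)‖ ^ 2 / 2 ^ j := by
  refine summable_of_sum_range_le (c := 192 * ‖g‖ ^ 2) (fun j => by positivity) fun J => ?_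
  have h1 : Tendsto (fun M : ℕ => ∑ j ∈ range J, ‖(∑ k ∈ Finset.Icc 1 (2 ^ j), T ^ k)
      ((∑ n ∈ range M, sqrtCoeff (n + 1) • (1 - T ^ (n + 1))) g)‖ ^ 2 / 2 ^ j) atTop
      (𝓝 (∑ j ∈ range J, ‖(∑ k ∈ Finset.Icc 1 (2 ^ j), T ^ k) (sqrtOneSub T g)‖ ^ 2 / 2 ^ j)) := by
    refine tendsto_finsetSum _ fun j _ => ?_
    have h2 : Tendsto (fun M : ℕ => (∑ n ∈ range M, sqrtCoeff (n + 1) • (1 - T ^ (n + 1))) g) atTop
        (𝓝 (sqrtOneSub T g)) :=
      ((ContinuousLinearMap.apply ℝ H g).continuous.tendsto _).comp (tendsto_partial T hT)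
    have h3 := ((∑ k ∈ Finset.Icc 1 (2 ^ j), T ^ k : H →L[ℝ] H).continuous.tendsto _).comp h2
    exact ((h3.norm.pow 2).div_const _)
  have h4 : ∑ j ∈ range J, ‖(∑ k ∈ Finset.Icc 1 (2 ^ j), T ^ k) (sqrtOneSub T g)‖ ^ 2 / 2 ^ j
      ≤ 192 * ‖g‖ ^ 2 :=
    le_of_tendsto h1 (Eventually.of_forall fun M => finite_square_function T hT g M J)
  refine le_trans (le_of_eq ?_) h4
  refine Finset.sum_congr rfl fun j _ => ?_
  rw [_root_.sum_apply]

end Final

end Pool.MP_cd27db_pr
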