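import Pool.Agent.W_MP_cd27db_pr.Final
import Pool.Agent.W_MP_cd27db_pr.MarkovProp
import Pool.Agent.W_MP_cd27db_pr.Operators
import Pool.Agent.W_MP_cd27db_pr.SqrtRange

/-!
# A stationary Markov chain gives a stationary frame
-/

open MeasureTheory ProbabilityTheory Filter Topology
open scoped ENNReal NNReal

namespace Pool.MP_cd27db_pr

open Operators

section Shift

variable {Ω S : Type*} [mΩ : MeasurableSpace Ω] [mS : MeasurableSpace S] {P : Measure Ω}
  {ξ : ℤ → Ω → S} {κ : Kernel S S}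

/-- the shifted path -/
def pathS (ξ : ℤ → Ω → S) (s : ℤ) (ω : Ω) : ℤ → S := fun n => ξ (n + s) ω

lemma measurable_pathS (hξ : IsStationaryMarkovChain P ξ κ) (s : ℤ) :
    Measurable (pathS ξ s) := measurable_pi_lambda _ fun n => hξ.measurable (n + s)

lemma map_pathS (hξ : IsStationaryMarkovChain P ξ κ) (s : ℤ) :
    P.map (pathS ξ s) = P.map (pathS ξ 0) := by
  have m1 : Measurable (fun (x : ℤ → S) (n : ℤ) => x (n + 1)) :=
    measurable_pi_lambda _ fun n => measurable_pi_apply (n + 1)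
  have m2 : Measurable (fun (x : ℤ → S) (n : ℤ) => x (n - 1)) :=
    measurable_pi_lambda _ fun n => measurable_pi_apply (n - 1)
  have e0 : P.map (pathS ξ 1) = P.map (pathS ξ 0) := by
    have h := hξ.stationary
    have e1 : (fun ω (n : ℤ) => ξ n ω) = pathS ξ 0 := by
      ext ω n; simp [pathS]
    have e2 : (fun ω (n : ℤ) => ξ (n + 1) ω) = pathS ξ 1 := rfl
    rw [e1, e2] at h
    exact h
  have hs : ∀ s : ℤ, P.map (pathS ξ (s + 1)) = (P.map (pathS ξ s)).map (fun x n => x (n + 1)) := by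
    intro s
    rw [Measure.map_map m1 (measurable_pathS hξ s)]
    congr 1
    ext ω n
    have e3 : n + (s + 1) = n + 1 + s := by ring
    simp only [pathS, Function.comp, e3]
  have hs' : ∀ s : ℤ, P.map (pathS ξ (s - 1)) = (P.map (pathS ξ s)).map (fun x n => x (n - 1)) := by
    intro s
    rw [Measure.map_map m2 (measurable_pathS hξ s)]
    congr 1
    ext ω n
    have e3 : n + (s - 1) = n - 1 + s := by ring
    simp only [pathS, Function.comp, e3]
  induction s with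
  | zero => rfl
  | succ n ih => rw [hs, ih, ← hs, zero_add, e0]
  | pred n ih =>
    rw [hs', ih]
    have h2 := hs' 1
    rw [e0] at h2
    rw [← h2]
    simp

end Shift

variable {Ω S : Type*} [mΩ : MeasurableSpace Ω] [mS : MeasurableSpace S] {P : Measure Ω}
  [IsProbabilityMeasure P] {ξ : ℤ → Ω → S} {κ : Kernel S S} [IsMarkovKernel κ]

/-- the observable -/
noncomputable def obs (ξ : ℤ → Ω → S) (φ : Lp ℝ 2 (P.map (ξ 0))) (n : ℤ) : Ω → ℝ :=
  fun ω => (φ : S → ℝ) (ξ n ω)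

/-- the present -/
abbrev pres (ξ : ℤ → Ω → S) (n : ℤ) : MeasurableSpace Ω :=
  MeasurableSpace.comap (ξ n) inferInstance

lemma frame_of_chain (hξ : IsStationaryMarkovChain P ξ κ) (φ : Lp ℝ 2 (P.map (ξ 0))) :
    Frame P (past ξ) (pres ξ) (obs ξ φ) where
  F_le := fun n => past_le hξ n
  F_mono := fun _ _ h => past_mono h
  A_le := fun _ => comap_le_past le_rfl
  meas := fun n => sm_comp φ n
  memLp := fun n => memLp_comp hξ φ n
  markov := by
    intro n N Y hY hYm
    refine condExp_past_eq_condExp_present P ξ κ hξ.measurable hξ.markov n (n + N) Y hY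
      (hYm.mono ?_)
    refine iSup₂_le fun k hk => ?_
    exact le_iSup₂_of_le (f := fun (k : ℤ) (_ : n ≤ k ∧ k ≤ n + N) =>
      MeasurableSpace.comap (ξ k) inferInstance) (n + k) ⟨by omega, by omega⟩ le_rfl

lemma joint_law (hξ : IsStationaryMarkovChain P ξ κ) (φ : Lp ℝ 2 (P.map (ξ 0))) (n : ℕ) (s : ℤ) :
    P.map (fun ω => (ξ s ω, bS (obs ξ φ) s n ω)) = P.map (fun ω => (ξ 0 ω, bS (obs ξ φ) 0 n ω)) := by
  set Φ : (ℤ → S) → S × ℝ := fun x => (x 0, ∑ i ∈ Finset.range n, (φ : S → ℝ) (x (1 + i))) with hΦ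
  have hΦm : Measurable Φ := by
    refine (measurable_pi_apply 0).prodMk ?_
    apply Finset.measurable_fun_sum
    intro i _
    exact (Lp.stronglyMeasurable φ).measurable.comp (measurable_pi_apply _)
  have e : ∀ s, (fun ω => (ξ s ω, bS (obs ξ φ) s n ω)) = Φ ∘ pathS ξ s := by
    intro s
    ext ω
    · simp [hΦ, pathS]
    · simp only [hΦ, Function.comp, pathS, bS, obs]
      apply Finset.sum_congr rfl
      intro i _
      congr 2; ring
  rw [e s, e 0, ← Measure.map_map hΦm (measurable_pathS hξ s),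
    ← Measure.map_map hΦm (measurable_pathS hξ 0), map_pathS hξ]

lemma measurable_bS (hξ : IsStationaryMarkovChain P ξ κ) (φ : Lp ℝ 2 (P.map (ξ 0))) (n : ℕ)
    (s : ℤ) : Measurable (bS (obs ξ φ) s n) := by
  unfold bS
  apply Finset.measurable_fun_sum
  intro i _
  exact (Lp.stronglyMeasurable φ).measurable.comp (hξ.measurable _)

/-- conditional expectations of functions of block sums are a common function of the state -/
lemma exists_common (hξ : IsStationaryMarkovChain P ξ κ) (φ : Lp ℝ 2 (P.map (ξ 0))) (n : ℕ)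
    {g : ℝ → ℝ} (hg : Measurable g) (hgi : Integrable (fun ω => g (bS (obs ξ φ) 0 n ω)) P) :
    ∃ Ψ : S → ℝ, StronglyMeasurable Ψ ∧
      ∀ s, P[fun ω => g (bS (obs ξ φ) s n ω) | pres ξ s] =ᵐ[P] fun ω => Ψ (ξ s ω) := by
  refine ⟨fun x => ∫ y, g y ∂(condDistrib (bS (obs ξ φ) 0 n) (ξ 0) P x), ?_, ?_⟩
  · exact StronglyMeasurable.integral_condDistrib
      (f := fun p : S × ℝ => g p.2) (hg.comp measurable_snd).stronglyMeasurable
  · intro s
    have h1 : condDistrib (bS (obs ξ φ) s n) (ξ s) P = condDistrib (bS (obs ξ φ) 0 n) (ξ 0) P := by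
      simp only [condDistrib, joint_law hξ φ n s]
    have h2 : Integrable (fun ω => g (bS (obs ξ φ) s n ω)) P := by
      have hm : P.map (bS (obs ξ φ) s n) = P.map (bS (obs ξ φ) 0 n) := by
        have := congrArg (fun μ => μ.map Prod.snd) (joint_law hξ φ n s)
        rw [Measure.map_map measurable_snd ((hξ.measurable s).prodMk (measurable_bS hξ φ n s)),
          Measure.map_map measurable_snd ((hξ.measurable 0).prodMk (measurable_bS hξ φ n 0))]
          at this
        exact this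
      have h3 : Integrable g (P.map (bS (obs ξ φ) 0 n)) :=
        (integrable_map_measure hg.aestronglyMeasurable (measurable_bS hξ φ n 0).aemeasurable).2 hgi
      rw [← hm] at h3
      exact (integrable_map_measure hg.aestronglyMeasurable
        (measurable_bS hξ φ n s).aemeasurable).1 h3
    rw [← h1]
    exact condExp_ae_eq_integral_condDistrib (hξ.measurable s)
      (measurable_bS hξ φ n s).aemeasurable hg.stronglyMeasurable h2

lemma law_bS (hξ : IsStationaryMarkovChain P ξ κ) (φ : Lp ℝ 2 (P.map (ξ 0))) (s : ℤ) (n : ℕ) :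
    P.map (bS (obs ξ φ) s n) = P.map (bS (obs ξ φ) 0 n) := by
  have := congrArg (fun μ => μ.map Prod.snd) (joint_law hξ φ n s)
  rw [Measure.map_map measurable_snd ((hξ.measurable s).prodMk (measurable_bS hξ φ n s)),
    Measure.map_map measurable_snd ((hξ.measurable 0).prodMk (measurable_bS hξ φ n 0))]
    at this
  exact this

lemma cond2_chain (hξ : IsStationaryMarkovChain P ξ κ) (φ : Lp ℝ 2 (P.map (ξ 0))) (n : ℕ) (s : ℤ)
    (c : ℝ) : ∫ ω, |(P[fun ω => bS (obs ξ φ) s n ω ^ 2 | pres ξ s]) ω - c| ∂P =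
    ∫ ω, |(P[fun ω => bS (obs ξ φ) 0 n ω ^ 2 | pres ξ 0]) ω - c| ∂P := by
  obtain ⟨Ψ, hΨ, h⟩ := exists_common hξ φ n (g := fun x => x ^ 2) (by fun_prop)
    ((frame_of_chain hξ φ).memLp_bS 0 n).integrable_sq
  have h1 : ∀ s, ∫ ω, |(P[fun ω => bS (obs ξ φ) s n ω ^ 2 | pres ξ s]) ω - c| ∂P =
      ∫ x, |Ψ x - c| ∂(P.map (ξ 0)) := by
    intro s
    rw [← integral_comp_eq hξ (F := fun x => |Ψ x - c|) (by fun_prop) s]
    apply integral_congr_ae
    filter_upwards [h s] with ω hω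
    rw [hω]
  rw [h1, h1]

/-- energy of functions of the state -/
lemma integral_sq_comp (hξ : IsStationaryMarkovChain P ξ κ) (ψ : Lp ℝ 2 (P.map (ξ 0))) (s : ℤ) :
    ∫ ω, ((ψ : S → ℝ) (ξ s ω)) ^ 2 ∂P = ‖ψ‖ ^ 2 := by
  rw [integral_comp_eq hξ (F := fun x => (ψ : S → ℝ) x ^ 2)
    ((Lp.stronglyMeasurable ψ).pow 2) s]
  rw [← real_inner_self_eq_norm_sq, L2.inner_def]
  congr 1; ext x
  simp [sq]

lemma sum_comp (hξ : IsStationaryMarkovChain P ξ κ) {ι : Type*} (t : Finset ι)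
    (ψ : ι → Lp ℝ 2 (P.map (ξ 0))) (s : ℤ) :
    (fun ω => ∑ i ∈ t, (ψ i : S → ℝ) (ξ s ω)) =ᵐ[P]
      fun ω => ((∑ i ∈ t, ψ i : Lp ℝ 2 (P.map (ξ 0))) : S → ℝ) (ξ s ω) := by
  have h1 : ∀ᵐ x ∂(P.map (ξ 0)), ((∑ i ∈ t, ψ i : Lp ℝ 2 (P.map (ξ 0))) : S → ℝ) x =
      ∑ i ∈ t, (ψ i : S → ℝ) x := by
    filter_upwards [Lp.coeFn_finsetSum t ψ] with x hx
    rw [hx]; simp
  have h1' : ∀ᵐ x ∂(P.map (ξ s)), ((∑ i ∈ t, ψ i : Lp ℝ 2 (P.map (ξ 0))) : S → ℝ) x =
      ∑ i ∈ t, (ψ i : S → ℝ) x := by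
    rw [map_eq hξ s]; exact h1
  have h2 := ae_of_ae_map (hξ.measurable s).aemeasurable h1'
  filter_upwards [h2] with ω hω
  exact hω.symm

end Pool.MP_cd27db_pr
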