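import Pool.Agent.W_MP_cd27db_pr.Chain

/-!
# The two-sided drift bounds and the ergodic averages for the chain
-/

open MeasureTheory ProbabilityTheory Filter Topology
open scoped ENNReal NNReal

namespace Pool.MP_cd27db_pr

open Operators

variable {Ω S : Type*} [mΩ : MeasurableSpace Ω] [mS : MeasurableSpace S] {P : Measure Ω}
  [IsProbabilityMeasure P] {ξ : ℤ → Ω → S} {κ : Kernel S S} [IsMarkovKernel κ]
  {Q : Lp ℝ 2 (P.map (ξ 0)) →L[ℝ] Lp ℝ 2 (P.map (ξ 0))}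

lemma condExp_sum_obs (hξ : IsStationaryMarkovChain P ξ κ) (φ : Lp ℝ 2 (P.map (ξ 0)))
    (n : ℕ) (s u : ℤ) :
    P[bS (obs ξ φ) s n | pres ξ u] =ᵐ[P]
      fun ω => ∑ i ∈ Finset.range n, (P[obs ξ φ (s + 1 + i) | pres ξ u]) ω := by
  have e1 : bS (obs ξ φ) s n = ∑ i ∈ Finset.range n, obs ξ φ (s + 1 + i) := by
    ext ω; simp [bS]
  rw [e1]
  have h := condExp_finsetSum (μ := P) (s := Finset.range n)
    (f := fun i : ℕ => obs ξ φ (s + 1 + i))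
    (fun i _ => lint ((frame_of_chain hξ φ).memLp _)) (pres ξ u)
  refine h.trans ?_
  filter_upwards with ω
  simp

lemma condExp_bS_forward (hξ : IsStationaryMarkovChain P ξ κ)
    (hQ : IsMarkovOperator κ (P.map (ξ 0)) Q) (φ : Lp ℝ 2 (P.map (ξ 0))) (n : ℕ) (s : ℤ) :
    P[bS (obs ξ φ) s n | pres ξ s] =ᵐ[P]
      fun ω => ((∑ k ∈ Finset.Icc 1 n, (Q ^ k) φ : Lp ℝ 2 (P.map (ξ 0))) : S → ℝ) (ξ s ω) := by
  refine (condExp_sum_obs hξ φ n s _).trans ?_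
  have h1 : ∀ i ∈ Finset.range n, P[obs ξ φ (s + 1 + i) | pres ξ s] =ᵐ[P]
      fun ω => ((Q ^ (i + 1)) φ : S → ℝ) (ξ s ω) := by
    intro i _
    have h2 := condExp_forward P ξ κ hξ Q hQ φ s (i + 1)
    have e1 : s + ((i + 1 : ℕ) : ℤ) = s + 1 + i := by push_cast; ring
    rw [e1] at h2
    exact h2
  have h3 : ∀ᵐ ω ∂P, ∀ i ∈ Finset.range n, (P[obs ξ φ (s + 1 + i) | pres ξ s]) ω =
      ((Q ^ (i + 1)) φ : S → ℝ) (ξ s ω) := by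
    rw [eventually_all_finset]
    exact h1
  have h4 := sum_comp hξ (Finset.range n) (fun i => (Q ^ (i + 1)) φ) s
  have e2 : (∑ i ∈ Finset.range n, (Q ^ (i + 1)) φ) = ∑ k ∈ Finset.Icc 1 n, (Q ^ k) φ := by
    rw [Finset.range_eq_Ico, Finset.sum_Ico_add' (fun k => (Q ^ k) φ) 0 n 1]
    rfl
  rw [e2] at h4
  filter_upwards [h3, h4] with ω h5 h6
  rw [← h6]
  exact Finset.sum_congr rfl h5

lemma condExp_bS_backward (hξ : IsStationaryMarkovChain P ξ κ)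
    (hQ : IsMarkovOperator κ (P.map (ξ 0)) Q) (φ : Lp ℝ 2 (P.map (ξ 0))) (n : ℕ) (s : ℤ) :
    P[bS (obs ξ φ) s n | pres ξ (s + n)] =ᵐ[P]
      fun ω => ((∑ k ∈ Finset.range n, (ContinuousLinearMap.adjoint Q ^ k) φ :
        Lp ℝ 2 (P.map (ξ 0))) : S → ℝ) (ξ (s + n) ω) := by
  refine (condExp_sum_obs hξ φ n s _).trans ?_
  have h1 : ∀ i ∈ Finset.range n, P[obs ξ φ (s + 1 + i) | pres ξ (s + n)] =ᵐ[P]
      fun ω => ((ContinuousLinearMap.adjoint Q ^ (n - 1 - i)) φ : S → ℝ) (ξ (s + n) ω) := by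
    intro i hi
    have hi' := Finset.mem_range.1 hi
    have h2 := condExp_backward P ξ κ hξ Q hQ φ (s + 1 + i) (n - 1 - i)
    have e1 : s + 1 + (i : ℤ) + ((n - 1 - i : ℕ) : ℤ) = s + n := by omega
    rw [e1] at h2
    exact h2
  have h3 : ∀ᵐ ω ∂P, ∀ i ∈ Finset.range n, (P[obs ξ φ (s + 1 + i) | pres ξ (s + n)]) ω =
      ((ContinuousLinearMap.adjoint Q ^ (n - 1 - i)) φ : S → ℝ) (ξ (s + n) ω) := by
    rw [eventually_all_finset]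
    exact h1
  have h4 := sum_comp hξ (Finset.range n)
    (fun i => (ContinuousLinearMap.adjoint Q ^ (n - 1 - i)) φ) (s + n)
  have e2 : (∑ i ∈ Finset.range n, (ContinuousLinearMap.adjoint Q ^ (n - 1 - i)) φ) =
      ∑ k ∈ Finset.range n, (ContinuousLinearMap.adjoint Q ^ k) φ :=
    Finset.sum_range_reflect (fun k => (ContinuousLinearMap.adjoint Q ^ k) φ) n
  rw [e2] at h4
  filter_upwards [h3, h4] with ω h5 h6
  rw [← h6]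
  exact Finset.sum_congr rfl h5

/-- the forward coefficients -/
noncomputable def eF (Q : Lp ℝ 2 (P.map (ξ 0)) →L[ℝ] Lp ℝ 2 (P.map (ξ 0)))
    (φ : Lp ℝ 2 (P.map (ξ 0))) (j : ℕ) : ℝ :=
  ‖∑ k ∈ Finset.Icc 1 (2 ^ j), (Q ^ k) φ‖ / √(2 ^ j)

/-- the backward coefficients -/
noncomputable def eB (Q : Lp ℝ 2 (P.map (ξ 0)) →L[ℝ] Lp ℝ 2 (P.map (ξ 0)))
    (φ : Lp ℝ 2 (P.map (ξ 0))) (j : ℕ) : ℝ :=
  (‖∑ k ∈ Finset.Icc 1 (2 ^ j), (ContinuousLinearMap.adjoint Q ^ k) φ‖ + 2 * ‖φ‖) / √(2 ^ j)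

lemma eF_nonneg (φ : Lp ℝ 2 (P.map (ξ 0))) (j : ℕ) : 0 ≤ eF Q φ j := by unfold eF; positivity

lemma eB_nonneg (φ : Lp ℝ 2 (P.map (ξ 0))) (j : ℕ) : 0 ≤ eB Q φ j := by unfold eB; positivity

lemma hg_chain (hξ : IsStationaryMarkovChain P ξ κ)
    (hQ : IsMarkovOperator κ (P.map (ξ 0)) Q) (φ : Lp ℝ 2 (P.map (ξ 0))) (j : ℕ) (s : ℤ) :
    ∫ ω, (P[bS (obs ξ φ) s (2 ^ j) | pres ξ s]) ω ^ 2 ∂P ≤ eF Q φ j ^ 2 * (2 ^ j : ℕ) := by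
  have h1 : ∫ ω, (P[bS (obs ξ φ) s (2 ^ j) | pres ξ s]) ω ^ 2 ∂P =
      ‖∑ k ∈ Finset.Icc 1 (2 ^ j), (Q ^ k) φ‖ ^ 2 := by
    rw [← integral_sq_comp hξ _ s]
    apply integral_congr_ae
    filter_upwards [condExp_bS_forward hξ hQ φ (2 ^ j) s] with ω hω
    rw [hω]
  rw [h1]
  unfold eF
  rw [div_pow, Real.sq_sqrt (by positivity)]
  push_cast
  rw [div_mul_cancel₀ _ (by positivity)]

lemma norm_sum_range_le (T : Lp ℝ 2 (P.map (ξ 0)) →L[ℝ] Lp ℝ 2 (P.map (ξ 0))) (hT : ‖T‖ ≤ 1)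
    (φ : Lp ℝ 2 (P.map (ξ 0))) (n : ℕ) :
    ‖∑ k ∈ Finset.range n, (T ^ k) φ‖ ≤ ‖∑ k ∈ Finset.Icc 1 n, (T ^ k) φ‖ + 2 * ‖φ‖ := by
  have e1 : ∑ k ∈ Finset.range n, (T ^ k) φ = ∑ k ∈ Finset.Icc 1 n, (T ^ k) φ + φ - (T ^ n) φ := by
    induction n with
    | zero => simp
    | succ n ih =>
      rw [Finset.sum_range_succ, ih, Finset.sum_Icc_succ_top (by omega)]
      abel
  rw [e1]
  have h1 : ‖(T ^ n) φ‖ ≤ ‖φ‖ := by
    have h3 : ∀ ψ, ‖T ψ‖ ≤ ‖ψ‖ := fun ψ => by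
      calc ‖T ψ‖ ≤ ‖T‖ * ‖ψ‖ := ContinuousLinearMap.le_opNorm _ _
        _ ≤ 1 * ‖ψ‖ := mul_le_mul_of_nonneg_right hT (norm_nonneg _)
        _ = ‖ψ‖ := one_mul _
    clear e1
    induction n with
    | zero => simp
    | succ n ih =>
      have e2 : (T ^ (n + 1)) φ = T ((T ^ n) φ) := by rw [pow_succ']; rfl
      rw [e2]
      exact (h3 _).trans ih
  calc _ ≤ ‖∑ k ∈ Finset.Icc 1 n, (T ^ k) φ + φ‖ + ‖(T ^ n) φ‖ := norm_sub_le _ _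
    _ ≤ ‖∑ k ∈ Finset.Icc 1 n, (T ^ k) φ‖ + ‖φ‖ + ‖φ‖ := add_le_add (norm_add_le _ _) h1
    _ = _ := by ring

lemma norm_adjoint_le_one (hξ : IsStationaryMarkovChain P ξ κ)
    (hQ : IsMarkovOperator κ (P.map (ξ 0)) Q) : ‖ContinuousLinearMap.adjoint Q‖ ≤ 1 := by
  rw [LinearIsometryEquiv.norm_map]
  exact opNorm_le_one P ξ κ hξ Q hQ

lemma eB_sq_mul (φ : Lp ℝ 2 (P.map (ξ 0))) (j : ℕ) :
    eB Q φ j ^ 2 * 2 ^ j =
      (‖∑ k ∈ Finset.Icc 1 (2 ^ j), (ContinuousLinearMap.adjoint Q ^ k) φ‖ + 2 * ‖φ‖) ^ 2 := by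
  unfold eB
  rw [div_pow, Real.sq_sqrt (by positivity)]
  exact div_mul_cancel₀ _ (by positivity)

lemma hb_chain (hξ : IsStationaryMarkovChain P ξ κ)
    (hQ : IsMarkovOperator κ (P.map (ξ 0)) Q) (φ : Lp ℝ 2 (P.map (ξ 0))) (j : ℕ) (s : ℤ) :
    ∫ ω, (P[bS (obs ξ φ) s (2 ^ j) | pres ξ (s + (2 ^ j : ℕ))]) ω ^ 2 ∂P ≤
      eB Q φ j ^ 2 * (2 ^ j : ℕ) := by
  have h1 : ∫ ω, (P[bS (obs ξ φ) s (2 ^ j) | pres ξ (s + (2 ^ j : ℕ))]) ω ^ 2 ∂P =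
      ‖∑ k ∈ Finset.range (2 ^ j), (ContinuousLinearMap.adjoint Q ^ k) φ‖ ^ 2 := by
    rw [← integral_sq_comp hξ _ (s + (2 ^ j : ℕ))]
    apply integral_congr_ae
    filter_upwards [condExp_bS_backward hξ hQ φ (2 ^ j) s] with ω hω
    rw [hω]
  have e0 : ((2 ^ j : ℕ) : ℝ) = 2 ^ j := by push_cast; rfl
  have h2 := norm_sum_range_le _ (norm_adjoint_le_one hξ hQ) φ (2 ^ j)
  have h3 := pow_le_pow_left₀ (norm_nonneg _) h2 2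
  rw [h1, e0, eB_sq_mul]
  exact h3

lemma summable_eF (hξ : IsStationaryMarkovChain P ξ κ)
    (hQ : IsMarkovOperator κ (P.map (ξ 0)) Q) (φ : Lp ℝ 2 (P.map (ξ 0)))
    (hφ : ∃ g, sqrtOneSub Q g = φ) : Summable fun j => eF Q φ j ^ 2 := by
  obtain ⟨g, rfl⟩ := hφ
  have h := summable_sq_norm_sum_pow Q (opNorm_le_one P ξ κ hξ Q hQ) g
  refine h.congr fun j => ?_
  unfold eF
  rw [div_pow, Real.sq_sqrt (by positivity)]

lemma summable_eB (hξ : IsStationaryMarkovChain P ξ κ)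
    (hQ : IsMarkovOperator κ (P.map (ξ 0)) Q) (φ : Lp ℝ 2 (P.map (ξ 0)))
    (hφ : ∃ g, sqrtOneSub (ContinuousLinearMap.adjoint Q) g = φ) :
    Summable fun j => eB Q φ j ^ 2 := by
  obtain ⟨g, hg⟩ := hφ
  have hn := norm_adjoint_le_one hξ hQ
  have h := summable_sq_norm_sum_pow (ContinuousLinearMap.adjoint Q) hn g
  rw [hg] at h
  have h2 : Summable fun j : ℕ => 8 * ‖φ‖ ^ 2 * (1 / 2 : ℝ) ^ j :=
    (summable_geometric_of_lt_one (by norm_num) (by norm_num)).mul_left _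
  refine Summable.of_nonneg_of_le (fun j => sq_nonneg _) (fun j => ?_) ((h.mul_left 2).add h2)
  unfold eB
  rw [div_pow, Real.sq_sqrt (by positivity), div_pow, one_pow]
  have h3 : (0:ℝ) < 2 ^ j := by positivity
  rw [div_le_iff₀ h3]
  have h4 : 0 ≤ ‖∑ k ∈ Finset.Icc 1 (2 ^ j), (ContinuousLinearMap.adjoint Q ^ k) φ‖ :=
    norm_nonneg _
  set x := ‖∑ k ∈ Finset.Icc 1 (2 ^ j), (ContinuousLinearMap.adjoint Q ^ k) φ‖
  set y := ‖φ‖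
  have e5 : (2 * (x ^ 2 / 2 ^ j) + 8 * y ^ 2 * (1 / 2 ^ j)) * 2 ^ j = 2 * x ^ 2 + 8 * y ^ 2 := by
    field_simp
  rw [e5]
  nlinarith [sq_nonneg (x - 2 * y)]

lemma summable_eBF (hξ : IsStationaryMarkovChain P ξ κ)
    (hQ : IsMarkovOperator κ (P.map (ξ 0)) Q) (φ : Lp ℝ 2 (P.map (ξ 0)))
    (hφ : ∃ g, sqrtOneSub Q g = φ)
    (hφ' : ∃ g, sqrtOneSub (ContinuousLinearMap.adjoint Q) g = φ) :
    Summable fun j => eB Q φ j * eF Q φ j := by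
  refine Summable.of_nonneg_of_le (fun j => mul_nonneg (eB_nonneg _ _) (eF_nonneg _ _))
    (fun j => ?_) ((summable_eF hξ hQ φ hφ).add (summable_eB hξ hQ φ hφ'))
  nlinarith [sq_nonneg (eF Q φ j - eB Q φ j), sq_nonneg (eF Q φ j), sq_nonneg (eB Q φ j)]

end Pool.MP_cd27db_pr
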