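import Pool.Agent.W_MP_cd27db_pr.Chain2

/-!
# The ergodic averages for the chain, and the stationary frame of the chain
-/

open MeasureTheory ProbabilityTheory Filter Topology
open scoped ENNReal NNReal

namespace Pool.MP_cd27db_pr

open Operators

variable {Ω S : Type*} [mΩ : MeasurableSpace Ω] [mS : MeasurableSpace S] {P : Measure Ω}
  [IsProbabilityMeasure P] {ξ : ℤ → Ω → S} {κ : Kernel S S} [IsMarkovKernel κ]
  {Q : Lp ℝ 2 (P.map (ξ 0)) →L[ℝ] Lp ℝ 2 (P.map (ξ 0))}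

lemma ae_comp (hξ : IsStationaryMarkovChain P ξ κ) {p : S → Prop}
    (h : ∀ᵐ x ∂(P.map (ξ 0)), p x) (k : ℤ) : ∀ᵐ ω ∂P, p (ξ k ω) := by
  have h1 : ∀ᵐ x ∂(P.map (ξ k)), p x := by rw [map_eq hξ k]; exact h
  exact ae_of_ae_map (hξ.measurable k).aemeasurable h1

/-- the mean energy function of the truncated centered block -/
lemma exists_energy (hξ : IsStationaryMarkovChain P ξ κ) (φ : Lp ℝ 2 (P.map (ξ 0))) {Λ : ℝ}
    (hΛ : 0 ≤ Λ) (n : ℕ) :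
    ∃ ψ : Lp ℝ 2 (P.map (ξ 0)), ∀ k : ℤ,
      P[fun ω => tcen P (pres ξ) (obs ξ φ) Λ n k ω ^ 2 | pres ξ k] =ᵐ[P]
        fun ω => (ψ : S → ℝ) (ξ k ω) := by
  have hF := frame_of_chain hξ φ
  have bT : ∀ k, Bdd P (Gs (pres ξ) k n) (fun ω => trunc Λ (bS (obs ξ φ) k n ω)) := fun k =>
    ⟨(continuous_trunc Λ).comp_stronglyMeasurable (hF.sm_bS k _), Λ, by
      filter_upwards with ω using abs_trunc_le hΛ _⟩
  have bT0 := fun k => (bT k).up (hF.Gs_le_m0 k n)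
  obtain ⟨Ψ1, hΨ1, h1⟩ := exists_common hξ φ n (g := trunc Λ) (continuous_trunc Λ).measurable
    ((bT0 0).integrable le_rfl)
  obtain ⟨Ψ2, hΨ2, h2⟩ := exists_common hξ φ n (g := fun x => trunc Λ x ^ 2)
    ((continuous_trunc Λ).measurable.pow_const 2) (((bT0 0).pow 2).integrable le_rfl)
  set Ψ : S → ℝ := fun x => Ψ2 x - Ψ1 x ^ 2 with hΨ
  have hΨm : StronglyMeasurable Ψ := hΨ2.sub (hΨ1.pow 2)
  have key : ∀ k : ℤ, P[fun ω => tcen P (pres ξ) (obs ξ φ) Λ n k ω ^ 2 | pres ξ k] =ᵐ[P]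
      fun ω => Ψ (ξ k ω) := by
    intro k
    have h3 := condVar_ae_eq_condExp_sq_sub_sq_condExp (hF.A_le_m0 k)
      ((bT0 k).memLp le_rfl 2)
    have e1 : P[fun ω => tcen P (pres ξ) (obs ξ φ) Λ n k ω ^ 2 | pres ξ k] =
      Var[fun ω => trunc Λ (bS (obs ξ φ) k n ω); P | pres ξ k] := rfl
    rw [e1]
    filter_upwards [h3, h1 k, h2 k] with ω h4 h5 h6
    have e2 : ((P[(fun ω => trunc Λ (bS (obs ξ φ) k n ω)) ^ 2 | pres ξ k] -
      P[fun ω => trunc Λ (bS (obs ξ φ) k n ω) | pres ξ k] ^ 2 : Ω → ℝ)) ω =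
      (P[fun ω => trunc Λ (bS (obs ξ φ) k n ω) ^ 2 | pres ξ k]) ω -
      (P[fun ω => trunc Λ (bS (obs ξ φ) k n ω) | pres ξ k]) ω ^ 2 := rfl
    rw [h4, e2, h5, h6]
  have bc : Bdd P (Gs (pres ξ) 0 n) (tcen P (pres ξ) (obs ξ φ) Λ n 0) :=
    (bT 0).sub (((bT 0).condExp (pres ξ 0)).up (A_left_le_Gs 0 n))
  have hmem : MemLp Ψ 2 (P.map (ξ 0)) := by
    rw [memLp_map_measure_iff hΨm.aestronglyMeasurable (hξ.measurable 0).aemeasurable]
    have h7 : MemLp (P[fun ω => tcen P (pres ξ) (obs ξ φ) Λ n 0 ω ^ 2 | pres ξ 0]) 2 P :=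
      ((bc.pow 2).condExp (pres ξ 0)).memLp (hF.A_le_m0 0) 2
    exact h7.ae_eq (key 0)
  refine ⟨hmem.toLp Ψ, fun k => (key k).trans ?_⟩
  filter_upwards [ae_comp hξ hmem.coeFn_toLp k] with ω hω
  rw [hω]

lemma condExp_zero_energy (hξ : IsStationaryMarkovChain P ξ κ)
    (hQ : IsMarkovOperator κ (P.map (ξ 0)) Q) (φ : Lp ℝ 2 (P.map (ξ 0))) {Λ : ℝ}
    (hΛ : 0 ≤ Λ) (n : ℕ) {ψ : Lp ℝ 2 (P.map (ξ 0))}
    (hψ : ∀ k : ℤ, P[fun ω => tcen P (pres ξ) (obs ξ φ) Λ n k ω ^ 2 | pres ξ k] =ᵐ[P]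
        fun ω => (ψ : S → ℝ) (ξ k ω)) (k : ℕ) :
    P[fun ω => tcen P (pres ξ) (obs ξ φ) Λ n k ω ^ 2 | pres ξ 0] =ᵐ[P]
        fun ω => ((Q ^ k) ψ : S → ℝ) (ξ 0 ω) := by
  have hF := frame_of_chain hξ φ
  have bT : Bdd P (Gs (pres ξ) k n) (fun ω => trunc Λ (bS (obs ξ φ) k n ω)) :=
    ⟨(continuous_trunc Λ).comp_stronglyMeasurable (hF.sm_bS k _), Λ, by
      filter_upwards with ω using abs_trunc_le hΛ _⟩
  have bc : Bdd P (Gs (pres ξ) k n) (tcen P (pres ξ) (obs ξ φ) Λ n k) :=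
    bT.sub ((bT.condExp (pres ξ k)).up (A_left_le_Gs _ n))
  have bc2 := bc.pow 2
  have h1 := hF.markov k n _ (bc2.integrable (hF.Gs_le_m0 _ _)) bc2.sm
  have h2 : P[P[fun ω => tcen P (pres ξ) (obs ξ φ) Λ n k ω ^ 2 | past ξ k] | pres ξ 0] =ᵐ[P]
      P[fun ω => tcen P (pres ξ) (obs ξ φ) Λ n k ω ^ 2 | pres ξ 0] :=
    condExp_condExp_of_le (hF.A_le_F (by omega)) (hF.F_le _)
  have h3 := condExp_congr_ae (m := pres ξ 0) (h1.trans (hψ k))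
  have h4 := condExp_forward P ξ κ hξ Q hQ ψ 0 k
  rw [zero_add] at h4
  exact h2.symm.trans (h3.trans h4)

lemma abs_integral_le_norm (hξ : IsStationaryMarkovChain P ξ κ) (ψ : Lp ℝ 2 (P.map (ξ 0))) :
    ∫ ω, |(ψ : S → ℝ) (ξ 0 ω)| ∂P ≤ ‖ψ‖ := by
  have h1 := integral_abs_le_nrm (memLp_comp hξ ψ 0)
  have h2 : nrm P (fun ω => (ψ : S → ℝ) (ξ 0 ω)) = ‖ψ‖ := by
    unfold nrm
    rw [integral_sq_comp hξ ψ 0, Real.sqrt_sq (norm_nonneg _)]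
  rwa [h2] at h1

lemma erg_chain (hξ : IsStationaryMarkovChain P ξ κ)
    (hQ : IsMarkovOperator κ (P.map (ξ 0)) Q) (herg : IsErgodicOperator Q)
    (φ : Lp ℝ 2 (P.map (ξ 0))) (Λ : ℝ) (hΛ : 0 ≤ Λ) (n : ℕ) :
    Tendsto (fun N : ℕ => ∫ ω,
      |(∑ k ∈ Finset.range N,
        (P[fun ω => tcen P (pres ξ) (obs ξ φ) Λ n k ω ^ 2 | pres ξ 0]) ω) / N -
        ∫ ω, tcen P (pres ξ) (obs ξ φ) Λ n 0 ω ^ 2 ∂P| ∂P) atTop (𝓝 0) := by
  have hF := frame_of_chain hξ φ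
  obtain ⟨ψ, hψ⟩ := exists_energy hξ φ hΛ n
  have hk := condExp_zero_energy hξ hQ φ hΛ n hψ
  -- mean ergodic theorem
  have hmet := Q.tendsto_birkhoffAverage_orthogonalProjection (opNorm_le_one P ξ κ hξ Q hQ) ψ
  set ψi : Lp ℝ 2 (P.map (ξ 0)) :=
    ((Q.eqLocus (1 : Lp ℝ 2 (P.map (ξ 0)) →L[ℝ] Lp ℝ 2 (P.map (ξ 0)))).orthogonalProjectionOnto
      ψ : Lp ℝ 2 (P.map (ξ 0))) with hψi
  have hfix : Q ψi = ψi := by
    have := ((Q.eqLocus (1 : Lp ℝ 2 (P.map (ξ 0)) →L[ℝ]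
      Lp ℝ 2 (P.map (ξ 0)))).orthogonalProjectionOnto ψ).2
    exact LinearMap.mem_eqLocus.1 this
  obtain ⟨c, hc⟩ := herg ψi hfix
  set av : ℕ → Lp ℝ 2 (P.map (ξ 0)) := fun N => birkhoffAverage ℝ Q _root_.id N ψ with hav
  have hav_eq : ∀ N, av N = (N : ℝ)⁻¹ • ∑ k ∈ Finset.range N, (Q ^ k) ψ := by
    intro N
    simp only [hav, birkhoffAverage, birkhoffSum]
    congr 1
    apply Finset.sum_congr rfl
    intro k _
    show (Q^[k]) ψ = (Q ^ k) ψ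
    induction k with
    | zero => rfl
    | succ k ih =>
      rw [Function.iterate_succ_apply', pow_succ']
      have := ih (by simp_all; omega)
      rw [this]; rfl
  have hnorm : Tendsto (fun N => ‖av N - ψi‖) atTop (𝓝 0) :=
    tendsto_iff_norm_sub_tendsto_zero.1 hmet
  -- the averages as functions on Ω
  have hfun : ∀ N, (fun ω => (∑ k ∈ Finset.range N,
      (P[fun ω => tcen P (pres ξ) (obs ξ φ) Λ n k ω ^ 2 | pres ξ 0]) ω) / N) =ᵐ[P]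
      fun ω => (av N : S → ℝ) (ξ 0 ω) := by
    intro N
    have h1 : ∀ᵐ ω ∂P, ∀ k ∈ Finset.range N,
        (P[fun ω => tcen P (pres ξ) (obs ξ φ) Λ n k ω ^ 2 | pres ξ 0]) ω =
        ((Q ^ k) ψ : S → ℝ) (ξ 0 ω) := by
      rw [eventually_all_finset]
      exact fun k _ => hk k
    have h2 := sum_comp hξ (Finset.range N) (fun k => (Q ^ k) ψ) 0
    have h3 := ae_comp hξ (Lp.coeFn_smul (N : ℝ)⁻¹ (∑ k ∈ Finset.range N, (Q ^ k) ψ)) 0
    filter_upwards [h1, h2, h3] with ω h4 h5 h6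
    rw [hav_eq, h6, Pi.smul_apply, smul_eq_mul, ← h5, Finset.sum_congr rfl h4]
    ring
  -- identification of the constant
  have hcψ : ∀ᵐ ω ∂P, (ψi : S → ℝ) (ξ 0 ω) = c := ae_comp hξ hc 0
  have hdist : ∀ N, ∫ ω, |(av N : S → ℝ) (ξ 0 ω) - c| ∂P ≤ ‖av N - ψi‖ := by
    intro N
    refine le_trans (le_of_eq ?_) (abs_integral_le_norm hξ (av N - ψi))
    apply integral_congr_ae
    filter_upwards [hcψ, ae_comp hξ (Lp.coeFn_sub (av N) ψi) 0] with ω h4 h5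
    rw [h5, Pi.sub_apply, h4]
  have bT : ∀ k : ℤ, Bdd P mΩ (fun ω => tcen P (pres ξ) (obs ξ φ) Λ n k ω ^ 2) := by
    intro k
    have bT : Bdd P (Gs (pres ξ) k n) (fun ω => trunc Λ (bS (obs ξ φ) k n ω)) :=
      ⟨(continuous_trunc Λ).comp_stronglyMeasurable (hF.sm_bS k _), Λ, by
        filter_upwards with ω using abs_trunc_le hΛ _⟩
    have bc : Bdd P (Gs (pres ξ) k n) (tcen P (pres ξ) (obs ξ φ) Λ n k) :=
      bT.sub ((bT.condExp (pres ξ k)).up (A_left_le_Gs _ n))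
    exact (bc.pow 2).up (hF.Gs_le_m0 _ _)
  set cV := ∫ ω, tcen P (pres ξ) (obs ξ φ) Λ n 0 ω ^ 2 ∂P with hcV
  have hcVk : ∀ k : ℤ, ∫ ω, tcen P (pres ξ) (obs ξ φ) Λ n k ω ^ 2 ∂P = cV := by
    have h1 : ∀ k : ℤ, ∫ ω, tcen P (pres ξ) (obs ξ φ) Λ n k ω ^ 2 ∂P =
        ∫ x, (ψ : S → ℝ) x ∂(P.map (ξ 0)) := by
      intro k
      rw [← integral_condExp (hF.A_le_m0 k) (f := fun ω => tcen P (pres ξ) (obs ξ φ) Λ n k ω ^ 2),
        integral_congr_ae (hψ k), integral_comp_eq hξ (Lp.stronglyMeasurable ψ) k]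
    intro k
    rw [hcV, h1 k, h1 0]
  have hintav : ∀ N : ℕ, 0 < N → ∫ ω, (av N : S → ℝ) (ξ 0 ω) ∂P = cV := by
    intro N hN
    rw [← integral_congr_ae (hfun N), integral_div, integral_finsetSum _
      (fun (k : ℕ) _ => integrable_condExp)]
    have h1 : ∀ k ∈ Finset.range N, ∫ ω, (P[fun ω => tcen P (pres ξ) (obs ξ φ) Λ n k ω ^ 2 |
        pres ξ 0]) ω ∂P = cV := by
      intro k _
      rw [integral_condExp (hF.A_le_m0 0), hcVk]
    rw [Finset.sum_congr rfl h1, Finset.sum_const, Finset.card_range, nsmul_eq_mul]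
    have : (N : ℝ) ≠ 0 := by exact_mod_cast hN.ne'
    field_simp
  have hcc : c = cV := by
    have h1 : ∀ᶠ N : ℕ in atTop, |cV - c| ≤ ‖av N - ψi‖ := by
      filter_upwards [eventually_gt_atTop 0] with N hN
      refine le_trans ?_ (hdist N)
      have h2 : cV - c = ∫ ω, ((av N : S → ℝ) (ξ 0 ω) - c) ∂P := by
        rw [E_sub (integrable_comp hξ (av N) 0) (integrable_const c), hintav N hN]
        simp
      rw [h2]
      exact abs_integral_le_integral_abs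
    have h3 : |cV - c| ≤ 0 := ge_of_tendsto hnorm h1
    have h4 := abs_nonpos_iff.1 h3
    linarith
  refine squeeze_zero (fun N => integral_nonneg fun ω => abs_nonneg _) (fun N => ?_) hnorm
  refine le_trans (le_of_eq ?_) (hdist N)
  apply integral_congr_ae
  filter_upwards [hfun N] with ω hω
  rw [hω, hcc]

/-- the stationary frame of the chain -/
theorem sframe_of_chain (hξ : IsStationaryMarkovChain P ξ κ)
    (hQ : IsMarkovOperator κ (P.map (ξ 0)) Q) (herg : IsErgodicOperator Q)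
    (φ : Lp ℝ 2 (P.map (ξ 0))) (hφ : ∃ g, sqrtOneSub Q g = φ)
    (hφ' : ∃ g, sqrtOneSub (ContinuousLinearMap.adjoint Q) g = φ) :
    SFrame P (past ξ) (pres ξ) (obs ξ φ) (eF Q φ) (eB Q φ) where
  toFrame := frame_of_chain hξ φ
  e_nonneg := eF_nonneg φ
  e'_nonneg := eB_nonneg φ
  sum_e := summable_eF hξ hQ φ hφ
  sum_e' := summable_eBF hξ hQ φ hφ hφ'
  hg := hg_chain hξ hQ φ
  hb := hb_chain hξ hQ φ
  law := law_bS hξ φ
  cond2 := cond2_chain hξ φ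
  erg := erg_chain hξ hQ herg φ

end Pool.MP_cd27db_pr
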