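import Pool.Agent.W_MP_cd27db_pr.SFrame

/-!
# Convergence of the conditional variances along powers of two
-/

open MeasureTheory ProbabilityTheory Filter Topology
open scoped ENNReal NNReal

namespace Pool.MP_cd27db_pr

/-- contraction with a vanishing source -/
lemma tendsto_of_contraction {κ a : ℕ → ℝ} {θ : ℝ} (hθ0 : 0 ≤ θ) (hθ1 : θ < 1)
    (hκ0 : ∀ r, 0 ≤ κ r) (hκ : ∀ r, κ (r + 1) ≤ a r + θ * κ r) (ha : Tendsto a atTop (𝓝 0)) :
    Tendsto κ atTop (𝓝 0) := by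
  rw [Metric.tendsto_atTop]
  intro ε hε
  have h1 : ∀ᶠ r in atTop, a r < ε / 2 * (1 - θ) :=
    (tendsto_order.1 ha).2 _ (by have : 0 < 1 - θ := by linarith
                                 positivity)
  obtain ⟨N, hN⟩ := eventually_atTop.1 h1
  have h2 : ∀ k, κ (N + k) - ε / 2 ≤ θ ^ k * κ N := by
    intro k
    induction k with
    | zero => simp; linarith
    | succ k ih =>
      have h3 := hκ (N + k)
      have h4 := hN (N + k) (by omega)
      have e : N + (k + 1) = N + k + 1 := by ring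
      rw [e, pow_succ]
      nlinarith
  have h5 : Tendsto (fun k => θ ^ k * κ N) atTop (𝓝 (0 * κ N)) :=
    (tendsto_pow_atTop_nhds_zero_of_lt_one hθ0 hθ1).mul_const _
  rw [zero_mul] at h5
  obtain ⟨M, hM⟩ := eventually_atTop.1 ((tendsto_order.1 h5).2 (ε / 2) (by positivity))
  refine ⟨N + M, fun n hn => ?_⟩
  obtain ⟨k, rfl⟩ := Nat.exists_eq_add_of_le (show N ≤ n by omega)
  have h6 := h2 k
  have h7 := hM k (by omega)
  rw [Real.dist_eq, sub_zero, abs_of_nonneg (hκ0 _)]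
  linarith

lemma sum_range_mul_eq (f : ℕ → ℝ) (m l : ℕ) :
    ∑ k ∈ Finset.range (m * l), f k =
      ∑ t ∈ Finset.range l, ∑ i ∈ Finset.range m, f (t + i * l) := by
  rw [Finset.sum_comm]
  induction m with
  | zero => simp
  | succ m ih =>
    rw [Nat.succ_mul, Finset.sum_range_add, ih, Finset.sum_range_succ]
    congr 1
    apply Finset.sum_congr rfl
    intro x _
    rw [add_comm]

variable {Ω : Type*} {m0 : MeasurableSpace Ω} {P : Measure Ω} [IsProbabilityMeasure P]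
  {F A : ℤ → MeasurableSpace Ω} {X : ℤ → Ω → ℝ} {e e' : ℕ → ℝ}

/-- the flux through a node, bounded via the energy of the drift -/
lemma flux_le' (h : Frame P F A X) {s : ℤ} {n : ℕ} {L γ z : Ω → ℝ} {M G : ℝ} (hM : 0 ≤ M)
    (hG : 0 ≤ G) (hL : Bdd P m0 L) (hγ : Bdd P m0 γ) (hL4 : ∫ ω, L ω ^ 4 ∂P ≤ M ^ 2)
    (hγ2 : ∫ ω, γ ω ^ 2 ∂P ≤ G ^ 2) (hz : Bdd P (F s) z) (hz0 : 0 ≤ᵐ[P] z)
    (hz1 : ∀ᵐ ω ∂P, z ω ≤ 1) :
    ∫ ω, ((P[z | A s]) ω - (P[z | A (s + n)]) ω) * (L ω * γ ω) ∂P ≤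
      √M * G * √√(Frame.q P A z s - Frame.q P A z (s + n)) := by
  have bZs := (hz.condExp (A s)).up (h.A_le_m0 s)
  have bZt := (hz.condExp (A (s + n))).up (h.A_le_m0 _)
  have bD := bZs.sub bZt
  have hz01 : ∀ u, ∀ᵐ ω ∂P, 0 ≤ (P[z | A u]) ω ∧ (P[z | A u]) ω ≤ 1 := by
    intro u
    have hi := (hz.up (h.F_le s)).integrable le_rfl
    have h1 : 0 ≤ᵐ[P] P[z | A u] := condExp_nonneg hz0
    have h2 : P[z | A u] ≤ᵐ[P] P[fun _ => (1 : ℝ) | A u] :=
      condExp_mono hi (integrable_const _) hz1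
    rw [condExp_const (h.A_le_m0 u)] at h2
    filter_upwards [h1, h2] with ω h3 h4
    exact ⟨h3, h4⟩
  have hD1 : ∀ᵐ ω ∂P, |(P[z | A s]) ω - (P[z | A (s + n)]) ω| ≤ 1 := by
    filter_upwards [hz01 s, hz01 (s + n)] with ω h1 h2
    rw [abs_le]; constructor <;> linarith [h1.1, h1.2, h2.1, h2.2]
  have hDe := h.integral_sq_sub (n := n) hz
  set Q := Frame.q P A z s - Frame.q P A z (s + n) with hQ
  have hQ0 : 0 ≤ Q := by rw [← hDe]; exact integral_nonneg fun ω => sq_nonneg _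
  have e1 : ∀ ω, ((P[z | A s]) ω - (P[z | A (s + n)]) ω) * (L ω * γ ω) =
    (((P[z | A s]) ω - (P[z | A (s + n)]) ω) * L ω) * γ ω := fun ω => by ring
  simp_rw [e1]
  have h1 := int_mul_le ((bD.mul hL).memLp le_rfl 2) (hγ.memLp le_rfl 2)
  refine h1.trans ?_
  have h2 : nrm P γ ≤ G := (nrm_le_iff hG).2 hγ2
  have h3 : nrm P (fun ω => ((P[z | A s]) ω - (P[z | A (s + n)]) ω) * L ω) ≤ √M * √√Q := by
    rw [nrm_le_iff (by positivity), mul_pow, Real.sq_sqrt hM, Real.sq_sqrt (Real.sqrt_nonneg _)]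
    have e2 : ∀ ω, (((P[z | A s]) ω - (P[z | A (s + n)]) ω) * L ω) ^ 2 =
      ((P[z | A s]) ω - (P[z | A (s + n)]) ω) ^ 2 * L ω ^ 2 := fun ω => by ring
    simp_rw [e2]
    refine (int_mul_le ((bD.pow 2).memLp le_rfl 2) ((hL.pow 2).memLp le_rfl 2)).trans ?_
    rw [mul_comm]
    apply mul_le_mul _ _ (nrm_nonneg _) hM
    · rw [nrm_le_iff hM]
      refine le_trans (le_of_eq ?_) hL4
      congr 1; ext ω; ring
    · rw [nrm_le_iff (Real.sqrt_nonneg _), Real.sq_sqrt hQ0, ← hDe]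
      apply integral_mono_ae (((bD.pow 2).pow 2).integrable le_rfl) ((bD.pow 2).integrable le_rfl)
      filter_upwards [hD1] with ω hω
      have h4 : ((P[z | A s]) ω - (P[z | A (s + n)]) ω) ^ 2 ≤ 1 := by
        rw [← sq_abs]; exact pow_le_one₀ (abs_nonneg _) hω
      have h5 : 0 ≤ ((P[z | A s]) ω - (P[z | A (s + n)]) ω) ^ 2 := sq_nonneg _
      nlinarith
  calc _ ≤ (√M * √√Q) * G := mul_le_mul h3 h2 (nrm_nonneg _) (by positivity)
    _ = _ := by ring

lemma integral_gam_sq_le (h : Frame P F A X) {ρ : ℝ} {Lf : Ω → ℝ} (hLf : Bdd P m0 Lf) (t : ℤ)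
    (n : ℕ) : ∫ ω, gam P A X ρ Lf t n ω ^ 2 ∂P ≤ ∫ ω, (P[bS X t n | A t]) ω ^ 2 ∂P := by
  have hγ := (bdd_gam (A := A) (X := X) (ρ := ρ) hLf t n).up (h.A_le_m0 t)
  apply integral_mono ((hγ.pow 2).integrable le_rfl)
    (memLp_condExp (h.memLp_bS t n)).integrable_sq
  intro ω
  simp only
  rw [← sq_abs (gam P A X ρ Lf t n ω), ← sq_abs ((P[bS X t n | A t]) ω)]
  exact pow_le_pow_left₀ (abs_nonneg _) (adm_abs_le_g _ _ _ _) 2

/-- the flux coefficients -/
noncomputable def kap (K : ℝ) (e : ℕ → ℝ) (J0 : ℕ) : ℕ → ℝ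
  | 0 => 0
  | (r + 1) => √K * e (J0 + r) + 9 / 10 * kap K e J0 r

lemma kap_nonneg {K : ℝ} {J0 : ℕ} (he : ∀ j, 0 ≤ e j) : ∀ r, 0 ≤ kap K e J0 r := by
  intro r
  induction r with
  | zero => exact le_rfl
  | succ r ih =>
    have := he (J0 + r)
    show 0 ≤ √K * e (J0 + r) + 9 / 10 * kap K e J0 r
    positivity

lemma tendsto_kap {K : ℝ} {J0 : ℕ} (he : ∀ j, 0 ≤ e j) (hs : Summable fun j => e j ^ 2) :
    Tendsto (kap K e J0) atTop (𝓝 0) := by
  have h1 : Tendsto (fun j => e j) atTop (𝓝 0) := by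
    have h2 := hs.tendsto_atTop_zero
    have h3 := h2.sqrt
    simpa [Real.sqrt_sq (he _)] using h3
  have h4 : Tendsto (fun r => √K * e (J0 + r)) atTop (𝓝 (√K * 0)) := by
    apply Tendsto.const_mul
    have := h1.comp (tendsto_add_atTop_nat J0)
    refine this.congr fun r => ?_
    simp [add_comm]
  rw [mul_zero] at h4
  exact tendsto_of_contraction (θ := 9 / 10) (by norm_num) (by norm_num) (kap_nonneg he)
    (fun r => le_rfl) h4

/-- tests of the local energy of the light part against bounded functions of the past -/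
lemma light_test (h : SFrame P F A X e e') {Λ K : ℝ} {J0 : ℕ} (hΛ : 0 ≤ Λ) (hK : 0 ≤ K)
    (hL : ∀ r s, ∫ ω, light P A X (1 / 200) Λ J0 r s ω ^ 4 ∂P ≤ (K * len J0 r) ^ 2)
    {s : ℤ} {z : Ω → ℝ} (hz : Bdd P (F s) z) (hz0 : 0 ≤ᵐ[P] z) (hz1 : ∀ᵐ ω ∂P, z ω ≤ 1)
    (r : ℕ) :
    ∫ ω, z ω * light P A X (1 / 200) Λ J0 r s ω ^ 2 ∂P ≤
      ∑ i ∈ Finset.range (2 ^ r),
        ∫ ω, z ω * light P A X (1 / 200) Λ J0 0 (s + i * len J0 0) ω ^ 2 ∂P +
      kap K e J0 r * len J0 r := by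
  have hF := h.toFrame
  have bL := fun j s => bdd_light (ρ := 1 / 200) (J0 := J0) hF hΛ j s
  have bL0 := fun j s => (bL j s).up (h.Gs_le_m0 _ _)
  have bz0 := hz.up (h.F_le s)
  have hq : ∀ (s' : ℤ) (n : ℕ), s ≤ s' →
      Frame.q P A z (s' + n) ≤ Frame.q P A z s' := fun s' n hs' =>
    hF.q_anti (hz.up (h.F_mono hs'))
  have hφ2 : ∀ a b : ℝ, 0 ≤ a → 0 ≤ b → √√a + √√b ≤ 9 / 5 * √√(a + b) := by
    intro a b ha hb
    have h1 := sqrt_add_sqrt_le (Real.sqrt_nonneg a) (Real.sqrt_nonneg b)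
    have h2 := sqrt_add_sqrt_le ha hb
    have h3 : √(√a + √b) ≤ √√2 * √√(a + b) := by
      rw [← Real.sqrt_mul (Real.sqrt_nonneg 2)]
      exact Real.sqrt_le_sqrt h2
    have h4 : √2 ≤ 3 / 2 := by rw [Real.sqrt_le_left (by norm_num)]; norm_num
    have h5 : √√2 ≤ 6 / 5 := by
      rw [Real.sqrt_le_left (by norm_num), Real.sqrt_le_left (by norm_num)]; norm_num
    calc √√a + √√b ≤ √2 * √(√a + √b) := h1
      _ ≤ √2 * (√√2 * √√(a + b)) := mul_le_mul_of_nonneg_left h3 (Real.sqrt_nonneg _)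
      _ ≤ (3 / 2) * ((6 / 5) * √√(a + b)) := by gcongr
      _ = _ := by ring
  have key := tree_bound (f := fun j s' => ∫ ω, z ω * light P A X (1 / 200) Λ J0 j s' ω ^ 2 ∂P)
    (l := len J0) (len_succ J0) (q := Frame.q P A z) (φ := fun x => √√x)
    (c := fun j => 2 * √K * e (J0 + j) * len J0 j) (K := fun j => kap K e J0 j * len J0 j)
    (τ := 9 / 5) (s0 := s) hq
    (fun a b hab => Real.sqrt_le_sqrt (Real.sqrt_le_sqrt hab)) hφ2
    (fun x => Real.sqrt_nonneg _)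
    (fun j => by have := h.e_nonneg (J0 + j); positivity)
    (fun j => by have := kap_nonneg (K := K) (J0 := J0) h.e_nonneg j; positivity)
    (fun j => by
      show _ ≤ (√K * e (J0 + j) + 9 / 10 * kap K e J0 j) * len J0 (j + 1)
      rw [len_succ]; push_cast
      apply le_of_eq
      ring) r
    (fun j _ s' hs' => by
      have h1 := light_flux_step (ρ := 1 / 200) (J0 := J0) hF hΛ hz hz0 j hs'
      have hγ := (bdd_gam (A := A) (X := X) (ρ := 1 / 200) (bL0 j s') (s' + len J0 j)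
        (len J0 j)).up (h.A_le_m0 _)
      have hγ2 := integral_gam_sq_le (X := X) (ρ := 1 / 200) hF (bL0 j s') (s' + len J0 j)
        (len J0 j)
      have hg2 := h.hg (J0 + j) (s' + len J0 j)
      have hlen : (0 : ℝ) ≤ len J0 j := by positivity
      have he0 := h.e_nonneg (J0 + j)
      have hγ3 : ∫ ω, gam P A X (1 / 200) (light P A X (1 / 200) Λ J0 j s') (s' + len J0 j)
          (len J0 j) ω ^ 2 ∂P ≤ (e (J0 + j) * √(len J0 j)) ^ 2 := by
        rw [mul_pow, Real.sq_sqrt hlen]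
        exact hγ2.trans hg2
      have h2 := flux_le' hF (M := K * len J0 j) (G := e (J0 + j) * √(len J0 j))
        (by positivity) (by positivity) (bL0 j s') hγ (hL j s') hγ3 (hz.up (h.F_mono hs')) hz0 hz1
        (n := len J0 j)
      have e2 : √(K * (len J0 j : ℝ)) * (e (J0 + j) * √(len J0 j)) =
          √K * e (J0 + j) * len J0 j := by
        rw [Real.sqrt_mul hK]
        have := Real.mul_self_sqrt hlen
        calc _ = √K * e (J0 + j) * (√(len J0 j : ℝ) * √(len J0 j : ℝ)) := by ring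
          _ = _ := by rw [this]
      rw [e2] at h2
      linarith) s le_rfl
  refine key.trans ?_
  apply add_le_add le_rfl
  have h3 : √√(Frame.q P A z s - Frame.q P A z (s + len J0 r)) ≤ 1 := by
    rw [Real.sqrt_le_one, Real.sqrt_le_one]
    have h4 := Frame.q_le hF bz0 s
    have h5 := Frame.q_nonneg (P := P) (A := A) z (s + len J0 r)
    have h6 : ∫ ω, z ω ^ 2 ∂P ≤ ∫ _, (1 : ℝ) ∂P := by
      apply integral_mono_ae ((bz0.pow 2).integrable le_rfl) (integrable_const _)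
      filter_upwards [hz0, hz1] with ω h7 h8
      have h7' : 0 ≤ z ω := h7
      nlinarith
    simp only [integral_const, probReal_univ, smul_eq_mul, one_mul] at h6
    linarith
  have h9 : 0 ≤ kap K e J0 r * (len J0 r : ℝ) := by
    have := kap_nonneg (K := K) (J0 := J0) h.e_nonneg r; positivity
  calc _ ≤ kap K e J0 r * (len J0 r : ℝ) * 1 := mul_le_mul_of_nonneg_left h3 h9
    _ = _ := mul_one _

end Pool.MP_cd27db_pr
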