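import Pool.Agent.W_MP_cd27db_pr.CondVar

/-!
# Convergence of the conditional variances along powers of two, assembly
-/

open MeasureTheory ProbabilityTheory Filter Topology
open scoped ENNReal NNReal

namespace Pool.MP_cd27db_pr

variable {Ω : Type*} {m0 : MeasurableSpace Ω} {P : Measure Ω} [IsProbabilityMeasure P]
  {F A : ℤ → MeasurableSpace Ω} {X : ℤ → Ω → ℝ} {e e' : ℕ → ℝ}

/-- the error function -/
noncomputable def psi (σ δ : ℝ) : ℝ := 4 * √δ * (√(σ + δ) + √δ)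

lemma psi_nonneg (σ δ : ℝ) : 0 ≤ psi σ δ := by unfold psi; positivity

lemma tendsto_psi (σ : ℝ) : Tendsto (psi σ) (𝓝 0) (𝓝 0) := by
  have h : Continuous (psi σ) := by unfold psi; fun_prop
  have := h.tendsto 0
  simpa [psi] using this

lemma nrm_bS_le (h : SFrame P F A X e e') {σ δ : ℝ} {J0 : ℕ}
    (hv : ∀ j, J0 ≤ j → |SFrame.vv P X j - σ| ≤ δ) (r : ℕ) (s : ℤ) :
    nrm P (bS X s (len J0 r)) ≤ √(σ + δ) * √(len J0 r) := by
  have h1 := h.vv_eq (J0 + r) s
  have h2 := (abs_le.1 (hv (J0 + r) (by omega))).2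
  have h3 : (0 : ℝ) ≤ len J0 r := by positivity
  have h4 : ((len J0 r : ℕ) : ℝ) = 2 ^ (J0 + r) := by unfold len; push_cast; ring
  have h0 : 0 ≤ SFrame.vv P X (J0 + r) := SFrame.vv_nonneg _
  rw [nrm_le_iff (by positivity), mul_pow, Real.sq_sqrt h3, Real.sq_sqrt (by linarith), h4]
  have h5 : ∫ ω, bS X s (len J0 r) ω ^ 2 ∂P = SFrame.vv P X (J0 + r) * 2 ^ (J0 + r) := h1
  rw [h5]
  apply mul_le_mul_of_nonneg_right (by linarith) (by positivity)

/-- comparison of the block sum with its light part -/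
lemma test_compare (h : SFrame P F A X e e') {σ δ Λ : ℝ} {J0 : ℕ} (hΛ : 0 ≤ Λ) (hδ : 0 ≤ δ)
    (hH : ∀ r s, ∫ ω, heavy P A X (1 / 200) Λ J0 r s ω ^ 2 ∂P ≤ δ * len J0 r)
    (he : ∀ j, J0 ≤ j → e j ^ 2 ≤ δ) (hv : ∀ j, J0 ≤ j → |SFrame.vv P X j - σ| ≤ δ)
    {z : Ω → ℝ} (hz : StronglyMeasurable z) (hz1 : ∀ᵐ ω ∂P, |z ω| ≤ 1) (r : ℕ) (s : ℤ) :
    |∫ ω, z ω * bS X s (len J0 r) ω ^ 2 ∂P -
      ∫ ω, z ω * light P A X (1 / 200) Λ J0 r s ω ^ 2 ∂P| ≤ psi σ δ * len J0 r := by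
  have hF := h.toFrame
  have lS := h.memLp_bS s (len J0 r)
  have lL := memLp_light (ρ := 1 / 200) (J0 := J0) hF hΛ r s
  have lH := memLp_heavy (ρ := 1 / 200) (J0 := J0) hF hΛ r s
  have lg : MemLp (P[bS X s (len J0 r) | A s]) 2 P := memLp_condExp lS
  have h3 : (0 : ℝ) ≤ len J0 r := by positivity
  have hD : nrm P (fun ω => bS X s (len J0 r) ω - light P A X (1 / 200) Λ J0 r s ω) ≤
      2 * (√δ * √(len J0 r)) := by
    have e1 : (fun ω => bS X s (len J0 r) ω - light P A X (1 / 200) Λ J0 r s ω) =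
        fun ω => (P[bS X s (len J0 r) | A s]) ω + heavy P A X (1 / 200) Λ J0 r s ω := by
      ext ω; unfold heavy; ring
    rw [e1]
    refine (nrm_add_le lg lH).trans ?_
    have h5 : nrm P (P[bS X s (len J0 r) | A s]) ≤ √δ * √(len J0 r) := by
      rw [nrm_le_iff (by positivity), mul_pow, Real.sq_sqrt h3, Real.sq_sqrt hδ]
      exact (h.hg (J0 + r) s).trans (mul_le_mul_of_nonneg_right (he _ (by omega)) (by positivity))
    have h6 : nrm P (heavy P A X (1 / 200) Λ J0 r s) ≤ √δ * √(len J0 r) := by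
      rw [nrm_le_iff (by positivity), mul_pow, Real.sq_sqrt h3, Real.sq_sqrt hδ]
      exact hH r s
    have : nrm P (fun ω => heavy P A X (1 / 200) Λ J0 r s ω) =
      nrm P (heavy P A X (1 / 200) Λ J0 r s) := rfl
    linarith
  have hS := nrm_bS_le h hv r s
  refine (abs_int_z_sq_sub hz hz1 lS lL).trans ?_
  have h7 : √(len J0 r : ℝ) * √(len J0 r : ℝ) = len J0 r := Real.mul_self_sqrt h3
  calc _ ≤ (2 * (√δ * √(len J0 r))) * (2 * (√(σ + δ) * √(len J0 r)) +
        2 * (√δ * √(len J0 r))) := by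
        apply mul_le_mul hD _ _ (by positivity)
        · linarith
        · have := nrm_nonneg (P := P) (bS X s (len J0 r))
          have := nrm_nonneg (P := P)
            (fun ω => bS X s (len J0 r) ω - light P A X (1 / 200) Λ J0 r s ω)
          positivity
    _ = psi σ δ * (√(len J0 r : ℝ) * √(len J0 r : ℝ)) := by unfold psi; ring
    _ = _ := by rw [h7]

/-- comparison with a shifted block -/
lemma shift_compare (h : SFrame P F A X e e') {σ δ : ℝ} {J0 : ℕ}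
    (hv : ∀ j, J0 ≤ j → |SFrame.vv P X j - σ| ≤ δ)
    {z : Ω → ℝ} (hz : StronglyMeasurable z) (hz1 : ∀ᵐ ω ∂P, |z ω| ≤ 1) {t l : ℕ} (ht : t < l)
    (r : ℕ) {M : ℝ} (hM : M = ∑ t ∈ Finset.range l, nrm P (bS X 0 t)) :
    ∫ ω, z ω * bS X 0 (len J0 r) ω ^ 2 ∂P ≤ ∫ ω, z ω * bS X (0 + t) (len J0 r) ω ^ 2 ∂P +
      (2 * M) * (2 * (√(σ + δ) * √(len J0 r)) + 2 * M) := by
  have hM0 : nrm P (bS X 0 t) ≤ M := by
    rw [hM]
    exact Finset.single_le_sum (f := fun t => nrm P (bS X 0 t)) (fun i _ => nrm_nonneg _)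
      (Finset.mem_range.2 ht)
  have hM1 : 0 ≤ M := (nrm_nonneg _).trans hM0
  have lS := h.memLp_bS 0 (len J0 r)
  have lT := h.memLp_bS (0 + t) (len J0 r)
  have hD : nrm P (fun ω => bS X 0 (len J0 r) ω - bS X (0 + t) (len J0 r) ω) ≤ 2 * M := by
    have e1 : (fun ω => bS X 0 (len J0 r) ω - bS X (0 + t) (len J0 r) ω) =
        fun ω => bS X 0 t ω - bS X (0 + len J0 r) t ω := by
      ext ω
      have e2 := Frame.bS_add (X := X) 0 (len J0 r) t ω
      have e3 := Frame.bS_add (X := X) 0 t (len J0 r) ω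
      rw [add_comm] at e2
      rw [e3] at e2
      linarith
    rw [e1]
    refine (nrm_sub_le (h.memLp_bS _ _) (h.memLp_bS _ _)).trans ?_
    have e2 : nrm P (bS X (0 + len J0 r) t) = nrm P (bS X 0 t) := h.nrm_bS _ _
    have e3 : nrm P (fun ω => bS X 0 t ω) = nrm P (bS X 0 t) := rfl
    have e4 : nrm P (fun ω => bS X (0 + len J0 r) t ω) = nrm P (bS X (0 + len J0 r) t) := rfl
    linarith
  have hS := nrm_bS_le h hv r 0
  have h1 := abs_int_z_sq_sub hz hz1 lS lT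
  have h2 := (abs_le.1 h1).2
  have h3 : nrm P (fun ω => bS X 0 (len J0 r) ω - bS X (0 + t) (len J0 r) ω) *
      (2 * nrm P (bS X 0 (len J0 r)) +
        nrm P (fun ω => bS X 0 (len J0 r) ω - bS X (0 + t) (len J0 r) ω)) ≤
      (2 * M) * (2 * (√(σ + δ) * √(len J0 r)) + 2 * M) := by
    apply mul_le_mul hD _ _ (by positivity)
    · linarith
    · have := nrm_nonneg (P := P) (bS X 0 (len J0 r))
      have := nrm_nonneg (P := P)
        (fun ω => bS X 0 (len J0 r) ω - bS X (0 + t) (len J0 r) ω)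
      positivity
  linarith

/-- The main estimate on tested second moments. -/
lemma test_main (h : SFrame P F A X e e') {σ δ Λ K : ℝ} {J0 : ℕ} (hσ : 0 ≤ σ) (hΛ : 0 ≤ Λ)
    (hK : 0 ≤ K) (hδ : 0 ≤ δ)
    (hH : ∀ r s, ∫ ω, heavy P A X (1 / 200) Λ J0 r s ω ^ 2 ∂P ≤ δ * len J0 r)
    (hL : ∀ r s, ∫ ω, light P A X (1 / 200) Λ J0 r s ω ^ 4 ∂P ≤ (K * len J0 r) ^ 2)
    (he : ∀ j, J0 ≤ j → e j ^ 2 ≤ δ) (hv : ∀ j, J0 ≤ j → |SFrame.vv P X j - σ| ≤ δ) :
    ∃ err : ℕ → ℝ, Tendsto err atTop (𝓝 0) ∧ ∀ (r : ℕ) (z : Ω → ℝ), Bdd P (A 0) z →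
      (∀ᵐ ω ∂P, 0 ≤ z ω) → (∀ᵐ ω ∂P, z ω ≤ 1) →
      ∫ ω, z ω * bS X 0 (len J0 r) ω ^ 2 ∂P ≤
        ((∫ ω, z ω ∂P) * (σ + δ + psi σ δ) + psi σ δ + err r) * len J0 r := by
  have hF := h.toFrame
  set l := len J0 0 with hl
  have hl0 : (0 : ℝ) < l := by exact_mod_cast len_pos J0 0
  set M := ∑ t ∈ Finset.range l, nrm P (bS X 0 t) with hM
  set EN : ℕ → ℝ := fun N => ∫ ω,
    |(∑ k ∈ Finset.range N, (P[fun ω => tcen P A X Λ l k ω ^ 2 | A 0]) ω) / N -
      ∫ ω, tcen P A X Λ l 0 ω ^ 2 ∂P| ∂P with hEN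
  have hlen_top : Tendsto (fun r => len J0 r) atTop atTop := by
    have h1 : Tendsto (fun r => 2 ^ r * len J0 0) atTop atTop :=
      (tendsto_pow_atTop_atTop_of_one_lt (by norm_num : 1 < 2)).atTop_mul_const' (len_pos J0 0)
    exact h1.congr fun r => (len_eq J0 r).symm
  have hlen_topR : Tendsto (fun r => ((len J0 r : ℕ) : ℝ)) atTop atTop :=
    tendsto_natCast_atTop_atTop.comp hlen_top
  refine ⟨fun r => EN (len J0 r) / l + kap K e J0 r +
    ((2 * M) * (2 * √(σ + δ)) / √(len J0 r) + (2 * M) * (2 * M) / len J0 r), ?_, ?_⟩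
  · have h1 : Tendsto (fun r => EN (len J0 r) / l) atTop (𝓝 (0 / l)) :=
      ((h.erg Λ hΛ l).comp hlen_top).div_const _
    have h2 := tendsto_kap (K := K) (J0 := J0) h.e_nonneg h.sum_e
    have h3 : Tendsto (fun r => (2 * M) * (2 * √(σ + δ)) / √(len J0 r : ℝ)) atTop (𝓝 0) :=
      tendsto_const_nhds.div_atTop (Real.tendsto_sqrt_atTop.comp hlen_topR)
    have h4 : Tendsto (fun r => (2 * M) * (2 * M) / (len J0 r : ℝ)) atTop (𝓝 0) :=
      tendsto_const_nhds.div_atTop hlen_topR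
    have := (h1.add h2).add (h3.add h4)
    simpa using this
  · intro r z hz hz0 hz1
    have hzF : Bdd P (F 0) z := hz.up (h.A_le 0)
    have hzm : StronglyMeasurable z := hz.sm.mono (hF.A_le_m0 0)
    have hzabs : ∀ᵐ ω ∂P, |z ω| ≤ 1 := by
      filter_upwards [hz0, hz1] with ω h1 h2
      rw [abs_of_nonneg h1]; exact h2
    have bz0 : Bdd P m0 z := hz.up (hF.A_le_m0 0)
    set n := len J0 r with hn
    have hn0 : (0 : ℝ) < n := by exact_mod_cast len_pos J0 r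
    have hnl : n = 2 ^ r * l := len_eq J0 r
    -- each shift
    have s1 : ∀ t ∈ Finset.range l, ∫ ω, z ω * bS X 0 n ω ^ 2 ∂P ≤
        ∑ i ∈ Finset.range (2 ^ r), ∫ ω, z ω * tcen P A X Λ l ((t + i * l : ℕ) : ℤ) ω ^ 2 ∂P +
        kap K e J0 r * n + psi σ δ * n + (2 * M) * (2 * (√(σ + δ) * √n) + 2 * M) := by
      intro t ht
      have h1 := shift_compare h hv hzm hzabs (Finset.mem_range.1 ht) r hM
      have h2 := (abs_le.1 (test_compare h hΛ hδ hH he hv hzm hzabs r (0 + t))).2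
      have h3 := light_test h hΛ hK hL (s := 0 + t) (hzF.up (h.F_mono (by omega))) hz0 hz1 r
      have e1 : ∀ i : ℕ, light P A X (1 / 200) Λ J0 0 (0 + (t : ℤ) + i * (len J0 0 : ℕ)) =
          tcen P A X Λ l ((t + i * l : ℕ) : ℤ) := by
        intro i
        have : (0 + (t : ℤ) + i * (len J0 0 : ℕ)) = ((t + i * l : ℕ) : ℤ) := by push_cast; ring
        rw [this]; rfl
      simp_rw [e1] at h3
      linarith
    have s2 := Finset.sum_le_sum s1
    rw [Finset.sum_const, Finset.card_range, nsmul_eq_mul] at s2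
    have e2 : ∀ C : ℝ, ∑ t ∈ Finset.range l, (∑ i ∈ Finset.range (2 ^ r),
        ∫ ω, z ω * tcen P A X Λ l ((t + i * l : ℕ) : ℤ) ω ^ 2 ∂P + kap K e J0 r * n +
          psi σ δ * n + C) =
        ∑ k ∈ Finset.range n, ∫ ω, z ω * tcen P A X Λ l (k : ℤ) ω ^ 2 ∂P +
          l * (kap K e J0 r * n + psi σ δ * n + C) := by
      intro C
      have e3 := sum_range_mul_eq (fun k : ℕ => ∫ ω, z ω * tcen P A X Λ l (k : ℤ) ω ^ 2 ∂P)
        (2 ^ r) l
      rw [hnl, e3]
      simp_rw [Finset.sum_add_distrib, Finset.sum_const, Finset.card_range, nsmul_eq_mul]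
      push_cast
      ring
    rw [e2] at s2
    -- the ergodic average
    have bV : ∀ k : ℤ, Bdd P m0 (fun ω => tcen P A X Λ l k ω ^ 2) := by
      intro k
      exact ((bdd_light (ρ := 1 / 200) (J0 := J0) hF hΛ 0 k).pow 2).up (hF.Gs_le_m0 _ _)
    set cV := ∫ ω, tcen P A X Λ l 0 ω ^ 2 ∂P with hcV
    have s3 : ∑ k ∈ Finset.range n, ∫ ω, z ω * tcen P A X Λ l (k : ℤ) ω ^ 2 ∂P ≤
        ((∫ ω, z ω ∂P) * cV + EN n) * n := by
      have e4 : ∀ k : ℕ, ∫ ω, z ω * tcen P A X Λ l (k : ℤ) ω ^ 2 ∂P =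
          ∫ ω, z ω * (P[fun ω => tcen P A X Λ l k ω ^ 2 | A 0]) ω ∂P := by
        intro k
        exact E_mul_condExp (hF.A_le_m0 0) hz.sm ((bV k).integrable le_rfl)
          ((bz0.mul (bV k)).integrable le_rfl)
      simp_rw [e4]
      have bW : ∀ k : ℕ, Bdd P m0 (P[fun ω => tcen P A X Λ l k ω ^ 2 | A 0]) := fun k =>
        ((bV k).condExp (A 0)).up (hF.A_le_m0 0)
      have bsum : ∀ N : ℕ, Bdd P m0 (fun ω => ∑ k ∈ Finset.range N,
          (P[fun ω => tcen P A X Λ l k ω ^ 2 | A 0]) ω) := by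
        intro N
        induction N with
        | zero => simpa using Bdd.const (P := P) (m := m0) 0
        | succ N ih =>
          simp_rw [Finset.sum_range_succ]
          exact ih.add (bW N)
      rw [← integral_finsetSum _ (fun (k : ℕ) _ => (bz0.mul (bW k)).integrable le_rfl)]
      set W : Ω → ℝ := fun ω => (∑ k ∈ Finset.range n,
        (P[fun ω => tcen P A X Λ l k ω ^ 2 | A 0]) ω) / n - cV with hW
      have bWW : Bdd P m0 W := by
        have h5 := ((bsum n).const_mul (1 / n)).sub (Bdd.const (P := P) (m := m0) cV)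
        have e5 : W = fun ω => 1 / (n : ℝ) * ∑ k ∈ Finset.range n,
            (P[fun ω => tcen P A X Λ l k ω ^ 2 | A 0]) ω - cV := by
          ext ω; simp only [hW]; ring
        rw [e5]; exact h5
      have e6 : ∀ ω, ∑ k ∈ Finset.range n, z ω * (P[fun ω => tcen P A X Λ l k ω ^ 2 | A 0]) ω =
          n * (z ω * W ω) + n * cV * z ω := by
        intro ω
        rw [← Finset.mul_sum]
        simp only [hW]
        field_simp
        ring
      simp_rw [e6]
      have iz := bz0.integrable (P := P) le_rfl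
      have izW := (bz0.mul bWW).integrable (P := P) le_rfl
      rw [E_add (icm _ izW) (icm _ iz), integral_const_mul, integral_const_mul]
      have h7 : ∫ ω, z ω * W ω ∂P ≤ EN n := by
        apply integral_mono_ae izW (bWW.integrable le_rfl).abs
        filter_upwards [hzabs] with ω hω
        calc z ω * W ω ≤ |z ω * W ω| := le_abs_self _
          _ = |z ω| * |W ω| := abs_mul _ _
          _ ≤ 1 * |W ω| := mul_le_mul_of_nonneg_right hω (abs_nonneg _)
          _ = |W ω| := one_mul _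
      nlinarith
    -- the mean energy of the truncated block
    have s4 : cV ≤ (σ + δ + psi σ δ) * l := by
      have h1 := (abs_le.1 (test_compare h hΛ hδ hH he hv (z := fun _ => 1)
        stronglyMeasurable_const (by simp) 0 0)).1
      simp only [one_mul] at h1
      have h2 := nrm_bS_le h hv 0 0
      have h3 := (nrm_le_iff (by positivity)).1 h2
      rw [mul_pow, Real.sq_sqrt (by positivity), Real.sq_sqrt hl0.le] at h3
      have e7 : ∫ ω, light P A X (1 / 200) Λ J0 0 0 ω ^ 2 ∂P = cV := rfl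
      rw [e7] at h1
      nlinarith
    -- conclusion
    have hz_int : 0 ≤ ∫ ω, z ω ∂P := integral_nonneg_of_ae hz0
    have s5 : (l : ℝ) * ∫ ω, z ω * bS X 0 n ω ^ 2 ∂P ≤
        ((∫ ω, z ω ∂P) * ((σ + δ + psi σ δ) * l) + EN n) * n +
        l * (kap K e J0 r * n + psi σ δ * n + (2 * M) * (2 * (√(σ + δ) * √n) + 2 * M)) := by
      have h8 : (∫ ω, z ω ∂P) * cV ≤ (∫ ω, z ω ∂P) * ((σ + δ + psi σ δ) * l) :=
        mul_le_mul_of_nonneg_left s4 hz_int
      have h9 : ((∫ ω, z ω ∂P) * cV + EN n) * n ≤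
          ((∫ ω, z ω ∂P) * ((σ + δ + psi σ δ) * l) + EN n) * n :=
        mul_le_mul_of_nonneg_right (by linarith) hn0.le
      linarith
    have hsn : √(n : ℝ) * √(n : ℝ) = n := Real.mul_self_sqrt hn0.le
    have hsn0 : 0 < √(n : ℝ) := Real.sqrt_pos.2 hn0
    have e8 : (2 * M) * (2 * (√(σ + δ) * √n) + 2 * M) =
        ((2 * M) * (2 * √(σ + δ)) / √n + (2 * M) * (2 * M) / n) * n := by
      have e9 : (2 * M) * (2 * √(σ + δ)) / √n * n = (2 * M) * (2 * √(σ + δ)) * √n := by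
        rw [div_mul_eq_mul_div, div_eq_iff hsn0.ne', mul_assoc (2 * M * (2 * √(σ + δ))), hsn]
      rw [add_mul, e9, div_mul_cancel₀ _ hn0.ne']
      ring
    rw [e8] at s5
    have s6 : (l : ℝ) * ∫ ω, z ω * bS X 0 n ω ^ 2 ∂P ≤
        l * (((∫ ω, z ω ∂P) * (σ + δ + psi σ δ) + psi σ δ + (EN n / l + kap K e J0 r +
          ((2 * M) * (2 * √(σ + δ)) / √n + (2 * M) * (2 * M) / n))) * n) := by
      refine s5.trans (le_of_eq ?_)
      field_simp
      ring
    exact le_of_mul_le_mul_left s6 hl0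

/-- **Convergence of the conditional variances along powers of two.** -/
theorem tendsto_condVar (h : SFrame P F A X e e') {σ : ℝ} (hσ0 : 0 ≤ σ)
    (hσ : Tendsto (SFrame.vv P X) atTop (𝓝 σ)) :
    Tendsto (fun j => (∫ ω, |(P[fun ω => bS X 0 (2 ^ j) ω ^ 2 | A 0]) ω - σ * 2 ^ j| ∂P) / 2 ^ j)
      atTop (𝓝 0) := by
  have hF := h.toFrame
  rw [Metric.tendsto_atTop]
  intro ε hε
  have hψ : Tendsto (fun δ => 3 * δ + 4 * psi σ δ) (𝓝 0) (𝓝 0) := by
    have h1 := (tendsto_id (α := ℝ) (x := 𝓝 0)).const_mul 3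
    have h2 := (tendsto_psi σ).const_mul 4
    simpa using h1.add h2
  obtain ⟨δ, hδ0, hδ⟩ : ∃ δ : ℝ, 0 < δ ∧ 3 * δ + 4 * psi σ δ < ε / 2 := by
    have h1 := (tendsto_order.1 hψ).2 (ε / 2) (by positivity)
    obtain ⟨a, ha, hb⟩ := Metric.eventually_nhds_iff.1 h1
    refine ⟨a / 2, by positivity, hb ?_⟩
    rw [Real.dist_eq, sub_zero, abs_of_pos (by positivity)]
    linarith
  obtain ⟨J0, Λ, K, hΛ, hK, hH, hL, he, hv⟩ := h.decomposition hσ hδ0
  obtain ⟨err, herr, hmain⟩ := test_main h hσ0 hΛ hK hδ0.le hH hL he hv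
  obtain ⟨R, hR⟩ := eventually_atTop.1 ((tendsto_order.1 herr).2 (ε / 8) (by positivity))
  refine ⟨J0 + R, fun j hj => ?_⟩
  obtain ⟨r, rfl⟩ := Nat.exists_eq_add_of_le (show J0 ≤ j by omega)
  have hr : R ≤ r := by omega
  have hlen : len J0 r = 2 ^ (J0 + r) := rfl
  set n := len J0 r with hn
  have hn0 : (0 : ℝ) < n := by exact_mod_cast len_pos J0 r
  have hnc : (n : ℝ) = 2 ^ (J0 + r) := by rw [hlen]; push_cast; ring
  rw [← hlen, ← hnc]
  set Y : Ω → ℝ := P[fun ω => bS X 0 n ω ^ 2 | A 0] with hY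
  have hYi : Integrable Y P := integrable_condExp
  have hYm : StronglyMeasurable[A 0] Y := stronglyMeasurable_condExp
  set B : Set Ω := {ω | σ * n ≤ Y ω} with hB
  have hBm : MeasurableSet[A 0] B := by
    have h1 : Measurable[A 0] Y := hYm.measurable
    exact h1 measurableSet_Ici
  set z : Ω → ℝ := B.indicator (fun _ => (1 : ℝ)) with hz
  have bz : Bdd P (A 0) z := Bdd.indicator B hBm
  have bz0 := bz.up (hF.A_le_m0 0)
  have hz0 : ∀ᵐ ω ∂P, 0 ≤ z ω := by
    filter_upwards with ω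
    exact Set.indicator_nonneg (fun _ _ => zero_le_one) _
  have hz1 : ∀ᵐ ω ∂P, z ω ≤ 1 := by
    filter_upwards with ω
    by_cases hω : ω ∈ B <;> simp [hz, hω]
  have h1 := hmain r z bz hz0 hz1
  have h2 := hR r hr
  have lS := h.memLp_bS 0 n
  have hzS : Integrable (fun ω => z ω * bS X 0 n ω ^ 2) P :=
    lS.integrable_sq.bdd_mul (c := 1) bz0.sm.aestronglyMeasurable (by
      filter_upwards [hz0, hz1] with ω h3 h4
      rw [Real.norm_eq_abs, abs_of_nonneg h3]; exact h4)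
  rw [E_mul_condExp (hF.A_le_m0 0) bz.sm lS.integrable_sq hzS] at h1
  have hzY : Integrable (fun ω => z ω * Y ω) P :=
    hYi.bdd_mul (c := 1) bz0.sm.aestronglyMeasurable (by
      filter_upwards [hz0, hz1] with ω h3 h4
      rw [Real.norm_eq_abs, abs_of_nonneg h3]; exact h4)
  have iz := bz0.integrable (P := P) le_rfl
  have hzint : ∫ ω, z ω ∂P ≤ 1 := by
    have := integral_mono_ae iz (integrable_const (1 : ℝ)) hz1
    simpa using this
  -- |Y - σ n| = 2 z (Y - σ n) - (Y - σ n)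
  have e1 : ∀ ω, |Y ω - σ * n| = 2 * (z ω * Y ω) + (-(2 * (σ * n))) * z ω -
      (Y ω - σ * n) := by
    intro ω
    by_cases hω : ω ∈ B
    · have h3 : z ω = 1 := by simp [hz, hω]
      have h4 : σ * n ≤ Y ω := hω
      rw [h3, abs_of_nonneg (by linarith)]; ring
    · have h3 : z ω = 0 := by simp [hz, hω]
      have h4 : Y ω < σ * n := by
        by_contra hcon
        exact hω (not_lt.1 hcon)
      rw [h3, abs_of_neg (by linarith)]; ring
  have e2 : ∫ ω, Y ω ∂P = SFrame.vv P X (J0 + r) * n := by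
    rw [hY, integral_condExp (hF.A_le_m0 0), hnc]
    exact h.vv_eq (J0 + r) 0
  have e3 : ∫ ω, |Y ω - σ * n| ∂P = 2 * ∫ ω, z ω * Y ω ∂P + (-(2 * (σ * n))) * ∫ ω, z ω ∂P -
      (SFrame.vv P X (J0 + r) * n - σ * n) := by
    simp_rw [e1]
    rw [E_sub (iadd (icm _ hzY) (icm _ iz)) (isub hYi (integrable_const _)),
      E_add (icm _ hzY) (icm _ iz), integral_const_mul, integral_const_mul,
      E_sub hYi (integrable_const _), e2]
    simp
  have h5 := (abs_le.1 (hv (J0 + r) (by omega))).1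
  have hψ0 := psi_nonneg σ δ
  have hzi0 : 0 ≤ ∫ ω, z ω ∂P := integral_nonneg_of_ae hz0
  have h6 : ∫ ω, |Y ω - σ * n| ∂P ≤ (3 * δ + 4 * psi σ δ + 2 * (ε / 8)) * n := by
    rw [e3]
    have h7 : (∫ ω, z ω ∂P) * (σ + δ + psi σ δ) ≤ (∫ ω, z ω ∂P) * σ + (δ + psi σ δ) := by
      nlinarith
    have h8 : ∫ ω, z ω * Y ω ∂P ≤ ((∫ ω, z ω ∂P) * σ + (δ + psi σ δ) + psi σ δ + ε / 8) * n :=
      h1.trans (mul_le_mul_of_nonneg_right (by linarith) hn0.le)
    have h9 : -(δ * n) ≤ SFrame.vv P X (J0 + r) * n - σ * n := by nlinarith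
    nlinarith
  rw [Real.dist_eq, sub_zero, abs_of_nonneg (div_nonneg (integral_nonneg fun ω => abs_nonneg _)
    hn0.le), div_lt_iff₀ hn0]
  refine lt_of_le_of_lt h6 ?_
  apply mul_lt_mul_of_pos_right _ hn0
  linarith

end Pool.MP_cd27db_pr
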