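import Pool.Agent.W_MP_cd27db_pr.Limit

/-!
# The variance limit and the limit of characteristic functions
-/

open MeasureTheory ProbabilityTheory Filter Topology
open scoped ENNReal NNReal

namespace Pool.MP_cd27db_pr

variable {Ω : Type*} {m0 : MeasurableSpace Ω} {P : Measure Ω} [IsProbabilityMeasure P]
  {F A : ℤ → MeasurableSpace Ω} {X : ℤ → Ω → ℝ} {e e' : ℕ → ℝ}

lemma eventually_of_double {f : ℕ → ℝ} {g : ℕ → ℕ → ℝ} {h : ℕ → ℝ} {c c' : ℝ} {j0 : ℕ}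
    (hfg : ∀ k j n, j0 ≤ j → 2 ^ (j + k) ≤ n → n < 2 ^ (j + k + 1) → f n ≤ g k j)
    (hg : ∀ k, Tendsto (g k) atTop (𝓝 (h k))) (hh : Tendsto h atTop (𝓝 c)) (hc : c < c') :
    ∀ᶠ n in atTop, f n ≤ c' := by
  obtain ⟨k, hk⟩ := ((tendsto_order.1 hh).2 c' hc).exists
  obtain ⟨J, hJ⟩ := eventually_atTop.1 ((tendsto_order.1 (hg k)).2 c' hk)
  filter_upwards [eventually_ge_atTop (2 ^ (max J j0 + k))] with n hn
  have hn0 : n ≠ 0 := by
    have : 0 < 2 ^ (max J j0 + k) := by positivity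
    omega
  set r := Nat.log 2 n with hr
  have h1 : max J j0 + k ≤ r := (Nat.le_log_iff_pow_le (by norm_num) hn0).2 hn
  obtain ⟨j, hj⟩ := Nat.exists_eq_add_of_le (show k ≤ r by omega)
  have h2 : 2 ^ (j + k) ≤ n := by
    rw [add_comm, ← hj]; exact Nat.pow_log_le_self 2 hn0
  have h3 : n < 2 ^ (j + k + 1) := by
    have : j + k + 1 = r + 1 := by omega
    rw [this]; exact Nat.lt_pow_succ_log_self (by norm_num) n
  have h4 : max J j0 ≤ j := by omega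
  exact (hfg k j n (le_trans (le_max_right _ _) h4) h2 h3).trans
    (hJ j (le_trans (le_max_left _ _) h4)).le

lemma tendsto_half_pow : Tendsto (fun k : ℕ => ((1 : ℝ) / 2) ^ k) atTop (𝓝 0) :=
  tendsto_pow_atTop_nhds_zero_of_lt_one (by norm_num) (by norm_num)

lemma tendsto_sqrt_half_pow : Tendsto (fun k : ℕ => √(((1 : ℝ) / 2) ^ k)) atTop (𝓝 0) := by
  have := tendsto_half_pow.sqrt
  simpa using this

lemma tendsto_e (h : SFrame P F A X e e') : Tendsto e atTop (𝓝 0) := by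
  have h3 := h.sum_e.tendsto_atTop_zero.sqrt
  simpa [Real.sqrt_sq (h.e_nonneg _)] using h3

lemma exists_C0 (h : SFrame P F A X e e') {σ : ℝ} (hσ : Tendsto (SFrame.vv P X) atTop (𝓝 σ)) :
    ∃ C0 : ℝ, 0 ≤ C0 ∧ (∀ j, SFrame.vv P X j ≤ C0 ^ 2) ∧
      ∀ j s, nrm P (bS X s (2 ^ j)) ≤ C0 * √(2 ^ j) := by
  obtain ⟨B, hB⟩ := hσ.bddAbove_range
  have hB' : ∀ j, SFrame.vv P X j ≤ B := fun j => hB ⟨j, rfl⟩
  have hB0 : 0 ≤ B := (SFrame.vv_nonneg 0).trans (hB' 0)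
  refine ⟨√B, Real.sqrt_nonneg _, fun j => by rw [Real.sq_sqrt hB0]; exact hB' j, ?_⟩
  intro j s
  rw [nrm_le_iff (by positivity), mul_pow, Real.sq_sqrt hB0, Real.sq_sqrt (by positivity),
    h.vv_eq]
  exact mul_le_mul_of_nonneg_right (hB' j) (by positivity)

/-- basic approximation at time `n` -/
lemma approx_n (h : SFrame P F A X e e') {C0 : ℝ} (hC0 : 0 ≤ C0)
    (hC : ∀ j s, nrm P (bS X s (2 ^ j)) ≤ C0 * √(2 ^ j)) {n k j : ℕ}
    (h1 : 2 ^ (j + k) ≤ n) (h2 : n < 2 ^ (j + k + 1)) :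
    ∃ N : ℕ, (N : ℝ) * 2 ^ j ≤ n ∧ (1 - (1 / 2) ^ k) * (n : ℝ) ≤ N * 2 ^ j ∧
      √((2 : ℝ) ^ j) ≤ √((1 / 2) ^ k) * √n ∧
      nrm P (fun ω => bS X 0 n ω -
        ∑ i ∈ Finset.range N, mdiff P A X (2 ^ j) ((i * 2 ^ j : ℕ) : ℤ) ω) ≤
        (2 ^ (k + 1) * e j + 4 * C0) * √((1 / 2) ^ k) * √n := by
  obtain ⟨N, q, hn, hq, hN, hm, hN1, hN2⟩ := block_arith h1 h2
  have h3 : √((2 : ℝ) ^ j) ≤ √((1 / 2) ^ k) * √n := by
    rw [← Real.sqrt_mul (by positivity), mul_comm]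
    exact Real.sqrt_le_sqrt hm
  refine ⟨N, hN2, hN1, h3, ?_⟩
  have h4 := nrm_sub_blocks_le h hC0 hC j N q hq
  rw [← hn] at h4
  refine h4.trans ?_
  have he := h.e_nonneg j
  have hNR : (N : ℝ) ≤ 2 ^ (k + 1) := by exact_mod_cast hN
  rw [mul_assoc]
  apply mul_le_mul _ h3 (Real.sqrt_nonneg _) (by positivity)
  have : (N : ℝ) * e j ≤ 2 ^ (k + 1) * e j := mul_le_mul_of_nonneg_right hNR he
  linarith

/-- the variance converges along all integers -/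
theorem tendsto_variance (h : SFrame P F A X e e') {σ : ℝ} (hσ0 : 0 ≤ σ)
    (hσ : Tendsto (SFrame.vv P X) atTop (𝓝 σ)) :
    Tendsto (fun n : ℕ => (∫ ω, bS X 0 n ω ^ 2 ∂P) / n) atTop (𝓝 σ) := by
  have hF := h.toFrame
  obtain ⟨C0, hC0, hCv, hC⟩ := exists_C0 h hσ
  set η : ℕ → ℕ → ℝ := fun k j => (2 ^ (k + 1) * e j + 4 * C0) * √((1 / 2) ^ k) with hη
  have key : ∀ k j n : ℕ, 0 ≤ j → 2 ^ (j + k) ≤ n → n < 2 ^ (j + k + 1) →
      |(∫ ω, bS X 0 n ω ^ 2 ∂P) / n - σ| ≤ η k j * (2 * C0 + η k j) +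
        (|SFrame.vv P X j - σ| + (1 / 2) ^ k * C0 ^ 2 + e j ^ 2) := by
    intro k j n _ h1 h2
    obtain ⟨N, hN1, hN2, -, hD⟩ := approx_n h hC0 hC h1 h2
    have hn0 : (0 : ℝ) < n := by
      have : 0 < n := lt_of_lt_of_le (by positivity) h1
      exact_mod_cast this
    set D : Ω → ℝ := fun ω => ∑ i ∈ Finset.range N,
      mdiff P A X (2 ^ j) ((i * 2 ^ j : ℕ) : ℤ) ω with hDdef
    have lD : MemLp D 2 P := memLp_finsetSum _ fun i _ => memLp_mdiff hF _ _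
    have lS := hF.memLp_bS 0 n
    have he := h.e_nonneg j
    have hv0 : 0 ≤ SFrame.vv P X j := SFrame.vv_nonneg j
    -- energy of D
    have eD : ∫ ω, D ω ^ 2 ∂P = ∑ i ∈ Finset.range N, (SFrame.vv P X j * 2 ^ j -
        ∫ ω, (P[bS X ((i * 2 ^ j : ℕ) : ℤ) (2 ^ j) | A ((i * 2 ^ j : ℕ) : ℤ)]) ω ^ 2 ∂P) := by
      rw [hDdef, integral_sq_blocks hF]
      apply Finset.sum_congr rfl
      intro i _
      rw [integral_mdiff_sq hF, h.vv_eq]
    have eD1 : ∫ ω, D ω ^ 2 ∂P ≤ N * (SFrame.vv P X j * 2 ^ j) := by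
      rw [eD]
      have : ∀ i ∈ Finset.range N, (SFrame.vv P X j * 2 ^ j -
          ∫ ω, (P[bS X ((i * 2 ^ j : ℕ) : ℤ) (2 ^ j) | A ((i * 2 ^ j : ℕ) : ℤ)]) ω ^ 2 ∂P) ≤
          SFrame.vv P X j * 2 ^ j := by
        intro i _
        have : 0 ≤ ∫ ω, (P[bS X ((i * 2 ^ j : ℕ) : ℤ) (2 ^ j) | A ((i * 2 ^ j : ℕ) : ℤ)]) ω ^ 2
          ∂P := integral_nonneg fun ω => sq_nonneg _
        linarith
      have h3 := Finset.sum_le_sum this
      rwa [Finset.sum_const, Finset.card_range, nsmul_eq_mul] at h3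
    have eD2 : (N : ℝ) * ((SFrame.vv P X j - e j ^ 2) * 2 ^ j) ≤ ∫ ω, D ω ^ 2 ∂P := by
      rw [eD]
      have : ∀ i ∈ Finset.range N, (SFrame.vv P X j - e j ^ 2) * 2 ^ j ≤
          (SFrame.vv P X j * 2 ^ j -
          ∫ ω, (P[bS X ((i * 2 ^ j : ℕ) : ℤ) (2 ^ j) | A ((i * 2 ^ j : ℕ) : ℤ)]) ω ^ 2 ∂P) := by
        intro i _
        have := h.hg j ((i * 2 ^ j : ℕ) : ℤ)
        have e3 : ((2 ^ j : ℕ) : ℝ) = 2 ^ j := by push_cast; ring
        rw [e3] at this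
        linarith
      have h3 := Finset.sum_le_sum this
      rwa [Finset.sum_const, Finset.card_range, nsmul_eq_mul] at h3
    have h5 : (N : ℝ) * 2 ^ j * SFrame.vv P X j ≤ n * SFrame.vv P X j :=
      mul_le_mul_of_nonneg_right hN1 hv0
    have h6 : (1 - (1 / 2) ^ k) * (n : ℝ) * SFrame.vv P X j ≤ N * 2 ^ j * SFrame.vv P X j :=
      mul_le_mul_of_nonneg_right hN2 hv0
    have h7 : (N : ℝ) * 2 ^ j * e j ^ 2 ≤ n * e j ^ 2 :=
      mul_le_mul_of_nonneg_right hN1 (sq_nonneg _)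
    have h8 : (1 / 2 : ℝ) ^ k * n * SFrame.vv P X j ≤ (1 / 2) ^ k * n * C0 ^ 2 :=
      mul_le_mul_of_nonneg_left (hCv j) (by positivity)
    have habs := abs_sub_comm (SFrame.vv P X j) σ
    have h9 : |∫ ω, D ω ^ 2 ∂P - σ * n| ≤
        (|SFrame.vv P X j - σ| + (1 / 2) ^ k * C0 ^ 2 + e j ^ 2) * n := by
      have ha := le_abs_self (SFrame.vv P X j - σ)
      have hb := neg_abs_le (SFrame.vv P X j - σ)
      have hw : 0 ≤ (1 / 2 : ℝ) ^ k * C0 ^ 2 := by positivity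
      have he2 : 0 ≤ e j ^ 2 := sq_nonneg _
      rw [abs_le]
      constructor <;> nlinarith
    -- difference of the norms
    have ha0 := nrm_nonneg (P := P) (bS X 0 n)
    have hb0 := nrm_nonneg (P := P) D
    have hη0 : 0 ≤ η k j := by simp only [hη]; positivity
    have hb1 : nrm P D ≤ C0 * √n := by
      rw [nrm_le_iff (by positivity), mul_pow, Real.sq_sqrt hn0.le]
      have := mul_le_mul_of_nonneg_right (hCv j) hn0.le
      linarith
    have hs : √(n : ℝ) * √n = n := Real.mul_self_sqrt hn0.le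
    have hab : |∫ ω, bS X 0 n ω ^ 2 ∂P - ∫ ω, D ω ^ 2 ∂P| ≤ η k j * (2 * C0 + η k j) * n := by
      have h10 := abs_int_z_sq_sub (P := P) (z := fun _ => 1) stronglyMeasurable_const (by simp)
        lD lS
      simp only [one_mul] at h10
      have e4 : nrm P (fun ω => D ω - bS X 0 n ω) = nrm P (fun ω => bS X 0 n ω - D ω) := by
        rw [← nrm_neg]; congr 1; ext ω; ring
      rw [e4] at h10
      rw [abs_sub_comm]
      refine h10.trans ?_
      calc nrm P (fun ω => bS X 0 n ω - D ω) *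
            (2 * nrm P D + nrm P (fun ω => bS X 0 n ω - D ω)) ≤
          (η k j * √n) * (2 * (C0 * √n) + η k j * √n) := by
            apply mul_le_mul hD _ _ (by positivity)
            · have : nrm P (fun ω => bS X 0 n ω - D ω) ≤ η k j * √n := hD
              linarith
            · have := nrm_nonneg (P := P) (fun ω => bS X 0 n ω - D ω)
              positivity
        _ = η k j * (2 * C0 + η k j) * (√n * √n) := by ring
        _ = _ := by rw [hs]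
    have e5 : (∫ ω, bS X 0 n ω ^ 2 ∂P) / n - σ =
        ((∫ ω, bS X 0 n ω ^ 2 ∂P - ∫ ω, D ω ^ 2 ∂P) + (∫ ω, D ω ^ 2 ∂P - σ * n)) / n := by
      field_simp; ring
    rw [e5, abs_div, abs_of_pos hn0, div_le_iff₀ hn0]
    refine (abs_add_le _ _).trans ?_
    linarith
  have hη1 : ∀ k, Tendsto (η k) atTop (𝓝 (4 * C0 * √((1 / 2) ^ k))) := by
    intro k
    have h1 := (((tendsto_e h).const_mul (2 ^ (k + 1))).add_const (4 * C0)).mul_const
      (√((1 / 2) ^ k))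
    simpa [hη] using h1
  have hη2 : Tendsto (fun k : ℕ => 4 * C0 * √(((1:ℝ) / 2) ^ k)) atTop (𝓝 0) := by
    simpa using tendsto_sqrt_half_pow.const_mul (4 * C0)
  have hg : ∀ k, Tendsto (fun j => η k j * (2 * C0 + η k j) +
      (|SFrame.vv P X j - σ| + (1 / 2) ^ k * C0 ^ 2 + e j ^ 2)) atTop
      (𝓝 (4 * C0 * √((1 / 2) ^ k) * (2 * C0 + 4 * C0 * √((1 / 2) ^ k)) +
        (|σ - σ| + (1 / 2) ^ k * C0 ^ 2 + 0))) := by
    intro k
    exact ((hη1 k).mul ((hη1 k).const_add _)).add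
      (((((hσ.sub_const σ).abs).add_const _)).add h.sum_e.tendsto_atTop_zero)
  have hh : Tendsto (fun k : ℕ => (4 * C0 * √((1 / 2) ^ k) * (2 * C0 + 4 * C0 * √((1 / 2) ^ k)) +
        (|σ - σ| + (1 / 2) ^ k * C0 ^ 2 + 0))) atTop (𝓝 0) := by
    have h1 := (hη2.mul (hη2.const_add (2 * C0))).add
      (((tendsto_half_pow.mul_const (C0 ^ 2)).const_add |σ - σ|).add_const 0)
    simpa using h1
  rw [Metric.tendsto_atTop]
  intro ε hε
  have h1 := eventually_of_double (f := fun n : ℕ => |(∫ ω, bS X 0 n ω ^ 2 ∂P) / n - σ|)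
    (j0 := 0) key hg hh (half_pos hε)
  obtain ⟨M, hM⟩ := eventually_atTop.1 h1
  refine ⟨M, fun n hn => ?_⟩
  rw [Real.dist_eq]
  have := hM n hn
  linarith

/-- the limit of characteristic functions -/
theorem tendsto_charFun (h : SFrame P F A X e e') {σ : ℝ} (hσ0 : 0 ≤ σ)
    (hσ : Tendsto (SFrame.vv P X) atTop (𝓝 σ)) (t : ℝ) :
    Tendsto (fun n : ℕ => ∫ ω, Complex.exp ((t / √n * bS X 0 n ω : ℝ) * Complex.I) ∂P) atTop
      (𝓝 (Complex.exp ((-(t ^ 2 * σ / 2) : ℝ) : ℂ))) := by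
  have hF := h.toFrame
  obtain ⟨C0, hC0, hCv, hC⟩ := exists_C0 h hσ
  set η : ℕ → ℕ → ℝ := fun k j => (2 ^ (k + 1) * e j + 4 * C0) * √((1 / 2) ^ k) with hη
  have hη1 : ∀ k, Tendsto (η k) atTop (𝓝 (4 * C0 * √((1 / 2) ^ k))) := by
    intro k
    have h1 := (((tendsto_e h).const_mul (2 ^ (k + 1))).add_const (4 * C0)).mul_const
      (√((1 / 2) ^ k))
    simpa [hη] using h1
  have hη2 : Tendsto (fun k : ℕ => 4 * C0 * √(((1:ℝ) / 2) ^ k)) atTop (𝓝 0) := by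
    simpa using tendsto_sqrt_half_pow.const_mul (4 * C0)
  have hcdev : Tendsto (cdev P A X σ e) atTop (𝓝 0) := by
    have := (tendsto_condVar h hσ0 hσ).add h.sum_e.tendsto_atTop_zero
    rw [add_zero] at this
    exact this
  rw [tendsto_iff_norm_sub_tendsto_zero, Metric.tendsto_atTop]
  intro ε hε
  -- choice of δ
  obtain ⟨δ, hδ0, hδ⟩ : ∃ δ : ℝ, 0 < δ ∧ 4 * t ^ 2 * δ < ε / 2 := by
    refine ⟨ε / (2 * (4 * t ^ 2 + 1)) , by positivity, ?_⟩
    have h1 : (0:ℝ) < 4 * t ^ 2 + 1 := by positivity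
    calc 4 * t ^ 2 * (ε / (2 * (4 * t ^ 2 + 1))) < (4 * t ^ 2 + 1) * (ε / (2 * (4 * t ^ 2 + 1))) :=
          mul_lt_mul_of_pos_right (by linarith) (by positivity)
      _ = ε / 2 := by field_simp
  obtain ⟨J0, Λ, K, hΛ, hK, hH, hL, he, hv⟩ := h.decomposition hσ hδ0
  have key : ∀ k j n : ℕ, J0 ≤ j → 2 ^ (j + k) ≤ n → n < 2 ^ (j + k + 1) →
      ‖∫ ω, Complex.exp ((t / √n * bS X 0 n ω : ℝ) * Complex.I) ∂P -
        Complex.exp ((-(t ^ 2 * σ / 2) : ℝ) : ℂ)‖ ≤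
      |t| * η k j + ((t ^ 2 / 2) * cdev P A X σ e j +
        (8 * |t| ^ 3 * (K * √K) * √((1 / 2) ^ k) + 4 * t ^ 2 * δ) +
        (t ^ 2 * σ) ^ 2 / 8 * (1 / 2) ^ k) + (t ^ 2 * σ / 2) * (1 / 2) ^ k := by
    intro k j n hj h1 h2
    obtain ⟨r, rfl⟩ := Nat.exists_eq_add_of_le hj
    obtain ⟨N, hN1, hN2, hw, hD⟩ := approx_n h hC0 hC h1 h2
    have hn0 : (0 : ℝ) < n := by
      have : 0 < n := lt_of_lt_of_le (by positivity) h1
      exact_mod_cast this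
    have hsn0 : 0 < √(n : ℝ) := Real.sqrt_pos.2 hn0
    have hs : √(n : ℝ) ^ 2 = n := Real.sq_sqrt hn0.le
    have elen : ((len J0 r : ℕ) : ℝ) = 2 ^ (J0 + r) := by unfold len; push_cast; ring
    set m : ℝ := 2 ^ (J0 + r) with hm
    have hm0 : 0 < m := by positivity
    have hsm : √m ^ 2 = m := Real.sq_sqrt hm0.le
    have hw2 : √((1 / 2 : ℝ) ^ k) ^ 2 = (1 / 2) ^ k := Real.sq_sqrt (by positivity)
    have hx0 : 0 ≤ (N : ℝ) * m / n := by positivity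
    have hx : (N : ℝ) * m / n ≤ 1 := by rw [div_le_one hn0]; exact hN1
    have hy0 : 0 ≤ √m / √n := by positivity
    have hy : √m / √n ≤ √((1 / 2 : ℝ) ^ k) := by rw [div_le_iff₀ hsn0]; exact hw
    have hy2 : m / n ≤ (1 / 2) ^ k := by
      have := pow_le_pow_left₀ hy0 hy 2
      rwa [div_pow, hsm, hs, hw2] at this
    set D : Ω → ℝ := fun ω => ∑ i ∈ Finset.range N,
      mdiff P A X (2 ^ (J0 + r)) ((i * 2 ^ (J0 + r) : ℕ) : ℤ) ω with hDdef
    have lD : MemLp D 2 P := memLp_finsetSum _ fun i _ => memLp_mdiff hF _ _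
    have lS := hF.memLp_bS 0 n
    set θ := t / √(n : ℝ) with hθ
    have hθ2 : θ ^ 2 = t ^ 2 / n := by rw [hθ, div_pow, hs]
    have hθ1 : |θ| = |t| / √n := by rw [hθ, abs_div, abs_of_pos hsn0]
    -- first term
    have b1 := norm_integral_exp_sub_le lS lD θ
    have b1' : |θ| * nrm P (fun ω => bS X 0 n ω - D ω) ≤ |t| * η k (J0 + r) := by
      rw [hθ1]
      calc |t| / √n * nrm P (fun ω => bS X 0 n ω - D ω) ≤
          |t| / √n * (η k (J0 + r) * √n) := mul_le_mul_of_nonneg_left hD (by positivity)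
        _ = |t| * η k (J0 + r) := by field_simp
    -- second term
    have b2 := block_clt h hσ0 hΛ hK hH hL θ r N
    rw [elen] at b2
    have hcd0 : 0 ≤ cdev P A X σ e (J0 + r) := by
      unfold cdev
      have : 0 ≤ ∫ ω, |(P[fun ω => bS X 0 (2 ^ (J0 + r)) ω ^ 2 | A 0]) ω - σ * 2 ^ (J0 + r)| ∂P :=
        integral_nonneg fun ω => abs_nonneg _
      positivity
    have b2' : (N : ℝ) * ((θ ^ 2 / 2) * (cdev P A X σ e (J0 + r) * m) +
        (8 * |θ| ^ 3 * ((K * m) * √(K * m)) + 4 * θ ^ 2 * (δ * m)) +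
        (θ ^ 2 * (σ * m)) ^ 2 / 8) ≤ (t ^ 2 / 2) * cdev P A X σ e (J0 + r) +
        (8 * |t| ^ 3 * (K * √K) * √((1 / 2) ^ k) + 4 * t ^ 2 * δ) +
        (t ^ 2 * σ) ^ 2 / 8 * (1 / 2) ^ k := by
      have c1 : (N : ℝ) * ((θ ^ 2 / 2) * (cdev P A X σ e (J0 + r) * m)) ≤
          (t ^ 2 / 2) * cdev P A X σ e (J0 + r) := by
        have e1 : (N : ℝ) * ((θ ^ 2 / 2) * (cdev P A X σ e (J0 + r) * m)) =
          (t ^ 2 / 2) * cdev P A X σ e (J0 + r) * (N * m / n) := by rw [hθ2]; field_simp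
        rw [e1]
        exact mul_le_of_le_one_right (by positivity) hx
      have c2 : (N : ℝ) * (8 * |θ| ^ 3 * ((K * m) * √(K * m))) ≤
          8 * |t| ^ 3 * (K * √K) * √((1 / 2) ^ k) := by
        have e1 : (N : ℝ) * (8 * |θ| ^ 3 * ((K * m) * √(K * m))) =
            8 * |t| ^ 3 * (K * √K) * ((N * m / n) * (√m / √n)) := by
          rw [hθ1, Real.sqrt_mul hK, div_pow]
          have e3 : √(n:ℝ) ^ 3 = n * √n := by rw [pow_succ, hs]
          rw [e3]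
          field_simp
        rw [e1]
        apply mul_le_mul_of_nonneg_left _ (by positivity)
        calc (N * m / n) * (√m / √n) ≤ 1 * √((1 / 2) ^ k) :=
              mul_le_mul hx hy hy0 zero_le_one
          _ = _ := one_mul _
      have c3 : (N : ℝ) * (4 * θ ^ 2 * (δ * m)) ≤ 4 * t ^ 2 * δ := by
        have e1 : (N : ℝ) * (4 * θ ^ 2 * (δ * m)) = 4 * t ^ 2 * δ * (N * m / n) := by
          rw [hθ2]; field_simp
        rw [e1]
        exact mul_le_of_le_one_right (by positivity) hx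
      have c4 : (N : ℝ) * ((θ ^ 2 * (σ * m)) ^ 2 / 8) ≤ (t ^ 2 * σ) ^ 2 / 8 * (1 / 2) ^ k := by
        have e1 : (N : ℝ) * ((θ ^ 2 * (σ * m)) ^ 2 / 8) =
            (t ^ 2 * σ) ^ 2 / 8 * ((N * m / n) * (m / n)) := by
          rw [hθ2]; field_simp
        rw [e1]
        apply mul_le_mul_of_nonneg_left _ (by positivity)
        calc (N * m / n) * (m / n) ≤ 1 * (1 / 2) ^ k :=
              mul_le_mul hx hy2 (by positivity) zero_le_one
          _ = _ := one_mul _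
      calc _ = (N : ℝ) * ((θ ^ 2 / 2) * (cdev P A X σ e (J0 + r) * m)) +
            ((N : ℝ) * (8 * |θ| ^ 3 * ((K * m) * √(K * m))) +
            (N : ℝ) * (4 * θ ^ 2 * (δ * m))) + (N : ℝ) * ((θ ^ 2 * (σ * m)) ^ 2 / 8) := by ring
        _ ≤ _ := by linarith
    -- third term
    have b3 : ‖Complex.exp ((-(N * (θ ^ 2 * (σ * m) / 2)) : ℝ) : ℂ) -
        Complex.exp ((-(t ^ 2 * σ / 2) : ℝ) : ℂ)‖ ≤ (t ^ 2 * σ / 2) * (1 / 2) ^ k := by
      rw [← Complex.ofReal_exp, ← Complex.ofReal_exp, ← Complex.ofReal_sub, Complex.norm_real,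
        Real.norm_eq_abs]
      have e1 : (N : ℝ) * (θ ^ 2 * (σ * m) / 2) = (t ^ 2 * σ / 2) * (N * m / n) := by
        rw [hθ2]; field_simp
      rw [e1]
      have hts : 0 ≤ t ^ 2 * σ / 2 := by positivity
      have h3 : 1 - (N : ℝ) * m / n ≤ (1 / 2) ^ k := by
        rw [sub_le_iff_le_add, ← sub_le_iff_le_add', le_div_iff₀ hn0]
        exact hN2
      refine (abs_exp_neg_sub_exp_neg (by positivity) (mul_le_of_le_one_right hts hx)).trans ?_
      calc t ^ 2 * σ / 2 - t ^ 2 * σ / 2 * (N * m / n) = (t ^ 2 * σ / 2) * (1 - N * m / n) := by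
            ring
        _ ≤ _ := mul_le_mul_of_nonneg_left h3 hts
    -- combination
    have b12 := b2.trans b2'
    calc ‖∫ ω, Complex.exp ((t / √n * bS X 0 n ω : ℝ) * Complex.I) ∂P -
        Complex.exp ((-(t ^ 2 * σ / 2) : ℝ) : ℂ)‖
        = ‖(∫ ω, Complex.exp ((θ * bS X 0 n ω : ℝ) * Complex.I) ∂P -
            ∫ ω, Complex.exp ((θ * D ω : ℝ) * Complex.I) ∂P) +
          (∫ ω, Complex.exp ((θ * D ω : ℝ) * Complex.I) ∂P -
            Complex.exp ((-(N * (θ ^ 2 * (σ * m) / 2)) : ℝ) : ℂ)) +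
          (Complex.exp ((-(N * (θ ^ 2 * (σ * m) / 2)) : ℝ) : ℂ) -
            Complex.exp ((-(t ^ 2 * σ / 2) : ℝ) : ℂ))‖ := by congr 1; ring
      _ ≤ _ := (norm_add_le _ _).trans (add_le_add ((norm_add_le _ _).trans
          (add_le_add (b1.trans b1') b12)) b3)
  have hg : ∀ k, Tendsto (fun j => |t| * η k j + ((t ^ 2 / 2) * cdev P A X σ e j +
        (8 * |t| ^ 3 * (K * √K) * √((1 / 2) ^ k) + 4 * t ^ 2 * δ) +
        (t ^ 2 * σ) ^ 2 / 8 * (1 / 2) ^ k) + (t ^ 2 * σ / 2) * (1 / 2) ^ k) atTop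
      (𝓝 (|t| * (4 * C0 * √((1 / 2) ^ k)) + ((t ^ 2 / 2) * 0 +
        (8 * |t| ^ 3 * (K * √K) * √((1 / 2) ^ k) + 4 * t ^ 2 * δ) +
        (t ^ 2 * σ) ^ 2 / 8 * (1 / 2) ^ k) + (t ^ 2 * σ / 2) * (1 / 2) ^ k)) := by
    intro k
    exact ((((hη1 k).const_mul _).add (((hcdev.const_mul _).add_const _).add_const _)).add_const _)
  have hh : Tendsto (fun k : ℕ => |t| * (4 * C0 * √((1 / 2) ^ k)) + ((t ^ 2 / 2) * 0 +
        (8 * |t| ^ 3 * (K * √K) * √((1 / 2) ^ k) + 4 * t ^ 2 * δ) +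
        (t ^ 2 * σ) ^ 2 / 8 * (1 / 2) ^ k) + (t ^ 2 * σ / 2) * (1 / 2) ^ k) atTop
      (𝓝 (4 * t ^ 2 * δ)) := by
    have h1 := (hη2.const_mul |t|).add
      (((((tendsto_sqrt_half_pow.const_mul (8 * |t| ^ 3 * (K * √K))).add_const
        (4 * t ^ 2 * δ)).const_add ((t ^ 2 / 2) * 0))).add
        (tendsto_half_pow.const_mul ((t ^ 2 * σ) ^ 2 / 8)))
    have h2 := h1.add (tendsto_half_pow.const_mul (t ^ 2 * σ / 2))
    simpa using h2
  have h1 := eventually_of_double (f := fun n : ℕ =>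
    ‖∫ ω, Complex.exp ((t / √n * bS X 0 n ω : ℝ) * Complex.I) ∂P -
        Complex.exp ((-(t ^ 2 * σ / 2) : ℝ) : ℂ)‖)
    (j0 := J0) key hg hh hδ
  obtain ⟨M, hM⟩ := eventually_atTop.1 h1
  refine ⟨M, fun n hn => ?_⟩
  rw [Real.dist_eq, sub_zero, abs_of_nonneg (norm_nonneg _)]
  have := hM n hn
  linarith

end Pool.MP_cd27db_pr
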