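import Pool.Agent.W_MP_cd27db_pr.Bdd

/-!
# The abstract Markov frame: past `F n`, present `A n`, observables `X n`
-/

open MeasureTheory ProbabilityTheory Filter Topology
open scoped ENNReal NNReal

namespace Pool.MP_cd27db_pr

variable {Ω : Type*} {m0 : MeasurableSpace Ω}

/-- the sigma-algebra of the block of times `[s, s + n]` -/
def Gs (A : ℤ → MeasurableSpace Ω) (s : ℤ) (n : ℕ) : MeasurableSpace Ω :=
  ⨆ (k : ℕ) (_ : k ≤ n), A (s + k)

/-- block sum `X (s+1) + ... + X (s+n)` -/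
noncomputable def bS (X : ℤ → Ω → ℝ) (s : ℤ) (n : ℕ) (ω : Ω) : ℝ :=
  ∑ i ∈ Finset.range n, X (s + 1 + i) ω

/-- Markov frame -/
structure Frame (P : Measure Ω) (F A : ℤ → MeasurableSpace Ω) (X : ℤ → Ω → ℝ) : Prop where
  F_le : ∀ n, F n ≤ m0
  F_mono : Monotone F
  A_le : ∀ n, A n ≤ F n
  meas : ∀ n, StronglyMeasurable[A n] (X n)
  memLp : ∀ n, MemLp (X n) 2 P
  markov : ∀ (n : ℤ) (N : ℕ) (Y : Ω → ℝ), Integrable Y P →
    StronglyMeasurable[Gs A n N] Y → P[Y | F n] =ᵐ[P] P[Y | A n]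

section Gs

variable {A : ℤ → MeasurableSpace Ω}

lemma A_le_Gs (s : ℤ) {n k : ℕ} (h : k ≤ n) : A (s + k) ≤ Gs A s n :=
  le_iSup₂_of_le (f := fun (k : ℕ) (_ : k ≤ n) => A (s + k)) k h le_rfl

lemma A_left_le_Gs (s : ℤ) (n : ℕ) : A s ≤ Gs A s n := by
  simpa using A_le_Gs (A := A) s (Nat.zero_le n)

lemma Gs_mono (s : ℤ) {n k : ℕ} (h : k ≤ n) : Gs A s k ≤ Gs A s n :=
  iSup₂_le fun _ hi => A_le_Gs s (hi.trans h)

lemma Gs_le_add_left (s : ℤ) (n k : ℕ) : Gs A s n ≤ Gs A s (n + k) :=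
  Gs_mono s (Nat.le_add_right _ _)

lemma Gs_le_add_right (s : ℤ) (n k : ℕ) : Gs A (s + n) k ≤ Gs A s (n + k) := by
  refine iSup₂_le fun i hi => ?_
  have h := A_le_Gs (A := A) s (n := n + k) (k := n + i) (by omega)
  have e : s + ((n + i : ℕ) : ℤ) = s + n + i := by push_cast; ring
  rwa [e] at h

end Gs

namespace Frame

variable {P : Measure Ω} [IsProbabilityMeasure P] {F A : ℤ → MeasurableSpace Ω} {X : ℤ → Ω → ℝ}

omit [IsProbabilityMeasure P] in
lemma A_le_m0 (h : Frame P F A X) (n : ℤ) : A n ≤ m0 := (h.A_le n).trans (h.F_le n)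

omit [IsProbabilityMeasure P] in
lemma A_le_F (h : Frame P F A X) {s t : ℤ} (hst : s ≤ t) : A s ≤ F t :=
  (h.A_le s).trans (h.F_mono hst)

omit [IsProbabilityMeasure P] in
lemma Gs_le_F (h : Frame P F A X) (s : ℤ) (n : ℕ) : Gs A s n ≤ F (s + n) :=
  iSup₂_le fun i hi => h.A_le_F (by omega)

omit [IsProbabilityMeasure P] in
lemma Gs_le_m0 (h : Frame P F A X) (s : ℤ) (n : ℕ) : Gs A s n ≤ m0 :=
  (h.Gs_le_F s n).trans (h.F_le _)

/-- `E[z Y] = E[E[z|A s] Y]` for `z` in the past of `s`, `Y` in the block after `s`. -/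
lemma integral_past_mul (h : Frame P F A X) {s : ℤ} {n : ℕ} {z Y : Ω → ℝ}
    (hz : Bdd P (F s) z) (hY : Bdd P (Gs A s n) Y) :
    ∫ ω, z ω * Y ω ∂P = ∫ ω, (P[z | A s]) ω * Y ω ∂P := by
  have hz0 := hz.up (h.F_le s)
  have hY0 := hY.up (h.Gs_le_m0 s n)
  have hYi := hY0.integrable le_rfl
  have hzi := hz0.integrable le_rfl
  rw [E_mul_condExp (h.F_le s) hz.sm hYi ((hz0.mul hY0).integrable le_rfl)]
  have e1 : ∫ ω, z ω * (P[Y | F s]) ω ∂P = ∫ ω, (P[Y | A s]) ω * z ω ∂P := by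
    apply integral_congr_ae
    filter_upwards [h.markov s n Y hYi hY.sm] with ω hω
    rw [hω, mul_comm]
  have hYA := hY0.condExp (A s)
  have hzA := hz0.condExp (A s)
  have hYA0 := hYA.up (h.A_le_m0 s)
  have hzA0 := hzA.up (h.A_le_m0 s)
  rw [e1, E_mul_condExp (h.A_le_m0 s) hYA.sm hzi ((hYA0.mul hz0).integrable le_rfl)]
  rw [E_mul_condExp (h.A_le_m0 s) hzA.sm hYi ((hzA0.mul hY0).integrable le_rfl)]
  congr 1; ext ω; ring

/-- iterated projections of past variables -/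
lemma condExp_past (h : Frame P F A X) {s : ℤ} {n : ℕ} {z : Ω → ℝ} (hz : Bdd P (F s) z) :
    P[z | A (s + n)] =ᵐ[P] P[P[z | A s] | A (s + n)] := by
  have hz0 := hz.up (h.F_le s)
  have hzA := hz0.condExp (A s)
  have hzA0 := hzA.up (h.A_le_m0 s)
  refine condExp_eq_of_integral_mul (h.A_le_m0 _) (hz0.integrable le_rfl) integrable_condExp
    stronglyMeasurable_condExp ?_
  intro B hB
  have hB1 : Bdd P (A (s + n)) (B.indicator (fun _ => (1 : ℝ))) := Bdd.indicator B hB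
  have hB2 : Bdd P (Gs A s n) (B.indicator (fun _ => (1 : ℝ))) := hB1.up (A_le_Gs s le_rfl)
  have hB0 := hB1.up (h.A_le_m0 _)
  have e1 := h.integral_past_mul hz hB2
  have e2 := E_mul_condExp (P := P) (h.A_le_m0 (s + n)) hB1.sm
    (hzA0.integrable le_rfl) ((hB0.mul hzA0).integrable le_rfl)
  rw [← e2]
  simp_rw [mul_comm (B.indicator (fun _ => (1 : ℝ)) _)]
  exact e1

/-- `q u = E (E[z|A u])^2` -/
noncomputable def q (P : Measure Ω) (A : ℤ → MeasurableSpace Ω) (z : Ω → ℝ) (u : ℤ) : ℝ :=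
  ∫ ω, (P[z | A u]) ω ^ 2 ∂P

omit [IsProbabilityMeasure P] in
lemma q_nonneg (z : Ω → ℝ) (u : ℤ) : 0 ≤ q P A z u := integral_nonneg fun ω => sq_nonneg _

lemma q_le (h : Frame P F A X) {z : Ω → ℝ} (hz : Bdd P m0 z) (u : ℤ) :
    q P A z u ≤ ∫ ω, z ω ^ 2 ∂P :=
  integral_sq_condExp_le (h.A_le_m0 u) (hz.memLp le_rfl 2)

/-- energy identity for the reverse martingale -/
lemma integral_sq_sub (h : Frame P F A X) {s : ℤ} {n : ℕ} {z : Ω → ℝ} (hz : Bdd P (F s) z) :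
    ∫ ω, ((P[z | A s]) ω - (P[z | A (s + n)]) ω) ^ 2 ∂P = q P A z s - q P A z (s + n) := by
  have hz0 := hz.up (h.F_le s)
  have hs0 := (hz0.condExp (A s)).up (h.A_le_m0 s)
  have ht := hz0.condExp (A (s + n))
  have ht0 := ht.up (h.A_le_m0 (s + n))
  have e1 : ∫ ω, (P[z | A (s + n)]) ω * (P[z | A s]) ω ∂P = q P A z (s + n) := by
    rw [E_mul_condExp (h.A_le_m0 (s + n)) ht.sm (hs0.integrable le_rfl)
      ((ht0.mul hs0).integrable le_rfl)]
    unfold q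
    apply integral_congr_ae
    filter_upwards [h.condExp_past (n := n) hz] with ω hω
    rw [← hω]; ring
  have e2 : ∀ ω, ((P[z | A s]) ω - (P[z | A (s + n)]) ω) ^ 2 =
      (P[z | A s]) ω ^ 2 + (P[z | A (s + n)]) ω ^ 2 +
      (-2) * ((P[z | A (s + n)]) ω * (P[z | A s]) ω) := fun ω => by ring
  have i1 := (hs0.pow 2).integrable le_rfl
  have i2 := (ht0.pow 2).integrable le_rfl
  have i3 := (ht0.mul hs0).integrable le_rfl
  simp_rw [e2]
  rw [E_add (iadd i1 i2) (icm _ i3), E_add i1 i2, integral_const_mul, e1]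
  unfold q
  ring

lemma q_anti (h : Frame P F A X) {s : ℤ} {n : ℕ} {z : Ω → ℝ} (hz : Bdd P (F s) z) :
    q P A z (s + n) ≤ q P A z s := by
  have := h.integral_sq_sub (n := n) hz
  have h2 : 0 ≤ ∫ ω, ((P[z | A s]) ω - (P[z | A (s + n)]) ω) ^ 2 ∂P :=
    integral_nonneg fun ω => sq_nonneg _
  linarith

/-! ### block sums -/

omit [IsProbabilityMeasure P] in
lemma bS_add (s : ℤ) (n k : ℕ) (ω : Ω) : bS X s (n + k) ω = bS X s n ω + bS X (s + n) k ω := by
  unfold bS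
  rw [Finset.sum_range_add]
  congr 1
  apply Finset.sum_congr rfl
  intro i _
  congr 1
  push_cast; ring

omit [IsProbabilityMeasure P] in
lemma sm_bS (h : Frame P F A X) (s : ℤ) (n : ℕ) : StronglyMeasurable[Gs A s n] (bS X s n) := by
  unfold bS
  apply Finset.stronglyMeasurable_fun_sum
  intro i hi
  have hi' := Finset.mem_range.1 hi
  have h1 := A_le_Gs (A := A) s (n := n) (k := i + 1) (by omega)
  have e : s + ((i + 1 : ℕ) : ℤ) = s + 1 + i := by push_cast; ring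
  rw [e] at h1
  exact (h.meas _).mono h1

omit [IsProbabilityMeasure P] in
lemma memLp_bS (h : Frame P F A X) (s : ℤ) (n : ℕ) : MemLp (bS X s n) 2 P := by
  unfold bS
  exact memLp_finset_sum _ fun i _ => h.memLp _

end Frame

end Pool.MP_cd27db_pr
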