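import Pool.Agent.W_MP_cd27db_pr.LightBound

/-!
# The heavy part of the block sums has small energy
-/

open MeasureTheory ProbabilityTheory Filter Topology
open scoped ENNReal NNReal

namespace Pool.MP_cd27db_pr

variable {Ω : Type*} {m0 : MeasurableSpace Ω}
variable {P : Measure Ω} [IsProbabilityMeasure P] {F A : ℤ → MeasurableSpace Ω} {X : ℤ → Ω → ℝ}
  {ρ Λ : ℝ} {J0 : ℕ}

/-- the heavy part -/
noncomputable def heavy (P : Measure Ω) (A : ℤ → MeasurableSpace Ω) (X : ℤ → Ω → ℝ) (ρ Λ : ℝ)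
    (J0 : ℕ) (j : ℕ) (s : ℤ) : Ω → ℝ := fun ω =>
  bS X s (len J0 j) ω - (P[bS X s (len J0 j) | A s]) ω - light P A X ρ Λ J0 j s ω

lemma memLp_condExp {m : MeasurableSpace Ω} {f : Ω → ℝ} (hf : MemLp f 2 P) :
    MemLp (P[f | m]) 2 P := hf.condExp one_le_two

lemma iL2 {f g : Ω → ℝ} (hf : MemLp f 2 P) (hg : MemLp g 2 P) :
    Integrable (fun ω => f ω * g ω) P := hf.integrable_mul hg

lemma ladd {f g : Ω → ℝ} (hf : MemLp f 2 P) (hg : MemLp g 2 P) :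
    MemLp (fun ω => f ω + g ω) 2 P := hf.add hg

lemma lsub {f g : Ω → ℝ} (hf : MemLp f 2 P) (hg : MemLp g 2 P) :
    MemLp (fun ω => f ω - g ω) 2 P := hf.sub hg

lemma lint {f : Ω → ℝ} (hf : MemLp f 2 P) : Integrable f P := hf.integrable one_le_two

/-- centering decreases the energy -/
lemma integral_sq_sub_le {m : MeasurableSpace Ω} (hm : m ≤ m0) {U V : Ω → ℝ} (hU : MemLp U 2 P)
    (hV : MemLp V 2 P) (hVm : StronglyMeasurable[m] V) (hUV : P[U | m] =ᵐ[P] V) :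
    ∫ ω, (U ω - V ω) ^ 2 ∂P ≤ ∫ ω, U ω ^ 2 ∂P := by
  have e : ∀ ω, (U ω - V ω) ^ 2 = U ω ^ 2 + V ω ^ 2 + (-2) * (V ω * U ω) := fun ω => by ring
  have e3 := E_mul_condExp (P := P) hm hVm (lint hU) (iL2 hV hU)
  have e4 : ∫ ω, V ω * (P[U | m]) ω ∂P = ∫ ω, V ω ^ 2 ∂P := by
    apply integral_congr_ae
    filter_upwards [hUV] with ω hω
    rw [hω]; ring
  simp_rw [e]
  rw [E_add (iadd hU.integrable_sq hV.integrable_sq) (icm _ (iL2 hV hU)),
    E_add hU.integrable_sq hV.integrable_sq, integral_const_mul, e3, e4]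
  have e5 : 0 ≤ ∫ ω, V ω ^ 2 ∂P := integral_nonneg fun ω => sq_nonneg _
  linarith

lemma integral_sq_sub_condExp_le {m : MeasurableSpace Ω} (hm : m ≤ m0) {U : Ω → ℝ}
    (hU : MemLp U 2 P) : ∫ ω, (U ω - (P[U | m]) ω) ^ 2 ∂P ≤ ∫ ω, U ω ^ 2 ∂P :=
  integral_sq_sub_le hm hU (memLp_condExp hU) stronglyMeasurable_condExp ae_eq_rfl

/-- one step of the energy of the heavy part -/
lemma heavy_step (h : Frame P F A X) {s : ℤ} {n : ℕ} {H H' η : Ω → ℝ}
    (hH : MemLp H 2 P) (hHm : StronglyMeasurable[Gs A s n] H)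
    (hH' : MemLp H' 2 P) (hHm' : StronglyMeasurable[Gs A (s + n) n] H')
    (h0 : P[H | A s] =ᵐ[P] 0) (h0' : P[H' | A (s + n)] =ᵐ[P] 0)
    (hη : MemLp η 2 P) (hηm : StronglyMeasurable[A (s + n)] η) :
    ∫ ω, (H ω + H' ω + η ω - (P[η | A s]) ω) ^ 2 ∂P ≤
      ∫ ω, H ω ^ 2 ∂P + ∫ ω, H' ω ^ 2 ∂P + 2 * ∫ ω, H ω * η ω ∂P + ∫ ω, η ω ^ 2 ∂P := by
  have hFt := h.F_le (s + n)
  have hFs := h.F_le s
  have hηs := memLp_condExp (m := A s) hη
  have hUm : StronglyMeasurable[Gs A s n] (fun ω => H ω + η ω) :=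
    hHm.add (hηm.mono (A_le_Gs s le_rfl))
  have hU : P[fun ω => H ω + η ω | F s] =ᵐ[P] P[η | A s] := by
    have e1 := h.markov s n _ (lint (ladd hH hη)) hUm
    have e2 := condExp_add (μ := P) (lint hH) (lint hη) (A s)
    refine e1.trans ?_
    filter_upwards [e2, h0] with ω h2 h3
    have : (P[fun ω => H ω + η ω | A s]) ω = (P[H + η | A s]) ω := rfl
    rw [this, h2, Pi.add_apply, h3]; simp
  have s2 := integral_sq_sub_le hFs (ladd hH hη) hηs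
    ((stronglyMeasurable_condExp (f := η) (μ := P) (m := A s)).mono (h.A_le s)) hU
  have hXm : StronglyMeasurable[F (s + n)] (fun ω => H ω + η ω - (P[η | A s]) ω) :=
    (hUm.mono (h.Gs_le_F _ _)).sub
      ((stronglyMeasurable_condExp (f := η) (μ := P) (m := A s)).mono (h.A_le_F (by omega)))
  have hX := lsub (ladd hH hη) hηs
  have hcr : ∫ ω, (H ω + η ω - (P[η | A s]) ω) * H' ω ∂P = 0 :=
    integral_mul_eq_zero hFt hXm (lint hH') (iL2 hX hH') (centered_past h (lint hH') hHm' h0')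
  have e : ∀ ω, (H ω + H' ω + η ω - (P[η | A s]) ω) ^ 2 =
      (H ω + η ω - (P[η | A s]) ω) ^ 2 + H' ω ^ 2 +
      2 * ((H ω + η ω - (P[η | A s]) ω) * H' ω) := fun ω => by ring
  have e' : ∀ ω, (H ω + η ω) ^ 2 = H ω ^ 2 + 2 * (H ω * η ω) + η ω ^ 2 := fun ω => by ring
  simp_rw [e]
  rw [E_add (iadd hX.integrable_sq hH'.integrable_sq) (icm _ (iL2 hX hH')),
    E_add hX.integrable_sq hH'.integrable_sq, integral_const_mul, hcr]
  simp_rw [e'] at s2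
  rw [E_add (iadd hH.integrable_sq (icm _ (iL2 hH hη))) hη.integrable_sq,
    E_add hH.integrable_sq (icm _ (iL2 hH hη)), integral_const_mul] at s2
  linarith

lemma memLp_light (h : Frame P F A X) (hΛ : 0 ≤ Λ) (j : ℕ) (s : ℤ) :
    MemLp (light P A X ρ Λ J0 j s) 2 P :=
  (bdd_light h hΛ j s).memLp (h.Gs_le_m0 _ _) 2

lemma memLp_heavy (h : Frame P F A X) (hΛ : 0 ≤ Λ) (j : ℕ) (s : ℤ) :
    MemLp (heavy P A X ρ Λ J0 j s) 2 P :=
  lsub (lsub (h.memLp_bS _ _) (memLp_condExp (h.memLp_bS _ _))) (memLp_light h hΛ j s)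

lemma sm_heavy (h : Frame P F A X) (hΛ : 0 ≤ Λ) (j : ℕ) (s : ℤ) :
    StronglyMeasurable[Gs A s (len J0 j)] (heavy P A X ρ Λ J0 j s) :=
  ((h.sm_bS _ _).sub ((stronglyMeasurable_condExp).mono (A_left_le_Gs s _))).sub
    (bdd_light h hΛ j s).sm

lemma condExp_heavy (h : Frame P F A X) (hΛ : 0 ≤ Λ) (j : ℕ) (s : ℤ) :
    P[heavy P A X ρ Λ J0 j s | A s] =ᵐ[P] 0 := by
  have e2 : P[P[bS X s (len J0 j) | A s] | A s] = P[bS X s (len J0 j) | A s] :=
    condExp_of_stronglyMeasurable (h.A_le_m0 s) stronglyMeasurable_condExp integrable_condExp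
  have i1 := lint (h.memLp_bS s (len J0 j))
  have i2 := integrable_condExp (f := bS X s (len J0 j)) (m := A s) (μ := P)
  have e3 := condExp_sub (μ := P) i1 i2 (A s)
  have e4 := condExp_sub (μ := P) (i1.sub i2) (lint (memLp_light (ρ := ρ) (J0 := J0) h hΛ j s))
    (A s)
  have e5 := condExp_light (ρ := ρ) (J0 := J0) h hΛ j s
  have e6 : heavy P A X ρ Λ J0 j s = (bS X s (len J0 j) - P[bS X s (len J0 j) | A s]) -
    light P A X ρ Λ J0 j s := rfl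
  rw [e6]
  filter_upwards [e3, e4, e5] with ω h3 h4 h5
  rw [h4, Pi.sub_apply, h3, Pi.sub_apply, e2, h5]
  simp

/-- the recursion for the heavy part -/
lemma heavy_succ (h : Frame P F A X) (hΛ : 0 ≤ Λ) (j : ℕ) (s : ℤ) :
    heavy P A X ρ Λ J0 (j + 1) s =ᵐ[P] fun ω =>
      heavy P A X ρ Λ J0 j s ω + heavy P A X ρ Λ J0 j (s + len J0 j) ω +
      ((P[bS X (s + len J0 j) (len J0 j) | A (s + len J0 j)]) ω -
        gam P A X ρ (light P A X ρ Λ J0 j s) (s + len J0 j) (len J0 j) ω) -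
      (P[fun ω => (P[bS X (s + len J0 j) (len J0 j) | A (s + len J0 j)]) ω -
        gam P A X ρ (light P A X ρ Λ J0 j s) (s + len J0 j) (len J0 j) ω | A s]) ω := by
  set n := len J0 j with hn
  set γ := gam P A X ρ (light P A X ρ Λ J0 j s) (s + n) n with hγ
  have e0 : bS X s (len J0 (j + 1)) = bS X s n + bS X (s + n) n := by
    ext ω
    rw [len_succ, Frame.bS_add]; rfl
  have i1 := lint (h.memLp_bS s n)
  have i2 := lint (h.memLp_bS (s + n) n)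
  have e1 := condExp_add (μ := P) i1 i2 (A s)
  have e2 : P[bS X (s + n) n | A s] =ᵐ[P] P[P[bS X (s + n) n | A (s + n)] | A s] := by
    have h1 : A s ≤ F (s + n) := h.A_le_F (by omega)
    have h2 := condExp_condExp_of_le (μ := P) (f := bS X (s + n) n) h1 (h.F_le (s + n))
    exact h2.symm.trans (condExp_congr_ae (h.markov (s + n) n _ i2 (h.sm_bS _ _)))
  have hγi : Integrable γ P :=
    (bdd_gam (bdd_light h hΛ j s) (s + n) n).integrable (h.A_le_m0 _)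
  have e3 := condExp_sub (μ := P)
    (integrable_condExp (f := bS X (s + n) n) (m := A (s + n)) (μ := P)) hγi (A s)
  filter_upwards [e1, e2, e3] with ω h1 h2 h3
  have e4 : (P[fun ω => (P[bS X (s + n) n | A (s + n)]) ω - γ ω | A s]) ω =
    (P[P[bS X (s + n) n | A (s + n)] - γ | A s]) ω := rfl
  have e5 : light P A X ρ Λ J0 (j + 1) s ω = light P A X ρ Λ J0 j s ω +
    light P A X ρ Λ J0 j (s + n) ω + γ ω - (P[γ | A s]) ω := rfl
  unfold heavy
  rw [e5, e4, h3, e0, h1, Pi.add_apply, Pi.add_apply, Pi.sub_apply, h2]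
  simp only [← hn]
  ring

lemma heavy_energy_step (h : Frame P F A X) (hΛ : 0 ≤ Λ) (hρ : 0 < ρ) (hρ1 : ρ ≤ 1) (j : ℕ)
    (s : ℤ) {e e' : ℝ} (he : 0 ≤ e) (he' : 0 ≤ e')
    (hg : ∀ s, ∫ ω, (P[bS X s (len J0 j) | A s]) ω ^ 2 ∂P ≤ e ^ 2 * len J0 j)
    (hb : ∀ s : ℤ, ∫ ω, (P[bS X s (len J0 j) | A (s + len J0 j)]) ω ^ 2 ∂P ≤
      e' ^ 2 * len J0 j) :
    ∫ ω, heavy P A X ρ Λ J0 (j + 1) s ω ^ 2 ∂P ≤
      ∫ ω, heavy P A X ρ Λ J0 j s ω ^ 2 ∂P + ∫ ω, heavy P A X ρ Λ J0 j (s + len J0 j) ω ^ 2 ∂P +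
      (2 * (e' * e) + (3 + 2 / ρ) * e ^ 2) * len J0 j := by
  set n := len J0 j with hn
  set L := light P A X ρ Λ J0 j s with hL
  set γ := gam P A X ρ L (s + n) n with hγ
  set g := P[bS X (s + n) n | A (s + n)] with hgdef
  set η : Ω → ℝ := fun ω => g ω - γ ω with hη
  have hAt := h.A_le_m0 (s + n)
  have bL : Bdd P m0 L := (bdd_light h hΛ j s).up (h.Gs_le_m0 _ _)
  have bγ : Bdd P (A (s + n)) γ := bdd_gam bL (s + n) n
  have lγ : MemLp γ 2 P := bγ.memLp hAt 2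
  have lg : MemLp g 2 P := memLp_condExp (h.memLp_bS _ _)
  have lη : MemLp η 2 P := lsub lg lγ
  have hηm : StronglyMeasurable[A (s + n)] η := stronglyMeasurable_condExp.sub bγ.sm
  have h1 := heavy_step h (memLp_heavy (ρ := ρ) (J0 := J0) h hΛ j s) (sm_heavy h hΛ j s)
    (memLp_heavy (ρ := ρ) (J0 := J0) h hΛ j (s + n)) (sm_heavy h hΛ j (s + n))
    (condExp_heavy h hΛ j s) (condExp_heavy h hΛ j (s + n)) lη hηm
  have e1 : ∫ ω, heavy P A X ρ Λ J0 (j + 1) s ω ^ 2 ∂P = ∫ ω, (heavy P A X ρ Λ J0 j s ω +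
      heavy P A X ρ Λ J0 j (s + n) ω + η ω - (P[η | A s]) ω) ^ 2 ∂P := by
    apply integral_congr_ae
    filter_upwards [heavy_succ (ρ := ρ) (J0 := J0) h hΛ j s] with ω hω
    rw [hω]
  rw [e1]
  -- energy of η
  have hgs := hg s
  have hgt := hg (s + n)
  have hbt := hb s
  have hη2 : ∫ ω, η ω ^ 2 ∂P ≤ e ^ 2 * n := by
    refine le_trans (integral_mono lη.integrable_sq lg.integrable_sq ?_) hgt
    intro ω
    simp only
    rw [← sq_abs (η ω), ← sq_abs (g ω)]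
    exact pow_le_pow_left₀ (abs_nonneg _) (adm_rest_abs_le _ _ _ _) 2
  have hn0 : (0 : ℝ) ≤ n := by positivity
  have hsη : √(∫ ω, η ω ^ 2 ∂P) ≤ e * √n := by
    rw [Real.sqrt_le_left (by positivity), mul_pow, Real.sq_sqrt hn0]
    exact hη2
  have hsb : √(∫ ω, (P[bS X s n | A (s + n)]) ω ^ 2 ∂P) ≤ e' * √n := by
    rw [Real.sqrt_le_left (by positivity), mul_pow, Real.sq_sqrt hn0]
    exact hbt
  have hsg : √(∫ ω, (P[bS X s n | A s]) ω ^ 2 ∂P) ≤ e * √n := by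
    rw [Real.sqrt_le_left (by positivity), mul_pow, Real.sq_sqrt hn0]
    exact hgs
  have hnn : √(n : ℝ) * √n = n := Real.mul_self_sqrt hn0
  -- pairing with H
  have lS := h.memLp_bS s n
  have lgs : MemLp (P[bS X s n | A s]) 2 P := memLp_condExp lS
  have lb : MemLp (P[bS X s n | A (s + n)]) 2 P := memLp_condExp lS
  have lL : MemLp L 2 P := bL.memLp le_rfl 2
  have e2 : ∫ ω, heavy P A X ρ Λ J0 j s ω * η ω ∂P = ∫ ω, bS X s n ω * η ω ∂P -
      ∫ ω, (P[bS X s n | A s]) ω * η ω ∂P - ∫ ω, L ω * η ω ∂P := by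
    rw [← E_sub (iL2 lS lη) (iL2 lgs lη), ← E_sub (isub (iL2 lS lη) (iL2 lgs lη)) (iL2 lL lη)]
    congr 1; ext ω
    unfold heavy
    simp only [← hn, ← hL]
    ring
  have e3 : ∫ ω, bS X s n ω * η ω ∂P = ∫ ω, η ω * (P[bS X s n | A (s + n)]) ω ∂P := by
    rw [← E_mul_condExp hAt hηm (lint lS) (iL2 lη lS)]
    congr 1; ext ω; ring
  have e4 : ∫ ω, L ω * η ω ∂P = ∫ ω, η ω * (P[L | A (s + n)]) ω ∂P := by
    rw [← E_mul_condExp hAt hηm (lint lL) (iL2 lη lL)]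
    congr 1; ext ω; ring
  have c3 : ∫ ω, bS X s n ω * η ω ∂P ≤ e' * e * n := by
    rw [e3]
    refine (le_abs_self _).trans ((integral_mul_le_sqrt lη lb).trans ?_)
    calc _ ≤ (e * √n) * (e' * √n) := mul_le_mul hsη hsb (Real.sqrt_nonneg _) (by positivity)
      _ = e' * e * (√n * √n) := by ring
      _ = _ := by rw [hnn]
  have c4 : -(∫ ω, (P[bS X s n | A s]) ω * η ω ∂P) ≤ e ^ 2 * n := by
    refine (neg_le_abs _).trans ((integral_mul_le_sqrt lgs lη).trans ?_)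
    calc _ ≤ (e * √n) * (e * √n) := mul_le_mul hsg hsη (Real.sqrt_nonneg _) (by positivity)
      _ = e ^ 2 * (√n * √n) := by ring
      _ = _ := by rw [hnn]
  have ll : MemLp (P[L | A (s + n)]) 2 P := memLp_condExp lL
  have c5 : -(∫ ω, L ω * η ω ∂P) ≤ (1 / ρ) * (e ^ 2 * n) := by
    rw [e4, ← integral_neg]
    have h5 : ∫ ω, -(η ω * (P[L | A (s + n)]) ω) ∂P ≤ ∫ ω, (1 / ρ) * g ω ^ 2 ∂P := by
      apply integral_mono_ae (iL2 lη ll).neg (icm _ lg.integrable_sq)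
      filter_upwards [sq_condExp_le (P := P) hAt lL] with ω hω
      have := adm_rest_mul_le (g := g ω) hρ hρ1 hω
      calc -(η ω * (P[L | A (s + n)]) ω) = -((P[L | A (s + n)]) ω * (g ω -
            adm ρ ((P[L | A (s + n)]) ω) ((P[fun ω => L ω ^ 2 | A (s + n)]) ω) (g ω))) := by
            rw [mul_comm]; rfl
        _ ≤ g ω ^ 2 / ρ := this
        _ = _ := by ring
    rw [integral_const_mul] at h5
    exact h5.trans (mul_le_mul_of_nonneg_left hgt (by positivity))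
  have e6 : (2 * (e' * e) + (3 + 2 / ρ) * e ^ 2) * (n : ℝ) =
    2 * (e' * e * n + e ^ 2 * n + (1 / ρ) * (e ^ 2 * n)) + e ^ 2 * n := by ring
  rw [e6]
  linarith

/-- summability of the energy increments gives uniform smallness of the heavy part -/
theorem heavy_energy (h : Frame P F A X) (hΛ : 0 ≤ Λ) {e e' : ℕ → ℝ} (he : ∀ j, 0 ≤ e j)
    (he' : ∀ j, 0 ≤ e' j)
    (hg : ∀ j s, ∫ ω, (P[bS X s (2 ^ j) | A s]) ω ^ 2 ∂P ≤ e j ^ 2 * (2 ^ j : ℕ))
    (hb : ∀ j (s : ℤ), ∫ ω, (P[bS X s (2 ^ j) | A (s + (2 ^ j : ℕ))]) ω ^ 2 ∂P ≤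
      e' j ^ 2 * (2 ^ j : ℕ)) {δ : ℝ}
    (hbase : ∀ s, ∫ ω, heavy P A X (1 / 200) Λ J0 0 s ω ^ 2 ∂P ≤ δ * len J0 0) (r : ℕ) :
    ∀ s, ∫ ω, heavy P A X (1 / 200) Λ J0 r s ω ^ 2 ∂P ≤
      (δ + ∑ i ∈ Finset.range r, (e' (J0 + i) * e (J0 + i) + 202 * e (J0 + i) ^ 2)) *
        len J0 r := by
  induction r with
  | zero => intro s; simpa using hbase s
  | succ r ih =>
    intro s
    have h1 := heavy_energy_step (J0 := J0) h hΛ (by norm_num : (0:ℝ) < 1 / 200) (by norm_num)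
      r s (he (J0 + r)) (he' (J0 + r)) (hg (J0 + r)) (hb (J0 + r))
    have h2 := ih s
    have h3 := ih (s + len J0 r)
    rw [Finset.sum_range_succ, len_succ]
    push_cast
    have h4 : 0 ≤ e (J0 + r) ^ 2 * (len J0 r : ℝ) := by positivity
    nlinarith

end Pool.MP_cd27db_pr
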