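import Pool.Agent.W_MP_cd27db_pr.Frame

/-!
# The light part of the block sums: definition, basic properties, one-step lemmas
-/

open MeasureTheory ProbabilityTheory Filter Topology
open scoped ENNReal NNReal

namespace Pool.MP_cd27db_pr

variable {Ω : Type*} {m0 : MeasurableSpace Ω}

/-- truncation at level `Λ` -/
noncomputable def trunc (Λ x : ℝ) : ℝ := max (-Λ) (min x Λ)

/-- admissible part of the drift `g` given `l = E(L|state)`, `β = E(L^2|state)` -/
noncomputable def adm (ρ l β g : ℝ) : ℝ :=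
  open Classical in if l * g ≤ 0 ∧ |g| ≤ 2 * |l| ∧ g ^ 2 ≤ ρ ^ 2 * β then g else 0

lemma adm_sq_le (ρ l g : ℝ) {β : ℝ} (hβ : 0 ≤ β) : adm ρ l β g ^ 2 ≤ ρ ^ 2 * β := by
  unfold adm
  split_ifs with h
  · exact h.2.2
  · have := mul_nonneg (sq_nonneg ρ) hβ
    simpa using this

lemma adm_sign (ρ l β g : ℝ) : 2 * l * adm ρ l β g + adm ρ l β g ^ 2 ≤ 0 := by
  unfold adm
  split_ifs with h
  · obtain ⟨h1, h2, -⟩ := h
    have h3 : |l| * |g| = -(l * g) := by rw [← abs_mul, abs_of_nonpos h1]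
    have h4 : g ^ 2 = |g| * |g| := by rw [← sq, sq_abs]
    have h5 : |g| * |g| ≤ 2 * |l| * |g| := mul_le_mul_of_nonneg_right h2 (abs_nonneg _)
    nlinarith
  · simp

lemma adm_abs_le_l (ρ l β g : ℝ) : |adm ρ l β g| ≤ 2 * |l| := by
  unfold adm
  split_ifs with h
  · exact h.2.1
  · simp

lemma adm_abs_le_g (ρ l β g : ℝ) : |adm ρ l β g| ≤ |g| := by
  unfold adm
  split_ifs with h
  · exact le_rfl
  · simp

lemma adm_rest_abs_le (ρ l β g : ℝ) : |g - adm ρ l β g| ≤ |g| := by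
  unfold adm
  split_ifs with h
  · simp
  · simp

lemma adm_rest_mul_le {ρ l β g : ℝ} (hρ : 0 < ρ) (hρ1 : ρ ≤ 1) (hl : l ^ 2 ≤ β) :
    -(l * (g - adm ρ l β g)) ≤ g ^ 2 / ρ := by
  have hg : 0 ≤ g ^ 2 / ρ := by positivity
  unfold adm
  split_ifs with h
  · simpa using hg
  · rw [sub_zero]
    by_contra hcon
    push Not at hcon
    apply h
    have h1 : l * g < 0 := by linarith
    have h2 : g ^ 2 / ρ < |l| * |g| := by rw [← abs_mul, abs_of_neg h1]; exact hcon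
    have h3 : g ^ 2 = |g| * |g| := by rw [← sq, sq_abs]
    have hg0 : 0 < |g| := by
      rcases (abs_nonneg g).eq_or_lt with h0 | h0
      · rw [← h0] at h2; simp at h2; linarith
      · exact h0
    have h4 : |g| < ρ * |l| := by
      rw [div_lt_iff₀ hρ, h3] at h2
      have : |g| * |g| < |g| * (ρ * |l|) := by nlinarith
      exact lt_of_mul_lt_mul_left this hg0.le
    have hl0 : 0 ≤ |l| := abs_nonneg l
    refine ⟨h1.le, by nlinarith, ?_⟩
    have h5 : |g| ^ 2 ≤ (ρ * |l|) ^ 2 := pow_le_pow_left₀ hg0.le h4.le 2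
    rw [sq_abs, mul_pow, sq_abs] at h5
    exact h5.trans (mul_le_mul_of_nonneg_left hl (sq_nonneg ρ))

lemma measurable_adm (ρ : ℝ) : Measurable fun p : ℝ × ℝ × ℝ => adm ρ p.1 p.2.1 p.2.2 := by
  unfold adm
  have h1 : MeasurableSet {p : ℝ × ℝ × ℝ | p.1 * p.2.2 ≤ 0} :=
    measurableSet_le (by fun_prop) (by fun_prop)
  have h2 : MeasurableSet {p : ℝ × ℝ × ℝ | |p.2.2| ≤ 2 * |p.1|} :=
    measurableSet_le (by fun_prop) (by fun_prop)
  have h3 : MeasurableSet {p : ℝ × ℝ × ℝ | p.2.2 ^ 2 ≤ ρ ^ 2 * p.2.1} :=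
    measurableSet_le (by fun_prop) (by fun_prop)
  exact Measurable.ite (h1.inter (h2.inter h3)) (by fun_prop) (by fun_prop)

lemma abs_trunc_le {Λ : ℝ} (hΛ : 0 ≤ Λ) (x : ℝ) : |trunc Λ x| ≤ Λ := by
  unfold trunc
  rw [abs_le]
  constructor
  · exact le_max_left _ _
  · exact max_le (by linarith) (min_le_right _ _)

lemma continuous_trunc (Λ : ℝ) : Continuous (trunc Λ) := by
  unfold trunc; fun_prop

/-- the dyadic lengths -/
def len (J0 j : ℕ) : ℕ := 2 ^ (J0 + j)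

lemma len_succ (J0 j : ℕ) : len J0 (j + 1) = len J0 j + len J0 j := by
  unfold len; ring

lemma len_pos (J0 j : ℕ) : 0 < len J0 j := by unfold len; positivity

lemma len_eq (J0 j : ℕ) : len J0 j = 2 ^ j * len J0 0 := by unfold len; ring

section Def

variable (P : Measure Ω) (A : ℤ → MeasurableSpace Ω) (X : ℤ → Ω → ℝ) (ρ Λ : ℝ) (J0 : ℕ)

/-- the drift at `t` that is given to the light part -/
noncomputable def gam (Lf : Ω → ℝ) (t : ℤ) (n : ℕ) : Ω → ℝ := fun ω =>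
  adm ρ ((P[Lf | A t]) ω) ((P[fun ω => Lf ω ^ 2 | A t]) ω) ((P[bS X t n | A t]) ω)

/-- the light part of the block `(s, s + len J0 j]` -/
noncomputable def light : ℕ → ℤ → Ω → ℝ
  | 0, s => fun ω => trunc Λ (bS X s (len J0 0) ω) -
      (P[fun ω => trunc Λ (bS X s (len J0 0) ω) | A s]) ω
  | (j + 1), s => fun ω => light j s ω + light j (s + len J0 j) ω +
      gam P A X ρ (light j s) (s + len J0 j) (len J0 j) ω -
      (P[gam P A X ρ (light j s) (s + len J0 j) (len J0 j) | A s]) ω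

end Def

variable {P : Measure Ω} [IsProbabilityMeasure P] {F A : ℤ → MeasurableSpace Ω} {X : ℤ → Ω → ℝ}
  {ρ Λ : ℝ} {J0 : ℕ}

lemma bdd_gam {m : MeasurableSpace Ω} {Lf : Ω → ℝ} (hLf : Bdd P m Lf) (t : ℤ) (n : ℕ) :
    Bdd P (A t) (gam P A X ρ Lf t n) := by
  have h1 := hLf.condExp (A t)
  have h2 := (hLf.pow 2).condExp (A t)
  refine ⟨?_, ?_⟩
  · have hm : Measurable[A t] (fun ω => ((P[Lf | A t]) ω, (P[fun ω => Lf ω ^ 2 | A t]) ω,
        (P[bS X t n | A t]) ω)) :=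
      h1.sm.measurable.prodMk (h2.sm.measurable.prodMk stronglyMeasurable_condExp.measurable)
    exact ((measurable_adm ρ).comp hm).stronglyMeasurable
  · obtain ⟨C, hC⟩ := h1.bound
    refine ⟨2 * C, ?_⟩
    filter_upwards [hC] with ω hω
    exact (adm_abs_le_l _ _ _ _).trans (by linarith)

lemma bdd_light (h : Frame P F A X) (hΛ : 0 ≤ Λ) :
    ∀ j s, Bdd P (Gs A s (len J0 j)) (light P A X ρ Λ J0 j s) := by
  intro j
  induction j with
  | zero =>
    intro s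
    have h1 : Bdd P (Gs A s (len J0 0)) (fun ω => trunc Λ (bS X s (len J0 0) ω)) :=
      ⟨(continuous_trunc Λ).comp_stronglyMeasurable (h.sm_bS s _), Λ, by
        filter_upwards with ω using abs_trunc_le hΛ _⟩
    exact h1.sub ((h1.condExp (A s)).up (A_left_le_Gs s _))
  | succ j ih =>
    intro s
    have h1 := (ih s).up (Gs_le_add_left s (len J0 j) (len J0 j))
    have h2 := (ih (s + len J0 j)).up (Gs_le_add_right s (len J0 j) (len J0 j))
    have h3 := bdd_gam (A := A) (X := X) (ρ := ρ) (ih s) (s + len J0 j) (len J0 j)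
    have h4 := h3.condExp (A s)
    have h3' := h3.up (A_le_Gs s (n := len J0 j + len J0 j) (k := len J0 j) (by omega))
    have h4' := h4.up (A_left_le_Gs s (len J0 j + len J0 j))
    rw [len_succ]
    exact ((h1.add h2).add h3').sub h4'

/-- conditional centering w.r.t. the present implies centering w.r.t. the past -/
lemma centered_past (h : Frame P F A X) {s : ℤ} {n : ℕ} {L : Ω → ℝ} (hL : Integrable L P)
    (hLm : StronglyMeasurable[Gs A s n] L) (h0 : P[L | A s] =ᵐ[P] 0) : P[L | F s] =ᵐ[P] 0 :=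
  (h.markov s n L hL hLm).trans h0

lemma condExp_new (h : Frame P F A X) {s : ℤ} {n : ℕ} {L L' γ : Ω → ℝ}
    (hL : Integrable L P) (hL' : Integrable L' P) (hγ : Integrable γ P)
    (hLm' : StronglyMeasurable[Gs A (s + n) n] L')
    (h0 : P[L | A s] =ᵐ[P] 0) (h0' : P[L' | A (s + n)] =ᵐ[P] 0) :
    P[fun ω => L ω + L' ω + γ ω - (P[γ | A s]) ω | A s] =ᵐ[P] 0 := by
  have hA := h.A_le_m0 s
  have e1 : P[L' | A s] =ᵐ[P] 0 := by
    have h1 : A s ≤ F (s + n) := h.A_le_F (by omega)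
    have h2 := condExp_condExp_of_le (μ := P) (f := L') h1 (h.F_le (s + n))
    have h3 := centered_past h hL' hLm' h0'
    have h4 : P[P[L' | F (s + n)] | A s] =ᵐ[P] 0 := by
      refine (condExp_congr_ae h3).trans ?_
      rw [condExp_zero]
    exact h2.symm.trans h4
  have e2 : P[P[γ | A s] | A s] = P[γ | A s] :=
    condExp_of_stronglyMeasurable hA stronglyMeasurable_condExp integrable_condExp
  have e3 := condExp_sub (μ := P) ((hL.add hL').add hγ) (integrable_condExp (f := γ) (m := A s))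
    (A s)
  have e4 := condExp_add (μ := P) (hL.add hL') hγ (A s)
  have e5 := condExp_add (μ := P) hL hL' (A s)
  have e6 : (fun ω => L ω + L' ω + γ ω - (P[γ | A s]) ω) = (L + L' + γ) - P[γ | A s] := by
    ext ω; simp
  rw [e6]
  filter_upwards [e1, e3, e4, e5, h0] with ω h1 h3 h4 h5 h6
  rw [h3, Pi.sub_apply, h4, Pi.add_apply, h5, Pi.add_apply, h1, h6, e2]
  simp

lemma condExp_light (h : Frame P F A X) (hΛ : 0 ≤ Λ) :
    ∀ j s, P[light P A X ρ Λ J0 j s | A s] =ᵐ[P] 0 := by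
  intro j
  induction j with
  | zero =>
    intro s
    have h1 : Bdd P (Gs A s (len J0 0)) (fun ω => trunc Λ (bS X s (len J0 0) ω)) :=
      ⟨(continuous_trunc Λ).comp_stronglyMeasurable (h.sm_bS s _), Λ, by
        filter_upwards with ω using abs_trunc_le hΛ _⟩
    have hi := h1.integrable (h.Gs_le_m0 s _)
    have e2 : P[P[fun ω => trunc Λ (bS X s (len J0 0) ω) | A s] | A s]
        = P[fun ω => trunc Λ (bS X s (len J0 0) ω) | A s] :=
      condExp_of_stronglyMeasurable (h.A_le_m0 s) stronglyMeasurable_condExp integrable_condExp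
    have e3 := condExp_sub (μ := P) hi
      (integrable_condExp (f := fun ω => trunc Λ (bS X s (len J0 0) ω)) (m := A s)) (A s)
    refine e3.trans ?_
    rw [e2, sub_self]
  | succ j ih =>
    intro s
    have b1 := bdd_light (ρ := ρ) (J0 := J0) h hΛ j s
    have b2 := bdd_light (ρ := ρ) (J0 := J0) h hΛ j (s + len J0 j)
    have b3 := bdd_gam (A := A) (X := X) (ρ := ρ) b1 (s + len J0 j) (len J0 j)
    exact condExp_new h (b1.integrable (h.Gs_le_m0 _ _)) (b2.integrable (h.Gs_le_m0 _ _))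
      (b3.integrable (h.A_le_m0 _)) b2.sm (ih s) (ih (s + len J0 j))

/-- the fundamental one-step inequality for local energies -/
lemma flux_step (h : Frame P F A X) {s : ℤ} {n : ℕ} {L L' γ z : Ω → ℝ}
    (hL : Bdd P (Gs A s n) L) (hL' : Bdd P (Gs A (s + n) n) L')
    (h0 : P[L | A s] =ᵐ[P] 0) (h0' : P[L' | A (s + n)] =ᵐ[P] 0)
    (hγ : Bdd P (A (s + n)) γ)
    (hγ2 : ∀ᵐ ω ∂P, 2 * (P[L | A (s + n)]) ω * γ ω + γ ω ^ 2 ≤ 0)
    (hz : Bdd P (F s) z) (hz0 : 0 ≤ᵐ[P] z) :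
    ∫ ω, z ω * (L ω + L' ω + γ ω - (P[γ | A s]) ω) ^ 2 ∂P ≤
      ∫ ω, z ω * L ω ^ 2 ∂P + ∫ ω, z ω * L' ω ^ 2 ∂P +
      2 * ∫ ω, ((P[z | A s]) ω - (P[z | A (s + n)]) ω) * (L ω * γ ω) ∂P := by
  have hFt := h.F_le (s + n)
  have hFs := h.F_le s
  have hAt := h.A_le_m0 (s + n)
  have hAs := h.A_le_m0 s
  have hst : F s ≤ F (s + n) := h.F_mono (by omega)
  -- ambient versions
  have bL0 := hL.up (h.Gs_le_m0 _ _)
  have bL0' := hL'.up (h.Gs_le_m0 _ _)
  have bγ0 := hγ.up hAt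
  have bz0 := hz.up hFs
  have bγs : Bdd P (A s) (P[γ | A s]) := hγ.condExp (A s)
  have bγs0 := bγs.up hAs
  have bX : Bdd P (F (s + n)) (fun ω => L ω + γ ω - (P[γ | A s]) ω) :=
    ((hL.up (h.Gs_le_F _ _)).add (hγ.up (h.A_le _))).sub (bγs.up (h.A_le_F (by omega)))
  have bX0 := bX.up hFt
  have bU : Bdd P (Gs A s n) (fun ω => L ω + γ ω) := hL.add (hγ.up (A_le_Gs s le_rfl))
  have bU0 := bU.up (h.Gs_le_m0 _ _)
  have bZs : Bdd P (A s) (P[z | A s]) := hz.condExp _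
  have bZt : Bdd P (A (s + n)) (P[z | A (s + n)]) := hz.condExp _
  have bZs0 := bZs.up hAs
  have bZt0 := bZt.up hAt
  -- Step 1: split off the right block
  have s1 : ∫ ω, z ω * (L ω + L' ω + γ ω - (P[γ | A s]) ω) ^ 2 ∂P =
      ∫ ω, z ω * (L ω + γ ω - (P[γ | A s]) ω) ^ 2 ∂P + ∫ ω, z ω * L' ω ^ 2 ∂P := by
    have e : ∀ ω, z ω * (L ω + L' ω + γ ω - (P[γ | A s]) ω) ^ 2 =
        z ω * (L ω + γ ω - (P[γ | A s]) ω) ^ 2 + z ω * L' ω ^ 2 +
        2 * (z ω * (L ω + γ ω - (P[γ | A s]) ω) * L' ω) := fun ω => by ring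
    have i1 := (bz0.mul (bX0.pow 2)).integrable le_rfl
    have i2 := (bz0.mul (bL0'.pow 2)).integrable le_rfl
    have i3 := ((bz0.mul bX0).mul bL0').integrable le_rfl
    have e3 := integral_mul_eq_zero hFt (((hz.up hst).mul bX).sm) (bL0'.integrable le_rfl) i3
      (centered_past h (bL0'.integrable le_rfl) hL'.sm h0')
    simp_rw [e]
    rw [E_add (iadd i1 i2) (icm _ i3), E_add i1 i2, integral_const_mul, e3]
    ring
  -- Step 2: conditional variance is at most the conditional second moment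
  have hU : P[fun ω => L ω + γ ω | F s] =ᵐ[P] P[γ | A s] := by
    have e1 := h.markov s n _ (bU0.integrable le_rfl) bU.sm
    have e2 := condExp_add (μ := P) (bL0.integrable le_rfl) (bγ0.integrable le_rfl) (A s)
    refine e1.trans ?_
    filter_upwards [e2, h0] with ω h2 h3
    have : (P[fun ω => L ω + γ ω | A s]) ω = (P[L + γ | A s]) ω := rfl
    rw [this, h2, Pi.add_apply, h3]; simp
  have s2 : ∫ ω, z ω * (L ω + γ ω - (P[γ | A s]) ω) ^ 2 ∂P ≤
      ∫ ω, z ω * (L ω + γ ω) ^ 2 ∂P := by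
    have e : ∀ ω, z ω * (L ω + γ ω - (P[γ | A s]) ω) ^ 2 =
        z ω * (L ω + γ ω) ^ 2 + z ω * (P[γ | A s]) ω ^ 2 +
        (-2) * (z ω * (P[γ | A s]) ω * (L ω + γ ω)) := fun ω => by ring
    have i1 := (bz0.mul (bU0.pow 2)).integrable le_rfl
    have i2 := (bz0.mul (bγs0.pow 2)).integrable le_rfl
    have i3 := ((bz0.mul bγs0).mul bU0).integrable le_rfl
    have e3 := E_mul_condExp (P := P) hFs ((hz.mul (bγs.up (h.A_le s))).sm)
      (bU0.integrable le_rfl) i3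
    have e4 : ∫ ω, z ω * (P[γ | A s]) ω * (P[fun ω => L ω + γ ω | F s]) ω ∂P =
        ∫ ω, z ω * (P[γ | A s]) ω ^ 2 ∂P := by
      apply integral_congr_ae
      filter_upwards [hU] with ω hω
      rw [hω]; ring
    simp_rw [e]
    rw [E_add (iadd i1 i2) (icm _ i3), E_add i1 i2, integral_const_mul, e3, e4]
    have e5 : 0 ≤ ∫ ω, z ω * (P[γ | A s]) ω ^ 2 ∂P := by
      apply integral_nonneg_of_ae
      filter_upwards [hz0] with ω hω
      exact mul_nonneg hω (sq_nonneg _)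
    linarith
  -- Step 3
  have bV : Bdd P (Gs A s n) (fun ω => 2 * (L ω * γ ω) + γ ω ^ 2) :=
    ((hL.mul (hγ.up (A_le_Gs s le_rfl))).const_mul 2).add ((hγ.up (A_le_Gs s le_rfl)).pow 2)
  have bV0 := bV.up (h.Gs_le_m0 _ _)
  have s3 : ∫ ω, z ω * (L ω + γ ω) ^ 2 ∂P = ∫ ω, z ω * L ω ^ 2 ∂P +
      ∫ ω, z ω * (2 * (L ω * γ ω) + γ ω ^ 2) ∂P := by
    rw [← E_add ((bz0.mul (bL0.pow 2)).integrable le_rfl) ((bz0.mul bV0).integrable le_rfl)]
    congr 1; ext ω; ring
  have s4 := h.integral_past_mul hz bV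
  have s5 : ∫ ω, (P[z | A s]) ω * (2 * (L ω * γ ω) + γ ω ^ 2) ∂P =
      ∫ ω, (P[z | A (s + n)]) ω * (2 * (L ω * γ ω) + γ ω ^ 2) ∂P +
      2 * ∫ ω, ((P[z | A s]) ω - (P[z | A (s + n)]) ω) * (L ω * γ ω) ∂P := by
    have e : ∀ ω, (P[z | A s]) ω * (2 * (L ω * γ ω) + γ ω ^ 2) =
        (P[z | A (s + n)]) ω * (2 * (L ω * γ ω) + γ ω ^ 2) +
        2 * (((P[z | A s]) ω - (P[z | A (s + n)]) ω) * (L ω * γ ω)) +
        (γ ω ^ 2 * (P[z | A s]) ω - γ ω ^ 2 * (P[z | A (s + n)]) ω) := fun ω => by ring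
    have i1 := (bZt0.mul bV0).integrable le_rfl
    have i2 := ((bZs0.sub bZt0).mul (bL0.mul bγ0)).integrable le_rfl
    have i3 := ((bγ0.pow 2).mul bZs0).integrable le_rfl
    have i4 := ((bγ0.pow 2).mul bZt0).integrable le_rfl
    have e3 : ∫ ω, γ ω ^ 2 * (P[z | A s]) ω ∂P = ∫ ω, γ ω ^ 2 * (P[z | A (s + n)]) ω ∂P := by
      rw [E_mul_condExp (P := P) hAt (hγ.pow 2).sm (bZs0.integrable le_rfl) i3]
      apply integral_congr_ae
      filter_upwards [h.condExp_past (n := n) hz] with ω hω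
      rw [← hω]
    simp_rw [e]
    rw [E_add (iadd i1 (icm _ i2)) (isub i3 i4), E_add i1 (icm _ i2), integral_const_mul,
      E_sub i3 i4, e3]
    ring
  have s6 : ∫ ω, (P[z | A (s + n)]) ω * (2 * (L ω * γ ω) + γ ω ^ 2) ∂P ≤ 0 := by
    have bl : Bdd P (A (s + n)) (P[L | A (s + n)]) := hL.condExp _
    have bl0 := bl.up hAt
    have e : ∀ ω, (P[z | A (s + n)]) ω * (2 * (L ω * γ ω) + γ ω ^ 2) =
        2 * ((P[z | A (s + n)]) ω * γ ω * L ω) + (P[z | A (s + n)]) ω * γ ω ^ 2 :=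
      fun ω => by ring
    have i1 := ((bZt0.mul bγ0).mul bL0).integrable le_rfl
    have i2 := (bZt0.mul (bγ0.pow 2)).integrable le_rfl
    have i3 := ((bZt0.mul bγ0).mul bl0).integrable le_rfl
    have e3 := E_mul_condExp (P := P) hAt (bZt.mul hγ).sm (bL0.integrable le_rfl) i1
    simp_rw [e]
    rw [E_add (icm _ i1) i2, integral_const_mul, e3, ← integral_const_mul, ← E_add (icm _ i3) i2]
    apply integral_nonpos_of_ae
    have hZt0 : 0 ≤ᵐ[P] P[z | A (s + n)] := condExp_nonneg hz0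
    filter_upwards [hZt0, hγ2] with ω h1 h2
    have h1' : 0 ≤ (P[z | A (s + n)]) ω := h1
    simp only [Pi.zero_apply]
    nlinarith
  rw [s1]
  linarith

end Pool.MP_cd27db_pr
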