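import Pool.Agent.W_MP_cd27db_pr.Moment

/-!
# The closed fourth moment bound for the light part
-/

open MeasureTheory ProbabilityTheory Filter Topology
open scoped ENNReal NNReal

namespace Pool.MP_cd27db_pr

variable {Ω : Type*} {m0 : MeasurableSpace Ω}
variable {P : Measure Ω} [IsProbabilityMeasure P] {F A : ℤ → MeasurableSpace Ω} {X : ℤ → Ω → ℝ}
  {Λ : ℝ} {J0 : ℕ}

/-- conditional energy of the light part, given fourth moment bounds at lower levels -/
lemma cond_energy_le (h : Frame P F A X) (hΛ : 0 ≤ Λ) {K : ℝ} (hK : 0 ≤ K)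
    (hbase : ∀ s, ∫ ω, light P A X (1 / 200) Λ J0 0 s ω ^ 4 ∂P ≤ (K / 20 * len J0 0) ^ 2) (r : ℕ)
    (hP : ∀ j < r, ∀ s, ∫ ω, light P A X (1 / 200) Λ J0 j s ω ^ 4 ∂P ≤ (K * len J0 j) ^ 2)
    (s : ℤ) :
    ∫ ω, (P[fun ω => light P A X (1 / 200) Λ J0 r s ω ^ 2 | A s]) ω ^ 2 ∂P ≤
      (7 / 100 * K * len J0 r) ^ 2 := by
  set z : Ω → ℝ := P[fun ω => light P A X (1 / 200) Λ J0 r s ω ^ 2 | A s] with hzdef
  have bL := fun j s => bdd_light (ρ := 1 / 200) (J0 := J0) h hΛ j s
  have bL0 := fun j s => (bL j s).up (h.Gs_le_m0 _ _)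
  have bzA : Bdd P (A s) z := ((bL r s).pow 2).condExp _
  have bz : Bdd P (F s) z := bzA.up (h.A_le s)
  have bz0 := bz.up (h.F_le s)
  have hz0 : 0 ≤ᵐ[P] z := condExp_nonneg (ae_of_all _ fun ω => sq_nonneg _)
  set W := ∫ ω, z ω ^ 2 ∂P with hW
  have hW0 : 0 ≤ W := integral_nonneg fun ω => sq_nonneg _
  have e1 : ∫ ω, z ω * light P A X (1 / 200) Λ J0 r s ω ^ 2 ∂P = W := by
    rw [E_mul_condExp (P := P) (h.A_le_m0 s) bzA.sm (((bL0 r s).pow 2).integrable le_rfl)
      ((bz0.mul ((bL0 r s).pow 2)).integrable le_rfl)]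
    rw [hW]
    congr 1; ext ω; rw [← hzdef]; ring
  have hq : ∀ (s' : ℤ) (n : ℕ), s ≤ s' →
      Frame.q P A z (s' + n) ≤ Frame.q P A z s' := fun s' n hs' =>
    h.q_anti (bz.up (h.F_mono hs'))
  have hφ2 : ∀ a b : ℝ, 0 ≤ a → 0 ≤ b → √a + √b ≤ √2 * √(a + b) := fun a b ha hb =>
    sqrt_add_sqrt_le ha hb
  have hs2 : √2 ≤ 3 / 2 := by
    rw [Real.sqrt_le_left (by norm_num)]; norm_num
  have key := tree_bound (f := fun j s' => ∫ ω, z ω * light P A X (1 / 200) Λ J0 j s' ω ^ 2 ∂P)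
    (l := len J0) (len_succ J0) (q := Frame.q P A z) (φ := Real.sqrt)
    (c := fun j => 2 / 200 * K * len J0 j) (K := fun j => 4 / 200 * K * len J0 j)
    (τ := √2) (s0 := s) hq (fun a b hab => Real.sqrt_le_sqrt hab) hφ2 Real.sqrt_nonneg
    (fun j => by positivity) (fun j => by positivity)
    (fun j => by
      rw [len_succ]; push_cast
      have hs : √2 * (4 / 200 * K * (len J0 j : ℝ)) ≤ 3 / 2 * (4 / 200 * K * (len J0 j : ℝ)) :=
        mul_le_mul_of_nonneg_right hs2 (by positivity)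
      have : 0 ≤ K * (len J0 j : ℝ) := by positivity
      nlinarith) r
    (fun j hj s' hs' => by
      have h1 := light_flux_step (ρ := 1 / 200) (J0 := J0) h hΛ bz hz0 j hs'
      have hγ := (bdd_gam (A := A) (X := X) (ρ := 1 / 200) (bL0 j s') (s' + len J0 j)
        (len J0 j)).up (h.A_le_m0 _)
      have hγ4 := integral_gam_pow4_le (X := X) (ρ := 1 / 200) h (bL0 j s') (s' + len J0 j)
        (len J0 j)
      have hL4 := hP j hj s'
      have h2 := flux_le (ρ := 1 / 200) h (M := K * len J0 j) (by positivity) (by norm_num)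
        (bL0 j s') hγ hL4
        (hγ4.trans (mul_le_mul_of_nonneg_left hL4 (by positivity))) (bz.up (h.F_mono hs'))
        (n := len J0 j)
      linarith) s le_rfl
  rw [e1] at key
  have h3 : ∀ i ∈ Finset.range (2 ^ r),
      ∫ ω, z ω * light P A X (1 / 200) Λ J0 0 (s + i * len J0 0) ω ^ 2 ∂P ≤
        √W * (K / 20 * len J0 0) := by
    intro i _
    have h4 := integral_mul_le_sqrt (P := P) (bz0.memLp le_rfl 2)
      (((bL0 0 (s + i * len J0 0)).pow 2).memLp le_rfl 2)
    have e2 : ∀ ω, (light P A X (1 / 200) Λ J0 0 (s + i * len J0 0) ω ^ 2) ^ 2 =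
      light P A X (1 / 200) Λ J0 0 (s + i * len J0 0) ω ^ 4 := fun ω => by ring
    simp_rw [e2] at h4
    have h5 : √(∫ ω, light P A X (1 / 200) Λ J0 0 (s + i * len J0 0) ω ^ 4 ∂P) ≤
        K / 20 * len J0 0 := by
      rw [Real.sqrt_le_left (by positivity)]
      exact hbase _
    exact (le_abs_self _).trans (h4.trans (mul_le_mul_of_nonneg_left h5 (Real.sqrt_nonneg _)))
  have h6 := Finset.sum_le_sum h3
  rw [Finset.sum_const, Finset.card_range, nsmul_eq_mul] at h6
  have e7 : ((2 ^ r : ℕ) : ℝ) * (√W * (K / 20 * len J0 0)) = √W * (K / 20 * len J0 r) := by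
    rw [len_eq J0 r]; push_cast; ring
  rw [e7] at h6
  have h8 : √(Frame.q P A z s - Frame.q P A z (s + len J0 r)) ≤ √W := by
    apply Real.sqrt_le_sqrt
    have := Frame.q_le h bz0 s
    have := Frame.q_nonneg (P := P) (A := A) z (s + len J0 r)
    linarith
  have h9 : 4 / 200 * K * (len J0 r : ℝ) * √(Frame.q P A z s - Frame.q P A z (s + len J0 r)) ≤
      4 / 200 * K * (len J0 r : ℝ) * √W := mul_le_mul_of_nonneg_left h8 (by positivity)
  have h10 : W ≤ √W * (7 / 100 * K * len J0 r) := by linarith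
  have h11 : √W * √W = W := Real.mul_self_sqrt hW0
  have h12 : √W ≤ 7 / 100 * K * len J0 r := by
    by_contra hcon
    push Not at hcon
    have h13 : 0 ≤ 7 / 100 * K * (len J0 r : ℝ) := by positivity
    have h14 : 0 < √W := lt_of_le_of_lt h13 hcon
    nlinarith
  calc W = √W ^ 2 := by rw [sq, h11]
    _ ≤ _ := pow_le_pow_left₀ (Real.sqrt_nonneg _) h12 2

/-- uniform fourth moment bound -/
theorem light_pow4_le (h : Frame P F A X) (hΛ : 0 ≤ Λ) {K : ℝ} (hK : 0 ≤ K)
    (hbase : ∀ s, ∫ ω, light P A X (1 / 200) Λ J0 0 s ω ^ 4 ∂P ≤ (K / 20 * len J0 0) ^ 2) :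
    ∀ r s, ∫ ω, light P A X (1 / 200) Λ J0 r s ω ^ 4 ∂P ≤ (K * len J0 r) ^ 2 := by
  intro r
  induction r using Nat.strong_induction_on with
  | _ r ih =>
    rcases r with _ | r
    · intro s
      refine (hbase s).trans ?_
      apply pow_le_pow_left₀ (by positivity)
      have : 0 ≤ K * (len J0 0 : ℝ) := by positivity
      linarith
    · intro s
      have bL := fun j s => bdd_light (ρ := 1 / 200) (J0 := J0) h hΛ j s
      have bγ := bdd_gam (A := A) (X := X) (ρ := 1 / 200) (bL r s) (s + len J0 r) (len J0 r)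
      have h1 := ih r (Nat.lt_succ_self r) s
      have h2 := ih r (Nat.lt_succ_self r) (s + len J0 r)
      have hγ4 := integral_gam_pow4_le (X := X) (ρ := 1 / 200) h
        ((bL r s).up (h.Gs_le_m0 _ _)) (s + len J0 r) (len J0 r)
      have hV := cond_energy_le h hΛ hK hbase r
        (fun j hj => ih j (hj.trans (Nat.lt_succ_self r))) (s + len J0 r)
      have h3 := fourth_step h hK (bL r s) (bL r (s + len J0 r))
        (condExp_light h hΛ r (s + len J0 r)) bγ h1 h2
        (hγ4.trans (mul_le_mul_of_nonneg_left h1 (by positivity))) hV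
      rw [len_succ]
      push_cast
      exact h3

end Pool.MP_cd27db_pr
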