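import Pool.Agent.W_MP_cd27db_pr.Blocks

/-!
# Approximation of `S_n` by sums of blocks, and the limits
-/

open MeasureTheory ProbabilityTheory Filter Topology
open scoped ENNReal NNReal

namespace Pool.MP_cd27db_pr

variable {Ω : Type*} {m0 : MeasurableSpace Ω} {P : Measure Ω} [IsProbabilityMeasure P]
  {F A : ℤ → MeasurableSpace Ω} {X : ℤ → Ω → ℝ} {e e' : ℕ → ℝ}

lemma abs_exp_neg_sub_exp_neg {a b : ℝ} (ha : 0 ≤ a) (hab : a ≤ b) :
    |Real.exp (-a) - Real.exp (-b)| ≤ b - a := by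
  have h1 : Real.exp (-b) = Real.exp (-a) * Real.exp (-(b - a)) := by
    rw [← Real.exp_add]; congr 1; ring
  have h2 := Real.add_one_le_exp (-(b - a))
  have h3 : Real.exp (-a) ≤ 1 := Real.exp_le_one_iff.2 (by linarith)
  have h4 := Real.exp_pos (-a)
  have h5 : Real.exp (-(b - a)) ≤ 1 := Real.exp_le_one_iff.2 (by linarith)
  rw [h1, abs_of_nonneg (by nlinarith)]
  nlinarith

lemma norm_integral_exp_sub_le {U V : Ω → ℝ} (hU : MemLp U 2 P) (hV : MemLp V 2 P) (θ : ℝ) :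
    ‖∫ ω, Complex.exp ((θ * U ω : ℝ) * Complex.I) ∂P -
      ∫ ω, Complex.exp ((θ * V ω : ℝ) * Complex.I) ∂P‖ ≤
      |θ| * nrm P (fun ω => U ω - V ω) := by
  have hint : ∀ {W : Ω → ℝ}, MemLp W 2 P →
      Integrable (fun ω => Complex.exp ((θ * W ω : ℝ) * Complex.I)) P := by
    intro W hW
    refine Integrable.of_bound (C := 1) ?_ ?_
    · have h1 := hW.1
      exact Continuous.comp_aestronglyMeasurable
        (g := fun x : ℝ => Complex.exp ((θ * x : ℝ) * Complex.I)) (by fun_prop) h1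
    · filter_upwards with ω
      rw [Complex.norm_exp_ofReal_mul_I]
  rw [← integral_sub (hint hU) (hint hV)]
  refine (norm_integral_le_integral_norm _).trans ?_
  have hD := lsub hU hV
  have h2 : ∫ ω, ‖Complex.exp ((θ * U ω : ℝ) * Complex.I) -
      Complex.exp ((θ * V ω : ℝ) * Complex.I)‖ ∂P ≤ ∫ ω, |θ| * |U ω - V ω| ∂P := by
    apply integral_mono ((hint hU).sub (hint hV)).norm (icm _ (lint hD).abs)
    intro ω
    simp only [Pi.sub_apply]
    have e1 : Complex.exp ((θ * U ω : ℝ) * Complex.I) -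
        Complex.exp ((θ * V ω : ℝ) * Complex.I) =
        Complex.exp ((θ * V ω : ℝ) * Complex.I) *
          (Complex.exp (Complex.I * (θ * (U ω - V ω) : ℝ)) - 1) := by
      rw [mul_sub, ← Complex.exp_add, mul_one]
      congr 2
      push_cast; ring
    rw [e1, norm_mul, Complex.norm_exp_ofReal_mul_I, one_mul]
    refine Real.norm_exp_I_mul_ofReal_sub_one_le.trans ?_
    rw [Real.norm_eq_abs, abs_mul]
  refine h2.trans ?_
  rw [integral_const_mul]
  exact mul_le_mul_of_nonneg_left (integral_abs_le_nrm hD) (abs_nonneg _)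

/-- uniform growth of the norms -/
lemma nrm_bS_le_pow (h : Frame P F A X) {C0 : ℝ} (hC0 : 0 ≤ C0)
    (hC : ∀ j s, nrm P (bS X s (2 ^ j)) ≤ C0 * √(2 ^ j)) (J : ℕ) :
    ∀ (q : ℕ) (s : ℤ), q ≤ 2 ^ J → nrm P (bS X s q) ≤ 4 * C0 * √(2 ^ J) := by
  induction J with
  | zero =>
    intro q s hq
    have h1 : q = 0 ∨ q = 1 := by simp at hq; omega
    rcases h1 with rfl | rfl
    · have e0 : bS X s 0 = fun _ => 0 := by ext ω; simp [bS]
      rw [e0]; unfold nrm; simp; positivity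
    · have h2 := hC 0 s
      simp only [pow_zero] at h2 ⊢
      have : 0 ≤ C0 * √1 := by positivity
      linarith
  | succ J ih =>
    intro q s hq
    have e1 : √((2:ℝ) ^ (J + 1)) = √2 * √(2 ^ J) := by
      rw [pow_succ, mul_comm, Real.sqrt_mul (by norm_num)]
    have h2 : 5 / 4 ≤ √2 := Real.le_sqrt_of_sq_le (by norm_num)
    have h3 : 0 ≤ C0 * √(2 ^ J) := by positivity
    rcases le_or_gt q (2 ^ J) with h4 | h4
    · refine (ih q s h4).trans ?_
      rw [e1]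
      nlinarith
    · obtain ⟨q', rfl⟩ := Nat.exists_eq_add_of_le h4.le
      have h5 : q' ≤ 2 ^ J := by rw [pow_succ] at hq; omega
      have h6 := ih q' (s + (2 ^ J : ℕ)) h5
      have h7 := hC J s
      have e2 : bS X s (2 ^ J + q') = fun ω => bS X s (2 ^ J) ω + bS X (s + (2 ^ J : ℕ)) q' ω := by
        ext ω; exact Frame.bS_add _ _ _ _
      rw [e2, e1]
      refine (nrm_add_le (h.memLp_bS _ _) (h.memLp_bS _ _)).trans ?_
      have e3 : nrm P (fun ω => bS X (s + (2 ^ J : ℕ)) q' ω) =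
        nrm P (bS X (s + (2 ^ J : ℕ)) q') := rfl
      have e4 : nrm P (fun ω => bS X s (2 ^ J) ω) = nrm P (bS X s (2 ^ J)) := rfl
      nlinarith

omit [IsProbabilityMeasure P] in
lemma bS_blocks (m q N : ℕ) (ω : Ω) : bS X 0 (N * m + q) ω =
    ∑ i ∈ Finset.range N, bS X ((i * m : ℕ) : ℤ) m ω + bS X ((N * m : ℕ) : ℤ) q ω := by
  have h1 : ∀ N : ℕ, bS X 0 (N * m) ω = ∑ i ∈ Finset.range N, bS X ((i * m : ℕ) : ℤ) m ω := by
    intro N
    induction N with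
    | zero => simp [bS]
    | succ N ih =>
      rw [Nat.succ_mul, Frame.bS_add, ih, Finset.sum_range_succ]
      simp
  rw [Frame.bS_add, h1]
  simp

/-- approximation of `S_n` by the sum of centered blocks -/
lemma nrm_sub_blocks_le (h : SFrame P F A X e e') {C0 : ℝ} (hC0 : 0 ≤ C0)
    (hC : ∀ j s, nrm P (bS X s (2 ^ j)) ≤ C0 * √(2 ^ j)) (j N q : ℕ) (hq : q ≤ 2 ^ j) :
    nrm P (fun ω => bS X 0 (N * 2 ^ j + q) ω -
      ∑ i ∈ Finset.range N, mdiff P A X (2 ^ j) ((i * 2 ^ j : ℕ) : ℤ) ω) ≤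
      (N * e j + 4 * C0) * √(2 ^ j) := by
  have hF := h.toFrame
  have e1 : (fun ω => bS X 0 (N * 2 ^ j + q) ω -
      ∑ i ∈ Finset.range N, mdiff P A X (2 ^ j) ((i * 2 ^ j : ℕ) : ℤ) ω) =
      fun ω => (∑ i ∈ Finset.range N,
        (P[bS X ((i * 2 ^ j : ℕ) : ℤ) (2 ^ j) | A ((i * 2 ^ j : ℕ) : ℤ)]) ω) +
        bS X ((N * 2 ^ j : ℕ) : ℤ) q ω := by
    ext ω
    rw [bS_blocks]
    unfold mdiff
    rw [Finset.sum_sub_distrib]
    ring
  rw [e1]
  have l1 : ∀ i : ℕ, MemLp (P[bS X ((i * 2 ^ j : ℕ) : ℤ) (2 ^ j) | A ((i * 2 ^ j : ℕ) : ℤ)]) 2 P :=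
    fun i => memLp_condExp (hF.memLp_bS _ _)
  refine (nrm_add_le (memLp_finsetSum _ fun i _ => l1 i) (hF.memLp_bS _ _)).trans ?_
  have h2 := nrm_sum_le (P := P) (Finset.range N) l1
  have h3 : ∀ i ∈ Finset.range N,
      nrm P (P[bS X ((i * 2 ^ j : ℕ) : ℤ) (2 ^ j) | A ((i * 2 ^ j : ℕ) : ℤ)]) ≤
        e j * √(2 ^ j) := by
    intro i _
    have he := h.e_nonneg j
    rw [nrm_le_iff (by positivity), mul_pow, Real.sq_sqrt (by positivity)]
    have := h.hg j ((i * 2 ^ j : ℕ) : ℤ)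
    simpa using this
  have h4 := Finset.sum_le_sum h3
  rw [Finset.sum_const, Finset.card_range, nsmul_eq_mul] at h4
  have h5 := nrm_bS_le_pow hF hC0 hC j q ((N * 2 ^ j : ℕ) : ℤ) hq
  have e6 : nrm P (fun ω => bS X ((N * 2 ^ j : ℕ) : ℤ) q ω) =
    nrm P (bS X ((N * 2 ^ j : ℕ) : ℤ) q) := rfl
  rw [e6]
  linarith

/-- energy of the sum of centered blocks -/
lemma integral_sq_blocks (h : Frame P F A X) (m N : ℕ) :
    ∫ ω, (∑ i ∈ Finset.range N, mdiff P A X m ((i * m : ℕ) : ℤ) ω) ^ 2 ∂P =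
      ∑ i ∈ Finset.range N, ∫ ω, mdiff P A X m ((i * m : ℕ) : ℤ) ω ^ 2 ∂P := by
  induction N with
  | zero => simp
  | succ N ih =>
    rw [Finset.sum_range_succ, ← ih]
    simp_rw [Finset.sum_range_succ]
    have l1 : MemLp (fun ω => ∑ i ∈ Finset.range N, mdiff P A X m ((i * m : ℕ) : ℤ) ω) 2 P :=
      memLp_finsetSum _ fun i _ => memLp_mdiff h m _
    have l2 := memLp_mdiff h m ((N * m : ℕ) : ℤ)
    have sm1 : StronglyMeasurable[F ((N * m : ℕ) : ℤ)]
        (fun ω => ∑ i ∈ Finset.range N, mdiff P A X m ((i * m : ℕ) : ℤ) ω) := by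
      apply Finset.stronglyMeasurable_fun_sum
      intro i hi
      have hi' := Finset.mem_range.1 hi
      refine (sm_mdiff h m ((i * m : ℕ) : ℤ)).mono ((h.Gs_le_F _ _).trans (h.F_mono ?_))
      have : i * m + m ≤ N * m := by
        calc i * m + m = (i + 1) * m := by ring
          _ ≤ N * m := Nat.mul_le_mul_right m hi'
      exact_mod_cast this
    have e0 := integral_mul_eq_zero (h.F_le _) sm1 (lint l2) (iL2 l1 l2)
      (condExp_mdiff_past h m ((N * m : ℕ) : ℤ))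
    have e1 : ∀ ω, (∑ i ∈ Finset.range N, mdiff P A X m ((i * m : ℕ) : ℤ) ω +
        mdiff P A X m ((N * m : ℕ) : ℤ) ω) ^ 2 =
        (∑ i ∈ Finset.range N, mdiff P A X m ((i * m : ℕ) : ℤ) ω) ^ 2 +
        mdiff P A X m ((N * m : ℕ) : ℤ) ω ^ 2 +
        2 * ((∑ i ∈ Finset.range N, mdiff P A X m ((i * m : ℕ) : ℤ) ω) *
          mdiff P A X m ((N * m : ℕ) : ℤ) ω) := fun ω => by ring
    simp_rw [e1]
    rw [E_add (iadd l1.integrable_sq l2.integrable_sq) (icm _ (iL2 l1 l2)),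
      E_add l1.integrable_sq l2.integrable_sq, integral_const_mul, e0]
    ring

lemma integral_mdiff_sq (h : Frame P F A X) (m : ℕ) (s : ℤ) :
    ∫ ω, mdiff P A X m s ω ^ 2 ∂P =
      ∫ ω, bS X s m ω ^ 2 ∂P - ∫ ω, (P[bS X s m | A s]) ω ^ 2 ∂P := by
  have lS := h.memLp_bS s m
  have lg : MemLp (P[bS X s m | A s]) 2 P := memLp_condExp lS
  have e1 : ∀ ω, mdiff P A X m s ω ^ 2 = bS X s m ω ^ 2 + (P[bS X s m | A s]) ω ^ 2 +
      (-2) * ((P[bS X s m | A s]) ω * bS X s m ω) := fun ω => by unfold mdiff; ring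
  have e2 := E_mul_condExp (P := P) (h.A_le_m0 s)
    (stronglyMeasurable_condExp (f := bS X s m) (μ := P)) (lint lS) (iL2 lg lS)
  simp_rw [e1]
  rw [E_add (iadd lS.integrable_sq lg.integrable_sq) (icm _ (iL2 lg lS)),
    E_add lS.integrable_sq lg.integrable_sq, integral_const_mul, e2]
  have e3 : ∀ ω, (P[bS X s m | A s]) ω * (P[bS X s m | A s]) ω =
    (P[bS X s m | A s]) ω ^ 2 := fun ω => by ring
  simp_rw [e3]
  ring

/-- arithmetic of the block decomposition of `n` -/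
lemma block_arith {n k j : ℕ} (h1 : 2 ^ (j + k) ≤ n) (h2 : n < 2 ^ (j + k + 1)) :
    ∃ N q : ℕ, n = N * 2 ^ j + q ∧ q ≤ 2 ^ j ∧ N ≤ 2 ^ (k + 1) ∧
      (2 : ℝ) ^ j ≤ n * (1 / 2) ^ k ∧ (1 - (1 / 2) ^ k) * (n : ℝ) ≤ N * 2 ^ j ∧
      (N : ℝ) * 2 ^ j ≤ n := by
  refine ⟨n / 2 ^ j, n % 2 ^ j, ?_, ?_, ?_, ?_, ?_, ?_⟩
  · rw [mul_comm]; exact (Nat.div_add_mod n (2 ^ j)).symm
  · exact (Nat.mod_lt n (by positivity)).le
  · have : n / 2 ^ j < 2 ^ (k + 1) := by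
      rw [Nat.div_lt_iff_lt_mul (by positivity)]
      calc n < 2 ^ (j + k + 1) := h2
        _ = 2 ^ (k + 1) * 2 ^ j := by ring
    exact this.le
  · have h3 : ((2 : ℝ)) ^ (j + k) ≤ n := by exact_mod_cast h1
    have h4 : (2 : ℝ) ^ j = 2 ^ (j + k) * (1 / 2) ^ k := by
      rw [pow_add, mul_assoc, ← mul_pow]; norm_num
    rw [h4]
    exact mul_le_mul_of_nonneg_right h3 (by positivity)
  · have h3 : ((2 : ℝ)) ^ (j + k) ≤ n := by exact_mod_cast h1
    have h4 : (2 : ℝ) ^ j = 2 ^ (j + k) * (1 / 2) ^ k := by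
      rw [pow_add, mul_assoc, ← mul_pow]; norm_num
    have h5 : (2 : ℝ) ^ j ≤ n * (1 / 2) ^ k := by
      rw [h4]; exact mul_le_mul_of_nonneg_right h3 (by positivity)
    have h6 : n < (n / 2 ^ j + 1) * 2 ^ j := by
      have := Nat.lt_div_mul_add (a := n) (b := 2 ^ j) (by positivity)
      calc n < n / 2 ^ j * 2 ^ j + 2 ^ j := this
        _ = _ := by ring
    have h7 : (n : ℝ) < ((n / 2 ^ j : ℕ) + 1) * 2 ^ j := by exact_mod_cast h6
    nlinarith
  · exact_mod_cast Nat.div_mul_le_self n (2 ^ j)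

end Pool.MP_cd27db_pr
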