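import Pool.Agent.W_MP_cd27db_pr.Light

/-!
# Uniform fourth moment bound for the light part
-/

open MeasureTheory ProbabilityTheory Filter Topology
open scoped ENNReal NNReal

namespace Pool.MP_cd27db_pr

lemma pow4_add_le (x y : ℝ) : (x + y) ^ 4 ≤ (101 / 100) ^ 3 * x ^ 4 + 101 ^ 3 * y ^ 4 := by
  have h := (((by decide : Even 4).convexOn_pow (𝕜 := ℝ))).2 (Set.mem_univ ((101 / 100) * x))
    (Set.mem_univ (101 * y)) (by norm_num : (0:ℝ) ≤ 100 / 101) (by norm_num : (0:ℝ) ≤ 1 / 101)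
    (by norm_num)
  simp only [smul_eq_mul] at h
  have e1 : 100 / 101 * (101 / 100 * x) + 1 / 101 * (101 * y) = x + y := by ring
  have e2 : 100 / 101 * (101 / 100 * x) ^ 4 + 1 / 101 * (101 * y) ^ 4 =
    (101 / 100) ^ 3 * x ^ 4 + 101 ^ 3 * y ^ 4 := by ring
  rw [e1, e2] at h
  exact h

lemma pow4_sub_le (x y : ℝ) : (x - y) ^ 4 ≤ 8 * x ^ 4 + 8 * y ^ 4 := by
  have h := (((by decide : Even 4).convexOn_pow (𝕜 := ℝ))).2 (Set.mem_univ (2 * x))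
    (Set.mem_univ (-2 * y)) (by norm_num : (0:ℝ) ≤ 1 / 2) (by norm_num : (0:ℝ) ≤ 1 / 2)
    (by norm_num)
  simp only [smul_eq_mul] at h
  have e1 : 1 / 2 * (2 * x) + 1 / 2 * (-2 * y) = x - y := by ring
  have e2 : 1 / 2 * (2 * x) ^ 4 + 1 / 2 * (-2 * y) ^ 4 = 8 * x ^ 4 + 8 * y ^ 4 := by ring
  rw [e1, e2] at h
  exact h

lemma cross_pow4 (x y : ℝ) :
    (x + y) ^ 4 ≤ x ^ 4 + 4 * (x ^ 3 * y) + 14 * (x ^ 2 * y ^ 2) + (3 / 2) * y ^ 4 := by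
  nlinarith [sq_nonneg (y ^ 2 - 4 * (x * y))]

lemma sqrt_add_sqrt_le {a b : ℝ} (ha : 0 ≤ a) (hb : 0 ≤ b) : √a + √b ≤ √2 * √(a + b) := by
  rw [← Real.sqrt_mul (by norm_num)]
  apply Real.le_sqrt_of_sq_le
  have h1 := Real.sq_sqrt ha
  have h2 := Real.sq_sqrt hb
  nlinarith [sq_nonneg (√a - √b)]

/-- the abstract dyadic tree summation -/
lemma tree_bound {f : ℕ → ℤ → ℝ} {l : ℕ → ℕ} (hl : ∀ j, l (j + 1) = l j + l j)
    {q : ℤ → ℝ} {φ : ℝ → ℝ} {c K : ℕ → ℝ} {τ : ℝ} {s0 : ℤ}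
    (hq : ∀ (s : ℤ) (n : ℕ), s0 ≤ s → q (s + n) ≤ q s)
    (hφm : Monotone φ) (hφ2 : ∀ a b, 0 ≤ a → 0 ≤ b → φ a + φ b ≤ τ * φ (a + b))
    (hφ0 : ∀ x, 0 ≤ φ x)
    (hc : ∀ j, 0 ≤ c j) (hK : ∀ j, 0 ≤ K j) (hKc : ∀ j, c j + τ * K j ≤ K (j + 1)) (r : ℕ)
    (hstep : ∀ j < r, ∀ s, s0 ≤ s →
      f (j + 1) s ≤ f j s + f j (s + l j) + c j * φ (q s - q (s + l j))) :
    ∀ s, s0 ≤ s →
      f r s ≤ ∑ i ∈ Finset.range (2 ^ r), f 0 (s + i * l 0) + K r * φ (q s - q (s + l r)) := by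
  induction r with
  | zero =>
    intro s _
    simp only [pow_zero, Finset.range_one, Finset.sum_singleton, Nat.cast_zero, zero_mul,
      add_zero]
    exact le_add_of_nonneg_right (mul_nonneg (hK 0) (hφ0 _))
  | succ r ih =>
    have ih' := ih (fun j hj => hstep j (Nat.lt_succ_of_lt hj))
    have hlr : ∀ r, l r = 2 ^ r * l 0 := by
      intro r
      induction r with
      | zero => simp
      | succ r ih => rw [hl, ih]; ring
    intro s hs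
    have hs' : s0 ≤ s + l r := by omega
    have h1 := ih' s hs
    have h2 := ih' (s + l r) hs'
    have h3 := hstep r (Nat.lt_succ_self r) s hs
    have e1 : s + ((l r : ℕ) : ℤ) + ((l r : ℕ) : ℤ) = s + ((l (r + 1) : ℕ) : ℤ) := by
      rw [hl]; push_cast; ring
    rw [e1] at h2
    have d1 : 0 ≤ q s - q (s + l r) := by have := hq s (l r) hs; linarith
    have d2 : 0 ≤ q (s + l r) - q (s + l (r + 1)) := by
      have := hq (s + l r) (l r) hs'; rw [e1] at this; linarith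
    have h4 := hφ2 _ _ d1 d2
    have e2 : q s - q (s + l r) + (q (s + l r) - q (s + l (r + 1))) = q s - q (s + l (r + 1)) := by
      ring
    rw [e2] at h4
    have h5 : φ (q s - q (s + l r)) ≤ φ (q s - q (s + l (r + 1))) := hφm (by linarith)
    have e3 : ∑ i ∈ Finset.range (2 ^ (r + 1)), f 0 (s + i * l 0) =
        ∑ i ∈ Finset.range (2 ^ r), f 0 (s + i * l 0) +
        ∑ i ∈ Finset.range (2 ^ r), f 0 (s + l r + i * l 0) := by
      rw [pow_succ, mul_two, Finset.sum_range_add]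
      congr 1
      apply Finset.sum_congr rfl
      intro i _
      congr 1
      rw [hlr r]
      push_cast; ring
    rw [e3]
    have h6 : K r * (φ (q s - q (s + l r)) + φ (q (s + l r) - q (s + l (r + 1)))) ≤
        K r * (τ * φ (q s - q (s + l (r + 1)))) := mul_le_mul_of_nonneg_left h4 (hK r)
    have h7 : c r * φ (q s - q (s + l r)) ≤ c r * φ (q s - q (s + l (r + 1))) :=
      mul_le_mul_of_nonneg_left h5 (hc r)
    have h8 : (c r + τ * K r) * φ (q s - q (s + l (r + 1))) ≤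
        K (r + 1) * φ (q s - q (s + l (r + 1))) :=
      mul_le_mul_of_nonneg_right (hKc r) (hφ0 _)
    nlinarith

variable {Ω : Type*} {m0 : MeasurableSpace Ω}
variable {P : Measure Ω} [IsProbabilityMeasure P] {F A : ℤ → MeasurableSpace Ω} {X : ℤ → Ω → ℝ}
  {ρ Λ : ℝ} {J0 : ℕ}

lemma gam_sign {m : MeasurableSpace Ω} {Lf : Ω → ℝ} (t : ℤ) (n : ℕ) :
    ∀ᵐ ω ∂P, 2 * (P[Lf | A t]) ω * gam P A X ρ Lf t n ω + gam P A X ρ Lf t n ω ^ 2 ≤ 0 := by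
  filter_upwards with ω
  exact adm_sign _ _ _ _

lemma integral_gam_pow4_le (h : Frame P F A X) {Lf : Ω → ℝ} (hLf : Bdd P m0 Lf) (t : ℤ) (n : ℕ) :
    ∫ ω, gam P A X ρ Lf t n ω ^ 4 ∂P ≤ ρ ^ 4 * ∫ ω, Lf ω ^ 4 ∂P := by
  have hA := h.A_le_m0 t
  have hβ := (hLf.pow 2).condExp (A t)
  have hβ0 : 0 ≤ᵐ[P] P[fun ω => Lf ω ^ 2 | A t] :=
    condExp_nonneg (ae_of_all _ fun ω => sq_nonneg (Lf ω))
  have hγ := (bdd_gam (A := A) (X := X) (ρ := ρ) hLf t n).up hA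
  have h1 : ∫ ω, gam P A X ρ Lf t n ω ^ 4 ∂P ≤
      ∫ ω, ρ ^ 4 * (P[fun ω => Lf ω ^ 2 | A t]) ω ^ 2 ∂P := by
    apply integral_mono_ae ((hγ.pow 4).integrable le_rfl)
      (((hβ.pow 2).const_mul (ρ ^ 4)).integrable hA)
    filter_upwards [hβ0] with ω hω
    have h2 := adm_sq_le ρ ((P[Lf | A t]) ω) ((P[bS X t n | A t]) ω) hω
    have h3 : gam P A X ρ Lf t n ω ^ 2 ≤ ρ ^ 2 * (P[fun ω => Lf ω ^ 2 | A t]) ω := h2
    have h4 := pow_le_pow_left₀ (sq_nonneg (gam P A X ρ Lf t n ω)) h3 2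
    calc gam P A X ρ Lf t n ω ^ 4 = (gam P A X ρ Lf t n ω ^ 2) ^ 2 := by ring
      _ ≤ (ρ ^ 2 * (P[fun ω => Lf ω ^ 2 | A t]) ω) ^ 2 := h4
      _ = _ := by ring
  rw [integral_const_mul] at h1
  have h5 := integral_sq_condExp_le (P := P) hA ((hLf.pow 2).memLp le_rfl 2)
  have e : ∀ ω, (Lf ω ^ 2) ^ 2 = Lf ω ^ 4 := fun ω => by ring
  simp_rw [e] at h5
  exact h1.trans (mul_le_mul_of_nonneg_left h5 (by positivity))

lemma fourth_step (h : Frame P F A X) {s : ℤ} {n : ℕ} {L L' γ : Ω → ℝ} {K : ℝ} (hK : 0 ≤ K)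
    (hL : Bdd P (Gs A s n) L) (hL' : Bdd P (Gs A (s + n) n) L')
    (h0' : P[L' | A (s + n)] =ᵐ[P] 0) (hγ : Bdd P (A (s + n)) γ)
    (hL4 : ∫ ω, L ω ^ 4 ∂P ≤ (K * n) ^ 2) (hL4' : ∫ ω, L' ω ^ 4 ∂P ≤ (K * n) ^ 2)
    (hγ4 : ∫ ω, γ ω ^ 4 ∂P ≤ (1 / 200) ^ 4 * (K * n) ^ 2)
    (hV : ∫ ω, (P[fun ω => L' ω ^ 2 | A (s + n)]) ω ^ 2 ∂P ≤ (7 / 100 * K * n) ^ 2) :
    ∫ ω, (L ω + L' ω + γ ω - (P[γ | A s]) ω) ^ 4 ∂P ≤ (K * (n + n)) ^ 2 := by
  have hFt := h.F_le (s + n)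
  have hAt := h.A_le_m0 (s + n)
  have hAs := h.A_le_m0 s
  have bL0 := hL.up (h.Gs_le_m0 _ _)
  have bL0' := hL'.up (h.Gs_le_m0 _ _)
  have bγ0 := hγ.up hAt
  have bγs : Bdd P (A s) (P[γ | A s]) := hγ.condExp (A s)
  have bγs0 := bγs.up hAs
  have bX : Bdd P (F (s + n)) (fun ω => L ω + (γ ω - (P[γ | A s]) ω)) :=
    ((hL.up (h.Gs_le_F _ _)).add ((hγ.up (h.A_le _)).sub (bγs.up (h.A_le_F (by omega)))))
  have bX0 := bX.up hFt
  have hKn : 0 ≤ K * n := by positivity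
  -- fourth moment of X
  have hX4 : ∫ ω, (L ω + (γ ω - (P[γ | A s]) ω)) ^ 4 ∂P ≤ 21 / 20 * (K * n) ^ 2 := by
    have hγs4 := integral_pow4_condExp_le (P := P) hAs bγ0
    have h1 : ∫ ω, (L ω + (γ ω - (P[γ | A s]) ω)) ^ 4 ∂P ≤
        ∫ ω, ((101 / 100) ^ 3 * L ω ^ 4 +
          101 ^ 3 * (8 * γ ω ^ 4 + 8 * (P[γ | A s]) ω ^ 4)) ∂P := by
      apply integral_mono ((bX0.pow 4).integrable le_rfl)
        ((((bL0.pow 4).const_mul _).add
          ((((bγ0.pow 4).const_mul 8).add ((bγs0.pow 4).const_mul 8)).const_mul _)).integrable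
          le_rfl)
      intro ω
      have h2 := pow4_add_le (L ω) (γ ω - (P[γ | A s]) ω)
      have h3 := pow4_sub_le (γ ω) ((P[γ | A s]) ω)
      simp only
      nlinarith
    have i1 := (bL0.pow 4).integrable (P := P) le_rfl
    have i2 := (bγ0.pow 4).integrable (P := P) le_rfl
    have i3 := (bγs0.pow 4).integrable (P := P) le_rfl
    rw [E_add (icm _ i1) (icm _ (iadd (icm _ i2) (icm _ i3))), integral_const_mul,
      integral_const_mul, E_add (icm _ i2) (icm _ i3), integral_const_mul,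
      integral_const_mul] at h1
    nlinarith [sq_nonneg (K * n)]
  -- conditional energy of L'
  have bV : Bdd P (A (s + n)) (P[fun ω => L' ω ^ 2 | A (s + n)]) := (hL'.pow 2).condExp _
  have bV0 := bV.up hAt
  have hXL : ∫ ω, (L ω + (γ ω - (P[γ | A s]) ω)) ^ 2 * L' ω ^ 2 ∂P ≤
      103 / 100 * (K * n) * (7 / 100 * K * n) := by
    have i1 := ((bX0.pow 2).mul (bL0'.pow 2)).integrable (P := P) le_rfl
    rw [E_mul_condExp hFt (bX.pow 2).sm ((bL0'.pow 2).integrable le_rfl) i1]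
    have e1 : ∫ ω, (L ω + (γ ω - (P[γ | A s]) ω)) ^ 2 *
          (P[fun ω => L' ω ^ 2 | F (s + n)]) ω ∂P =
        ∫ ω, (L ω + (γ ω - (P[γ | A s]) ω)) ^ 2 *
          (P[fun ω => L' ω ^ 2 | A (s + n)]) ω ∂P := by
      apply integral_congr_ae
      filter_upwards [h.markov (s + n) n _ ((bL0'.pow 2).integrable le_rfl) (hL'.pow 2).sm]
        with ω hω
      rw [hω]
    rw [e1]
    have h2 := integral_mul_le_sqrt (P := P) ((bX0.pow 2).memLp le_rfl 2) (bV0.memLp le_rfl 2)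
    have e2 : ∀ ω, ((L ω + (γ ω - (P[γ | A s]) ω)) ^ 2) ^ 2 =
      (L ω + (γ ω - (P[γ | A s]) ω)) ^ 4 := fun ω => by ring
    simp_rw [e2] at h2
    have h3 : √(∫ ω, (L ω + (γ ω - (P[γ | A s]) ω)) ^ 4 ∂P) ≤ 103 / 100 * (K * n) := by
      rw [Real.sqrt_le_left (by positivity)]
      nlinarith [sq_nonneg (K * n)]
    have h4 : √(∫ ω, (P[fun ω => L' ω ^ 2 | A (s + n)]) ω ^ 2 ∂P) ≤ 7 / 100 * K * n := by
      rw [Real.sqrt_le_left (by positivity)]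
      exact hV
    exact (le_abs_self _).trans (h2.trans (mul_le_mul h3 h4 (Real.sqrt_nonneg _) (by positivity)))
  -- cross term vanishes
  have hcross : ∫ ω, (L ω + (γ ω - (P[γ | A s]) ω)) ^ 3 * L' ω ∂P = 0 :=
    integral_mul_eq_zero hFt (bX.pow 3).sm (bL0'.integrable le_rfl)
      (((bX0.pow 3).mul bL0').integrable le_rfl)
      (centered_past h (bL0'.integrable le_rfl) hL'.sm h0')
  have hfin : ∫ ω, (L ω + L' ω + γ ω - (P[γ | A s]) ω) ^ 4 ∂P ≤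
      ∫ ω, (L ω + (γ ω - (P[γ | A s]) ω)) ^ 4 +
        4 * ((L ω + (γ ω - (P[γ | A s]) ω)) ^ 3 * L' ω) +
        14 * ((L ω + (γ ω - (P[γ | A s]) ω)) ^ 2 * L' ω ^ 2) + (3 / 2) * L' ω ^ 4 ∂P := by
    apply integral_mono
    · exact (((((bL0.add bL0').add bγ0).sub bγs0).pow 4).integrable le_rfl)
    · exact (((((bX0.pow 4).add (((bX0.pow 3).mul bL0').const_mul 4)).add
        (((bX0.pow 2).mul (bL0'.pow 2)).const_mul 14)).add
        ((bL0'.pow 4).const_mul (3 / 2))).integrable le_rfl)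
    · intro ω
      have := cross_pow4 (L ω + (γ ω - (P[γ | A s]) ω)) (L' ω)
      have e : L ω + L' ω + γ ω - (P[γ | A s]) ω = L ω + (γ ω - (P[γ | A s]) ω) + L' ω := by ring
      simp only
      rw [e]
      exact this
  have i1 := (bX0.pow 4).integrable (P := P) le_rfl
  have i2 := ((bX0.pow 3).mul bL0').integrable (P := P) le_rfl
  have i3 := ((bX0.pow 2).mul (bL0'.pow 2)).integrable (P := P) le_rfl
  have i4 := (bL0'.pow 4).integrable (P := P) le_rfl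
  rw [E_add (iadd (iadd i1 (icm _ i2)) (icm _ i3)) (icm _ i4),
    E_add (iadd i1 (icm _ i2)) (icm _ i3), E_add i1 (icm _ i2), integral_const_mul,
    integral_const_mul, integral_const_mul, hcross] at hfin
  nlinarith [sq_nonneg (K * n)]

/-- Abbreviation: the flux inequality for `light` -/
lemma light_flux_step (h : Frame P F A X) (hΛ : 0 ≤ Λ) {s0 : ℤ} {z : Ω → ℝ}
    (hz : Bdd P (F s0) z) (hz0 : 0 ≤ᵐ[P] z) (j : ℕ) {s : ℤ} (hs : s0 ≤ s) :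
    ∫ ω, z ω * light P A X ρ Λ J0 (j + 1) s ω ^ 2 ∂P ≤
      ∫ ω, z ω * light P A X ρ Λ J0 j s ω ^ 2 ∂P +
      ∫ ω, z ω * light P A X ρ Λ J0 j (s + len J0 j) ω ^ 2 ∂P +
      2 * ∫ ω, ((P[z | A s]) ω - (P[z | A (s + len J0 j)]) ω) *
        (light P A X ρ Λ J0 j s ω *
          gam P A X ρ (light P A X ρ Λ J0 j s) (s + len J0 j) (len J0 j) ω) ∂P := by
  have b1 := bdd_light (ρ := ρ) (J0 := J0) h hΛ j s
  have b2 := bdd_light (ρ := ρ) (J0 := J0) h hΛ j (s + len J0 j)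
  have b3 := bdd_gam (A := A) (X := X) (ρ := ρ) b1 (s + len J0 j) (len J0 j)
  exact flux_step h b1 b2 (condExp_light h hΛ j s) (condExp_light h hΛ j (s + len J0 j)) b3
    (gam_sign (m := m0) _ _) (hz.up (h.F_mono hs)) hz0

/-- the flux through a node, bound by fourth moments -/
lemma flux_le (h : Frame P F A X) {s : ℤ} {n : ℕ} {L γ z : Ω → ℝ} {M ρ : ℝ} (hM : 0 ≤ M)
    (hρ : 0 < ρ)
    (hL : Bdd P m0 L) (hγ : Bdd P m0 γ) (hL4 : ∫ ω, L ω ^ 4 ∂P ≤ M ^ 2)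
    (hγ4 : ∫ ω, γ ω ^ 4 ∂P ≤ ρ ^ 4 * M ^ 2) (hz : Bdd P (F s) z) :
    ∫ ω, ((P[z | A s]) ω - (P[z | A (s + n)]) ω) * (L ω * γ ω) ∂P ≤
      ρ * M * √(Frame.q P A z s - Frame.q P A z (s + n)) := by
  have bZs := (hz.condExp (A s)).up (h.A_le_m0 s)
  have bZt := (hz.condExp (A (s + n))).up (h.A_le_m0 _)
  have h1 := integral_mul_le_sqrt (P := P) ((bZs.sub bZt).memLp le_rfl 2)
    ((hL.mul hγ).memLp le_rfl 2)
  rw [h.integral_sq_sub hz] at h1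
  have h2 : √(∫ ω, (L ω * γ ω) ^ 2 ∂P) ≤ ρ * M := by
    rw [Real.sqrt_le_left (by positivity)]
    have h3 : ∫ ω, (L ω * γ ω) ^ 2 ∂P ≤
        ∫ ω, (ρ ^ 2 / 2) * L ω ^ 4 + (1 / (2 * ρ ^ 2)) * γ ω ^ 4 ∂P := by
      apply integral_mono (((hL.mul hγ).pow 2).integrable le_rfl)
        ((((hL.pow 4).const_mul _).add ((hγ.pow 4).const_mul _)).integrable le_rfl)
      intro ω
      simp only
      have h4 : 0 ≤ (1 / (2 * ρ ^ 2)) * (ρ ^ 2 * L ω ^ 2 - γ ω ^ 2) ^ 2 := by positivity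
      have e : (1 / (2 * ρ ^ 2)) * (ρ ^ 2 * L ω ^ 2 - γ ω ^ 2) ^ 2 =
        (ρ ^ 2 / 2) * L ω ^ 4 + (1 / (2 * ρ ^ 2)) * γ ω ^ 4 - (L ω * γ ω) ^ 2 := by
        field_simp; ring
      linarith
    rw [E_add (icm _ ((hL.pow 4).integrable le_rfl)) (icm _ ((hγ.pow 4).integrable le_rfl)),
      integral_const_mul, integral_const_mul] at h3
    have h5 : (ρ ^ 2 / 2) * ∫ ω, L ω ^ 4 ∂P ≤ (ρ ^ 2 / 2) * M ^ 2 :=
      mul_le_mul_of_nonneg_left hL4 (by positivity)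
    have h6 : (1 / (2 * ρ ^ 2)) * ∫ ω, γ ω ^ 4 ∂P ≤ (1 / (2 * ρ ^ 2)) * (ρ ^ 4 * M ^ 2) :=
      mul_le_mul_of_nonneg_left hγ4 (by positivity)
    have e7 : (ρ ^ 2 / 2) * M ^ 2 + (1 / (2 * ρ ^ 2)) * (ρ ^ 4 * M ^ 2) = (ρ * M) ^ 2 := by
      field_simp; ring
    linarith
  have h8 := (le_abs_self _).trans h1
  refine h8.trans ?_
  rw [mul_comm]
  exact mul_le_mul_of_nonneg_right h2 (Real.sqrt_nonneg _)

end Pool.MP_cd27db_pr
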