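import Pool.Agent.W_MP_cd27db_pr.Heavy

/-!
# The `L²` norm of real functions: small toolbox
-/

open MeasureTheory ProbabilityTheory Filter Topology
open scoped ENNReal NNReal

namespace Pool.MP_cd27db_pr

variable {Ω : Type*} {m0 : MeasurableSpace Ω} {P : Measure Ω} [IsProbabilityMeasure P]

/-- `L²` norm -/
noncomputable def nrm (P : Measure Ω) (U : Ω → ℝ) : ℝ := √(∫ ω, U ω ^ 2 ∂P)

lemma nrm_nonneg (U : Ω → ℝ) : 0 ≤ nrm P U := Real.sqrt_nonneg _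

lemma nrm_sq (U : Ω → ℝ) : nrm P U ^ 2 = ∫ ω, U ω ^ 2 ∂P :=
  Real.sq_sqrt (integral_nonneg fun ω => sq_nonneg _)

lemma nrm_le_iff {U : Ω → ℝ} {c : ℝ} (hc : 0 ≤ c) : nrm P U ≤ c ↔ ∫ ω, U ω ^ 2 ∂P ≤ c ^ 2 :=
  Real.sqrt_le_left hc

lemma abs_int_mul_le {U V : Ω → ℝ} (hU : MemLp U 2 P) (hV : MemLp V 2 P) :
    |∫ ω, U ω * V ω ∂P| ≤ nrm P U * nrm P V := integral_mul_le_sqrt hU hV

lemma int_mul_le {U V : Ω → ℝ} (hU : MemLp U 2 P) (hV : MemLp V 2 P) :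
    ∫ ω, U ω * V ω ∂P ≤ nrm P U * nrm P V := (le_abs_self _).trans (abs_int_mul_le hU hV)

lemma nrm_add_le {U V : Ω → ℝ} (hU : MemLp U 2 P) (hV : MemLp V 2 P) :
    nrm P (fun ω => U ω + V ω) ≤ nrm P U + nrm P V := by
  rw [nrm_le_iff (add_nonneg (nrm_nonneg _) (nrm_nonneg _))]
  have e : ∀ ω, (U ω + V ω) ^ 2 = U ω ^ 2 + 2 * (U ω * V ω) + V ω ^ 2 := fun ω => by ring
  simp_rw [e]
  rw [E_add (iadd hU.integrable_sq (icm _ (iL2 hU hV))) hV.integrable_sq,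
    E_add hU.integrable_sq (icm _ (iL2 hU hV)), integral_const_mul]
  have h1 := int_mul_le hU hV
  have h2 := nrm_sq (P := P) U
  have h3 := nrm_sq (P := P) V
  nlinarith

lemma nrm_neg (U : Ω → ℝ) : nrm P (fun ω => - U ω) = nrm P U := by
  unfold nrm; simp

lemma nrm_sub_le {U V : Ω → ℝ} (hU : MemLp U 2 P) (hV : MemLp V 2 P) :
    nrm P (fun ω => U ω - V ω) ≤ nrm P U + nrm P V := by
  have h := nrm_add_le hU hV.neg
  have e : nrm P (-V) = nrm P V := nrm_neg V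
  rw [e] at h
  simpa [sub_eq_add_neg] using h

lemma nrm_const_mul (c : ℝ) (U : Ω → ℝ) : nrm P (fun ω => c * U ω) = |c| * nrm P U := by
  unfold nrm
  simp_rw [mul_pow]
  rw [integral_const_mul, Real.sqrt_mul (sq_nonneg c), Real.sqrt_sq_eq_abs]

lemma nrm_congr {U V : Ω → ℝ} (h : U =ᵐ[P] V) : nrm P U = nrm P V := by
  unfold nrm
  congr 1
  apply integral_congr_ae
  filter_upwards [h] with ω hω
  rw [hω]

lemma nrm_mono {U V : Ω → ℝ} (hU : MemLp U 2 P) (hV : MemLp V 2 P)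
    (h : ∀ᵐ ω ∂P, |U ω| ≤ |V ω|) : nrm P U ≤ nrm P V := by
  apply Real.sqrt_le_sqrt
  apply integral_mono_ae hU.integrable_sq hV.integrable_sq
  filter_upwards [h] with ω hω
  rw [← sq_abs (U ω), ← sq_abs (V ω)]
  exact pow_le_pow_left₀ (abs_nonneg _) hω 2

lemma nrm_condExp_le {m : MeasurableSpace Ω} (hm : m ≤ m0) {U : Ω → ℝ} (hU : MemLp U 2 P) :
    nrm P (P[U | m]) ≤ nrm P U := Real.sqrt_le_sqrt (integral_sq_condExp_le hm hU)

lemma integral_abs_le_nrm {U : Ω → ℝ} (hU : MemLp U 2 P) : ∫ ω, |U ω| ∂P ≤ nrm P U := by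
  have h1 : MemLp (fun ω => |U ω|) 2 P := hU.abs
  have h2 := int_mul_le h1 (memLp_const (1 : ℝ))
  have e1 : nrm P (fun _ : Ω => (1 : ℝ)) = 1 := by unfold nrm; simp
  have e2 : nrm P (fun ω => |U ω|) = nrm P U := by unfold nrm; simp
  rw [e1, e2] at h2
  simpa using h2

lemma abs_integral_le_nrm {U : Ω → ℝ} (hU : MemLp U 2 P) : |∫ ω, U ω ∂P| ≤ nrm P U :=
  (abs_integral_le_integral_abs).trans (integral_abs_le_nrm hU)

lemma nrm_sum_le {ι : Type*} (s : Finset ι) {U : ι → Ω → ℝ} (hU : ∀ i, MemLp (U i) 2 P) :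
    nrm P (fun ω => ∑ i ∈ s, U i ω) ≤ ∑ i ∈ s, nrm P (U i) := by
  classical
  induction s using Finset.induction_on with
  | empty => simp [nrm]
  | insert a s ha ih =>
    rw [Finset.sum_insert ha]
    simp_rw [Finset.sum_insert ha]
    exact (nrm_add_le (hU a) (memLp_finsetSum _ fun i _ => hU i)).trans
      (add_le_add le_rfl ih)

/-- comparison of weighted second moments -/
lemma abs_int_z_sq_sub {z U V : Ω → ℝ} (hz : StronglyMeasurable z)
    (hz1 : ∀ᵐ ω ∂P, |z ω| ≤ 1) (hU : MemLp U 2 P) (hV : MemLp V 2 P) :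
    |∫ ω, z ω * U ω ^ 2 ∂P - ∫ ω, z ω * V ω ^ 2 ∂P| ≤
      nrm P (fun ω => U ω - V ω) * (2 * nrm P U + nrm P (fun ω => U ω - V ω)) := by
  have hD : MemLp (fun ω => U ω - V ω) 2 P := lsub hU hV
  have hzb : ∀ {W : Ω → ℝ}, Integrable W P → Integrable (fun ω => z ω * W ω) P := by
    intro W hW
    exact hW.bdd_mul (c := 1) hz.aestronglyMeasurable (by simpa using hz1)
  have hzD : MemLp (fun ω => z ω * (U ω - V ω)) 2 P := by
    refine hD.mono (hz.aestronglyMeasurable.mul hD.1) ?_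
    filter_upwards [hz1] with ω hω
    rw [norm_mul]
    calc ‖z ω‖ * ‖U ω - V ω‖ ≤ 1 * ‖U ω - V ω‖ := mul_le_mul_of_nonneg_right hω (norm_nonneg _)
      _ = _ := one_mul _
  have hW : MemLp (fun ω => 2 * U ω - (U ω - V ω)) 2 P := lsub (hU.const_mul 2) hD
  rw [← E_sub (hzb hU.integrable_sq) (hzb hV.integrable_sq)]
  have e : ∀ ω, z ω * U ω ^ 2 - z ω * V ω ^ 2 =
      (z ω * (U ω - V ω)) * (2 * U ω - (U ω - V ω)) := fun ω => by ring
  simp_rw [e]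
  refine (abs_int_mul_le hzD hW).trans ?_
  apply mul_le_mul
  · apply nrm_mono hzD hD
    filter_upwards [hz1] with ω hω
    rw [abs_mul]
    calc |z ω| * |U ω - V ω| ≤ 1 * |U ω - V ω| := mul_le_mul_of_nonneg_right hω (abs_nonneg _)
      _ = _ := one_mul _
  · refine (nrm_sub_le (hU.const_mul 2) hD).trans ?_
    rw [nrm_const_mul]
    simp
  · exact nrm_nonneg _
  · exact nrm_nonneg _

end Pool.MP_cd27db_pr
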