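import Pool.Agent.W_MP_cd27db_pr.Nrm

/-!
# The stationary frame, convergence of the variance, the decomposition theorem
-/

open MeasureTheory ProbabilityTheory Filter Topology
open scoped ENNReal NNReal

namespace Pool.MP_cd27db_pr

variable {Ω : Type*} {m0 : MeasurableSpace Ω}

/-- centered truncated block sum -/
noncomputable def tcen (P : Measure Ω) (A : ℤ → MeasurableSpace Ω) (X : ℤ → Ω → ℝ) (Λ : ℝ)
    (n : ℕ) (k : ℤ) : Ω → ℝ := fun ω =>
  trunc Λ (bS X k n ω) - (P[fun ω => trunc Λ (bS X k n ω) | A k]) ω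

/-- the stationary frame with the two-sided summability conditions -/
structure SFrame (P : Measure Ω) (F A : ℤ → MeasurableSpace Ω) (X : ℤ → Ω → ℝ)
    (e e' : ℕ → ℝ) : Prop extends Frame P F A X where
  e_nonneg : ∀ j, 0 ≤ e j
  e'_nonneg : ∀ j, 0 ≤ e' j
  sum_e : Summable fun j => e j ^ 2
  sum_e' : Summable fun j => e' j * e j
  hg : ∀ j s, ∫ ω, (P[bS X s (2 ^ j) | A s]) ω ^ 2 ∂P ≤ e j ^ 2 * (2 ^ j : ℕ)
  hb : ∀ j (s : ℤ), ∫ ω, (P[bS X s (2 ^ j) | A (s + (2 ^ j : ℕ))]) ω ^ 2 ∂P ≤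
    e' j ^ 2 * (2 ^ j : ℕ)
  law : ∀ s n, P.map (bS X s n) = P.map (bS X 0 n)
  cond2 : ∀ (n : ℕ) (s : ℤ) (c : ℝ), ∫ ω, |(P[fun ω => bS X s n ω ^ 2 | A s]) ω - c| ∂P =
    ∫ ω, |(P[fun ω => bS X 0 n ω ^ 2 | A 0]) ω - c| ∂P
  erg : ∀ Λ : ℝ, 0 ≤ Λ → ∀ n : ℕ, Tendsto (fun N : ℕ => ∫ ω,
    |(∑ k ∈ Finset.range N, (P[fun ω => tcen P A X Λ n k ω ^ 2 | A 0]) ω) / N -
      ∫ ω, tcen P A X Λ n 0 ω ^ 2 ∂P| ∂P) atTop (𝓝 0)

namespace SFrame

variable {P : Measure Ω} [IsProbabilityMeasure P] {F A : ℤ → MeasurableSpace Ω} {X : ℤ → Ω → ℝ}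
  {e e' : ℕ → ℝ}

lemma aesm_bS (h : SFrame P F A X e e') (s : ℤ) (n : ℕ) : AEMeasurable (bS X s n) P :=
  (h.memLp_bS s n).1.aemeasurable

lemma integral_comp_bS (h : SFrame P F A X e e') (s : ℤ) (n : ℕ) {f : ℝ → ℝ}
    (hf : Measurable f) : ∫ ω, f (bS X s n ω) ∂P = ∫ ω, f (bS X 0 n ω) ∂P := by
  rw [← integral_map (h.aesm_bS s n) hf.aestronglyMeasurable, h.law s n,
    integral_map (h.aesm_bS 0 n) hf.aestronglyMeasurable]

lemma integral_bS_sq (h : SFrame P F A X e e') (s : ℤ) (n : ℕ) :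
    ∫ ω, bS X s n ω ^ 2 ∂P = ∫ ω, bS X 0 n ω ^ 2 ∂P :=
  h.integral_comp_bS s n (f := fun x => x ^ 2) (by fun_prop)

lemma nrm_bS (h : SFrame P F A X e e') (s : ℤ) (n : ℕ) :
    nrm P (bS X s n) = nrm P (bS X 0 n) := by
  unfold nrm; rw [h.integral_bS_sq]

end SFrame

lemma trunc_abs_le (Λ x : ℝ) (hΛ : 0 ≤ Λ) : |x - trunc Λ x| ≤ |x| := by
  unfold trunc
  rcases le_total x Λ with h1 | h1
  · rw [min_eq_left h1]
    rcases le_total (-Λ) x with h2 | h2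
    · rw [max_eq_right h2]; simp
    · rw [max_eq_left h2]
      rw [abs_of_nonpos (by linarith), abs_of_nonpos (by linarith)]
      linarith
  · rw [min_eq_right h1, max_eq_right (by linarith)]
    rw [abs_of_nonneg (by linarith), abs_of_nonneg (by linarith)]
    linarith

lemma trunc_eq_self {Λ x : ℝ} (h : |x| ≤ Λ) : trunc Λ x = x := by
  unfold trunc
  have := abs_le.1 h
  rw [min_eq_left this.2, max_eq_right this.1]

namespace SFrame

variable {P : Measure Ω} [IsProbabilityMeasure P] {F A : ℤ → MeasurableSpace Ω} {X : ℤ → Ω → ℝ}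
  {e e' : ℕ → ℝ}

lemma exists_trunc (h : SFrame P F A X e e') (n : ℕ) {δ : ℝ} (hδ : 0 < δ) :
    ∃ Λ : ℝ, 0 ≤ Λ ∧ ∀ s, ∫ ω, (bS X s n ω - trunc Λ (bS X s n ω)) ^ 2 ∂P ≤ δ := by
  have hS := h.memLp_bS 0 n
  have key : Tendsto (fun N : ℕ => ∫ ω, (bS X 0 n ω - trunc N (bS X 0 n ω)) ^ 2 ∂P) atTop
      (𝓝 (∫ _, (0 : ℝ) ∂P)) := by
    apply tendsto_integral_of_dominated_convergence (fun ω => bS X 0 n ω ^ 2)
    · intro N
      exact (hS.1.sub ((continuous_trunc N).comp_aestronglyMeasurable hS.1)).pow 2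
    · exact hS.integrable_sq
    · intro N
      filter_upwards with ω
      rw [Real.norm_eq_abs, abs_pow, ← sq_abs (bS X 0 n ω)]
      exact pow_le_pow_left₀ (abs_nonneg _) (trunc_abs_le _ _ (by positivity)) 2
    · filter_upwards with ω
      obtain ⟨N0, hN0⟩ := exists_nat_ge |bS X 0 n ω|
      apply tendsto_const_nhds.congr'
      filter_upwards [eventually_ge_atTop N0] with N hN
      rw [trunc_eq_self (hN0.trans (by exact_mod_cast hN))]
      simp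
  rw [integral_zero] at key
  obtain ⟨N, hN⟩ := ((tendsto_order.1 key).2 δ hδ).exists
  refine ⟨N, by positivity, fun s => ?_⟩
  have := h.integral_comp_bS s n (f := fun x => (x - trunc N x) ^ 2)
    ((measurable_id.sub (continuous_trunc N).measurable).pow_const 2)
  rw [this]
  exact hN.le

/-- normalized variance along powers of two -/
noncomputable def vv (P : Measure Ω) (X : ℤ → Ω → ℝ) (j : ℕ) : ℝ :=
  (∫ ω, bS X 0 (2 ^ j) ω ^ 2 ∂P) / 2 ^ j

omit [IsProbabilityMeasure P] in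
lemma vv_nonneg (j : ℕ) : 0 ≤ vv P X j := by
  unfold vv
  have : 0 ≤ ∫ ω, bS X 0 (2 ^ j) ω ^ 2 ∂P := integral_nonneg fun ω => sq_nonneg _
  positivity

lemma vv_eq (h : SFrame P F A X e e') (j : ℕ) (s : ℤ) :
    ∫ ω, bS X s (2 ^ j) ω ^ 2 ∂P = vv P X j * 2 ^ j := by
  unfold vv
  rw [h.integral_bS_sq]
  field_simp

lemma abs_cov_le (h : SFrame P F A X e e') (j : ℕ) (s : ℤ) :
    |∫ ω, bS X s (2 ^ j) ω * bS X (s + (2 ^ j : ℕ)) (2 ^ j) ω ∂P| ≤ e' j * e j * 2 ^ j := by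
  set n := 2 ^ j with hn
  set t := s + (n : ℤ) with ht
  have lS := h.memLp_bS s n
  have lT := h.memLp_bS t n
  have lg : MemLp (P[bS X t n | A t]) 2 P := memLp_condExp lT
  have lb : MemLp (P[bS X s n | A t]) 2 P := memLp_condExp lS
  have e1 : ∫ ω, bS X s n ω * bS X t n ω ∂P = ∫ ω, bS X s n ω * (P[bS X t n | A t]) ω ∂P := by
    rw [E_mul_condExp (P := P) (h.F_le t) ((h.sm_bS s n).mono (h.Gs_le_F s n)) (lint lT)
      (iL2 lS lT)]
    apply integral_congr_ae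
    filter_upwards [h.markov t n _ (lint lT) (h.sm_bS t n)] with ω hω
    rw [hω]
  have e2 : ∫ ω, bS X s n ω * (P[bS X t n | A t]) ω ∂P =
      ∫ ω, (P[bS X t n | A t]) ω * (P[bS X s n | A t]) ω ∂P := by
    rw [← E_mul_condExp (P := P) (h.A_le_m0 t) stronglyMeasurable_condExp (lint lS)
      (iL2 lg lS)]
    congr 1; ext ω; ring
  rw [e1, e2]
  refine (abs_int_mul_le lg lb).trans ?_
  have hn0 : (0 : ℝ) ≤ (n : ℝ) := by positivity
  have e0 := h.e_nonneg j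
  have e0' := h.e'_nonneg j
  have c1 : nrm P (P[bS X t n | A t]) ≤ e j * √(n : ℝ) := by
    rw [nrm_le_iff (by positivity), mul_pow, Real.sq_sqrt hn0]
    exact h.hg j t
  have c2 : nrm P (P[bS X s n | A t]) ≤ e' j * √(n : ℝ) := by
    rw [nrm_le_iff (by positivity), mul_pow, Real.sq_sqrt hn0]
    exact h.hb j s
  have hnn : √(n : ℝ) * √(n : ℝ) = n := Real.mul_self_sqrt hn0
  have hnc : (n : ℝ) = 2 ^ j := by rw [hn]; push_cast; ring
  calc nrm P (P[bS X t n | A t]) * nrm P (P[bS X s n | A t]) ≤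
      (e j * √(n : ℝ)) * (e' j * √(n : ℝ)) := mul_le_mul c1 c2 (nrm_nonneg _) (by positivity)
    _ = e' j * e j * (√(n : ℝ) * √(n : ℝ)) := by ring
    _ = _ := by rw [hnn, hnc]

lemma abs_vv_sub_le (h : SFrame P F A X e e') (j : ℕ) :
    |vv P X (j + 1) - vv P X j| ≤ e' j * e j := by
  have h1 := h.abs_cov_le j 0
  have lS := h.memLp_bS 0 (2 ^ j)
  have lT := h.memLp_bS (0 + (2 ^ j : ℕ)) (2 ^ j)
  have e1 : ∫ ω, bS X 0 (2 ^ (j + 1)) ω ^ 2 ∂P = ∫ ω, bS X 0 (2 ^ j) ω ^ 2 ∂P +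
      ∫ ω, bS X (0 + (2 ^ j : ℕ)) (2 ^ j) ω ^ 2 ∂P +
      2 * ∫ ω, bS X 0 (2 ^ j) ω * bS X (0 + (2 ^ j : ℕ)) (2 ^ j) ω ∂P := by
    have e : ∀ ω, bS X 0 (2 ^ (j + 1)) ω ^ 2 = bS X 0 (2 ^ j) ω ^ 2 +
        bS X (0 + (2 ^ j : ℕ)) (2 ^ j) ω ^ 2 +
        2 * (bS X 0 (2 ^ j) ω * bS X (0 + (2 ^ j : ℕ)) (2 ^ j) ω) := by
      intro ω
      have e0 : (2 : ℕ) ^ (j + 1) = 2 ^ j + 2 ^ j := by ring
      rw [e0, Frame.bS_add]; ring
    simp_rw [e]
    rw [E_add (iadd lS.integrable_sq lT.integrable_sq) (icm _ (iL2 lS lT)),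
      E_add lS.integrable_sq lT.integrable_sq, integral_const_mul]
  rw [h.vv_eq, h.vv_eq, h.vv_eq] at e1
  set c := ∫ ω, bS X 0 (2 ^ j) ω * bS X (0 + (2 ^ j : ℕ)) (2 ^ j) ω ∂P with hc
  have h2 : (0 : ℝ) < 2 ^ j := by positivity
  have e2 : vv P X (j + 1) - vv P X j = c / 2 ^ j := by
    rw [eq_div_iff h2.ne']
    rw [pow_succ] at e1
    linarith
  rw [e2, abs_div, abs_of_pos h2, div_le_iff₀ h2]
  exact h1

/-- the variance converges -/
lemma exists_sigma (h : SFrame P F A X e e') :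
    ∃ σ : ℝ, 0 ≤ σ ∧ Tendsto (vv P X) atTop (𝓝 σ) := by
  have hc : CauchySeq (vv P X) := by
    apply cauchySeq_of_summable_dist
    refine Summable.of_nonneg_of_le (fun _ => dist_nonneg) (fun j => ?_) h.sum_e'
    rw [dist_comm, Real.dist_eq]
    exact h.abs_vv_sub_le j
  obtain ⟨σ, hσ⟩ := cauchySeq_tendsto_of_complete hc
  exact ⟨σ, ge_of_tendsto' hσ fun j => vv_nonneg j, hσ⟩

lemma heavy_zero_le (h : SFrame P F A X e e') {Λ : ℝ} (hΛ : 0 ≤ Λ) (ρ : ℝ) (J0 : ℕ) (s : ℤ) :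
    ∫ ω, heavy P A X ρ Λ J0 0 s ω ^ 2 ∂P ≤
      ∫ ω, (bS X s (len J0 0) ω - trunc Λ (bS X s (len J0 0) ω)) ^ 2 ∂P := by
  have lS := h.memLp_bS s (len J0 0)
  have bT : Bdd P (Gs A s (len J0 0)) (fun ω => trunc Λ (bS X s (len J0 0) ω)) :=
    ⟨(continuous_trunc Λ).comp_stronglyMeasurable (h.sm_bS s _), Λ, by
      filter_upwards with ω using abs_trunc_le hΛ _⟩
  have lT := bT.memLp (h.Gs_le_m0 _ _) 2
  have lD := lsub lS lT
  refine le_trans (le_of_eq ?_) (integral_sq_sub_condExp_le (h.A_le_m0 s) lD)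
  apply integral_congr_ae
  have e1 := condExp_sub (μ := P) (lint lS) (lint lT) (A s)
  filter_upwards [e1] with ω hω
  have e2 : (P[fun ω => bS X s (len J0 0) ω - trunc Λ (bS X s (len J0 0) ω) | A s]) ω =
    (P[bS X s (len J0 0) - fun ω => trunc Λ (bS X s (len J0 0) ω) | A s]) ω := rfl
  have e3 : light P A X ρ Λ J0 0 s ω = trunc Λ (bS X s (len J0 0) ω) -
      (P[fun ω => trunc Λ (bS X s (len J0 0) ω) | A s]) ω := rfl
  unfold heavy
  rw [e2, hω, Pi.sub_apply, e3]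
  ring

/-- The decomposition theorem: the parameters. -/
theorem decomposition (h : SFrame P F A X e e') {σ : ℝ} (hσ : Tendsto (vv P X) atTop (𝓝 σ))
    {δ : ℝ} (hδ : 0 < δ) :
    ∃ (J0 : ℕ) (Λ K : ℝ), 0 ≤ Λ ∧ 0 ≤ K ∧
      (∀ r s, ∫ ω, heavy P A X (1 / 200) Λ J0 r s ω ^ 2 ∂P ≤ δ * len J0 r) ∧
      (∀ r s, ∫ ω, light P A X (1 / 200) Λ J0 r s ω ^ 4 ∂P ≤ (K * len J0 r) ^ 2) ∧
      (∀ j, J0 ≤ j → e j ^ 2 ≤ δ) ∧ (∀ j, J0 ≤ j → |vv P X j - σ| ≤ δ) := by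
  have hsum : Summable fun j => e' j * e j + 202 * e j ^ 2 := h.sum_e'.add (h.sum_e.mul_left 202)
  have htail := tendsto_sum_nat_add (f := fun j => e' j * e j + 202 * e j ^ 2)
  have h1 : ∀ᶠ i in atTop, ∑' k, (e' (k + i) * e (k + i) + 202 * e (k + i) ^ 2) < δ / 2 :=
    (tendsto_order.1 htail).2 _ (by positivity)
  have h2 : ∀ᶠ i in atTop, e i ^ 2 < δ :=
    (tendsto_order.1 h.sum_e.tendsto_atTop_zero).2 _ hδ
  have h3 : ∀ᶠ i in atTop, |vv P X i - σ| < δ := by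
    have := (Metric.tendsto_nhds.1 hσ) δ hδ
    simpa [Real.dist_eq] using this
  obtain ⟨J1, hJ1⟩ := eventually_atTop.1 h1
  obtain ⟨J2, hJ2⟩ := eventually_atTop.1 h2
  obtain ⟨J3, hJ3⟩ := eventually_atTop.1 h3
  set J0 := max J1 (max J2 J3) with hJ0
  have hlen0 : (0 : ℝ) < len J0 0 := by exact_mod_cast len_pos J0 0
  obtain ⟨Λ, hΛ, hΛ2⟩ := h.exists_trunc (len J0 0) (δ := δ / 2 * len J0 0) (by positivity)
  have hHbase : ∀ s, ∫ ω, heavy P A X (1 / 200) Λ J0 0 s ω ^ 2 ∂P ≤ δ / 2 * len J0 0 :=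
    fun s => (h.heavy_zero_le hΛ _ _ s).trans (hΛ2 s)
  have hH := heavy_energy (J0 := J0) h.toFrame hΛ h.e_nonneg h.e'_nonneg h.hg h.hb hHbase
  set K := 80 * Λ ^ 2 / len J0 0 with hK
  have hK0 : 0 ≤ K := by positivity
  have hLbase : ∀ s, ∫ ω, light P A X (1 / 200) Λ J0 0 s ω ^ 4 ∂P ≤ (K / 20 * len J0 0) ^ 2 := by
    intro s
    have e1 : K / 20 * len J0 0 = 4 * Λ ^ 2 := by rw [hK]; field_simp; ring
    rw [e1]
    have bT : Bdd P (Gs A s (len J0 0)) (fun ω => trunc Λ (bS X s (len J0 0) ω)) :=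
      ⟨(continuous_trunc Λ).comp_stronglyMeasurable (h.sm_bS s _), Λ, by
        filter_upwards with ω using abs_trunc_le hΛ _⟩
    have hc : ∀ᵐ ω ∂P, |(P[fun ω => trunc Λ (bS X s (len J0 0) ω) | A s]) ω| ≤ Λ :=
      ae_bdd_abs_condExp_of_ae_bdd_abs (by filter_upwards with ω using abs_trunc_le hΛ _)
    have hb : ∀ᵐ ω ∂P, light P A X (1 / 200) Λ J0 0 s ω ^ 4 ≤ (2 * Λ) ^ 4 := by
      filter_upwards [hc] with ω hω
      have h5 : |light P A X (1 / 200) Λ J0 0 s ω| ≤ 2 * Λ := by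
        have e3 : light P A X (1 / 200) Λ J0 0 s ω = trunc Λ (bS X s (len J0 0) ω) -
          (P[fun ω => trunc Λ (bS X s (len J0 0) ω) | A s]) ω := rfl
        rw [e3]
        refine (abs_sub _ _).trans ?_
        have := abs_trunc_le hΛ (bS X s (len J0 0) ω)
        linarith
      calc light P A X (1 / 200) Λ J0 0 s ω ^ 4 = |light P A X (1 / 200) Λ J0 0 s ω| ^ 4 := by
            rw [← abs_pow, abs_of_nonneg (by positivity)]
        _ ≤ (2 * Λ) ^ 4 := pow_le_pow_left₀ (abs_nonneg _) h5 4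
    have h6 := integral_mono_ae
      (((bdd_light (ρ := 1 / 200) (J0 := J0) h.toFrame hΛ 0 s).pow 4).integrable
        (h.Gs_le_m0 _ _)) (integrable_const ((2 * Λ) ^ 4)) hb
    rw [integral_const] at h6
    simp only [probReal_univ, smul_eq_mul, one_mul] at h6
    refine h6.trans (le_of_eq ?_)
    ring
  refine ⟨J0, Λ, K, hΛ, hK0, ?_, light_pow4_le h.toFrame hΛ hK0 hLbase, ?_, ?_⟩
  · intro r s
    refine (hH r s).trans ?_
    apply mul_le_mul_of_nonneg_right _ (by positivity)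
    have h7 : ∑ i ∈ Finset.range r, (e' (J0 + i) * e (J0 + i) + 202 * e (J0 + i) ^ 2) ≤
        ∑' k, (e' (k + J0) * e (k + J0) + 202 * e (k + J0) ^ 2) := by
      have hs2 : Summable fun k => e' (k + J0) * e (k + J0) + 202 * e (k + J0) ^ 2 :=
        (summable_nat_add_iff J0).2 hsum
      have := hs2.sum_le_tsum (Finset.range r) (fun i _ => by
        have := h.e_nonneg (i + J0)
        have := h.e'_nonneg (i + J0)
        positivity)
      simpa only [add_comm] using this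
    have h8 := hJ1 J0 (le_max_left _ _)
    linarith
  · intro j hj
    exact (hJ2 j (by omega)).le
  · intro j hj
    exact (hJ3 j (by omega)).le

end SFrame

end Pool.MP_cd27db_pr
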